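import Pool.Agent.Lib.MP_135d84_al.BA.SpecB

/-!
# C4: graphs without 4-cycles have good orientations
-/

set_option autoImplicit false

namespace BA

namespace C4M

variable {V : Type} [LinearOrder V] (M : CoxeterMatrix V)

/-- cyclic order -/
def cy (s t u : V) : Prop := (s < t ∧ t < u) ∨ (t < u ∧ u < s) ∨ (u < s ∧ s < t)

/-- direction of an edge with label at least 3 -/
def P (s t : V) : Prop :=
  (∃ u, M s u = 2 ∧ 2 ≤ M t u) ∨
    (¬ (∃ u, 2 ≤ M s u ∧ M t u = 2) ∧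
      ((∃ u, 2 ≤ M s u ∧ 2 ≤ M t u ∧ cy s t u) ∨
        ((¬ ∃ u, 2 ≤ M s u ∧ 2 ≤ M t u) ∧ s < t)))

/-- the orientation -/
def arr (s t : V) : Prop := M s t = 2 ∨ (3 ≤ M s t ∧ P M s t)

theorem ne_of {s t : V} (h : 2 ≤ M s t) : s ≠ t := by
  rintro rfl
  rw [M.diagonal] at h
  omega

theorem cy_rot {s t u : V} : cy s t u → cy t u s := by
  unfold cy
  rintro (⟨h1, h2⟩ | ⟨h1, h2⟩ | ⟨h1, h2⟩)
  · exact Or.inr (Or.inr ⟨h1, h2⟩)
  · exact Or.inl ⟨h1, h2⟩
  · exact Or.inr (Or.inl ⟨h1, h2⟩)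

theorem cy_total {s t u : V} (h1 : s ≠ t) (h2 : t ≠ u) (h3 : u ≠ s) : cy s t u ∨ cy t s u := by
  unfold cy
  rcases lt_or_gt_of_ne h1 with a | a <;> rcases lt_or_gt_of_ne h2 with b | b <;>
    rcases lt_or_gt_of_ne h3 with c | c
  · exact Or.inl (Or.inl ⟨a, b⟩)
  · exact Or.inl (Or.inl ⟨a, b⟩)
  · exact Or.inl (Or.inr (Or.inr ⟨c, a⟩))
  · exact Or.inr (Or.inr (Or.inl ⟨c, b⟩))
  · exact Or.inl (Or.inr (Or.inl ⟨b, c⟩))
  · exact Or.inr (Or.inl ⟨a, c⟩)
  · exact Or.inr (Or.inr (Or.inr ⟨b, a⟩))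
  · exact Or.inr (Or.inr (Or.inr ⟨b, a⟩))

theorem cy_asym {s t u : V} (h : cy s t u) (h' : cy t s u) : False := by
  unfold cy at h h'
  rcases h with ⟨h1, h2⟩ | ⟨h1, h2⟩ | ⟨h1, h2⟩ <;> rcases h' with ⟨k1, k2⟩ | ⟨k1, k2⟩ | ⟨k1, k2⟩
  · exact lt_asymm h1 k1
  · exact lt_asymm h2 k2
  · exact lt_asymm h1 k2
  · exact lt_asymm h2 k2
  · exact lt_asymm h1 k2
  · exact lt_asymm h1 k1
  · exact lt_asymm h2 k1
  · exact lt_asymm h1 k1
  · exact lt_asymm h2 k2

end C4M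

open C4M in
theorem specC4 : SpecC4 := by
  intro V _ M hC hT
  have hT' : ∀ a b c, M a c = 2 → 2 ≤ M a b → 2 ≤ M c b → 3 ≤ M a b ∧ 3 ≤ M c b := by
    intro a b c h1 h2 h3
    have h := hT a b c h1 h2 h3
    constructor
    · by_contra h4
      have h5 : M a b = 2 := by omega
      rw [h5] at h
      omega
    · by_contra h4
      have h5 : M c b = 2 := by omega
      rw [h5] at h
      omega
  have uniq : ∀ s t u u', 2 ≤ M s t → 2 ≤ M s u → 2 ≤ M t u → 2 ≤ M s u' → 2 ≤ M t u' → u = u' := by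
    intro s t u u' h h1 h2 h3 h4
    by_contra hne
    exact hC s t u u' (ne_of M h) hne h1 h3 h2 h4
  have adj : ∀ s t, arr M s t → 2 ≤ M s t := by
    rintro s t (h | ⟨h, -⟩)
    · omega
    · omega
  -- the direction in the triangles without label 2
  have tri : ∀ s t u, 3 ≤ M s t → 3 ≤ M s u → 3 ≤ M t u → (P M s t ↔ cy s t u) := by
    intro s t u h1 h2 h3
    have hu : ∀ w, 2 ≤ M s w → 2 ≤ M t w → w = u := fun w h4 h5 =>
      uniq s t w u (by omega) h4 h5 (by omega) (by omega)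
    constructor
    · rintro (⟨w, h4, h5⟩ | ⟨-, ⟨w, h4, h5, h6⟩ | ⟨h4, -⟩⟩)
      · have := hu w (by omega) h5
        subst this
        omega
      · rwa [hu w h4 h5] at h6
      · exact absurd ⟨u, by omega, by omega⟩ h4
    · intro h
      refine Or.inr ⟨?_, Or.inl ⟨u, by omega, by omega, h⟩⟩
      rintro ⟨w, h4, h5⟩
      have := hu w h4 (by omega)
      subst this
      omega
  have tot : ∀ s t, 3 ≤ M s t → P M s t ∨ P M t s := by
    intro s t h
    have hs : M t s = M s t := M.symmetric t s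
    by_cases h1 : ∃ u, 2 ≤ M s u ∧ 2 ≤ M t u
    · obtain ⟨u, h2, h3⟩ := h1
      by_cases h4 : M s u = 2
      · exact Or.inl (Or.inl ⟨u, h4, h3⟩)
      · by_cases h5 : M t u = 2
        · exact Or.inr (Or.inl ⟨u, h5, h2⟩)
        · rw [tri s t u h (by omega) (by omega), tri t s u (by omega) (by omega) (by omega)]
          exact cy_total (ne_of M (by omega)) (ne_of M h3)
            (ne_of M (by rw [M.symmetric]; exact h2))
    · have h2 : ¬ ∃ u, 2 ≤ M t u ∧ 2 ≤ M s u := fun ⟨u, h3, h4⟩ => h1 ⟨u, h4, h3⟩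
      rcases lt_or_gt_of_ne (ne_of M (show 2 ≤ M s t by omega)) with h3 | h3
      · exact Or.inl (Or.inr ⟨fun ⟨u, h4, h5⟩ => h1 ⟨u, h4, by omega⟩, Or.inr ⟨h1, h3⟩⟩)
      · exact Or.inr (Or.inr ⟨fun ⟨u, h4, h5⟩ => h2 ⟨u, h4, by omega⟩, Or.inr ⟨h2, h3⟩⟩)
  have asym : ∀ s t, 3 ≤ M s t → P M s t → P M t s → False := by
    intro s t h p q
    have hs : M t s = M s t := M.symmetric t s
    by_cases h1 : ∃ u, 2 ≤ M s u ∧ 2 ≤ M t u
    · obtain ⟨u, h2, h3⟩ := h1
      have hu : ∀ w, 2 ≤ M s w → 2 ≤ M t w → w = u := fun w h4 h5 =>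
        uniq s t w u (by omega) h4 h5 h2 h3
      have hus : M u t = M t u := M.symmetric u t
      have hus' : M u s = M s u := M.symmetric u s
      by_cases h4 : M s u = 2
      · have h5 := hT' s t u h4 (by omega) (by omega)
        rcases q with ⟨w, h6, h7⟩ | ⟨h6, -⟩
        · have := hu w h7 (by omega)
          subst this
          omega
        · exact h6 ⟨u, h3, h4⟩
      · by_cases h5 : M t u = 2
        · have h5' := hT' t s u h5 (by omega) (by omega)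
          rcases p with ⟨w, h6, h7⟩ | ⟨h6, -⟩
          · have := hu w (by omega) h7
            subst this
            omega
          · exact h6 ⟨u, h2, h5⟩
        · rw [tri s t u h (by omega) (by omega)] at p
          rw [tri t s u (by omega) (by omega) (by omega)] at q
          exact cy_asym p q
    · have h2 : ¬ ∃ u, 2 ≤ M t u ∧ 2 ≤ M s u := fun ⟨u, h3, h4⟩ => h1 ⟨u, h4, h3⟩
      rcases p with ⟨w, h6, h7⟩ | ⟨-, ⟨w, h6, h7, -⟩ | ⟨-, p⟩⟩
      · exact h1 ⟨w, by omega, h7⟩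
      · exact h1 ⟨w, h6, h7⟩
      · rcases q with ⟨w, h6, h7⟩ | ⟨-, ⟨w, h6, h7, -⟩ | ⟨-, q⟩⟩
        · exact h2 ⟨w, by omega, h7⟩
        · exact h2 ⟨w, h6, h7⟩
        · exact lt_asymm p q
  refine ⟨arr M, ?_⟩
  constructor
  · exact adj
  · intro s t h
    exact Or.inl h
  · intro s t h
    have hs : M t s = M s t := M.symmetric t s
    rcases tot s t h with h1 | h1
    · exact Or.inl (Or.inr ⟨h, h1⟩)
    · exact Or.inr (Or.inr ⟨by omega, h1⟩)
  · rintro s t h ⟨h1 | ⟨-, h1⟩, h2 | ⟨-, h2⟩⟩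
    · omega
    · omega
    · have hs : M t s = M s t := M.symmetric t s
      omega
    · exact asym s t h h1 h2
  · intro a b c h1 h2 h3 h4
    have e1 : M a c = M c a := M.symmetric a c
    have e2 : M b a = M a b := M.symmetric b a
    have e3 : M c b = M b c := M.symmetric c b
    rcases h4 with h4 | ⟨-, h4⟩
    · omega
    · rw [tri a b c h1 (by omega) h2] at h4
      refine Or.inr ⟨h2, ?_⟩
      rw [tri b c a h2 (by omega) (by omega)]
      exact cy_rot h4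
  · intro a b c h1 h2 h3
    obtain ⟨h4, h5⟩ := hT' a b c h1 h2 h3
    have e1 : M c a = M a c := M.symmetric c a
    have e2 : M b a = M a b := M.symmetric b a
    have e3 : M b c = M c b := M.symmetric b c
    refine ⟨Or.inr ⟨h4, Or.inl ⟨c, h1, by omega⟩⟩, Or.inr ⟨h5, Or.inl ⟨a, by omega, by omega⟩⟩,
      hT a b c h1 h2 h3⟩
  · intro a b u v h1 h2 h3 h4
    by_contra h
    push Not at h
    exact hC a b u v h.1 h.2 (adj _ _ h1) (adj _ _ h2) (adj _ _ h3) (adj _ _ h4)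

end BA
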