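import Pool.Agent.Lib.MP_135d84_al.BA.SpecB

/-! # RTC: the Artin relations imply all relators of a triangle piece -/

set_option autoImplicit false

namespace BA

namespace RTCM

variable {H : Type} [Group H]

theorem xq_mul (a b : H) (i : ℕ) : xq a b i * xq a b (i + 1) = a * b := by
  change xq a b i * ((xq a b i)⁻¹ * (a * b)) = a * b
  group

theorem stdT_pos (a b c : H) (i : ℕ) : stdT a b c ((i : ℤ) + 1) = xq a b i := by
  unfold stdT
  rw [if_pos (by omega)]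
  congr 1
  omega

theorem stdT_neg (a b c : H) (j : ℕ) : stdT a b c (-(j : ℤ) - 1) = xq c b j := by
  unfold stdT
  rw [if_neg (by omega)]
  congr 1
  omega

/-- the value of a relator -/
def val (a b c : H) (s k t l u r : ℤ) : H :=
  stdT a b c s * (a * c * b) ^ k * stdT a b c t * (a * c * b) ^ l * stdT a b c u * (a * c * b) ^ r

theorem val_rot (a b c : H) (s k t l u r : ℤ) (h : val a b c t l u r s k = 1) :
    val a b c s k t l u r = 1 := by
  have h1 : (stdT a b c t * (a * c * b) ^ l * stdT a b c u * (a * c * b) ^ r) *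
      (stdT a b c s * (a * c * b) ^ k) = 1 := by
    rw [← h]; unfold val; group
  have h2 := mul_eq_one_comm.1 h1
  rw [← h2]; unfold val; group

/-- relators without powers of δ in the middle, positive codes -/
theorem rel_x (a b c : H) (hac : a * c = c * a) (i : ℕ) :
    c * xq a b i * xq a b (i + 1) = a * c * b := by
  rw [mul_assoc, xq_mul, ← mul_assoc, hac]

theorem rel_y (a b c : H) (i : ℕ) :
    a * xq c b i * xq c b (i + 1) = a * c * b := by
  rw [mul_assoc, xq_mul, ← mul_assoc]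

/-- all the facts about one triangle -/
structure Tri (a b c d : H) (m n : ℕ) : Prop where
  hac : a * c = c * a
  hd : d = a * c * b
  xm : xq a b m = a
  yn : xq c b n = c

variable {a b c d : H} {m n : ℕ}

theorem Tri.hd' (h : Tri a b c d m n) : d = c * a * b := by rw [h.hd, h.hac]

theorem Tri.x_last (h : Tri a b c d m n) {i : ℕ} (hi : i + 1 = m) : xq a b i = a * b * a⁻¹ := by
  have h1 := xq_mul a b i
  rw [hi, h.xm] at h1
  rw [← h1]; group

theorem Tri.y_last (h : Tri a b c d m n) {i : ℕ} (hi : i + 1 = n) : xq c b i = c * b * c⁻¹ := by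
  have h1 := xq_mul c b i
  rw [hi, h.yn] at h1
  rw [← h1]; group

theorem xq_three (a b : H) (h1 : xq a b 1 = b) : xq a b 3 = (a * b)⁻¹ * b * (a * b) := by
  change (xq a b 2)⁻¹ * (a * b) = _
  change ((xq a b 1)⁻¹ * (a * b))⁻¹ * (a * b) = _
  rw [h1]
  group

theorem Tri.x4 (h : Tri a b c d m n) (hb : xq a b 1 = b) {i : ℕ} (hi : i + 1 = n) :
    xq a b 3 = d⁻¹ * xq c b i * d := by
  rw [xq_three a b hb, h.y_last hi, h.hd']
  group

theorem Tri.y4 (h : Tri a b c d m n) (hb : xq c b 1 = b) {i : ℕ} (hi : i + 1 = m) :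
    xq c b 3 = d⁻¹ * xq a b i * d := by
  rw [xq_three c b hb, h.x_last hi, h.hd]
  group

theorem Tri.x3 (h : Tri a b c d m n) (hb : xq a b 1 = b) : xq a b 2 = d⁻¹ * a * d := by
  change (xq a b 1)⁻¹ * (a * b) = _
  rw [hb, h.hd']
  have h1 : c⁻¹ * a * c = a := by
    rw [mul_assoc, h.hac]; group
  calc b⁻¹ * (a * b) = b⁻¹ * a⁻¹ * a * a * b := by group
    _ = b⁻¹ * a⁻¹ * (c⁻¹ * a * c) * a * b := by rw [h1]
    _ = _ := by group

theorem Tri.relx (h : Tri a b c d m n) (i : ℕ) : c * xq a b i * xq a b (i + 1) = d := by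
  rw [h.hd]; exact rel_x a b c h.hac i

theorem Tri.rely (h : Tri a b c d m n) (i : ℕ) : a * xq c b i * xq c b (i + 1) = d := by
  rw [h.hd]; exact rel_y a b c i

end RTCM

open RTCM in
theorem specRTC (hALT : SpecALT) : SpecRTC := by
  intro H _ m n hOK a b c hac hm hn
  -- reduction to the base relators
  suffices hbase : ∀ s k t l u r : ℤ, baseT m n s k t l u r → val a b c s k t l u r = 1 by
    intro s k t l u r h
    change val a b c s k t l u r = 1
    rcases h with h | h | h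
    · exact hbase _ _ _ _ _ _ h
    · exact val_rot _ _ _ _ _ _ _ _ _ (hbase _ _ _ _ _ _ h)
    · exact val_rot _ _ _ _ _ _ _ _ _ (val_rot _ _ _ _ _ _ _ _ _ (hbase _ _ _ _ _ _ h))
  obtain ⟨hb1, hx2, hxm⟩ := hALT a b
  obtain ⟨hb2, hy2, hyn⟩ := hALT c b
  set d := a * c * b with hd
  have T : Tri a b c d m n := ⟨hac, hd, (hxm m).1 hm, (hyn n).1 hn⟩
  have v1 : stdT a b c 1 = a := stdT_pos a b c 0
  have v2 : stdT a b c 2 = b := (stdT_pos a b c 1).trans hb1
  have vm1 : stdT a b c (-1) = c := stdT_neg a b c 0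
  have vm5 : stdT a b c (-5) = xq c b 4 := stdT_neg a b c 4
  have v5 : stdT a b c 5 = xq a b 4 := stdT_pos a b c 4
  obtain ⟨n', hn'⟩ : ∃ n' : ℕ, n' + 1 = n := ⟨n - 1, by rcases hOK with h | h | h <;> omega⟩
  have vn : stdT a b c (-(n : ℤ)) = xq c b n' := by
    rw [← stdT_neg a b c n']
    congr 1
    omega
  have hvn : c * d⁻¹ * a * xq c b n' = 1 := by
    rw [T.y_last hn', T.hd]
    group
  have hpos : ∀ t : ℤ, 1 ≤ t → c * stdT a b c t * stdT a b c (t + 1) = d := by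
    intro t ht
    obtain ⟨i, rfl⟩ : ∃ i : ℕ, t = (i : ℤ) + 1 := ⟨(t - 1).toNat, by omega⟩
    rw [stdT_pos, show ((i : ℤ) + 1 + 1) = ((i + 1 : ℕ) : ℤ) + 1 by push_cast; ring, stdT_pos]
    exact T.relx i
  have hneg : ∀ t : ℤ, t ≤ -1 → a * stdT a b c t * stdT a b c (t - 1) = d := by
    intro t ht
    obtain ⟨i, rfl⟩ : ∃ i : ℕ, t = -(i : ℤ) - 1 := ⟨(-t - 1).toNat, by omega⟩
    rw [stdT_neg, show (-(i : ℤ) - 1 - 1) = -((i + 1 : ℕ) : ℤ) - 1 by push_cast; ring, stdT_neg]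
    exact T.rely i
  have z2 : d ^ (2 : ℤ) = d * d := zpow_two d
  have zm2 : d ^ (-2 : ℤ) = d⁻¹ * d⁻¹ := by rw [zpow_neg, z2, mul_inv_rev]
  have zm3 : d ^ (-3 : ℤ) = d⁻¹ * d⁻¹ * d⁻¹ := by
    rw [show (-3 : ℤ) = -2 + -1 by norm_num, zpow_add, zm2, zpow_neg_one]
  intro s k t l u r h
  unfold val
  rw [← hd]
  rcases h with ⟨h3, h⟩ | ⟨h4, h⟩ | ⟨h5, h⟩
  · -- m = 3
    subst h3
    have hy4 : xq c b 3 = d⁻¹ * (d⁻¹ * a * d) * d := by
      rw [← T.x3 hb1]
      exact T.y4 hb2 rfl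
    have hx4 : xq a b 3 = a := T.xm
    have hyn' : xq c b n' = d * a * d⁻¹ := by
      have := T.x4 hb1 hn'
      rw [hx4] at this
      rw [this]; group
    rcases h with ⟨rfl, rfl, rfl, rfl, rfl, rfl⟩ | ⟨rfl, rfl, rfl, rfl, rfl, rfl⟩ |
      ⟨rfl, rfl, rfl, rfl, rfl, rfl⟩ | ⟨rfl, rfl, rfl, rfl, rfl, rfl⟩ |
      ⟨rfl, rfl, rfl, rfl, rfl, rfl⟩ | ⟨rfl, rfl, ht1, ht2, rfl, rfl, rfl⟩
    · rw [v1, v2, vm1, zpow_zero, zpow_neg_one, hd]; group
    · rw [v1, v2, vm1, zpow_zero, zpow_neg_one, T.hd']; group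
    · rw [v1, vm1, zpow_one, zpow_neg_one]
      have := T.relx 2
      rw [T.x3 hb1, hx4] at this
      calc c * d⁻¹ * a * d * a * d⁻¹ = (c * (d⁻¹ * a * d) * a) * d⁻¹ := by group
        _ = 1 := by rw [this]; group
    · rw [v1, vm5]
      have := T.rely 3
      rw [hy4] at this
      rw [z2, zm2, zpow_neg_one]
      calc a * (d⁻¹ * d⁻¹) * a * (d * d) * xq c b 4 * d⁻¹
          = (a * (d⁻¹ * (d⁻¹ * a * d) * d) * xq c b (3 + 1)) * d⁻¹ := by
            simp only [mul_assoc]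
        _ = 1 := by rw [this]; group
    · -- y_(n-1) = d^2 y_5 d^-2
      obtain ⟨n2, hn2⟩ : ∃ n2 : ℕ, n2 + 2 = n' := ⟨n' - 2, by
        rcases hOK with h | h | h <;> omega⟩
      have e1 : stdT a b c (-(n : ℤ) + 2) = xq c b n2 := by
        rw [← stdT_neg a b c n2]
        congr 1
        omega
      rw [v1, vm5, e1, zpow_zero]
      have h1 := T.rely n2
      have h2 := T.rely (n2 + 1)
      rw [show n2 + 1 + 1 = n' by omega, hyn'] at h2
      have h3 := T.rely 3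
      rw [hy4] at h3
      -- y_(n-1) = a⁻¹ d d a⁻¹ d⁻¹
      have h4 : xq c b (n2 + 1) = a⁻¹ * d * (d * a * d⁻¹)⁻¹ := by
        calc xq c b (n2 + 1) = a⁻¹ * (a * xq c b (n2 + 1) * (d * a * d⁻¹)) * (d * a * d⁻¹)⁻¹ := by
              group
          _ = _ := by rw [h2]
      have h5 : xq c b (3 + 1) = (a * (d⁻¹ * (d⁻¹ * a * d) * d))⁻¹ * d := by
        calc xq c b (3 + 1) = (a * (d⁻¹ * (d⁻¹ * a * d) * d))⁻¹ *
              (a * (d⁻¹ * (d⁻¹ * a * d) * d) * xq c b (3 + 1)) := by group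
          _ = _ := by rw [h3]
      have h6 : d ^ (2 : ℤ) * xq c b (3 + 1) * d ^ (-2 : ℤ) = xq c b (n2 + 1) := by
        rw [h4, h5, z2, zm2]
        simp only [mul_assoc, mul_inv_rev, inv_inv, mul_inv_cancel, inv_mul_cancel_left,
          mul_inv_cancel_left, mul_one]
      calc a * 1 * xq c b n2 * d ^ (2 : ℤ) * xq c b 4 * d ^ (-3 : ℤ)
          = (a * xq c b n2 * (d ^ (2 : ℤ) * xq c b (3 + 1) * d ^ (-2 : ℤ))) * d⁻¹ := by
            rw [show (3 + 1 : ℕ) = 4 from rfl, z2, zm2, zm3]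
            simp only [mul_assoc, one_mul]
        _ = 1 := by rw [h6, h1]; group
    · have := hneg t (by omega)
      rw [v1, zpow_zero, mul_one, mul_one, this]
      group
  · -- m = 4
    subst h4
    have hx4 := T.x4 hb1 hn'
    have hy4 := T.y4 hb2 (i := 3) rfl
    rcases h with ⟨rfl, rfl, rfl, rfl, rfl, rfl⟩ | ⟨rfl, rfl, rfl, rfl, rfl, rfl⟩ |
      ⟨rfl, rfl, rfl, rfl, rfl, rfl⟩ | ⟨rfl, rfl, rfl, rfl, rfl, rfl⟩ |
      ⟨rfl, rfl, rfl, rfl, rfl, rfl⟩ | ⟨rfl, rfl, ht1, ht2, rfl, rfl, rfl⟩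
    · rw [v1, v2, vm1, zpow_zero, zpow_neg_one, hd]; group
    · rw [v1, v2, vm1, zpow_zero, zpow_neg_one, T.hd']; group
    · rw [v1, vm1, vn, zpow_zero, zpow_neg_one, mul_one, mul_one, hvn]
    · rw [v1, vm1, vn, zpow_one, zpow_neg_one]
      have := T.relx 3
      rw [hx4, T.xm] at this
      calc c * d⁻¹ * xq c b n' * d * a * d⁻¹ = (c * (d⁻¹ * xq c b n' * d) * a) * d⁻¹ := by group
        _ = 1 := by rw [this]; group
    · rw [v1, vm5, vn]
      have := T.rely 3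
      rw [hy4, hx4] at this
      rw [z2, zm2, zpow_neg_one]
      calc a * (d⁻¹ * d⁻¹) * xq c b n' * (d * d) * xq c b 4 * d⁻¹
          = (a * (d⁻¹ * (d⁻¹ * xq c b n' * d) * d) * xq c b (3 + 1)) * d⁻¹ := by
            simp only [mul_assoc]
        _ = 1 := by rw [this]; group
    · have := hneg t (by omega)
      rw [v1, zpow_zero, mul_one, mul_one, this]
      group
  · -- m ≥ 5
    obtain ⟨m', hm'⟩ : ∃ m' : ℕ, m' + 1 = m := ⟨m - 1, by omega⟩
    have vm : stdT a b c (m : ℤ) = xq a b m' := by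
      rw [← stdT_pos a b c m']
      congr 1
      omega
    have hx4 := T.x4 hb1 hn'
    have hy4 := T.y4 hb2 hm'
    rcases h with ⟨rfl, rfl, rfl, rfl, rfl, rfl⟩ | ⟨rfl, rfl, rfl, rfl, rfl, rfl⟩ |
      ⟨rfl, rfl, rfl, rfl, rfl, rfl⟩ | ⟨rfl, rfl, rfl, rfl, rfl, rfl⟩ |
      ⟨rfl, rfl, ht1, ht2, rfl, rfl, rfl⟩ | ⟨rfl, rfl, rfl, rfl, rfl, rfl⟩ |
      ⟨rfl, rfl, rfl, rfl, rfl, rfl⟩ | ⟨rfl, rfl, ht1, ht2, rfl, rfl, rfl⟩
    · rw [v1, v2, vm1, zpow_zero, zpow_neg_one, hd]; group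
    · rw [v1, v2, vm1, zpow_zero, zpow_neg_one, T.hd']; group
    · rw [v1, vm1, vn, zpow_zero, zpow_neg_one, mul_one, mul_one, hvn]
    · rw [v5, vm1, vn, zpow_one, zpow_neg_one]
      have := T.relx 3
      rw [hx4] at this
      calc c * d⁻¹ * xq c b n' * d * xq a b 4 * d⁻¹
          = (c * (d⁻¹ * xq c b n' * d) * xq a b (3 + 1)) * d⁻¹ := by group
        _ = 1 := by rw [this]; group
    · have := hpos t (by omega)
      rw [vm1, zpow_zero, mul_one, mul_one, this]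
      group
    · rw [vm1, vm, v1, zpow_zero, mul_one, mul_one]
      have := T.relx m'
      rw [hm', T.xm] at this
      rw [this]
      group
    · rw [v1, vm5, vm, zpow_one, zpow_neg_one]
      have := T.rely 3
      rw [hy4] at this
      calc a * d⁻¹ * xq a b m' * d * xq c b 4 * d⁻¹
          = (a * (d⁻¹ * xq a b m' * d) * xq c b (3 + 1)) * d⁻¹ := by group
        _ = 1 := by rw [this]; group
    · have := hneg t (by omega)
      rw [v1, zpow_zero, mul_one, mul_one, this]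
      group

end BA
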