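import Pool.Agent.Lib.MP_135d84_al.BA.SpecA

section
/-!
# MP_135d84_al, module BI: the theorem of part A
-/
set_option autoImplicit false

namespace BA

namespace BIM

/-- the elements of bounded norm of a free group of finite rank -/
theorem finite_norm_le {T : Type} [DecidableEq T] [Finite T] (C : ℕ) :
    {f : FreeGroup T | f.norm ≤ C}.Finite := by
  have h := List.finite_length_le (T × Bool) C
  refine (h.preimage (f := FreeGroup.toWord) (FreeGroup.toWord_injective.injOn)).subset ?_
  intro f hf
  exact hf

theorem finite_PC {T E : Type} [DecidableEq T] [Finite T] [Finite E] {S : TSys (FreeGroup T) E}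
    {G : Type} [Group G] (M : S.Model G) (C : ℕ) : (M.PC C).Finite := by
  unfold TSys.Model.PC
  apply Set.Finite.union
  · refine (Set.finite_range (fun z : T × Bool => M.evL (Let.B z))).subset ?_
    rintro x ⟨z, rfl⟩
    exact ⟨z, rfl⟩
  · refine (((finite_norm_le (T := T) C).prod (Set.finite_univ (α := Sg E))).image
      (fun p : FreeGroup T × Sg E => M.evL (Let.M p.1 p.2))).subset ?_
    rintro x ⟨f, s, hf, rfl⟩
    exact ⟨(f, s), ⟨hf, trivial⟩, rfl⟩

/-- the letters generate -/
theorem closure_PC {T E : Type} [DecidableEq T] {S : TSys (FreeGroup T) E}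
    {G : Type} [Group G] (M : S.Model G) (C : ℕ) : Subgroup.closure (M.PC C) = ⊤ := by
  rw [eq_top_iff, ← M.gen, Subgroup.closure_le]
  rintro x (⟨f, rfl⟩ | ⟨e, rfl⟩)
  · have hf : f ∈ Subgroup.closure (Set.range (FreeGroup.of (α := T))) := by
      rw [FreeGroup.closure_range_of]; trivial
    refine Subgroup.closure_induction (p := fun f _ => M.io f ∈ (Subgroup.closure (M.PC C) : Set G))
      ?_ ?_ ?_ ?_ hf
    · rintro x ⟨t, rfl⟩
      apply Subgroup.subset_closure
      left
      exact ⟨(t, true), rfl⟩
    · rw [map_one]; exact Subgroup.one_mem _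
    · intro a b _ _ ha hb
      rw [map_mul]; exact Subgroup.mul_mem _ ha hb
    · intro a _ ha
      rw [map_inv]; exact Subgroup.inv_mem _ ha
  · apply Subgroup.subset_closure
    right
    refine ⟨1, (e, true), ?_, ?_⟩
    · rw [FreeGroup.norm_one]; exact Nat.zero_le _
    · simp [TSys.Model.evL]

/-- elements of the closure are values of words -/
theorem exists_word {G : Type} [Group G] (X : Finset G) (g : G)
    (hg : g ∈ Subgroup.closure (X : Set G)) : ∃ u : List (Letter X), wval u = g := by
  refine Subgroup.closure_induction (p := fun g _ => ∃ u : List (Letter X), wval u = g)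
    ?_ ?_ ?_ ?_ hg
  · intro x hx
    exact ⟨[⟨x, Or.inl hx⟩], by simp [wval]⟩
  · exact ⟨[], by simp [wval]⟩
  · rintro a b _ _ ⟨u, hu⟩ ⟨v, hv⟩
    refine ⟨u ++ v, ?_⟩
    rw [← hu, ← hv]
    simp [wval]
  · rintro a _ ⟨u, hu⟩
    refine ⟨(u.map (fun z : Letter X => (⟨z.1⁻¹, by
      rcases z.2 with h | h
      · right; simpa using h
      · left; exact h⟩ : Letter X))).reverse, ?_⟩
    rw [← hu]
    simp only [wval, List.map_reverse, List.map_map, Function.comp_def]
    rw [List.prod_inv_reverse, List.map_map]
    rfl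

/-- a finite set of elements is reached by words of bounded length -/
theorem bounded_words {G : Type} [Group G] (X : Finset G) (hX : Subgroup.closure (X : Set G) = ⊤)
    (K : Set G) (hK : K.Finite) : ∃ k : ℕ, ∀ g ∈ K, ∃ u : List (Letter X), u.length ≤ k ∧ wval u = g := by
  have h : ∀ g : G, ∃ u : List (Letter X), wval u = g := by
    intro g
    apply exists_word
    rw [hX]; trivial
  choose u hu using h
  obtain ⟨k, hk⟩ := (hK.image (fun g => (u g).length)).bddAbove
  refine ⟨k, fun g hg => ⟨u g, hk ⟨g, hg, rfl⟩, hu g⟩⟩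

/-- transport of a regular language along a map of the alphabets with values in an Option type -/
theorem regular_transport {A B : Type} (φ : A → Option B) (L : Language B) (hL : L.IsRegular) :
    Language.IsRegular ({w : List A | ∃ v ∈ L, w.map φ = v.map some} : Language A) := by
  obtain ⟨σ, hσ, D, hD⟩ := hL
  let D' : DFA A (Option σ) :=
    { step := fun q a => match q, φ a with
        | some q, some b => some (D.step q b)
        | _, _ => none
      start := some D.start
      accept := some '' D.accept }
  refine ⟨Option σ, inferInstance, D', ?_⟩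
  -- the dead state
  have hdead : ∀ w : List A, D'.evalFrom none w = none := by
    intro w
    induction w with
    | nil => rfl
    | cons a w ih =>
      rw [DFA.evalFrom_cons]
      exact ih
  have hlive : ∀ (w : List A) (v : List B) (q : σ), w.map φ = v.map some →
      D'.evalFrom (some q) w = some (D.evalFrom q v) := by
    intro w
    induction w with
    | nil =>
      intro v q h
      have hv : v = [] := by
        cases v with
        | nil => rfl
        | cons b v => simp at h
      subst hv
      rfl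
    | cons a w ih =>
      intro v q h
      cases v with
      | nil => simp at h
      | cons b v =>
        rw [List.map_cons, List.map_cons, List.cons.injEq] at h
        rw [DFA.evalFrom_cons, DFA.evalFrom_cons]
        have hs : D'.step (some q) a = some (D.step q b) := by
          show (match some q, φ a with
            | some q, some b => some (D.step q b)
            | _, _ => none) = some (D.step q b)
          rw [h.1]
        rw [hs]
        exact ih v _ h.2
  have hconv : ∀ (w : List A) (q q' : σ), D'.evalFrom (some q) w = some q' →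
      ∃ v : List B, w.map φ = v.map some ∧ D.evalFrom q v = q' := by
    intro w
    induction w with
    | nil =>
      intro q q' h
      refine ⟨[], rfl, ?_⟩
      exact Option.some.inj h
    | cons a w ih =>
      intro q q' h
      rw [DFA.evalFrom_cons] at h
      rcases hφ : φ a with _ | b
      · have hs : D'.step (some q) a = none := by
          show (match some q, φ a with
            | some q, some b => some (D.step q b)
            | _, _ => none) = none
          rw [hφ]
        rw [hs, hdead] at h
        cases h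
      · have hs : D'.step (some q) a = some (D.step q b) := by
          show (match some q, φ a with
            | some q, some b => some (D.step q b)
            | _, _ => none) = some (D.step q b)
          rw [hφ]
        rw [hs] at h
        obtain ⟨v, hv, hv'⟩ := ih _ _ h
        refine ⟨b :: v, ?_, ?_⟩
        · rw [List.map_cons, List.map_cons, hφ, hv]
        · rw [DFA.evalFrom_cons]; exact hv'
  ext w
  rw [DFA.mem_accepts]
  constructor
  · rintro ⟨q', hq', h⟩
    obtain ⟨v, hv, hv'⟩ := hconv w D.start q' h.symm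
    refine ⟨v, ?_, hv⟩
    rw [← hD, DFA.mem_accepts]
    show D.evalFrom D.start v ∈ D.accept
    rw [hv']
    exact hq'
  · rintro ⟨v, hv, hw⟩
    rw [← hD, DFA.mem_accepts] at hv
    exact ⟨_, hv, (hlive w v D.start hw).symm⟩

end BIM

open BIM in
theorem specBI (hNF : SpecNF) (hFT : SpecFT) (hDFA : SpecDFA) (hINJ : SpecINJ) (hVE : SpecVE) :
    SpecBI := by
  intro T E _ _ _ S G _ M
  classical
  obtain ⟨C, hkeep, K, hK, hft⟩ := hFT S M
  obtain ⟨-, -, -, hval, hmem⟩ := hVE S M C
  obtain ⟨hex, huniq⟩ := hNF S M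
  have hinj : Function.Injective M.evL := hINJ S M
  set X : Finset G := (finite_PC M C).toFinset with hXdef
  have hX : (X : Set G) = M.PC C := (finite_PC M C).coe_toFinset
  have hXm : ∀ g, g ∈ X ↔ g ∈ M.PC C := fun g => (finite_PC M C).mem_toFinset
  have hgen : Subgroup.closure (X : Set G) = ⊤ := by rw [hX]; exact closure_PC M C
  obtain ⟨k, hk⟩ := bounded_words X hgen K hK
  -- the language
  set L : Language (Letter X) := {w : List (Letter X) | ∃ st : St (FreeGroup T) E, S.Normal st.1 ∧
    w.map Subtype.val = (enc C st).map M.evL} with hLdef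
  -- the inverse of evL (with values in an Option type)
  let φ : Letter X → Option (Let T E) := fun a => if h : ∃ y, M.evL y = a.1 then some h.choose else none
  have hφ : ∀ (a : Letter X) (y : Let T E), φ a = some y ↔ M.evL y = a.1 := by
    intro a y
    by_cases h : ∃ y, M.evL y = a.1
    · have e : φ a = some h.choose := dif_pos h
      rw [e]
      constructor
      · intro h2
        rw [← Option.some.inj h2]
        exact h.choose_spec
      · intro h2
        rw [hinj (h2.trans h.choose_spec.symm)]
    · have e : φ a = none := dif_neg h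
      rw [e]
      constructor
      · intro h2; cases h2
      · intro h2; exact absurd ⟨y, h2⟩ h
  have hφl : ∀ (w : List (Letter X)) (v : List (Let T E)), w.map φ = v.map some ↔
      w.map Subtype.val = v.map M.evL := by
    intro w
    induction w with
    | nil => intro v; cases v <;> simp
    | cons a w ih =>
      intro v
      cases v with
      | nil => simp
      | cons y v =>
        rw [List.map_cons, List.map_cons, List.map_cons, List.map_cons, List.cons.injEq,
          List.cons.injEq, ih v, hφ]
        constructor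
        · rintro ⟨h1, h2⟩; exact ⟨h1.symm, h2⟩
        · rintro ⟨h1, h2⟩; exact ⟨h1.symm, h2⟩
  have hLreg : L.IsRegular := by
    set L' : Language (Let T E) := {w : List (Let T E) | ∃ st : St (FreeGroup T) E,
      S.Normal st.1 ∧ enc C st = w} with hL'
    have h1 : L'.IsRegular := hDFA S C hkeep L' (fun w => Iff.rfl)
    have h2 := regular_transport φ L' h1
    have h3 : L = ({w : List (Letter X) | ∃ v ∈ L', w.map φ = v.map some} : Language (Letter X)) := by
      ext w
      constructor
      · rintro ⟨st, hst, hw⟩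
        exact ⟨enc C st, ⟨st, hst, rfl⟩, (hφl _ _).2 hw⟩
      · rintro ⟨v, ⟨st, hst, rfl⟩, hw⟩
        exact ⟨st, hst, (hφl _ _).1 hw⟩
    rw [h3]
    exact h2
  refine ⟨X, L, k, hgen, hLreg, ?_, ?_⟩
  · -- every element is represented
    intro g
    obtain ⟨st, hst, hg⟩ := hex g
    have hw : ∀ v : List (Let T E), (∀ y ∈ v, M.evL y ∈ M.PC C) →
        ∃ w : List (Letter X), w.map Subtype.val = v.map M.evL := by
      intro v
      induction v with
      | nil => intro _; exact ⟨[], rfl⟩
      | cons y v ih =>
        intro h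
        obtain ⟨w, hw⟩ := ih (fun z hz => h z (List.mem_cons_of_mem _ hz))
        refine ⟨⟨M.evL y, Or.inl ((hXm _).2 (h y List.mem_cons_self))⟩ :: w, ?_⟩
        rw [List.map_cons, List.map_cons, hw]
    obtain ⟨w, hw⟩ := hw (enc C st) (fun y hy => hmem st y hy)
    refine ⟨w, ⟨st, hst, hw⟩, ?_⟩
    rw [wval, hw]
    exact (hval st).trans hg
  · -- fellow travelling
    rintro w ⟨st, hst, hw⟩ w' ⟨st', hst', hw'⟩ x y hx hy hxy t
    have e : ∀ (w : List (Letter X)) (st : St (FreeGroup T) E),
        w.map Subtype.val = (enc C st).map M.evL → ∀ t, wval (w.take t) = M.wv ((enc C st).take t) := by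
      intro w st h t
      rw [wval, List.map_take, h, ← List.map_take]
      rfl
    have ev : ∀ (w : List (Letter X)) (st : St (FreeGroup T) E),
        w.map Subtype.val = (enc C st).map M.evL → wval w = M.val st := by
      intro w st h
      rw [wval, h]
      exact hval st
    rw [ev w st hw, ev w' st' hw'] at hxy
    have hx' : x = 1 ∨ x ∈ M.PC C ∨ x⁻¹ ∈ M.PC C := by
      rwa [hXm, hXm] at hx
    have hy' : y = 1 ∨ y ∈ M.PC C ∨ y⁻¹ ∈ M.PC C := by
      rwa [hXm, hXm] at hy
    have h := hft st st' hst hst' x y hx' hy' hxy t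
    obtain ⟨u, hu, hu'⟩ := hk _ h
    refine ⟨u, hu, ?_⟩
    rw [e w st hw t, e w' st' hw' t, hu']
    group

end BA
end

section
set_option autoImplicit false

namespace BA

theorem specCC : SpecCC := by
  intro T E S G _ M c c' K K' x W W' V V' h1 hl hl' h2 t
  classical
  by_cases ht : t ≤ W.length
  · obtain ⟨t', e1, e2, hk⟩ := h1 t
    refine ⟨min t' W'.length, ?_, ?_, ?_⟩
    · rcases le_total t' W'.length with h | h
      · rw [min_eq_left h]; omega
      · rw [min_eq_right h]; omega
    · have := min_le_left t' W'.length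
      omega
    · left
      rw [List.take_append_of_le_length ht, List.take_append_of_le_length (min_le_right _ _)]
      have e3 : W'.take (min t' W'.length) = W'.take t' := by
        rcases le_total t' W'.length with h | h
        · rw [min_eq_left h]
        · rw [min_eq_right h, List.take_length, List.take_of_length_le h]
      rw [e3]
      exact hk
  · obtain ⟨τ, rfl⟩ : ∃ τ, t = W.length + τ := ⟨t - W.length, by omega⟩
    obtain ⟨t', e1, e2, hk⟩ := h2 τ
    refine ⟨W'.length + t', by omega, by omega, ?_⟩
    right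
    rw [List.take_length_add_append, List.take_length_add_append, TSys.Model.wv_append,
      TSys.Model.wv_append]
    have e4 : (x * (M.wv W * M.wv (List.take τ V)))⁻¹ * (M.wv W' * M.wv (List.take t' V')) =
        (((x * M.wv W)⁻¹ * M.wv W')⁻¹ * M.wv (List.take τ V))⁻¹ * M.wv (List.take t' V') := by
      group
    rw [e4]
    exact hk

end BA
end

section
set_option autoImplicit false

namespace BA.CSM

open BA

variable {T E : Type} {S : TSys (FreeGroup T) E} {G : Type} [Group G] (M : S.Model G)

/-- products of at most `c` elements of `P` -/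
def prods (P : Set G) (c : ℕ) : Set G := {g | ∃ l : List G, l.length ≤ c ∧ (∀ y ∈ l, y ∈ P) ∧ l.prod = g}

theorem prods_finite (P : Set G) (hP : P.Finite) (c : ℕ) : (prods P c).Finite := by
  haveI : Finite P := hP
  have h : {l : List P | l.length ≤ c}.Finite := List.finite_length_le P c
  refine (h.image (fun l : List P => (l.map Subtype.val).prod)).subset ?_
  rintro g ⟨l, h1, h2, h3⟩
  refine ⟨l.attach.map (fun y => ⟨y.1, h2 y.1 y.2⟩), ?_, ?_⟩
  · show (List.map _ l.attach).length ≤ c
    rw [List.length_map, List.length_attach]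
    exact h1
  · show (List.map Subtype.val (List.map _ l.attach)).prod = g
    rw [List.map_map]
    have : (List.map (Subtype.val ∘ fun y : {y // y ∈ l} => (⟨y.1, h2 y.1 y.2⟩ : P)) l.attach) = l := by
      have e : (Subtype.val ∘ fun y : {y // y ∈ l} => (⟨y.1, h2 y.1 y.2⟩ : P)) = Subtype.val := by
        funext y; rfl
      rw [e]
      exact List.attach_map_subtype_val l
    rw [this, h3]

theorem quot_mem (P : Set G) (w : List (Let T E)) (hw : ∀ y ∈ w, M.evL y ∈ P) (a b c : ℕ) (hab : a ≤ b)
    (hc : b ≤ a + c) : (M.wv (w.take a))⁻¹ * M.wv (w.take b) ∈ prods P c := by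
  classical
  obtain ⟨d, rfl⟩ : ∃ d, b = a + d := ⟨b - a, by omega⟩
  have e : w.take (a + d) = w.take a ++ (w.drop a).take d := by
    rw [List.take_add]
  rw [e, TSys.Model.wv_append, inv_mul_cancel_left]
  refine ⟨((w.drop a).take d).map M.evL, ?_, ?_, rfl⟩
  · rw [List.length_map]
    have := List.length_take_le d (w.drop a)
    omega
  · intro y hy
    rw [List.mem_map] at hy
    obtain ⟨z, hz, rfl⟩ := hy
    exact hw z (List.mem_of_mem_drop (List.mem_of_mem_take hz))

end BA.CSM

namespace BA

open Pointwise in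
theorem specCS : SpecCS := by
  intro T E S G _ M P hP c K hK
  refine ⟨K * (CSM.prods P c ∪ (CSM.prods P c)⁻¹), ?_, ?_⟩
  · exact hK.mul ((CSM.prods_finite P hP c).union (CSM.prods_finite P hP c).inv)
  · intro x w w' hw hcl t
    obtain ⟨t', e1, e2, hk⟩ := hcl t
    have e : (x * M.wv (w.take t))⁻¹ * M.wv (w'.take t) =
        ((x * M.wv (w.take t))⁻¹ * M.wv (w'.take t')) * ((M.wv (w'.take t'))⁻¹ * M.wv (w'.take t)) := by
      group
    rw [e]
    refine Set.mul_mem_mul hk ?_
    rcases le_total t' t with h | h
    · left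
      exact CSM.quot_mem M P w' hw t' t c h (by omega)
    · right
      rw [Set.mem_inv, mul_inv_rev, inv_inv]
      exact CSM.quot_mem M P w' hw t t' c h (by omega)

end BA
end

section
set_option autoImplicit false

namespace BA

namespace DFAM

variable {T E : Type} [DecidableEq T]

/-- states of the automaton; `none` is the dead state -/
abbrev Sta (T E : Type) (C : ℕ) : Type := Option (Option (Sg E) × Option (T × Bool) × Fin (C + 2))

/-- the capped counter -/
def cap (C k : ℕ) : Fin (C + 2) := ⟨min k (C + 1), by omega⟩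

theorem cap_succ (C k : ℕ) : cap C ((cap C k).val + 1) = cap C (k + 1) := by
  apply Fin.ext
  simp only [cap]
  omega

open Classical in
/-- transitions -/
noncomputable def stp (S : TSys (FreeGroup T) E) (C : ℕ) : Sta T E C → Let T E → Sta T E C
  | none, _ => none
  | some (p, r, k), Let.B z =>
      if r = some (z.1, !z.2) then none else some (p, some z, cap C (k.val + 1))
  | some (p, r, k), Let.M f s =>
      if r = none then
        if f.norm ≤ C ∧ ∀ s' ∈ p, S.Keep s' f s then some (some s, none, cap C 0) else none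
      else
        if f = 1 ∧ k.val = C + 1 then some (some s, none, cap C 0) else none

/-- the automaton -/
noncomputable def aut (S : TSys (FreeGroup T) E) (C : ℕ) : DFA (Let T E) (Sta T E C) where
  step := stp S C
  start := some (none, none, cap C 0)
  accept := {x | x ≠ none}

theorem aut_step (S : TSys (FreeGroup T) E) (C : ℕ) : (aut S C).step = stp S C := rfl

/-- the last symbol -/
def lst (l : List (FreeGroup T × Sg E)) : Option (Sg E) := l.getLast?.map Prod.snd

omit [DecidableEq T] in
theorem lst_append (l : List (FreeGroup T × Sg E)) (x : FreeGroup T × Sg E) : lst (l ++ [x]) = some x.2 := by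
  simp [lst]

omit [DecidableEq T] in
theorem normal_append (S : TSys (FreeGroup T) E) (l : List (FreeGroup T × Sg E)) (x : FreeGroup T × Sg E) :
    S.Normal (l ++ [x]) ↔ S.Normal l ∧ ∀ s' ∈ lst l, S.Keep s' x.1 x.2 := by
  unfold TSys.Normal
  rw [List.isChain_append]
  constructor
  · rintro ⟨h1, _, h3⟩
    refine ⟨h1, ?_⟩
    intro s' hs'
    simp only [lst, Option.mem_def, Option.map_eq_some_iff] at hs'
    obtain ⟨y, hy, rfl⟩ := hs'
    exact h3 y hy x (by simp)
  · rintro ⟨h1, h3⟩
    refine ⟨h1, List.IsChain.singleton _, ?_⟩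
    intro y hy z hz
    simp only [List.head?_cons, Option.mem_def, Option.some.injEq] at hz
    subst hz
    exact h3 y.2 (by simp only [lst, Option.mem_def, Option.map_eq_some_iff]; exact ⟨y, hy, rfl⟩)

omit [DecidableEq T] in
theorem reduced_append (L : List (T × Bool)) (z : T × Bool) :
    FreeGroup.IsReduced (L ++ [z]) ↔ FreeGroup.IsReduced L ∧ L.getLast? ≠ some (z.1, !z.2) := by
  unfold FreeGroup.IsReduced
  rw [List.isChain_append]
  constructor
  · rintro ⟨h1, _, h3⟩
    refine ⟨h1, ?_⟩
    intro h4
    have h5 := h3 _ h4 z (by simp) rfl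
    simp at h5
  · rintro ⟨h1, h3⟩
    refine ⟨h1, List.IsChain.singleton _, ?_⟩
    intro y hy w hw h4
    simp only [List.head?_cons, Option.mem_def, Option.some.injEq] at hw
    subst hw
    by_contra h5
    apply h3
    rw [Option.mem_def.1 hy]
    congr 1
    apply Prod.ext
    · exact h4
    · show y.2 = !z.2
      cases hy2 : y.2 <;> cases hz2 : z.2 <;> simp_all

/-- reading a reduced word of generators -/
theorem run_word (S : TSys (FreeGroup T) E) (C : ℕ) (p : Option (Sg E)) (L : List (T × Bool)) :
    FreeGroup.IsReduced L →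
    (aut S C).evalFrom (some (p, none, cap C 0)) (L.map Let.B) = some (p, L.getLast?, cap C L.length) := by
  induction L using List.reverseRecOn with
  | nil => intro _; simp
  | append_singleton L z ih =>
    intro h
    rw [reduced_append] at h
    rw [List.map_append, List.map_cons, List.map_nil, DFA.evalFrom_append_singleton, ih h.1, aut_step]
    simp only [stp]
    rw [if_neg h.2, cap_succ]
    simp

theorem run_list (S : TSys (FreeGroup T) E) (C : ℕ)
    (l : List (FreeGroup T × Sg E)) : S.Normal l →
    (aut S C).eval (l.flatMap (encB C)) = some (lst l, none, cap C 0) := by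
  induction l using List.reverseRecOn with
  | nil => intro _; rfl
  | append_singleton l x ih =>
    intro h
    rw [normal_append] at h
    rw [List.flatMap_append, List.flatMap_cons, List.flatMap_nil, List.append_nil, lst_append]
    obtain ⟨f, s⟩ := x
    simp only [encB]
    split_ifs with hf
    · rw [DFA.eval_append_singleton, ih h.1, aut_step]
      simp only [stp]
      rw [if_pos trivial, if_pos ⟨hf, h.2⟩]
    · rw [← List.append_assoc, DFA.eval_append_singleton]
      have h1 : (aut S C).eval (l.flatMap (encB C) ++ f.toWord.map Let.B) =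
          some (lst l, f.toWord.getLast?, cap C f.toWord.length) := by
        have h2 := ih h.1
        unfold DFA.eval at h2 ⊢
        rw [DFA.evalFrom_of_append, h2]
        exact run_word S C _ _ FreeGroup.isReduced_toWord
      rw [h1, aut_step]
      simp only [stp]
      have h2 : C < f.toWord.length := by
        have h3 : ¬ f.norm ≤ C := hf
        unfold FreeGroup.norm at h3
        omega
      have h4 : ¬ f.toWord.getLast? = none := by
        rw [List.getLast?_eq_none_iff]
        intro h5
        rw [h5] at h2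
        simp at h2
      rw [if_neg h4, if_pos]
      refine ⟨trivial, ?_⟩
      simp only [cap]
      omega

theorem run_enc (S : TSys (FreeGroup T) E) (C : ℕ) (l : List (FreeGroup T × Sg E)) (g : FreeGroup T)
    (h : S.Normal l) : (aut S C).eval (enc C (l, g)) ≠ none := by
  have h1 : (aut S C).eval (enc C (l, g)) = some (lst l, g.toWord.getLast?, cap C g.toWord.length) := by
    have h2 := run_list S C l h
    unfold DFA.eval enc at *
    rw [DFA.evalFrom_of_append, h2]
    exact run_word S C _ _ FreeGroup.isReduced_toWord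
  rw [h1]
  simp

theorem of_run (S : TSys (FreeGroup T) E) (C : ℕ)
    (hC : ∀ (s : Sg E) (f : FreeGroup T) (t : Sg E), C < f.norm → S.Keep s f t) (w : List (Let T E)) :
    ∀ (p : Option (Sg E)) (r : Option (T × Bool)) (k : Fin (C + 2)), (aut S C).eval w = some (p, r, k) →
      ∃ (l : List (FreeGroup T × Sg E)) (g : FreeGroup T), S.Normal l ∧ enc C (l, g) = w ∧ p = lst l ∧
        r = g.toWord.getLast? ∧ k = cap C g.toWord.length := by
  induction w using List.reverseRecOn with
  | nil =>
    intro p r k h
    refine ⟨[], 1, List.IsChain.nil, ?_, ?_, ?_, ?_⟩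
    · simp [enc]
    · have : some (none, none, cap C 0) = some (p, r, k) := h
      simp only [Option.some.injEq, Prod.mk.injEq] at this
      rw [← this.1]
      rfl
    · have : some (none, none, cap C 0) = some (p, r, k) := h
      simp only [Option.some.injEq, Prod.mk.injEq] at this
      rw [← this.2.1]
      simp
    · have : some (none, none, cap C 0) = some (p, r, k) := h
      simp only [Option.some.injEq, Prod.mk.injEq] at this
      rw [← this.2.2]
      simp
  | append_singleton w a ih =>
    intro p r k h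
    rw [DFA.eval_append_singleton] at h
    rcases h0 : (aut S C).eval w with _ | ⟨p0, r0, k0⟩
    · rw [h0] at h
      exact absurd h (by show stp S C none a ≠ _; simp [stp])
    · obtain ⟨l, g, hN, he, hp, hr, hk⟩ := ih p0 r0 k0 h0
      rw [h0] at h
      have h' : stp S C (some (p0, r0, k0)) a = some (p, r, k) := h
      cases a with
      | B z =>
        simp only [stp] at h'
        split_ifs at h' with h1
        simp only [Option.some.injEq, Prod.mk.injEq] at h'
        have hred : FreeGroup.IsReduced (g.toWord ++ [z]) := by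
          rw [reduced_append]
          exact ⟨FreeGroup.isReduced_toWord, by rw [← hr]; exact h1⟩
        have hw : (FreeGroup.mk (g.toWord ++ [z])).toWord = g.toWord ++ [z] := by
          rw [FreeGroup.toWord_mk]
          exact hred.reduce_eq
        refine ⟨l, FreeGroup.mk (g.toWord ++ [z]), hN, ?_, ?_, ?_, ?_⟩
        · rw [← he]
          simp only [enc]
          rw [hw, List.map_append, List.append_assoc]
          rfl
        · rw [← h'.1, hp]
        · rw [← h'.2.1, hw]
          simp
        · rw [← h'.2.2, hk, cap_succ, hw]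
          simp
      | M f s =>
        simp only [stp] at h'
        split_ifs at h' with h1 h2 h3
        · simp only [Option.some.injEq, Prod.mk.injEq] at h'
          have hg : g.toWord = [] := by
            rw [← List.getLast?_eq_none_iff, ← hr]
            exact h1
          refine ⟨l ++ [(f, s)], 1, ?_, ?_, ?_, ?_, ?_⟩
          · rw [normal_append]
            exact ⟨hN, by rw [← hp]; exact h2.2⟩
          · rw [← he]
            simp only [enc]
            rw [hg, List.flatMap_append, List.flatMap_cons, List.flatMap_nil]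
            simp [encB, h2.1]
          · rw [← h'.1, lst_append]
          · rw [← h'.2.1]
            simp
          · rw [← h'.2.2]
            simp
        · simp only [Option.some.injEq, Prod.mk.injEq] at h'
          have hg : C < g.norm := by
            have h4 := h3.2
            rw [hk] at h4
            simp only [cap] at h4
            unfold FreeGroup.norm
            omega
          refine ⟨l ++ [(g, s)], 1, ?_, ?_, ?_, ?_, ?_⟩
          · rw [normal_append]
            exact ⟨hN, fun s' _ => hC s' g s hg⟩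
          · rw [← he]
            simp only [enc]
            rw [List.flatMap_append, List.flatMap_cons, List.flatMap_nil]
            simp [encB, h3.1, not_le.2 hg]
          · rw [← h'.1, lst_append]
          · rw [← h'.2.1]
            simp
          · rw [← h'.2.2]
            simp

end DFAM

theorem specDFA : SpecDFA := by
  intro T E _ _ _ S C hC L hL
  refine ⟨DFAM.Sta T E C, Fintype.ofFinite _, DFAM.aut S C, ?_⟩
  ext w
  rw [DFA.mem_accepts, hL]
  constructor
  · intro h
    have h1 : (DFAM.aut S C).eval w ≠ none := h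
    obtain ⟨⟨p, r, k⟩, h2⟩ := Option.ne_none_iff_exists'.1 h1
    obtain ⟨l, g, h3, h4, _⟩ := DFAM.of_run S C hC w p r k h2
    exact ⟨(l, g), h3, h4⟩
  · rintro ⟨⟨l, g⟩, h1, rfl⟩
    exact DFAM.run_enc S C l g h1

end BA
end

section
/-!
# MP_135d84_al, part A: module DOM, left multiplication preserves normality
-/
set_option autoImplicit false

namespace BA.DOMM

section

variable {F E : Type} [Group F] (S : TSys F E)

/-- the condition on the head of the rest -/
def HK (s : Sg E) (l : List (F × Sg E)) : Prop := ∀ y, l.head? = some y → S.Keep s y.1 y.2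

lemma normal_nil : S.Normal [] := by
  unfold TSys.Normal
  simp

lemma normal_single (x : F × Sg E) : S.Normal [x] := by
  unfold TSys.Normal
  simp

lemma normal_cons2 (x y : F × Sg E) (l : List (F × Sg E)) :
    S.Normal (x :: y :: l) ↔ S.Keep x.2 y.1 y.2 ∧ S.Normal (y :: l) := by
  unfold TSys.Normal
  simp

lemma normal_cons (x : F × Sg E) (l : List (F × Sg E)) :
    S.Normal (x :: l) ↔ HK S x.2 l ∧ S.Normal l := by
  cases l with
  | nil =>
    constructor
    · intro _
      refine ⟨?_, normal_nil S⟩
      intro y hy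
      simp at hy
    · intro _
      exact normal_single S x
  | cons y l =>
    rw [normal_cons2]
    constructor
    · rintro ⟨h1, h2⟩
      refine ⟨?_, h2⟩
      intro y' hy'
      have : y = y' := by simpa using hy'
      rw [← this]
      exact h1
    · rintro ⟨h1, h2⟩
      exact ⟨h1 y rfl, h2⟩

lemma normal_lf (f : F) (st : St F E) : S.Normal (lf f st).1 ↔ S.Normal st.1 := by
  rcases st with ⟨_ | ⟨⟨f0, s⟩, l⟩, g⟩
  · simp
  · rw [lf_cons, normal_cons, normal_cons]

lemma lf_scons (f : F) (x : F × Sg E) (st : St F E) : lf f (scons x st) = scons (f * x.1, x.2) st := by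
  rcases x with ⟨x, s⟩
  rfl

/-- the head condition after `tt` -/
lemma head_tt {s : E} {f : F} {t : E} {a : F} {u : E} {c : F} (h : S.tri s f t a u c)
    (l : List (F × Sg E)) (g : F) (hl : HK S (t, true) l) :
    HK S (u, false) (lf a⁻¹ (l, g)).1 := by
  have h1 := S.rot h
  rcases l with _ | ⟨⟨f1, ⟨k, e⟩⟩, l⟩
  · intro y hy
    simp at hy
  · intro y hy
    have hk := hl _ rfl
    have : ((a⁻¹ * f1, (k, e)) : F × Sg E) = y := by simpa using hy
    rw [← this]
    cases e
    · simp only [TSys.Keep] at hk ⊢
      intro hD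
      apply hk.2
      refine ⟨a, u, S.D_tri h1, ?_⟩
      have e1 : (a⁻¹ * f1)⁻¹ = f1⁻¹ * a := by group
      rw [← e1]
      exact hD
    · simp only [TSys.Keep] at hk ⊢
      rintro ⟨rfl, h2⟩
      apply hk
      have e1 : f1 = a := by
        have h3 : a * (a⁻¹ * f1) = a * 1 := by rw [h2]
        simpa using h3
      rw [e1]
      exact S.D_tri h1

/-- the head condition after `tf` -/
lemma head_tf {s t : E} {f h : F} {r : E} {a : F} {u : E} {c : F} {a' : F} {u' : E} {c' : F}
    (hst : ¬ (s = t ∧ f = 1)) (h1 : S.tri s h r a u c) (h2 : S.tri t (f⁻¹ * h) r a' u' c')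
    (l : List (F × Sg E)) (g : F) (hl : HK S (t, false) l) :
    HK S (u, false) (lf (a⁻¹ * a') (S.opS (u', true) (lf c' (l, g)))).1 := by
  have r1 := S.rot h1
  have r2 := S.rot h2
  have r3 := S.rot r2
  have hne : ¬ (a = a' ∧ u = u') := by
    rintro ⟨rfl, rfl⟩
    obtain ⟨e1, e2, e3⟩ := S.fn r1 r2
    apply hst
    refine ⟨e2, ?_⟩
    have h3 : h * h⁻¹ = f⁻¹ * h * h⁻¹ := by rw [← e3]
    simpa using h3.symm
  -- the first kind of head
  have kind1 : S.Keep (u, false) (a⁻¹ * a' * 1) (u', true) := by
    simp only [TSys.Keep, mul_one]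
    rintro ⟨rfl, h3⟩
    apply hne
    refine ⟨?_, rfl⟩
    have h4 : a * (a⁻¹ * a') = a * 1 := by rw [h3]
    simpa using h4.symm
  -- the second kind of head
  have kind2 : ∀ (h3 : F) (r3' : E) (a3 : F) (u3 : E) (c3 : F), S.tri u' h3 r3' a3 u3 c3 →
      ¬ (h3 = c' ∧ r3' = t) → S.Keep (u, false) (a⁻¹ * a' * c3⁻¹) (u3, false) := by
    intro h3 r3' a3 u3 c3 htri hnot
    simp only [TSys.Keep]
    intro hD
    have t1 := S.rot (S.rot htri)
    have e1 : (a⁻¹ * a' * c3⁻¹)⁻¹ = c3 * a'⁻¹ * a := by group
    rw [e1] at hD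
    rcases S.k22 (S.D_tri r2) (S.D_tri r1) (S.D_tri t1) hD (by group) with ⟨e2, e3⟩ | ⟨e2, e3⟩
    · rw [← e2, ← e3] at t1
      obtain ⟨e4, e5, -⟩ := S.fn r2 t1
      exact hnot ⟨e4.symm, e5.symm⟩
    · exact hne ⟨e3.symm, e2.symm⟩
  rcases l with _ | ⟨⟨f1, ⟨k, e⟩⟩, l⟩
  · intro y hy
    rw [lf_nil, S.opS_nil, lf_cons] at hy
    have : ((a⁻¹ * a' * 1, (u', true)) : F × Sg E) = y := by simpa using hy
    rw [← this]
    exact kind1
  · have hk := hl _ rfl
    rw [lf_cons]
    rcases S.cases_op (u', true) (c' * f1) (k, e) with h3 | ⟨h3, h4, h5⟩ | ⟨-, h4, a3, u3, c3, h5⟩ |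
      ⟨-, h4, h5, h6, r6, a3, u3, c3, a4, u4, c4, h7, h8⟩ | ⟨h3, -⟩
    · rw [S.opS_keep h3, lf_cons]
      intro y hy
      have : ((a⁻¹ * a' * 1, (u', true)) : F × Sg E) = y := by simpa using hy
      rw [← this]
      exact kind1
    · simp only at h3 h4
      cases e
      · exfalso
        simp only [TSys.Keep] at hk
        apply hk
        have e1 : f1⁻¹ = c' := by
          have : c' = c' * f1 * f1⁻¹ := by group
          rw [this, h5, one_mul]
        rw [e1, ← h3]
        exact S.D_tri r3
      · simp at h4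
    · simp only at h4 h5
      subst h4
      rw [S.opS_tt h5, lf_scons]
      intro y hy
      have : ((a⁻¹ * a' * c3⁻¹, (u3, false)) : F × Sg E) = y := by simpa [scons] using hy
      rw [← this]
      apply kind2 _ _ _ _ _ h5
      rintro ⟨e1, e2⟩
      simp only [TSys.Keep] at hk
      apply hk
      refine ⟨e2.symm, ?_⟩
      have h6 : c'⁻¹ * (c' * f1) = c'⁻¹ * c' := by rw [e1]
      simpa using h6
    · simp only at h4 h5 h7 h8
      subst h4
      rw [S.opS_tf h5 h7 h8, lf_scons]
      intro y hy
      have : ((a⁻¹ * a' * c3⁻¹, (u3, false)) : F × Sg E) = y := by simpa [scons] using hy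
      rw [← this]
      apply kind2 _ _ _ _ _ h7
      rintro ⟨e1, e2⟩
      simp only [TSys.Keep] at hk
      apply hk
      have h9 := S.D_tri h8
      rw [e1, e2] at h9
      have e3 : (c' * f1)⁻¹ * c' = f1⁻¹ := by group
      rw [e3] at h9
      exact h9
    · simp at h3

lemma main : ∀ (n : ℕ) (l : List (F × Sg E)), l.length ≤ n → ∀ (s : Sg E) (g : F),
    S.Normal l → S.Normal (S.opS s (l, g)).1 := by
  intro n
  induction n with
  | zero =>
    intro l hl s g _
    have : l = [] := List.length_eq_zero_iff.1 (Nat.le_zero.1 hl)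
    rw [this, S.opS_nil]
    exact normal_single S _
  | succ n ih =>
    intro l hl s g hN
    rcases l with _ | ⟨⟨f, t⟩, l⟩
    · rw [S.opS_nil]
      exact normal_single S _
    · have hlen : l.length ≤ n := by
        simp only [List.length_cons] at hl
        omega
      obtain ⟨hH, hN'⟩ := (normal_cons S _ _).1 hN
      -- induction for shifted lists
      have ih' : ∀ (s' : Sg E) (c : F), S.Normal (S.opS s' (lf c (l, g))).1 := by
        intro s' c
        have hl' : (lf c (l, g)).1.length ≤ n := by
          rcases l with _ | ⟨⟨f0, s0⟩, l⟩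
          · simp
          · simp only [lf_cons, List.length_cons] at hlen ⊢
            exact hlen
        exact ih (lf c (l, g)).1 hl' s' (lf c (l, g)).2 ((normal_lf S c (l, g)).2 hN')
      rcases S.cases_op s f t with h3 | ⟨h3, h4, h5⟩ | ⟨h3, h4, a, u, c, h5⟩ |
        ⟨h3, h4, h5, h6, r6, a, u, c, a', u', c', h7, h8⟩ | ⟨h3, h4, a, u, c, h5⟩
      · rw [S.opS_keep h3, normal_cons2]
        exact ⟨h3, hN⟩
      · rcases s with ⟨s, e⟩
        rcases t with ⟨t, e'⟩
        simp only at h3 h4
        subst h3 h5
        cases e'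
        · simp only [Bool.not_false] at h4
          rw [h4, S.opS_cancel_tf]
          exact hN'
        · simp only [Bool.not_true] at h4
          rw [h4, S.opS_cancel_ft]
          exact hN'
      · rcases s with ⟨s, e⟩
        rcases t with ⟨t, e'⟩
        simp only at h3 h4 h5 hH
        subst h3 h4
        rw [S.opS_tt h5]
        show S.Normal ((c⁻¹, (u, false)) :: (lf a⁻¹ (l, g)).1)
        rw [normal_cons]
        exact ⟨head_tt S h5 l g hH, (normal_lf S _ _).2 hN'⟩
      · rcases s with ⟨s, e⟩
        rcases t with ⟨t, e'⟩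
        simp only at h3 h4 h5 h7 h8 hH
        subst h3 h4
        rw [S.opS_tf h5 h7 h8]
        show S.Normal ((c⁻¹, (u, false)) :: (lf (a⁻¹ * a') (S.opS (u', true) (lf c' (l, g)))).1)
        rw [normal_cons]
        exact ⟨head_tf S h5 h7 h8 l g hH, (normal_lf S _ _).2 (ih' _ _)⟩
      · rcases s with ⟨s, e⟩
        rcases t with ⟨t, e'⟩
        simp only at h3 h4 h5
        subst h3 h4
        rw [S.opS_ff h5]
        exact (normal_lf S _ _).2 (ih' _ _)

end

end BA.DOMM

namespace BA

theorem specDOM : SpecDOM := by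
  intro F E _ S s l g h
  exact DOMM.main S l.length l le_rfl s g h

end BA
end

section
/-!
# MP_135d84_al, module E2: the relators act trivially
-/
set_option autoImplicit false

namespace BA

namespace E2M

variable {F E : Type} [Group F] (S : TSys F E)

theorem normal_cons_iff (x y : F × Sg E) (l : List (F × Sg E)) :
    S.Normal (x :: y :: l) ↔ S.Keep x.2 y.1 y.2 ∧ S.Normal (y :: l) := by
  unfold TSys.Normal
  exact List.isChain_cons_cons

theorem normal_tail {x : F × Sg E} {l : List (F × Sg E)} (h : S.Normal (x :: l)) : S.Normal l := by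
  rcases l with _ | ⟨y, l⟩
  · unfold TSys.Normal
    exact List.isChain_nil
  · exact ((normal_cons_iff S x y l).1 h).2

theorem normal_head (f f' : F) (s : Sg E) (l : List (F × Sg E)) :
    S.Normal ((f, s) :: l) ↔ S.Normal ((f', s) :: l) := by
  rcases l with _ | ⟨y, l⟩
  · unfold TSys.Normal
    constructor <;> intro _ <;> exact List.isChain_singleton _
  · rw [normal_cons_iff, normal_cons_iff]

theorem normal_lf (b : F) (st : St F E) : S.Normal (lf b st).1 ↔ S.Normal st.1 := by
  rcases st with ⟨_ | ⟨⟨f, s⟩, l⟩, g⟩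
  · exact Iff.rfl
  · exact normal_head S _ _ _ _

theorem length_lf (b : F) (st : St F E) : (lf b st).1.length = st.1.length := by
  rcases st with ⟨_ | ⟨⟨f, s⟩, l⟩, g⟩ <;> simp

theorem opS_normal {f : F} {s : Sg E} {l : List (F × Sg E)} (h : S.Normal ((f, s) :: l)) (g : F) :
    S.opS s (l, g) = ((1, s) :: l, g) := by
  rcases l with _ | ⟨⟨f1, t⟩, l⟩
  · exact S.opS_nil s g
  · exact S.opS_keep ((normal_cons_iff S _ _ _).1 h).1 l g

theorem keep_of_keep {s : E} {f : F} {t : E} {a : F} {u : E} {b : F} (h : S.tri s f t a u b)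
    {f0 : F} {s1 : Sg E} (hk : S.Keep (t, true) f0 s1) : S.Keep (u, false) (a⁻¹ * f0) s1 := by
  rcases s1 with ⟨k, e⟩
  cases e
  · simp only [TSys.Keep] at hk ⊢
    intro hd
    refine hk.2 ⟨a, u, S.D_tri (S.rot h), ?_⟩
    have e1 : (a⁻¹ * f0)⁻¹ = f0⁻¹ * a := by group
    rw [e1] at hd
    exact hd
  · simp only [TSys.Keep] at hk ⊢
    rintro ⟨h1, h2⟩
    apply hk
    have e1 : f0 = a := by
      rw [inv_mul_eq_one] at h2
      exact h2.symm
    rw [e1, ← h1]
    exact S.D_tri (S.rot h)

theorem scons_lf (x : F × Sg E) (f : F) (st : St F E) :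
    lf f (scons x st) = scons (f * x.1, x.2) st := rfl

theorem main (n : ℕ) : ∀ {s : E} {f : F} {t : E} {a : F} {u : E} {b : F}
    (l : List (F × Sg E)) (g : F), l.length ≤ n → S.tri s f t a u b → S.Normal l →
    S.opS (s, true) (lf f (S.opS (t, true) (l, g))) = lf b⁻¹ (S.opS (u, false) (lf a⁻¹ (l, g))) := by
  induction n with
  | zero =>
    intro s f t a u b l g hl h hN
    have : l = [] := List.eq_nil_of_length_eq_zero (Nat.le_zero.1 hl)
    subst this
    rw [S.opS_nil, lf_cons, mul_one, S.opS_tt h, lf_nil, S.opS_nil, lf_cons, mul_one]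
    rfl
  | succ n ih =>
    intro s f t a u b l g hl h hN
    rcases l with _ | ⟨⟨f0, s1⟩, l1⟩
    · rw [S.opS_nil, lf_cons, mul_one, S.opS_tt h, lf_nil, S.opS_nil, lf_cons, mul_one]
      rfl
    have hN1 : S.Normal l1 := normal_tail S hN
    have hl1 : l1.length ≤ n := by
      simp only [List.length_cons] at hl
      omega
    rcases S.cases_op (t, true) f0 s1 with hk | ⟨h1, h2, h3⟩ | ⟨_, h2, a1, u1, b1, h3⟩ |
      ⟨_, h2, h3, h0, p, a1, u1, b1, a2, u2, b2, h4, h5⟩ | ⟨h1, _⟩
    · -- (A)
      rw [S.opS_keep hk, lf_cons, mul_one, S.opS_tt h, lf_cons,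
        S.opS_keep (keep_of_keep S h hk), lf_cons, mul_one]
      rfl
    · -- (C)
      rcases s1 with ⟨k, e⟩
      simp only at h1 h2 h3
      have e1 : e = false := by
        cases e
        · rfl
        · exact absurd h2 (by decide)
      subst e1
      subst h1
      subst h3
      rw [S.opS_cancel_tf, lf_cons, mul_one]
      have h6 : S.tri t (a⁻¹)⁻¹ u b s f := by rw [inv_inv]; exact S.rot h
      rw [S.opS_ff h6, lf_lf, inv_mul_cancel, lf_one]
    · -- (B)
      rcases s1 with ⟨r, e⟩
      simp only at h2 h3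
      subst h2
      rw [S.opS_tt h3, scons_lf]
      have h6 : S.tri u1 b1 t f0 r a1 := S.rot (S.rot h3)
      by_cases hc : s = u1 ∧ f * b1⁻¹ = 1
      · obtain ⟨hc1, hc2⟩ := hc
        have hc3 : f = b1 := mul_inv_eq_one.1 hc2
        subst hc1
        subst hc3
        obtain ⟨e1, e2, e3⟩ := S.fn h6 h
        subst e1
        subst e2
        subst e3
        simp only [mul_inv_cancel, scons]
        rw [S.opS_cancel_tf, lf_cons, inv_mul_cancel, S.opS_cancel_ft]
      · have h7 : S.tri u1 ((f * b1⁻¹)⁻¹ * f) t f0 r a1 := by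
          have : (f * b1⁻¹)⁻¹ * f = b1 := by group
          rw [this]; exact h6
        have h8 : S.opS (s, true) (scons (f * b1⁻¹, (u1, false)) (lf a1⁻¹ (l1, g))) =
            scons (b⁻¹, (u, false)) (lf (a⁻¹ * f0) (S.opS (r, true) (lf a1 (lf a1⁻¹ (l1, g))))) :=
          S.opS_tf hc h h7 _ _
        rw [h8, lf_lf a1, mul_inv_cancel, lf_one, opS_normal S hN, lf_cons, mul_one, lf_cons]
        have h9 : S.Keep (u, false) (a⁻¹ * f0) (r, true) := by
          simp only [TSys.Keep]
          rintro ⟨e1, e2⟩
          have e3 : a = f0 := inv_mul_eq_one.1 e2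
          subst e1
          subst e3
          obtain ⟨e4, e5, e6⟩ := S.fn (S.rot h) h3
          apply hc
          exact ⟨e5, by rw [e6, mul_inv_cancel]⟩
        rw [S.opS_keep h9, lf_cons, mul_one]
        rfl
    · -- (D)
      rcases s1 with ⟨r, e⟩
      simp only at h2 h3 h4 h5
      subst h2
      rw [S.opS_tf h3 h4 h5, scons_lf]
      have h6 : S.tri u1 b1 t h0 p a1 := S.rot (S.rot h4)
      by_cases hc : s = u1 ∧ f * b1⁻¹ = 1
      · obtain ⟨hc1, hc2⟩ := hc
        have hc3 : f = b1 := mul_inv_eq_one.1 hc2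
        subst hc1
        subst hc3
        obtain ⟨e1, e2, e3⟩ := S.fn h6 h
        subst e1
        subst e2
        subst e3
        simp only [mul_inv_cancel]
        have h8 : S.opS (s, true) (scons (1, (s, false)) (lf (a1⁻¹ * a2) (S.opS (u2, true) (lf b2 (l1, g))))) =
            lf (a1⁻¹ * a2) (S.opS (u2, true) (lf b2 (l1, g))) := S.opS_cancel_tf _ _ _
        rw [h8, lf_cons]
        have h9 : S.tri r (h0⁻¹ * f0)⁻¹ p a2 u2 b2 := by
          have : (h0⁻¹ * f0)⁻¹ = f0⁻¹ * h0 := by group
          rw [this]; exact h5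
        rw [S.opS_ff h9, lf_lf a1⁻¹]
      · have h7 : S.tri u1 ((f * b1⁻¹)⁻¹ * f) t h0 p a1 := by
          have : (f * b1⁻¹)⁻¹ * f = b1 := by group
          rw [this]; exact h6
        have h8 : S.opS (s, true) (scons (f * b1⁻¹, (u1, false))
              (lf (a1⁻¹ * a2) (S.opS (u2, true) (lf b2 (l1, g))))) =
            scons (b⁻¹, (u, false)) (lf (a⁻¹ * h0) (S.opS (p, true) (lf a1
              (lf (a1⁻¹ * a2) (S.opS (u2, true) (lf b2 (l1, g))))))) :=
          S.opS_tf hc h h7 _ _
        have hcancel : a1 * (a1⁻¹ * a2) = a2 := by group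
        rw [h8, lf_lf a1, hcancel]
        have h10 := ih (lf b2 (l1, g)).1 (lf b2 (l1, g)).2 (by rw [length_lf]; exact hl1)
          (S.rot h5) ((normal_lf S b2 (l1, g)).2 hN1)
        have h11 : ((lf b2 (l1, g)).1, (lf b2 (l1, g)).2) = lf b2 (l1, g) := rfl
        rw [h11] at h10
        rw [h10, lf_lf b2⁻¹, inv_mul_cancel, lf_one, opS_normal S hN, lf_cons, mul_one, lf_cons]
        have h12 : S.Keep (u, false) (a⁻¹ * f0) (r, false) := by
          simp only [TSys.Keep]
          intro hd
          have e1 : (a⁻¹ * f0)⁻¹ = f0⁻¹ * a := by group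
          rw [e1] at hd
          obtain ⟨e2, e3⟩ := S.com_unique h3 (S.D_tri h4) (S.D_tri h5) (S.D_tri (S.rot h)) hd
          subst e2
          subst e3
          obtain ⟨e4, e5, e6⟩ := S.fn (S.rot h) h4
          apply hc
          exact ⟨e5, by rw [e6, mul_inv_cancel]⟩
        rw [lf_cons, S.opS_keep h12, lf_cons, mul_one]
        have e7 : a⁻¹ * h0 * (f0⁻¹ * h0)⁻¹ = a⁻¹ * f0 := by group
        simp only [scons, e7]
    · exact absurd h1 (by simp)

end E2M

theorem specE2 : SpecE2 := by
  intro F E _ S s f t a u b l g h hN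
  exact E2M.main S l.length l g le_rfl h hN

end BA
end

section
/-!
# MP_135d84_al, module E1: `opS s⁺` and `opS s⁻` are inverse to each other on normal states
-/
set_option autoImplicit false

namespace BA

theorem specE1 (hE2 : SpecE2) : SpecE1 := by
  intro F E _ S s e l g hN
  cases e
  · -- s⁺ s⁻
    show S.opS (s, true) (S.opS (s, false) (l, g)) = (l, g)
    rcases l with _ | ⟨⟨f0, s1⟩, l1⟩
    · rw [S.opS_nil, S.opS_cancel_tf]
    have hN1 : S.Normal l1 := E2M.normal_tail S hN
    rcases S.cases_op (s, false) f0 s1 with hk | ⟨h1, h2, h3⟩ | ⟨h1, _⟩ |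
      ⟨h1, _⟩ | ⟨_, h2, a, u, b, h3⟩
    · rw [S.opS_keep hk, S.opS_cancel_tf]
    · rcases s1 with ⟨k, e⟩
      simp only at h1 h2 h3
      have e1 : e = true := by
        cases e
        · exact absurd h2 (by decide)
        · rfl
      subst e1
      subst h1
      subst h3
      rw [S.opS_cancel_ft, E2M.opS_normal S hN]
    · exact absurd h1 (by simp)
    · exact absurd h1 (by simp)
    · rcases s1 with ⟨k, e⟩
      simp only at h2 h3
      subst h2
      rw [S.opS_ff h3]
      have h4 := hE2 S (lf b (l1, g)).1 (lf b (l1, g)).2 (S.rot h3)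
        ((E2M.normal_lf S b (l1, g)).2 hN1)
      have h5 : ((lf b (l1, g)).1, (lf b (l1, g)).2) = lf b (l1, g) := rfl
      rw [h5] at h4
      rw [h4, lf_lf b⁻¹, inv_mul_cancel, lf_one, inv_inv, E2M.opS_normal S hN, lf_cons, mul_one]
  · -- s⁻ s⁺
    show S.opS (s, false) (S.opS (s, true) (l, g)) = (l, g)
    rcases l with _ | ⟨⟨f0, s1⟩, l1⟩
    · rw [S.opS_nil, S.opS_cancel_ft]
    have hN1 : S.Normal l1 := E2M.normal_tail S hN
    rcases S.cases_op (s, true) f0 s1 with hk | ⟨h1, h2, h3⟩ | ⟨_, h2, a, u, b, h3⟩ |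
      ⟨_, h2, h3, h0, r, a, u, b, a', u', b', h4, h5⟩ | ⟨h1, _⟩
    · rw [S.opS_keep hk, S.opS_cancel_ft]
    · rcases s1 with ⟨k, e⟩
      simp only at h1 h2 h3
      have e1 : e = false := by
        cases e
        · rfl
        · exact absurd h2 (by decide)
      subst e1
      subst h1
      subst h3
      rw [S.opS_cancel_tf, E2M.opS_normal S hN]
    · rcases s1 with ⟨k, e⟩
      simp only at h2 h3
      subst h2
      rw [S.opS_tt h3]
      have h6 : S.tri u (b⁻¹)⁻¹ s f0 k a := by rw [inv_inv]; exact S.rot (S.rot h3)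
      have h7 : S.opS (s, false) (scons (b⁻¹, (u, false)) (lf a⁻¹ (l1, g))) =
          lf f0 (S.opS (k, true) (lf a (lf a⁻¹ (l1, g)))) := S.opS_ff h6 _ _
      rw [h7, lf_lf a, mul_inv_cancel, lf_one, E2M.opS_normal S hN, lf_cons, mul_one]
    · rcases s1 with ⟨k, e⟩
      simp only at h2 h3 h4 h5
      subst h2
      rw [S.opS_tf h3 h4 h5]
      have h6 : S.tri u (b⁻¹)⁻¹ s h0 r a := by rw [inv_inv]; exact S.rot (S.rot h4)
      have h7 : S.opS (s, false) (scons (b⁻¹, (u, false))
            (lf (a⁻¹ * a') (S.opS (u', true) (lf b' (l1, g))))) =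
          lf h0 (S.opS (r, true) (lf a (lf (a⁻¹ * a') (S.opS (u', true) (lf b' (l1, g)))))) :=
        S.opS_ff h6 _ _
      have e1 : a * (a⁻¹ * a') = a' := by group
      have h8 := hE2 S (lf b' (l1, g)).1 (lf b' (l1, g)).2 (S.rot h5)
        ((E2M.normal_lf S b' (l1, g)).2 hN1)
      have h9 : ((lf b' (l1, g)).1, (lf b' (l1, g)).2) = lf b' (l1, g) := rfl
      rw [h9] at h8
      rw [h7, lf_lf a, e1, h8, lf_lf b'⁻¹, inv_mul_cancel, lf_one, E2M.opS_normal S hN, lf_cons,
        mul_one, lf_cons]
      have e2 : h0 * (f0⁻¹ * h0)⁻¹ = f0 := by group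
      rw [e2]
    · exact absurd h1 (by simp)

end BA
end

section
/-!
# MP_135d84_al, module FT: the fellow traveller property
-/
set_option autoImplicit false

namespace BA

namespace FTM

open Pointwise

section

variable {T E : Type} {S : TSys (FreeGroup T) E} {G : Type} [Group G] (M : S.Model G)

theorem sclose_refl (w : List (Let T E)) : M.SClose {1} 1 w w := by
  intro t
  simp

theorem sclose_trans {K1 K2 : Set G} {x y : G} {w w1 w2 : List (Let T E)}
    (h1 : M.SClose K1 x w w1) (h2 : M.SClose K2 y w1 w2) : M.SClose (K1 * K2) (y * x) w w2 := by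
  intro t
  have e : (y * x * M.wv (w.take t))⁻¹ * M.wv (w2.take t) =
      ((x * M.wv (w.take t))⁻¹ * M.wv (w1.take t)) * ((y * M.wv (w1.take t))⁻¹ * M.wv (w2.take t)) := by
    group
  rw [e]
  exact Set.mul_mem_mul (h1 t) (h2 t)

theorem sclose_symm {K : Set G} {x : G} {w w1 : List (Let T E)}
    (h : M.SClose K x w w1) : M.SClose K⁻¹ x⁻¹ w1 w := by
  intro t
  rw [Set.mem_inv]
  have e : ((x⁻¹ * M.wv (w1.take t))⁻¹ * M.wv (w.take t))⁻¹ =
      (x * M.wv (w.take t))⁻¹ * M.wv (w1.take t) := by
    group
  rw [e]
  exact h t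

theorem sclose_mono {K K' : Set G} (hK : K ⊆ K') {x : G} {w w1 : List (Let T E)}
    (h : M.SClose K x w w1) : M.SClose K' x w w1 := fun t => hK (h t)

/-- left multiplication by `a` is harmless -/
def LeftOK [DecidableEq T] (C : ℕ) (a : G) (K : Set G) : Prop :=
  ∀ st st' : St (FreeGroup T) E, S.Normal st.1 → S.Normal st'.1 → M.val st' = a * M.val st →
    M.SClose K a (enc C st) (enc C st')

/-- right multiplication by `b` is harmless -/
def RightOK [DecidableEq T] (C : ℕ) (b : G) (K : Set G) : Prop :=
  ∀ st st' : St (FreeGroup T) E, S.Normal st.1 → S.Normal st'.1 → M.val st' = M.val st * b →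
    M.SClose K 1 (enc C st) (enc C st')

end

end FTM

open FTM Pointwise in
theorem specFT (hKC : SpecKC) (hNF : SpecNF) (hDOM : SpecDOM) (hOPV : SpecOPV) (hRV : SpecRV)
    (hRN : SpecRN) (hWL : SpecWL) (hWR : SpecWR) : SpecFT := by
  intro T E _ _ _ S G _ M
  obtain ⟨C1, hC1⟩ := hKC S
  obtain ⟨C2, hC2⟩ := hWL S M
  obtain ⟨C3, hC3⟩ := hWR S M
  set C := max C1 (max C2 C3) with hC
  have h1 : C1 ≤ C := le_max_left _ _
  have h2 : C2 ≤ C := le_trans (le_max_left _ _) (le_max_right _ _)
  have h3 : C3 ≤ C := le_trans (le_max_right _ _) (le_max_right _ _)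
  obtain ⟨KL, hKL, hL1, hL2⟩ := hC2 C h2
  obtain ⟨KR, hKR, hR1, hR2⟩ := hC3 C h3
  obtain ⟨hex, huniq⟩ := hNF S M
  refine ⟨C, fun s f t h => hC1 s f t (lt_of_le_of_lt h1 h), ?_⟩
  have hlfn : ∀ (f : FreeGroup T) (st : St (FreeGroup T) E), S.Normal st.1 → S.Normal (lf f st).1 := by
    intro f st hst
    rcases st with ⟨_ | ⟨⟨f0, s0⟩, l⟩, g⟩
    · exact hst
    · rw [lf_cons]
      rcases l with _ | ⟨y, l⟩
      · exact List.isChain_singleton _
      · change List.IsChain _ _ at hst
        rw [List.isChain_cons_cons] at hst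
        show List.IsChain _ _
        rw [List.isChain_cons_cons]
        exact hst
  -- left
  have hleft : ∀ a : G, ∃ K : Set G, K.Finite ∧ LeftOK M C a K := by
    intro a
    have ha : a ∈ Subgroup.closure (Set.range M.io ∪ Set.range M.ev) := by rw [M.gen]; trivial
    have hone : ∃ K : Set G, K.Finite ∧ LeftOK M C 1 K := by
      refine ⟨{1}, Set.finite_singleton _, ?_⟩
      intro st st' hst hst' h
      rw [one_mul] at h
      rw [huniq st' st hst' hst h]
      exact sclose_refl M _
    have hmul : ∀ a b : G, (∃ K : Set G, K.Finite ∧ LeftOK M C a K) →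
        (∃ K : Set G, K.Finite ∧ LeftOK M C b K) → ∃ K : Set G, K.Finite ∧ LeftOK M C (a * b) K := by
      rintro a b ⟨K1, hK1, ha⟩ ⟨K2, hK2, hb⟩
      refine ⟨K2 * K1, hK2.mul hK1, ?_⟩
      intro st st' hst hst' h
      obtain ⟨st1, hst1, hv1⟩ := hex (b * M.val st)
      have c1 := hb st st1 hst hst1 hv1
      have c2 := ha st1 st' hst1 hst' (by rw [h, hv1, mul_assoc])
      exact sclose_trans M c1 c2
    have hinv : ∀ a : G, (∃ K : Set G, K.Finite ∧ LeftOK M C a K) →
        ∃ K : Set G, K.Finite ∧ LeftOK M C a⁻¹ K := by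
      rintro a ⟨K1, hK1, ha⟩
      refine ⟨K1⁻¹, hK1.inv, ?_⟩
      intro st st' hst hst' h
      have c1 := ha st' st hst' hst (by rw [h]; group)
      exact sclose_symm M c1
    refine Subgroup.closure_induction (p := fun a _ => ∃ K : Set G, K.Finite ∧ LeftOK M C a K)
      ?_ hone (fun a b _ _ => hmul a b) (fun a _ => hinv a) ha
    rintro x (⟨f, rfl⟩ | ⟨e, rfl⟩)
    · have hf : f ∈ Subgroup.closure (Set.range (FreeGroup.of (α := T))) := by
        rw [FreeGroup.closure_range_of]; trivial
      refine Subgroup.closure_induction (p := fun f _ => ∃ K : Set G, K.Finite ∧ LeftOK M C (M.io f) K)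
        ?_ ?_ ?_ ?_ hf
      · rintro x ⟨t, rfl⟩
        refine ⟨KL, hKL, ?_⟩
        intro st st' hst hst' h
        have he : st' = lf (FreeGroup.mk [(t, true)]) st := by
          apply huniq _ _ hst' (hlfn _ _ hst)
          rw [h, M.val_lf]
          rfl
        rw [he]
        exact hL2 (t, true) st
      · rw [map_one]; exact hone
      · intro a b _ _ ha hb
        rw [map_mul]; exact hmul _ _ ha hb
      · intro a _ ha
        rw [map_inv]; exact hinv _ ha
    · refine ⟨KL, hKL, ?_⟩
      intro st st' hst hst' h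
      have he : st' = S.opS (e, true) st := by
        apply huniq _ _ hst' (hDOM S (e, true) st.1 st.2 hst)
        rw [h, hOPV S M (e, true) st]
        rfl
      rw [he]
      exact hL1 (e, true) st
  -- right
  have hright : ∀ a : G, ∃ K : Set G, K.Finite ∧ RightOK M C a K := by
    intro a
    have ha : a ∈ Subgroup.closure (Set.range M.io ∪ Set.range M.ev) := by rw [M.gen]; trivial
    have hone : ∃ K : Set G, K.Finite ∧ RightOK M C 1 K := by
      refine ⟨{1}, Set.finite_singleton _, ?_⟩
      intro st st' hst hst' h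
      rw [mul_one] at h
      rw [huniq st' st hst' hst h]
      exact sclose_refl M _
    have hmul : ∀ a b : G, (∃ K : Set G, K.Finite ∧ RightOK M C a K) →
        (∃ K : Set G, K.Finite ∧ RightOK M C b K) → ∃ K : Set G, K.Finite ∧ RightOK M C (a * b) K := by
      rintro a b ⟨K1, hK1, ha⟩ ⟨K2, hK2, hb⟩
      refine ⟨K1 * K2, hK1.mul hK2, ?_⟩
      intro st st' hst hst' h
      obtain ⟨st1, hst1, hv1⟩ := hex (M.val st * a)
      have c1 := ha st st1 hst hst1 hv1
      have c2 := hb st1 st' hst1 hst' (by rw [h, hv1, mul_assoc])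
      have c3 := sclose_trans M c1 c2
      rwa [mul_one] at c3
    have hinv : ∀ a : G, (∃ K : Set G, K.Finite ∧ RightOK M C a K) →
        ∃ K : Set G, K.Finite ∧ RightOK M C a⁻¹ K := by
      rintro a ⟨K1, hK1, ha⟩
      refine ⟨K1⁻¹, hK1.inv, ?_⟩
      intro st st' hst hst' h
      have c1 := ha st' st hst' hst (by rw [h]; group)
      have c2 := sclose_symm M c1
      rwa [inv_one] at c2
    refine Subgroup.closure_induction (p := fun a _ => ∃ K : Set G, K.Finite ∧ RightOK M C a K)
      ?_ hone (fun a b _ _ => hmul a b) (fun a _ => hinv a) ha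
    rintro x (⟨f, rfl⟩ | ⟨e, rfl⟩)
    · have hf : f ∈ Subgroup.closure (Set.range (FreeGroup.of (α := T))) := by
        rw [FreeGroup.closure_range_of]; trivial
      refine Subgroup.closure_induction (p := fun f _ => ∃ K : Set G, K.Finite ∧ RightOK M C (M.io f) K)
        ?_ ?_ ?_ ?_ hf
      · rintro x ⟨t, rfl⟩
        refine ⟨KR, hKR, ?_⟩
        rintro ⟨l, g⟩ st' hst hst' h
        have he : st' = (l, g * FreeGroup.mk [(t, true)]) := by
          apply huniq st' (l, g * FreeGroup.mk [(t, true)]) hst' hst
          rw [h, M.val_mk, M.val_mk, map_mul, mul_assoc]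
          rfl
        rw [he]
        exact hR2 (t, true) l g
      · rw [map_one]; exact hone
      · intro a b _ _ ha hb
        rw [map_mul]; exact hmul _ _ ha hb
      · intro a _ ha
        rw [map_inv]; exact hinv _ ha
    · refine ⟨KR, hKR, ?_⟩
      rintro ⟨l, g⟩ st' hst hst' h
      have hn : S.Normal (S.rm l.reverse g e).1.reverse :=
        hRN S l.reverse g e (by rw [List.reverse_reverse]; exact hst)
      have he : st' = ((S.rm l.reverse g e).1.reverse, (S.rm l.reverse g e).2) := by
        apply huniq _ _ hst' hn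
        rw [h, M.val_mk, M.val_mk, (hRV S M l.reverse g e).2, List.reverse_reverse]
      rw [he]
      exact hR1 e l g hst
  choose KA hKA hKA' using hleft
  choose KB hKB hKB' using hright
  set A : Set G := {a | a = 1 ∨ a ∈ M.PC C ∨ a⁻¹ ∈ M.PC C} with hA
  have hAf : A.Finite := by
    have hp := BIM.finite_PC M C
    refine ((Set.finite_singleton (1 : G)).union (hp.union hp.inv)).subset ?_
    rintro a (h | h | h)
    · left; exact h
    · right; left; exact h
    · right; right; exact h
  refine ⟨(⋃ a ∈ A, KA a) * (⋃ b ∈ A, KB b), ?_, ?_⟩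
  · exact (hAf.biUnion fun a _ => hKA a).mul (hAf.biUnion fun a _ => hKB a)
  · intro st st' hst hst' a b ha hb h
    obtain ⟨st1, hst1, hv1⟩ := hex (a * M.val st)
    have c1 := hKA' a st st1 hst hst1 hv1
    have c2 := hKB' b st1 st' hst1 hst' (by rw [h, hv1])
    have c3 := sclose_trans M c1 c2
    rw [one_mul] at c3
    refine sclose_mono M ?_ c3
    exact Set.mul_subset_mul (Set.subset_biUnion_of_mem (u := fun a => KA a) (show a ∈ A from ha))
      (Set.subset_biUnion_of_mem (u := fun b => KB b) (show b ∈ A from hb))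

end BA
end

section
set_option autoImplicit false

namespace BA

namespace INJM

theorem mk_inj {T : Type} {z z' : T × Bool} (h : FreeGroup.mk [z] = FreeGroup.mk [z']) : z = z' := by
  classical
  have h1 : (FreeGroup.mk [z]).toWord = (FreeGroup.mk [z']).toWord := by rw [h]
  rw [FreeGroup.toWord_mk, FreeGroup.toWord_mk] at h1
  obtain ⟨t, b⟩ := z
  obtain ⟨t', b'⟩ := z'
  simpa [FreeGroup.reduce] using h1

end INJM

theorem specINJ (hNF : SpecNF) : SpecINJ := by
  intro T E S G _ M
  obtain ⟨_, hun⟩ := hNF S M
  have hn0 : S.Normal ([] : List (FreeGroup T × Sg E)) := List.IsChain.nil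
  have hn1 : ∀ x : FreeGroup T × Sg E, S.Normal [x] := fun x => List.IsChain.singleton x
  rintro (z | ⟨f, s⟩) (z' | ⟨f', s'⟩) h
  · simp only [TSys.Model.evL] at h
    have h1 := hun ([], FreeGroup.mk [z]) ([], FreeGroup.mk [z']) hn0 hn0
      (by simpa [TSys.Model.val_mk] using h)
    rw [INJM.mk_inj (Prod.ext_iff.1 h1).2]
  · simp only [TSys.Model.evL] at h
    have h1 := hun ([], FreeGroup.mk [z]) ([(f', s')], 1) hn0 (hn1 _)
      (by simpa [TSys.Model.val_mk] using h)
    have h2 := (Prod.ext_iff.1 h1).1
    simp at h2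
  · simp only [TSys.Model.evL] at h
    have h1 := hun ([(f, s)], 1) ([], FreeGroup.mk [z']) (hn1 _) hn0
      (by simpa [TSys.Model.val_mk] using h)
    have h2 := (Prod.ext_iff.1 h1).1
    simp at h2
  · simp only [TSys.Model.evL] at h
    have h1 := hun ([(f, s)], 1) ([(f', s')], 1) (hn1 _) (hn1 _)
      (by simpa [TSys.Model.val_mk] using h)
    have h2 := (Prod.ext_iff.1 h1).1
    simp only [List.cons.injEq, Prod.mk.injEq, and_true] at h2
    rw [h2.1, h2.2]

end BA
end

section
set_option autoImplicit false

namespace BA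

theorem specKC : SpecKC := by
  intro T E _ S
  set Lab : Set (FreeGroup T) := (fun p : E × FreeGroup T × E => p.2.1) ''
    {p : E × FreeGroup T × E | ∃ a u b, S.tri p.1 p.2.1 p.2.2 a u b} with hLab
  have hfin : Lab.Finite := S.fin.image _
  have hmem : ∀ {s : E} {f : FreeGroup T} {t : E}, S.D s f t → f ∈ Lab := by
    intro s f t h
    exact ⟨(s, f, t), h, rfl⟩
  set A : Set (FreeGroup T) := {1} ∪ Lab ∪ (fun x => x⁻¹) '' Lab ∪ Set.image2 (fun x y => x * y⁻¹) Lab Lab with hA
  have hAfin : A.Finite := by
    refine Set.Finite.union (Set.Finite.union (Set.Finite.union (Set.finite_singleton 1) hfin) (hfin.image _)) ?_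
    exact hfin.image2 _ hfin
  have hbad : ∀ (s : Sg E) (f : FreeGroup T) (t : Sg E), ¬ S.Keep s f t → f ∈ A := by
    rintro ⟨s, e⟩ f ⟨t, e'⟩ h
    cases e <;> cases e' <;> simp only [TSys.Keep, not_not] at h
    · left; right
      exact ⟨f⁻¹, hmem h, inv_inv f⟩
    · left; left; left
      exact h.2
    · by_cases h1 : s = t ∧ f = 1
      · left; left; left
        exact h1.2
      · have h2 : ∃ h r, S.D s h r ∧ S.D t (f⁻¹ * h) r := by
          by_contra h3
          exact h ⟨h1, h3⟩
        obtain ⟨x, r, h3, h4⟩ := h2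
        right
        refine ⟨x, hmem h3, f⁻¹ * x, hmem h4, ?_⟩
        group
    · left; left; right
      exact hmem h
  obtain ⟨C, hC⟩ := (hAfin.image FreeGroup.norm).bddAbove
  refine ⟨C, ?_⟩
  intro s f t hf
  by_contra h
  have h1 : f.norm ≤ C := hC ⟨f, hbad s f t h, rfl⟩
  omega

end BA
end

section
set_option autoImplicit false

namespace BA

open Pointwise

namespace LSM

variable {F E : Type} [Group F]

/-- the labels, their inverses and 1 -/
def AA (S : TSys F E) : Set F :=
  {x | x = 1 ∨ (∃ s t, S.D s x t) ∨ ∃ s t, S.D s x⁻¹ t}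

theorem AA_fin (S : TSys F E) : (AA S).Finite := by
  have h1 : ((fun p : E × F × E => p.2.1) '' {p : E × F × E | ∃ a u b, S.tri p.1 p.2.1 p.2.2 a u b}).Finite :=
    S.fin.image _
  have h2 := h1.image (fun x => x⁻¹)
  refine (((Set.finite_singleton (1 : F)).union h1).union h2).subset ?_
  rintro x (rfl | ⟨s, t, h⟩ | ⟨s, t, h⟩)
  · left; left; rfl
  · left; right
    exact ⟨(s, x, t), h, rfl⟩
  · right
    exact ⟨x⁻¹, ⟨(s, x⁻¹, t), h, rfl⟩, inv_inv x⟩

theorem one_mem (S : TSys F E) : (1 : F) ∈ AA S := Or.inl rfl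

theorem inv_mem (S : TSys F E) {x : F} (h : x ∈ AA S) : x⁻¹ ∈ AA S := by
  rcases h with rfl | ⟨s, t, h⟩ | ⟨s, t, h⟩
  · left; simp
  · right; right
    exact ⟨s, t, by rw [inv_inv]; exact h⟩
  · right; left
    exact ⟨s, t, h⟩

theorem D_mem (S : TSys F E) {s : E} {f : F} {t : E} (h : S.D s f t) : f ∈ AA S := Or.inr (Or.inl ⟨s, t, h⟩)

/-- `f` in a relator -/
theorem t1 (S : TSys F E) {s : E} {f : F} {t : E} {a : F} {u : E} {c : F} (h : S.tri s f t a u c) : f ∈ AA S :=
  D_mem S (S.D_tri h)
theorem t2 (S : TSys F E) {s : E} {f : F} {t : E} {a : F} {u : E} {c : F} (h : S.tri s f t a u c) : a ∈ AA S :=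
  D_mem S (S.D_tri (S.rot h))
theorem t3 (S : TSys F E) {s : E} {f : F} {t : E} {a : F} {u : E} {c : F} (h : S.tri s f t a u c) : c ∈ AA S :=
  D_mem S (S.D_tri (S.rot (S.rot h)))

section pw

variable {H : Type} [Monoid H] {W : Set H}

theorem mem_succ {n : ℕ} {x y : H} (hx : x ∈ W ^ n) (hy : y ∈ W) : x * y ∈ W ^ (n + 1) := by
  rw [pow_succ]
  exact Set.mul_mem_mul hx hy

theorem mem_one' {x : H} (hx : x ∈ W) : x ∈ W ^ 1 := by rwa [pow_one]

theorem mem_mul {m n : ℕ} {x y : H} (hx : x ∈ W ^ m) (hy : y ∈ W ^ n) : x * y ∈ W ^ (m + n) := by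
  rw [pow_add]
  exact Set.mul_mem_mul hx hy

theorem mono {m n : ℕ} (h1 : (1 : H) ∈ W) (hmn : m ≤ n) {x : H} (hx : x ∈ W ^ m) : x ∈ W ^ n :=
  Set.pow_subset_pow_right h1 hmn hx

theorem pow_fin (h : W.Finite) (n : ℕ) : (W ^ n).Finite := by
  induction n with
  | zero => rw [pow_zero]; exact Set.finite_one
  | succ n ih => rw [pow_succ]; exact ih.mul h

end pw

variable {S : TSys F E} {G : Type} [Group G] (M : S.Model G)

/-- the values of the symbols and of the short labels -/
def WW : Set G := {x | x = 1 ∨ (∃ s : Sg E, x = M.sv s) ∨ ∃ a ∈ AA S, x = M.io a}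

theorem WW_fin [Finite E] : (WW M).Finite := by
  have h1 : (Set.range M.sv).Finite := Set.finite_range _
  have h2 : (M.io '' AA S).Finite := (AA_fin S).image _
  refine (((Set.finite_singleton (1 : G)).union h1).union h2).subset ?_
  rintro x (rfl | ⟨s, rfl⟩ | ⟨a, ha, rfl⟩)
  · left; left; rfl
  · left; right
    exact ⟨s, rfl⟩
  · right
    exact ⟨a, ha, rfl⟩

theorem W1 : (1 : G) ∈ WW M := Or.inl rfl
theorem Wsv (s : Sg E) : M.sv s ∈ WW M := Or.inr (Or.inl ⟨s, rfl⟩)
theorem Wio {a : F} (h : a ∈ AA S) : M.io a ∈ WW M := Or.inr (Or.inr ⟨a, h, rfl⟩)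
theorem Wev (s : E) : M.ev s ∈ WW M := Wsv M (s, true)
theorem Wei (s : E) : (M.ev s)⁻¹ ∈ WW M := Wsv M (s, false)

theorem Wii {a : F} (h : a ∈ AA S) : (M.io a)⁻¹ ∈ WW M := by
  rw [← map_inv]
  exact Wio M (inv_mem S h)

theorem io_pow {n : ℕ} : ∀ {a : F}, a ∈ AA S ^ n → M.io a ∈ WW M ^ n := by
  induction n with
  | zero =>
    intro a ha
    rw [pow_zero] at ha ⊢
    rw [Set.mem_one] at ha
    subst ha
    rw [map_one]
    exact Set.mem_one.2 rfl
  | succ n ih =>
    intro a ha
    rw [pow_succ] at ha
    obtain ⟨x, hx, y, hy, rfl⟩ := Set.mem_mul.1 ha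
    rw [map_mul]
    exact mem_succ (ih hx) (Wio M hy)

/-- one more factor -/
theorem take_succ_val (q : List (F × Sg E)) (hq : ∀ x ∈ q, x.1 ∈ AA S ^ 3) (j : ℕ) :
    ∃ w ∈ WW M ^ 4, M.vl (q.take (j + 1)) = M.vl (q.take j) * w := by
  rw [List.take_add_one, M.vl_append]
  rcases h : q[j]? with _ | x
  · exact ⟨1, mono (W1 M) (Nat.zero_le 4) (by rw [pow_zero]; exact Set.mem_one.2 rfl), by simp⟩
  · refine ⟨M.io x.1 * M.sv x.2, mem_succ (io_pow M (hq x (List.mem_of_getElem? h))) (Wsv M _), by simp⟩

theorem rel1 {s : E} {f : F} {t : E} {a : F} {u : E} {c : F} (h : S.tri s f t a u c) :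
    M.ev s * M.io f * M.ev t = (M.io a * M.ev u * M.io c)⁻¹ := by
  have hr := M.rel h
  have e2 : (M.ev s * M.io f * M.ev t) * (M.io a * M.ev u * M.io c) = 1 := by
    simpa [mul_assoc] using hr
  exact mul_eq_one_iff_eq_inv.1 e2

/-- the positive case -/
theorem P (l : List (F × Sg E)) : ∀ (u : E) (b g : F), b ∈ AA S →
    ∃ (q q' p : List (F × Sg E)) (v : F), l = q ++ p ∧ v ∈ AA S ^ 2 ∧
      S.opS (u, true) (lf b (l, g)) = (q' ++ (lf v (p, g)).1, (lf v (p, g)).2) ∧
      (∀ x ∈ q, x.1 ∈ AA S ^ 3) ∧ (∀ x ∈ q', x.1 ∈ AA S ^ 3) ∧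
      q.length ≤ q'.length + 1 ∧ q'.length ≤ q.length + 1 ∧
      (∀ i : ℕ, (M.ev u * M.io b * M.vl (q.take i))⁻¹ * M.vl (q'.take i) ∈ WW M ^ 4) ∧
      ((q' = [] ∧ v = 1 ∧ ∀ i : ℕ, (M.ev u * M.io b * M.vl (q.take i))⁻¹ ∈ WW M ^ 2) ∨
        ∃ φ σ q2, q' = (φ, σ) :: q2 ∧ φ ∈ AA S) := by
  have o1 := one_mem S
  have w1 := W1 M
  induction l with
  | nil =>
    intro u b g hb
    refine ⟨[], [(1, (u, true))], [], b, rfl, mono o1 (by norm_num) (mem_one' hb), ?_, by simp, ?_, by simp,
      by simp, ?_, Or.inr ⟨1, (u, true), [], rfl, o1⟩⟩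
    · rw [lf_nil, S.opS_nil]
      simp
    · intro x hx
      rw [List.mem_singleton] at hx
      subst hx
      exact mono o1 (by norm_num) (mem_one' o1)
    · intro i
      rcases i with _ | i
      · have : (M.ev u * M.io b * M.vl (([] : List (F × Sg E)).take 0))⁻¹ *
            M.vl (([(1, (u, true))] : List (F × Sg E)).take 0) = (M.io b)⁻¹ * (M.ev u)⁻¹ := by simp
        rw [this]
        exact mono w1 (by norm_num) (mem_succ (mem_one' (Wii M hb)) (Wei M u))
      · have : (M.ev u * M.io b * M.vl (([] : List (F × Sg E)).take (i + 1)))⁻¹ *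
            M.vl (([(1, (u, true))] : List (F × Sg E)).take (i + 1)) = (M.io b)⁻¹ := by simp
        rw [this]
        exact mono w1 (by norm_num) (mem_one' (Wii M hb))
  | cons x l ih =>
    intro u b g hb
    obtain ⟨f, t⟩ := x
    rw [lf_cons]
    have hzero : (M.ev u * M.io b)⁻¹ ∈ WW M ^ 2 := by
      rw [mul_inv_rev]
      exact mem_succ (mem_one' (Wii M hb)) (Wei M u)
    rcases S.cases_op (u, true) (b * f) t with h | ⟨h1, h2, h3⟩ | ⟨_, h2, a, u', c, h3⟩ |
        ⟨_, h2, h3, h, r, a, u1, c, a', u', c', h4, h5⟩ | ⟨h1, _⟩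
    · -- keep
      rw [S.opS_keep h]
      refine ⟨[], [(1, (u, true))], (f, t) :: l, b, rfl, mono o1 (by norm_num) (mem_one' hb), ?_, by simp, ?_,
        by simp, by simp, ?_, Or.inr ⟨1, (u, true), [], rfl, o1⟩⟩
      · simp
      · intro x hx
        rw [List.mem_singleton] at hx
        subst hx
        exact mono o1 (by norm_num) (mem_one' o1)
      · intro i
        rcases i with _ | i
        · have : (M.ev u * M.io b * M.vl (([] : List (F × Sg E)).take 0))⁻¹ *
              M.vl (([(1, (u, true))] : List (F × Sg E)).take 0) = (M.ev u * M.io b)⁻¹ := by simp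
          rw [this]
          exact mono w1 (by norm_num) hzero
        · have : (M.ev u * M.io b * M.vl (([] : List (F × Sg E)).take (i + 1)))⁻¹ *
              M.vl (([(1, (u, true))] : List (F × Sg E)).take (i + 1)) = (M.io b)⁻¹ := by simp
          rw [this]
          exact mono w1 (by norm_num) (mem_one' (Wii M hb))
    · -- cancel
      obtain ⟨t, e⟩ := t
      simp only at h1 h2
      subst h1
      have he : e = false := by
        cases e with
        | false => rfl
        | true => exact absurd h2 (by decide)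
      subst he
      rw [h3, S.opS_cancel_tf]
      have hf : f = b⁻¹ := (inv_eq_of_mul_eq_one_right h3).symm
      have hpre : ∀ i : ℕ, (M.ev u * M.io b * M.vl (([(f, (u, false))] : List (F × Sg E)).take i))⁻¹ ∈
          WW M ^ 2 := by
        intro i
        rcases i with _ | i
        · simpa using hzero
        · have : (M.ev u * M.io b * M.vl (([(f, (u, false))] : List (F × Sg E)).take (i + 1)))⁻¹ = 1 := by
            rw [hf]
            simp
          rw [this]
          exact mono w1 (by norm_num) (mem_one' w1)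
      refine ⟨[(f, (u, false))], [], l, 1, rfl, mono o1 (by norm_num) (mem_one' o1), ?_, ?_, by simp,
        by simp, by simp, ?_, Or.inl ⟨rfl, rfl, hpre⟩⟩
      · rw [lf_one]
        rfl
      · intro x hx
        rw [List.mem_singleton] at hx
        subst hx
        show f ∈ _
        rw [hf]
        exact mono o1 (by norm_num) (mem_one' (inv_mem S hb))
      · intro i
        have := hpre i
        simp only [List.take_nil, TSys.Model.vl_nil, mul_one]
        exact mono w1 (by norm_num) this
    · -- tt
      obtain ⟨t, e⟩ := t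
      simp only at h2 h3
      subst h2
      rw [S.opS_tt h3]
      refine ⟨[(f, (t, true))], [(c⁻¹, (u', false))], l, a⁻¹, rfl,
        mono o1 (by norm_num) (mem_one' (inv_mem S (t2 S h3))), ?_, ?_, ?_,
        by simp, by simp, ?_, Or.inr ⟨c⁻¹, (u', false), [], rfl, inv_mem S (t3 S h3)⟩⟩
      · simp [scons]
      · intro x hx
        rw [List.mem_singleton] at hx
        subst hx
        show f ∈ _
        have : f = b⁻¹ * (b * f) := by group
        rw [this]
        exact mono o1 (by norm_num) (mem_succ (mem_one' (inv_mem S hb)) (t1 S h3))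
      · intro x hx
        rw [List.mem_singleton] at hx
        subst hx
        exact mono o1 (by norm_num) (mem_one' (inv_mem S (t3 S h3)))
      · intro i
        rcases i with _ | i
        · have : (M.ev u * M.io b * M.vl (([(f, (t, true))] : List (F × Sg E)).take 0))⁻¹ *
              M.vl (([(c⁻¹, (u', false))] : List (F × Sg E)).take 0) = (M.ev u * M.io b)⁻¹ := by simp
          rw [this]
          exact mono w1 (by norm_num) hzero
        · have hr := rel1 M h3
          rw [map_mul] at hr
          have e1 : M.ev u * M.io b * (M.io f * M.ev t) = (M.io a * M.ev u' * M.io c)⁻¹ := by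
            rw [← hr]
            group
          have : (M.ev u * M.io b * M.vl (([(f, (t, true))] : List (F × Sg E)).take (i + 1)))⁻¹ *
              M.vl (([(c⁻¹, (u', false))] : List (F × Sg E)).take (i + 1)) = M.io a := by
            simp only [List.take_succ_cons, List.take_nil, TSys.Model.vl_cons, TSys.Model.vl_nil, mul_one,
              TSys.Model.sv_true, TSys.Model.sv_false]
            rw [e1, map_inv]
            group
          rw [this]
          exact mono w1 (by norm_num) (mem_one' (Wio M (t2 S h3)))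
    · -- tf
      obtain ⟨t, e⟩ := t
      simp only at h2 h3 h4 h5
      subst h2
      rw [S.opS_tf h3 h4 h5]
      obtain ⟨q, q', p, v, i1, i2, i3, i4, i5, i6, i7, i8, i9⟩ := ih u' c' g (t3 S h5)
      have ha2 : a⁻¹ * a' ∈ AA S ^ 2 := mem_succ (mem_one' (inv_mem S (t2 S h4))) (t2 S h5)
      have hc1 : c⁻¹ ∈ AA S := inv_mem S (t3 S h4)
      have hf : f ∈ AA S ^ 3 := by
        have : f = b⁻¹ * h * ((b * f)⁻¹ * h)⁻¹ := by group
        rw [this]
        exact mem_succ (mem_succ (mem_one' (inv_mem S hb)) (t1 S h4)) (inv_mem S (t1 S h5))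
      have hr := rel1 M h4
      have hr' := rel1 M h5
      -- the key identity
      have key : ∀ X : G, (M.ev u * M.io b * (M.io f * (M.ev t)⁻¹ * X))⁻¹ * (M.io c⁻¹ * (M.ev u1)⁻¹) =
          (M.ev u' * M.io c' * X)⁻¹ * M.io (a⁻¹ * a')⁻¹ := by
        intro X
        have e1 : (M.io c)⁻¹ * (M.ev u1)⁻¹ = M.ev u * M.io h * M.ev r * M.io a := by
          rw [hr]
          group
        have e2 : M.ev u' * M.io c' = (M.io a')⁻¹ * (M.ev t * M.io ((b * f)⁻¹ * h) * M.ev r)⁻¹ := by
          rw [hr']
          group
        rw [map_inv M.io c, e1, e2]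
        simp only [map_mul, map_inv]
        group
      rcases i9 with ⟨j1, j2, j3⟩ | ⟨φ, σ, q2, j1, j2⟩
      · subst j1 j2
        refine ⟨(f, (t, false)) :: q, [(c⁻¹, (u1, false))], p, a⁻¹ * a', by rw [i1]; rfl, ha2, ?_, ?_, ?_,
          ?_, by simp, ?_, Or.inr ⟨c⁻¹, (u1, false), [], rfl, hc1⟩⟩
        · rw [i3]
          rw [lf_one]
          simp [scons]
        · intro x hx
          rcases List.mem_cons.1 hx with rfl | hx
          · exact hf
          · exact i4 x hx
        · intro x hx
          rw [List.mem_singleton] at hx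
          subst hx
          exact mono o1 (by norm_num) (mem_one' hc1)
        · simp only [List.length_nil, List.length_cons] at i6 ⊢
          omega
        · intro i
          rcases i with _ | i
          · have : (M.ev u * M.io b * M.vl (((f, (t, false)) :: q).take 0))⁻¹ *
                M.vl (([(c⁻¹, (u1, false))] : List (F × Sg E)).take 0) = (M.ev u * M.io b)⁻¹ := by simp
            rw [this]
            exact mono w1 (by norm_num) hzero
          · have : (M.ev u * M.io b * M.vl (((f, (t, false)) :: q).take (i + 1)))⁻¹ *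
                M.vl (([(c⁻¹, (u1, false))] : List (F × Sg E)).take (i + 1)) =
                (M.ev u' * M.io c' * M.vl (q.take i))⁻¹ * M.io (a⁻¹ * a')⁻¹ := by
              rw [← key]
              simp
            rw [this]
            have e3 : M.io (a⁻¹ * a')⁻¹ ∈ WW M ^ 2 := by
              have : (a⁻¹ * a')⁻¹ = a'⁻¹ * a := by group
              rw [this]
              exact io_pow M (mem_succ (mem_one' (inv_mem S (t2 S h5))) (t2 S h4))
            exact mem_mul (j3 i) e3
      · subst j1
        refine ⟨(f, (t, false)) :: q, (c⁻¹, (u1, false)) :: (a⁻¹ * a' * φ, σ) :: q2, p, v, by rw [i1]; rfl, i2,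
          ?_, ?_, ?_, ?_, ?_, ?_, Or.inr ⟨c⁻¹, (u1, false), _, rfl, hc1⟩⟩
        · rw [i3]
          simp [scons]
        · intro x hx
          rcases List.mem_cons.1 hx with rfl | hx
          · exact hf
          · exact i4 x hx
        · intro x hx
          rcases List.mem_cons.1 hx with rfl | hx
          · exact mono o1 (by norm_num) (mem_one' hc1)
          · rcases List.mem_cons.1 hx with rfl | hx
            · exact mem_succ ha2 j2
            · exact i5 x (List.mem_cons_of_mem _ hx)
        · simp only [List.length_cons] at i6 ⊢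
          omega
        · simp only [List.length_cons] at i7 ⊢
          omega
        · intro i
          rcases i with _ | i
          · have : (M.ev u * M.io b * M.vl (((f, (t, false)) :: q).take 0))⁻¹ *
                M.vl (((c⁻¹, (u1, false)) :: (a⁻¹ * a' * φ, σ) :: q2).take 0) = (M.ev u * M.io b)⁻¹ := by simp
            rw [this]
            exact mono w1 (by norm_num) hzero
          · have e4 : (M.ev u * M.io b * M.vl (((f, (t, false)) :: q).take (i + 1)))⁻¹ *
                M.vl (((c⁻¹, (u1, false)) :: (a⁻¹ * a' * φ, σ) :: q2).take (i + 1)) =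
                (M.ev u' * M.io c' * M.vl (q.take i))⁻¹ * M.io (a⁻¹ * a')⁻¹ *
                  M.vl (((a⁻¹ * a' * φ, σ) :: q2).take i) := by
              rw [← key]
              simp [mul_assoc]
            rw [e4]
            rcases i with _ | i
            · have e3 : M.io (a⁻¹ * a')⁻¹ ∈ WW M ^ 2 := by
                have : (a⁻¹ * a')⁻¹ = a'⁻¹ * a := by group
                rw [this]
                exact io_pow M (mem_succ (mem_one' (inv_mem S (t2 S h5))) (t2 S h4))
              have e5 : (M.ev u' * M.io c' * M.vl (q.take 0))⁻¹ ∈ WW M ^ 2 := by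
                simp only [List.take_zero, TSys.Model.vl_nil, mul_one, mul_inv_rev]
                exact mem_succ (mem_one' (Wii M (t3 S h5))) (Wei M u')
              have e6 : (M.ev u' * M.io c' * M.vl (q.take 0))⁻¹ * M.io (a⁻¹ * a')⁻¹ *
                  M.vl (((a⁻¹ * a' * φ, σ) :: q2).take 0) =
                  (M.ev u' * M.io c' * M.vl (q.take 0))⁻¹ * M.io (a⁻¹ * a')⁻¹ := by
                simp
              rw [e6]
              exact mem_mul e5 e3
            · have e7 : (M.ev u' * M.io c' * M.vl (q.take (i + 1)))⁻¹ * M.io (a⁻¹ * a')⁻¹ *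
                  M.vl (((a⁻¹ * a' * φ, σ) :: q2).take (i + 1)) =
                  (M.ev u' * M.io c' * M.vl (q.take (i + 1)))⁻¹ * M.vl (((φ, σ) :: q2).take (i + 1)) := by
                simp only [List.take_succ_cons, TSys.Model.vl_cons, map_mul, map_inv, mul_inv_rev]
                group
              rw [e7]
              exact i8 (i + 1)
    · exact absurd h1 (by simp)

end LSM

open LSM in
theorem specLS : SpecLS := by
  intro F E _ _ S G _ M
  have o1 := one_mem S
  have w1 := W1 M
  refine ⟨AA S ^ 3, WW M ^ 8, pow_fin (AA_fin S) 3, pow_fin (WW_fin M) 8, ?_⟩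
  rintro ⟨s, e⟩ l g
  cases e with
  | true =>
    obtain ⟨q, q', p, v, i1, i2, i3, i4, i5, i6, i7, i8, i9⟩ := P M l s 1 g o1
    rw [lf_one] at i3
    refine ⟨q, q', p, v, i1, mono o1 (by norm_num) i2, i3, i4, i5, by omega, by omega, ?_⟩
    intro i
    have := i8 i
    rw [map_one, mul_one] at this
    exact mono w1 (by norm_num) this
  | false =>
    have hnew : ∀ i : ℕ, (M.sv (s, false) * M.vl (([] : List (F × Sg E)).take i))⁻¹ *
        M.vl (([(1, (s, false))] : List (F × Sg E)).take i) ∈ WW M ^ 8 := by
      intro i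
      rcases i with _ | i
      · have : (M.sv (s, false) * M.vl (([] : List (F × Sg E)).take 0))⁻¹ *
            M.vl (([(1, (s, false))] : List (F × Sg E)).take 0) = M.ev s := by simp
        rw [this]
        exact mono w1 (by norm_num) (mem_one' (Wev M s))
      · have : (M.sv (s, false) * M.vl (([] : List (F × Sg E)).take (i + 1)))⁻¹ *
            M.vl (([(1, (s, false))] : List (F × Sg E)).take (i + 1)) = 1 := by simp
        rw [this]
        exact mono w1 (by norm_num) (mem_one' w1)
    have hq1 : ∀ x ∈ ([(1, (s, false))] : List (F × Sg E)), x.1 ∈ AA S ^ 3 := by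
      intro x hx
      rw [List.mem_singleton] at hx
      subst hx
      exact mono o1 (by norm_num) (mem_one' o1)
    rcases l with _ | ⟨⟨f, t⟩, l⟩
    · refine ⟨[], [(1, (s, false))], [], 1, rfl, mono o1 (by norm_num) (mem_one' o1), ?_, by simp, hq1, by simp,
        by simp, hnew⟩
      rw [S.opS_nil]
      simp
    · rcases S.cases_op (s, false) f t with h | ⟨h1, h2, h3⟩ | ⟨h1, _⟩ | ⟨h1, _⟩ | ⟨_, h2, a, u, c, h3⟩
      · refine ⟨[], [(1, (s, false))], (f, t) :: l, 1, rfl, mono o1 (by norm_num) (mem_one' o1), ?_, by simp, hq1,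
          by simp, by simp, hnew⟩
        rw [S.opS_keep h, lf_one]
        simp
      · obtain ⟨t, e⟩ := t
        simp only at h1 h2
        subst h1
        have he : e = true := by
          cases e with
          | true => rfl
          | false => exact absurd h2 (by decide)
        subst he
        subst h3
        rw [S.opS_cancel_ft]
        refine ⟨[(1, (s, true))], [], l, 1, rfl, mono o1 (by norm_num) (mem_one' o1), ?_, ?_, by simp, by simp,
          by simp, ?_⟩
        · rw [lf_one]
          rfl
        · intro x hx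
          rw [List.mem_singleton] at hx
          subst hx
          exact mono o1 (by norm_num) (mem_one' o1)
        · intro i
          rcases i with _ | i
          · have : (M.sv (s, false) * M.vl (([(1, (s, true))] : List (F × Sg E)).take 0))⁻¹ *
                M.vl (([] : List (F × Sg E)).take 0) = M.ev s := by simp
            rw [this]
            exact mono w1 (by norm_num) (mem_one' (Wev M s))
          · have : (M.sv (s, false) * M.vl (([(1, (s, true))] : List (F × Sg E)).take (i + 1)))⁻¹ *
                M.vl (([] : List (F × Sg E)).take (i + 1)) = 1 := by simp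
            rw [this]
            exact mono w1 (by norm_num) (mem_one' w1)
      · exact absurd h1 (by simp)
      · exact absurd h1 (by simp)
      · obtain ⟨t, e⟩ := t
        simp only at h2 h3
        subst h2
        rw [S.opS_ff h3]
        obtain ⟨q, q', p, v, i1, i2, i3, i4, i5, i6, i7, i8, i9⟩ := P M l u c g (t3 S h3)
        have ha := t2 S h3
        have hf : f ∈ AA S ^ 3 := by
          have h4 := inv_mem S (t1 S h3)
          rw [inv_inv] at h4
          exact mono o1 (by norm_num) (mem_one' h4)
        have hr := rel1 M h3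
        have key : ∀ X : G, ((M.ev s)⁻¹ * (M.io f * (M.ev t)⁻¹ * X))⁻¹ =
            (M.ev u * M.io c * X)⁻¹ * (M.io a)⁻¹ := by
          intro X
          have e1 : (M.ev s)⁻¹ * M.io f * (M.ev t)⁻¹ = M.io a * M.ev u * M.io c := by
            have : (M.ev t * M.io f⁻¹ * M.ev s)⁻¹ = M.io a * M.ev u * M.io c := by
              rw [hr, inv_inv]
            rw [← this, map_inv]
            group
          have e2 : (M.ev s)⁻¹ * (M.io f * (M.ev t)⁻¹ * X) = (M.io a * M.ev u * M.io c) * X := by
            rw [← e1]
            group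
          rw [e2]
          group
        rcases i9 with ⟨j1, j2, j3⟩ | ⟨φ, σ, q2, j1, j2⟩
        · subst j1 j2
          refine ⟨(f, (t, false)) :: q, [], p, a, by rw [i1]; rfl, mono o1 (by norm_num) (mem_one' ha), ?_, ?_,
            by simp, ?_, by simp, ?_⟩
          · rw [i3, lf_one]
            simp
          · intro x hx
            rcases List.mem_cons.1 hx with rfl | hx
            · exact hf
            · exact i4 x hx
          · simp only [List.length_nil, List.length_cons] at i6 ⊢
            omega
          · intro i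
            rcases i with _ | i
            · have : (M.sv (s, false) * M.vl (((f, (t, false)) :: q).take 0))⁻¹ *
                  M.vl (([] : List (F × Sg E)).take 0) = M.ev s := by simp
              rw [this]
              exact mono w1 (by norm_num) (mem_one' (Wev M s))
            · have : (M.sv (s, false) * M.vl (((f, (t, false)) :: q).take (i + 1)))⁻¹ *
                  M.vl (([] : List (F × Sg E)).take (i + 1)) =
                  (M.ev u * M.io c * M.vl (q.take i))⁻¹ * (M.io a)⁻¹ := by
                rw [← key]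
                simp
              rw [this]
              exact mono w1 (by norm_num) (mem_succ (j3 i) (Wii M ha))
        · subst j1
          refine ⟨(f, (t, false)) :: q, (a * φ, σ) :: q2, p, v, by rw [i1]; rfl, mono o1 (by norm_num) i2, ?_, ?_,
            ?_, ?_, ?_, ?_⟩
          · rw [i3]
            simp
          · intro x hx
            rcases List.mem_cons.1 hx with rfl | hx
            · exact hf
            · exact i4 x hx
          · intro x hx
            rcases List.mem_cons.1 hx with rfl | hx
            · exact mono o1 (by norm_num) (mem_succ (mem_one' ha) j2)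
            · exact i5 x (List.mem_cons_of_mem _ hx)
          · simp only [List.length_cons] at i6 ⊢
            omega
          · simp only [List.length_cons] at i7 ⊢
            omega
          · intro i
            rcases i with _ | i
            · have : (M.sv (s, false) * M.vl (((f, (t, false)) :: q).take 0))⁻¹ *
                  M.vl (((a * φ, σ) :: q2).take 0) = M.ev s := by simp
              rw [this]
              exact mono w1 (by norm_num) (mem_one' (Wev M s))
            · obtain ⟨w, hw, hw2⟩ := take_succ_val M ((φ, σ) :: q2) i5 i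
              have : (M.sv (s, false) * M.vl (((f, (t, false)) :: q).take (i + 1)))⁻¹ *
                  M.vl (((a * φ, σ) :: q2).take (i + 1)) =
                  ((M.ev u * M.io c * M.vl (q.take i))⁻¹ * M.vl (((φ, σ) :: q2).take i)) * w := by
                rw [mul_assoc, ← hw2]
                have e3 := key (M.vl (q.take i))
                simp only [List.take_succ_cons, TSys.Model.vl_cons, TSys.Model.sv_false, map_mul] at e3 ⊢
                rw [e3]
                group
              rw [this]
              exact mem_mul (i8 i) hw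

end BA
end

section
/-!
# MP_135d84_al, module NF: existence and uniqueness of normal forms
-/
set_option autoImplicit false

namespace BA

namespace NFM

variable {F E : Type} [Group F] (S : TSys F E)

/-- normal states -/
abbrev NS : Type := {st : St F E // S.Normal st.1}

/-- the base state -/
def base : NS S := ⟨([], 1), List.isChain_nil⟩

/-- the permutation of the normal states given by `f : F` -/
def fperm : F →* Equiv.Perm (NS S) where
  toFun f :=
    { toFun := fun n => ⟨lf f n.1, (E2M.normal_lf S f n.1).2 n.2⟩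
      invFun := fun n => ⟨lf f⁻¹ n.1, (E2M.normal_lf S f⁻¹ n.1).2 n.2⟩
      left_inv := by
        intro n
        apply Subtype.ext
        simp only [lf_lf, inv_mul_cancel, lf_one]
      right_inv := by
        intro n
        apply Subtype.ext
        simp only [lf_lf, mul_inv_cancel, lf_one] }
  map_one' := by
    ext1 n
    apply Subtype.ext
    exact lf_one n.1
  map_mul' := by
    intro x y
    ext1 n
    apply Subtype.ext
    exact (lf_lf x y n.1).symm

theorem fperm_coe (f : F) (n : NS S) : (fperm S f n).1 = lf f n.1 := rfl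

/-- the permutation of the normal states given by `e : E` -/
noncomputable def eperm (hDOM : SpecDOM) (hE1 : SpecE1) (e : E) : Equiv.Perm (NS S) where
  toFun n := ⟨S.opS (e, true) n.1, hDOM S (e, true) n.1.1 n.1.2 n.2⟩
  invFun n := ⟨S.opS (e, false) n.1, hDOM S (e, false) n.1.1 n.1.2 n.2⟩
  left_inv := by
    intro n
    apply Subtype.ext
    exact hE1 S e true n.1.1 n.1.2 n.2
  right_inv := by
    intro n
    apply Subtype.ext
    exact hE1 S e false n.1.1 n.1.2 n.2

theorem eperm_coe (hDOM : SpecDOM) (hE1 : SpecE1) (e : E) (n : NS S) :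
    (eperm S hDOM hE1 e n).1 = S.opS (e, true) n.1 := rfl

theorem eperm_inv_coe (hDOM : SpecDOM) (hE1 : SpecE1) (e : E) (n : NS S) :
    ((eperm S hDOM hE1 e)⁻¹ n).1 = S.opS (e, false) n.1 := rfl

theorem rel (hDOM : SpecDOM) (hE2 : SpecE2) (hE1 : SpecE1) {s : E} {f : F} {t : E} {a : F} {u : E}
    {b : F} (h : S.tri s f t a u b) :
    eperm S hDOM hE1 s * fperm S f * eperm S hDOM hE1 t * fperm S a * eperm S hDOM hE1 u *
      fperm S b = 1 := by
  ext1 n
  apply Subtype.ext
  have h1 : ((eperm S hDOM hE1 s * fperm S f * eperm S hDOM hE1 t * fperm S a *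
      eperm S hDOM hE1 u * fperm S b) n).1 = S.opS (s, true) (lf f (S.opS (t, true)
        (lf a (S.opS (u, true) (lf b n.1))))) := rfl
  rw [h1]
  have hn1 : S.Normal (lf b n.1).1 := (E2M.normal_lf S b n.1).2 n.2
  have hn2 : S.Normal (S.opS (u, true) (lf b n.1)).1 := hDOM S (u, true) (lf b n.1).1 (lf b n.1).2 hn1
  have hn3 : S.Normal (lf a (S.opS (u, true) (lf b n.1))).1 := (E2M.normal_lf S a _).2 hn2
  have h2 : S.opS (s, true) (lf f (S.opS (t, true) (lf a (S.opS (u, true) (lf b n.1))))) =
      lf b⁻¹ (S.opS (u, false) (lf a⁻¹ (lf a (S.opS (u, true) (lf b n.1))))) :=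
    hE2 S _ _ h hn3
  rw [h2, lf_lf a⁻¹, inv_mul_cancel, lf_one]
  have h3 : S.opS (u, false) (S.opS (u, true) (lf b n.1)) = lf b n.1 :=
    hE1 S u true (lf b n.1).1 (lf b n.1).2 hn1
  rw [h3, lf_lf b⁻¹, inv_mul_cancel, lf_one]
  rfl

end NFM

open NFM in
theorem specNF (hOPV : SpecOPV) (hDOM : SpecDOM) (hE2 : SpecE2) (hE1 : SpecE1) : SpecNF := by
  intro F E _ S G _ M
  obtain ⟨Φ, hΦ1, hΦ2⟩ := M.univ (Equiv.Perm (NS S)) (fperm S) (eperm S hDOM hE1)
    (fun h => rel S hDOM hE2 hE1 h)
  have hsv : ∀ (s : Sg E) (n : NS S), (Φ (M.sv s) n).1 = S.opS s n.1 := by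
    rintro ⟨s, e⟩ n
    cases e
    · rw [M.sv_false, map_inv, hΦ2]
      exact eperm_inv_coe S hDOM hE1 s n
    · rw [M.sv_true, hΦ2]
      exact eperm_coe S hDOM hE1 s n
  have hio : ∀ (f : F) (n : NS S), (Φ (M.io f) n).1 = lf f n.1 := by
    intro f n
    rw [hΦ1]
    exact fperm_coe S f n
  constructor
  · intro g
    have key : ∀ n : NS S, M.val (Φ g n).1 = g * M.val n.1 := by
      have hg : g ∈ Subgroup.closure (Set.range M.io ∪ Set.range M.ev) := by
        rw [M.gen]; trivial
      induction hg using Subgroup.closure_induction with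
      | mem x hx =>
        intro n
        rcases hx with ⟨f, rfl⟩ | ⟨e, rfl⟩
        · rw [hio, M.val_lf]
        · have h1 := hsv (e, true) n
          rw [M.sv_true] at h1
          rw [h1, hOPV S M, M.sv_true]
      | one =>
        intro n
        rw [map_one, one_mul]
        rfl
      | mul x y _ _ hx hy =>
        intro n
        rw [map_mul, Equiv.Perm.mul_apply, hx, hy, mul_assoc]
      | inv x _ hx =>
        intro n
        have h1 := hx (Φ x⁻¹ n)
        have h2 : Φ x (Φ x⁻¹ n) = n := by
          rw [← Equiv.Perm.mul_apply, ← map_mul, mul_inv_cancel, map_one, Equiv.Perm.one_apply]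
        rw [h2] at h1
        rw [h1, inv_mul_cancel_left]
    refine ⟨(Φ g (base S)).1, (Φ g (base S)).2, ?_⟩
    rw [key]
    simp [base, TSys.Model.val]
  · have key : ∀ (l : List (F × Sg E)) (g : F), S.Normal l →
        (Φ (M.val (l, g)) (base S)).1 = (l, g) := by
      intro l
      induction l with
      | nil =>
        intro g _
        rw [M.val_mk, M.vl_nil, one_mul, hio]
        simp [base]
      | cons x l ih =>
        intro g hN
        have hN1 : S.Normal l := E2M.normal_tail S hN
        have h1 : M.val (x :: l, g) = M.io x.1 * M.sv x.2 * M.val (l, g) := by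
          rw [M.val_mk, M.val_mk, M.vl_cons]
          group
        rw [h1, map_mul, map_mul, Equiv.Perm.mul_apply, Equiv.Perm.mul_apply, hio, hsv, ih g hN1]
        rcases x with ⟨f, s⟩
        rw [E2M.opS_normal S hN, lf_cons, mul_one]
    rintro ⟨l, g⟩ ⟨l', g'⟩ h1 h2 h3
    have e1 := key l g h1
    have e2 := key l' g' h2
    rw [h3] at e1
    exact e1.symm.trans e2

end BA
end

section
set_option autoImplicit false

namespace BA

namespace OPVM

variable {F E : Type} [Group F]

theorem lf_length (f : F) (st : St F E) : (lf f st).1.length = st.1.length := by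
  rcases st with ⟨_ | ⟨⟨f0, s⟩, l⟩, g⟩ <;> simp

theorem main (S : TSys F E) {G : Type} [Group G] (M : S.Model G) (n : ℕ) :
    ∀ (s : Sg E) (st : St F E), st.1.length ≤ n → M.val (S.opS s st) = M.sv s * M.val st := by
  induction n with
  | zero =>
    rintro s ⟨l, g⟩ hl
    have h0 : l = [] := List.length_eq_zero_iff.1 (Nat.le_zero.1 hl)
    subst h0
    rw [S.opS_nil]
    simp [TSys.Model.val_mk]
  | succ n ih =>
    rintro s ⟨l, g⟩ hl
    rcases l with _ | ⟨⟨f, t⟩, l⟩
    · rw [S.opS_nil]
      simp [TSys.Model.val_mk]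
    · have hl' : l.length ≤ n := by simpa using hl
      have key : ∀ c : F, (lf c (l, g)).1.length ≤ n := by
        intro c
        rw [lf_length]
        exact hl'
      rcases S.cases_op s f t with h | ⟨h1, h2, h3⟩ | ⟨h1, h2, a, u, c, h3⟩ |
        ⟨h1, h2, h3, h, r, a, u, c, a', u', c', h4, h5⟩ | ⟨h1, h2, a, u, c, h3⟩
      · rw [S.opS_keep h]
        simp [TSys.Model.val_mk, mul_assoc]
      · subst h3
        obtain ⟨s, e⟩ := s
        obtain ⟨t, e'⟩ := t
        simp only at h1 h2
        subst h1
        cases e' with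
        | true =>
          have h2' : e = false := by simpa using h2
          subst h2'
          rw [S.opS_cancel_ft]
          simp [TSys.Model.val_mk, mul_assoc]
        | false =>
          have h2' : e = true := by simpa using h2
          subst h2'
          rw [S.opS_cancel_tf]
          simp [TSys.Model.val_mk, mul_assoc]
      · obtain ⟨s, e⟩ := s
        obtain ⟨t, e'⟩ := t
        simp only at h1 h2 h3
        subst h1 h2
        rw [S.opS_tt h3, M.val_scons, M.val_lf]
        have hr := M.rel h3
        simp only [TSys.Model.sv_false, TSys.Model.sv_true, TSys.Model.val_mk, TSys.Model.vl_cons, map_inv]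
        have e1 : (M.io c)⁻¹ * (M.ev u)⁻¹ * (M.io a)⁻¹ = M.ev s * M.io f * M.ev t := by
          have e2 : (M.ev s * M.io f * M.ev t) * (M.io a * M.ev u * M.io c) = 1 := by
            simpa [mul_assoc] using hr
          rw [eq_comm, mul_eq_one_iff_eq_inv.1 e2]
          group
        calc (M.io c)⁻¹ * (M.ev u)⁻¹ * ((M.io a)⁻¹ * (M.vl l * M.io g))
            = (M.io c)⁻¹ * (M.ev u)⁻¹ * (M.io a)⁻¹ * (M.vl l * M.io g) := by group
          _ = _ := by rw [e1]; group
      · obtain ⟨s, e⟩ := s
        obtain ⟨t, e'⟩ := t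
        simp only at h1 h2 h3 h4 h5
        subst h1 h2
        rw [S.opS_tf h3 h4 h5, M.val_scons, M.val_lf, ih _ _ (key c'), M.val_lf]
        have hr := M.rel h4
        have hr' := M.rel h5
        simp only [TSys.Model.sv_false, TSys.Model.sv_true, TSys.Model.val_mk, TSys.Model.vl_cons, map_inv,
          map_mul] at hr' ⊢
        have e1 : (M.io c)⁻¹ * (M.ev u)⁻¹ * (M.io a)⁻¹ = M.ev s * M.io h * M.ev r := by
          have e2 : (M.ev s * M.io h * M.ev r) * (M.io a * M.ev u * M.io c) = 1 := by
            simpa [mul_assoc] using hr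
          rw [eq_comm, mul_eq_one_iff_eq_inv.1 e2]
          group
        have e3 : M.io a' * M.ev u' * M.io c' = (M.ev t * ((M.io f)⁻¹ * M.io h) * M.ev r)⁻¹ := by
          have e4 : (M.ev t * ((M.io f)⁻¹ * M.io h) * M.ev r) * (M.io a' * M.ev u' * M.io c') = 1 := by
            simpa [mul_assoc] using hr'
          exact (inv_eq_of_mul_eq_one_right e4).symm
        calc (M.io c)⁻¹ * (M.ev u)⁻¹ * ((M.io a)⁻¹ * M.io a' * (M.ev u' * (M.io c' * (M.vl l * M.io g))))
            = ((M.io c)⁻¹ * (M.ev u)⁻¹ * (M.io a)⁻¹) * (M.io a' * M.ev u' * M.io c') * (M.vl l * M.io g) := by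
              group
          _ = _ := by rw [e1, e3]; group
      · obtain ⟨s, e⟩ := s
        obtain ⟨t, e'⟩ := t
        simp only at h1 h2 h3
        subst h1 h2
        rw [S.opS_ff h3, M.val_lf, ih _ _ (key c), M.val_lf]
        have hr := M.rel h3
        simp only [TSys.Model.sv_false, TSys.Model.sv_true, TSys.Model.val_mk, TSys.Model.vl_cons, map_inv] at hr ⊢
        have e3 : M.io a * M.ev u * M.io c = (M.ev t * (M.io f)⁻¹ * M.ev s)⁻¹ := by
          have e4 : (M.ev t * (M.io f)⁻¹ * M.ev s) * (M.io a * M.ev u * M.io c) = 1 := by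
            simpa [mul_assoc] using hr
          exact (inv_eq_of_mul_eq_one_right e4).symm
        calc M.io a * (M.ev u * (M.io c * (M.vl l * M.io g)))
            = (M.io a * M.ev u * M.io c) * (M.vl l * M.io g) := by group
          _ = _ := by rw [e3]; group

end OPVM

theorem specOPV : SpecOPV := by
  intro F E _ S G _ M s st
  exact OPVM.main S M st.1.length s st le_rfl

end BA
end

section
set_option autoImplicit false

namespace BA

namespace RNM

variable {F E : Type} [Group F]

/-- reversed normal lists -/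
def RNorm (S : TSys F E) (rl : List (F × Sg E)) : Prop :=
  rl.IsChain (fun x y => S.Keep y.2 x.1 x.2)

theorem rnorm_iff (S : TSys F E) (rl : List (F × Sg E)) : S.Normal rl.reverse ↔ RNorm S rl := by
  unfold TSys.Normal RNorm
  rw [List.isChain_reverse]

theorem rnorm_cons (S : TSys F E) {x : F × Sg E} {rl : List (F × Sg E)}
    (h1 : ∀ y ∈ rl.head?, S.Keep y.2 x.1 x.2) (h2 : RNorm S rl) : RNorm S (x :: rl) := by
  unfold RNorm at *
  rw [List.isChain_cons]
  exact ⟨h1, h2⟩

theorem rnorm_uncons (S : TSys F E) {x : F × Sg E} {rl : List (F × Sg E)} (h : RNorm S (x :: rl)) :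
    (∀ y ∈ rl.head?, S.Keep y.2 x.1 x.2) ∧ RNorm S rl := by
  unfold RNorm at *
  rw [List.isChain_cons] at h
  exact h

theorem lemmaR (S : TSys F E) (rl : List (F × Sg E)) :
    ∀ (f0 c g : F) (u s0 : E), g = f0 * c⁻¹ → S.D u c s0 → RNorm S rl →
      (∀ y ∈ rl.head?, S.Keep y.2 f0 (s0, true)) →
      RNorm S (S.rr rl g u).1 ∧
      ∀ (r : E) (a y a' : F) (u' : E), S.tri r a u c s0 y → S.D r a' u' → ¬ (a = a' ∧ u = u') →
        ∀ z ∈ (S.rr rl g u).1.head?, S.Keep z.2 ((S.rr rl g u).2 * (a⁻¹ * a')) (u', true) := by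
  induction rl with
  | nil =>
    intro f0 c g u s0 hg hD hN hK
    rw [S.rr_nil]
    refine ⟨List.IsChain.singleton _, ?_⟩
    intro r a y a' u' h1 h2 h3 z hz
    simp only [List.head?_cons, Option.mem_def, Option.some.injEq] at hz
    subst hz
    simp only [TSys.Keep]
    rintro ⟨h4, h5⟩
    apply h3
    refine ⟨?_, h4⟩
    rw [one_mul, inv_mul_eq_one] at h5
    exact h5
  | cons x rl ih =>
    intro f0 c g u s0 hg hD hN hK
    have hK0 : S.Keep x.2 f0 (s0, true) := hK x (by simp)
    by_cases hkeep : S.Keep x.2 g (u, false)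
    · rw [S.rr_keep hkeep]
      refine ⟨?_, ?_⟩
      · apply rnorm_cons S _ hN
        intro y hy
        simp only [List.head?_cons, Option.mem_def, Option.some.injEq] at hy
        subst hy
        exact hkeep
      · intro r a y a' u' h1 h2 h3 z hz
        simp only [List.head?_cons, Option.mem_def, Option.some.injEq] at hz
        subst hz
        simp only [TSys.Keep]
        rintro ⟨h4, h5⟩
        apply h3
        refine ⟨?_, h4⟩
        rw [one_mul, inv_mul_eq_one] at h5
        exact h5
    · obtain ⟨hh, hN1⟩ := rnorm_uncons S hN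
      obtain ⟨f, k, e⟩ := x
      cases e with
      | true =>
        have hst : ¬ (k = u ∧ g = 1) := by
          rintro ⟨h1, h2⟩
          subst h1
          have h3 : f0 = c := by
            rw [hg] at h2
            exact mul_inv_eq_one.1 h2
          subst h3
          exact hK0 hD
        have hex : ∃ h r, S.D k h r ∧ S.D u (g⁻¹ * h) r := by
          by_contra h1
          exact hkeep ⟨hst, h1⟩
        obtain ⟨h2, r2, ⟨a2, u2, b2, t1⟩, ⟨a3, u3, b3, t2⟩⟩ := hex
        have hR := ih f b2 (f * b2⁻¹) u2 k rfl (S.D_tri (S.rot (S.rot t1))) hN1 hh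
        have hne : ¬ (a2 = a3 ∧ u2 = u3) := by
          rintro ⟨e1, e2⟩
          subst e1 e2
          have h3 := S.fn (S.rot t1) (S.rot t2)
          apply hst
          refine ⟨h3.2.1, ?_⟩
          have h4 : h2 = g⁻¹ * h2 := h3.2.2
          have h5 : g⁻¹ = 1 := by
            have h6 : g⁻¹ * h2 = 1 * h2 := by rw [one_mul]; exact h4.symm
            exact mul_right_cancel h6
          exact inv_eq_one.1 h5
        have hK2 := hR.2 r2 a2 h2 a3 u3 (S.rot t1) (S.D_tri (S.rot (S.rot (S.rot (S.rot t2))))) hne
        rw [S.rr_t hst t1 t2]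
        refine ⟨rnorm_cons S hK2 hR.1, ?_⟩
        intro r a y a' u' h3 h4 h5 z hz
        simp only [List.head?_cons, Option.mem_def, Option.some.injEq] at hz
        subst hz
        simp only [TSys.Keep]
        intro h6
        have t3 := S.rot (S.rot t2)
        rcases S.k22 (S.D_tri h3) h4 (S.D_tri t3) h6 (by group) with ⟨e1, e2⟩ | ⟨e1, e2⟩
        · subst e1 e2
          have h7 := S.fn h3 t3
          have h8 : h2 = f0 := by
            have h10 : h2 = g * c := by
              rw [h7.1]
              group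
            rw [h10, hg]
            group
          apply hK0
          rw [h8] at t1
          rw [← h7.2.1] at t1
          exact S.D_tri t1
        · exact h5 ⟨e2, e1⟩
      | false =>
        have hD2 : S.D u g⁻¹ k := by
          by_contra h1
          exact hkeep h1
        obtain ⟨a3, u3, b3, t1⟩ := hD2
        rw [S.rr_f t1]
        refine ⟨?_, ?_⟩
        · apply rnorm_cons S _ hN1
          rintro ⟨f1, p, e1⟩ hy
          have hy2 := hh _ hy
          cases e1 with
          | true =>
            simp only [TSys.Keep] at hy2 ⊢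
            intro h1
            apply hy2.2
            refine ⟨f * a3, u3, h1, ?_⟩
            have h2 : f⁻¹ * (f * a3) = a3 := by group
            rw [h2]
            exact S.D_tri (S.rot t1)
          | false =>
            simp only [TSys.Keep] at hy2 ⊢
            rintro ⟨h1, h2⟩
            apply hy2
            have h3 : f⁻¹ = a3 := inv_eq_of_mul_eq_one_right h2
            rw [h3, h1]
            exact S.D_tri (S.rot t1)
        · intro r a y a' u' h3 h4 h5 z hz
          simp only [List.head?_cons, Option.mem_def, Option.some.injEq] at hz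
          subst hz
          simp only [TSys.Keep]
          intro h6
          have t3 := S.rot (S.rot t1)
          rcases S.k22 (S.D_tri h3) h4 (S.D_tri t3) h6 (by group) with ⟨e1, e2⟩ | ⟨e1, e2⟩
          · subst e1 e2
            have h7 := S.fn h3 t3
            apply hK0
            refine ⟨h7.2.1.symm, ?_⟩
            have h8 : c = g⁻¹ := h7.1
            rw [hg] at h8
            have h9 : f0 * c⁻¹ * c = 1 := by
              nth_rewrite 2 [h8]
              group
            simpa using h9
          · exact h5 ⟨e2, e1⟩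

end RNM

open RNM in
theorem specRN : SpecRN := by
  intro F E _ S rl g x hN
  rw [rnorm_iff] at hN ⊢
  rcases rl with _ | ⟨⟨f, k, e⟩, rl⟩
  · rw [S.rm_nil]
    exact List.IsChain.singleton _
  · by_cases hk : S.Keep (k, e) g (x, true)
    · rw [S.rm_keep (y := (f, (k, e))) hk]
      apply rnorm_cons S _ hN
      intro y hy
      simp only [List.head?_cons, Option.mem_def, Option.some.injEq] at hy
      subst hy
      exact hk
    · obtain ⟨hh, hN1⟩ := rnorm_uncons S hN
      cases e with
      | true =>
        have h1 : S.D k g x := by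
          by_contra h2
          exact hk h2
        obtain ⟨a, u, c, h2⟩ := h1
        rw [S.rm_t h2]
        exact (lemmaR S rl f c (f * c⁻¹) u k rfl (S.D_tri (S.rot (S.rot h2))) hN1 hh).1
      | false =>
        have h1 : k = x ∧ g = 1 := by
          by_contra h2
          exact hk h2
        obtain ⟨rfl, rfl⟩ := h1
        rw [S.rm_cancel]
        exact hN1

end BA
end

section
/-!
# MP_135d84_al, part A: module RS, structure of right multiplication
-/
set_option autoImplicit false

namespace BA.RSM

section

variable {F E : Type} [Group F] (S : TSys F E)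

/-- the labels of the relators, and 1 -/
def LL : Set F := {f | f = 1 ∨ ∃ s t, S.D s f t}

/-- short labels -/
def BB : Set F := {y | ∃ a ∈ LL S, ∃ b ∈ LL S, ∃ c ∈ LL S, y = a * b⁻¹ * c}

lemma LL_finite : (LL S).Finite := by
  have h : LL S ⊆ {1} ∪ (fun p : E × F × E => p.2.1) '' {p : E × F × E | ∃ a u b, S.tri p.1 p.2.1 p.2.2 a u b} := by
    rintro f (rfl | ⟨s, t, h⟩)
    · left; rfl
    · right
      exact ⟨(s, f, t), h, rfl⟩
  exact ((Set.finite_singleton 1).union (S.fin.image _)).subset h

lemma BB_finite : (BB S).Finite := by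
  have h : BB S ⊆ (fun p : F × F × F => p.1 * p.2.1⁻¹ * p.2.2) '' (LL S ×ˢ (LL S ×ˢ LL S)) := by
    rintro y ⟨a, ha, b, hb, c, hc, rfl⟩
    exact ⟨(a, b, c), ⟨ha, hb, hc⟩, rfl⟩
  exact (((LL_finite S).prod ((LL_finite S).prod (LL_finite S))).image _).subset h

lemma one_mem : (1 : F) ∈ LL S := Or.inl rfl

lemma lab1 {s : E} {f : F} {t : E} {a : F} {u : E} {b : F} (h : S.tri s f t a u b) : f ∈ LL S :=
  Or.inr ⟨s, t, S.D_tri h⟩

lemma lab2 {s : E} {f : F} {t : E} {a : F} {u : E} {b : F} (h : S.tri s f t a u b) : a ∈ LL S :=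
  lab1 S (S.rot h)

lemma lab3 {s : E} {f : F} {t : E} {a : F} {u : E} {b : F} (h : S.tri s f t a u b) : b ∈ LL S :=
  lab1 S (S.rot (S.rot h))

lemma memB {a b c : F} (ha : a ∈ LL S) (hb : b ∈ LL S) (hc : c ∈ LL S) : a * b⁻¹ * c ∈ BB S :=
  ⟨a, ha, b, hb, c, hc, rfl⟩

variable {S} {G : Type} [Group G] (M : S.Model G)

/-- the final difference -/
def ZZ (k : E) (c : F) (u : E) (y : F) : G :=
  (M.ev k)⁻¹ * (M.io c)⁻¹ * (M.ev u)⁻¹ * (M.io y)⁻¹

def K1 : Set G := {z | ∃ k u : E, ∃ c ∈ LL S, ∃ y ∈ LL S, z = ZZ M k c u y}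
def K2 : Set G := {z | ∃ z1 ∈ K1 M, ∃ w ∈ BB S, ∃ u : E, z = z1 * (M.io w * M.ev u)}
def K3 : Set G := {z | ∃ k u : E, ∃ a ∈ LL S, z = M.ev k * M.io a * M.ev u}
def KK : Set G := K1 M ∪ (K2 M ∪ K3 M)

lemma K1_finite [Finite E] : (K1 M).Finite := by
  have h : K1 M ⊆ (fun p : (E × E) × F × F => ZZ M p.1.1 p.2.1 p.1.2 p.2.2) ''
      ((Set.univ : Set (E × E)) ×ˢ (LL S ×ˢ LL S)) := by
    rintro z ⟨k, u, c, hc, y, hy, rfl⟩
    exact ⟨((k, u), c, y), ⟨Set.mem_univ _, hc, hy⟩, rfl⟩
  exact ((Set.finite_univ.prod ((LL_finite S).prod (LL_finite S))).image _).subset h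

lemma K2_finite [Finite E] : (K2 M).Finite := by
  have h : K2 M ⊆ (fun p : G × F × E => p.1 * (M.io p.2.1 * M.ev p.2.2)) ''
      (K1 M ×ˢ (BB S ×ˢ (Set.univ : Set E))) := by
    rintro z ⟨z1, h1, w, hw, u, rfl⟩
    exact ⟨(z1, w, u), ⟨h1, hw, Set.mem_univ _⟩, rfl⟩
  exact (((K1_finite M).prod ((BB_finite S).prod Set.finite_univ)).image _).subset h

lemma K3_finite [Finite E] : (K3 M).Finite := by
  have h : K3 M ⊆ (fun p : (E × E) × F => M.ev p.1.1 * M.io p.2 * M.ev p.1.2) ''
      ((Set.univ : Set (E × E)) ×ˢ LL S) := by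
    rintro z ⟨k, u, a, ha, rfl⟩
    exact ⟨((k, u), a), ⟨Set.mem_univ _, ha⟩, rfl⟩
  exact ((Set.finite_univ.prod (LL_finite S)).image _).subset h

lemma KK_finite [Finite E] : (KK M).Finite := (K1_finite M).union ((K2_finite M).union (K3_finite M))

lemma rel_a {s : E} {f : F} {t : E} {a : F} {u : E} {b : F} (h : S.tri s f t a u b) :
    (M.ev s)⁻¹ * (M.io b)⁻¹ * (M.ev u)⁻¹ * (M.io a)⁻¹ = M.io f * M.ev t := by
  have h1 : M.io f * M.ev t = (M.ev s)⁻¹ * (M.ev s * M.io f * M.ev t * M.io a * M.ev u * M.io b) *
      (M.io b)⁻¹ * (M.ev u)⁻¹ * (M.io a)⁻¹ := by group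
  rw [h1, M.rel h, mul_one]

lemma rel_b {s : E} {f : F} {t : E} {a : F} {u : E} {b : F} (h : S.tri s f t a u b) :
    M.ev t * M.io a * M.ev u = (M.io f)⁻¹ * (M.ev s)⁻¹ * (M.io b)⁻¹ := by
  have h1 : M.ev t * M.io a * M.ev u = (M.io f)⁻¹ * (M.ev s)⁻¹ *
      (M.ev s * M.io f * M.ev t * M.io a * M.ev u * M.io b) * (M.io b)⁻¹ := by group
  rw [h1, M.rel h, mul_one]

/-- The statement for `rr`. -/
structure Rec (rl : List (F × Sg E)) (f : F) (k : E) (c : F) (u : E) (p : List (F × Sg E)) (f0 : F)
    (s0 : Sg E) (q : List (F × Sg E)) (f0' : F) (s0' : Sg E) (q' : List (F × Sg E)) : Prop where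
  e1 : rl.reverse ++ [(f, (k, true))] = p ++ (f0, s0) :: q
  e2 : (S.rr rl (f * c⁻¹) u).1.reverse = p ++ (f0', s0') :: q'
  b1 : f0⁻¹ * f0' ∈ BB S
  b2 : ∀ y ∈ q, y.1 ∈ BB S
  b3 : ∀ y ∈ q', y.1 ∈ BB S
  b4 : (S.rr rl (f * c⁻¹) u).2 ∈ LL S
  len : q.length = q'.length ∨ q.length = q'.length + 1
  full : (M.vl ((f0, s0) :: q))⁻¹ * M.vl ((f0', s0') :: q') =
    ZZ M k c u (S.rr rl (f * c⁻¹) u).2
  part : ∀ i : ℕ, (M.vl ((f0, s0) :: (q.take i)))⁻¹ * M.vl ((f0', s0') :: (q'.take i)) ∈ KK M

/-- keep and nil -/
lemma rec_keep (rl : List (F × Sg E)) (f : F) (k : E) (c : F) (u : E) (hc : c ∈ LL S)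
    (h : S.rr rl (f * c⁻¹) u = ((f * c⁻¹, (u, false)) :: rl, 1)) :
    Rec M rl f k c u rl.reverse f (k, true) [] (f * c⁻¹) (u, false) [] := by
  have hfull : (M.vl ([(f, (k, true))] : List (F × Sg E)))⁻¹ * M.vl [(f * c⁻¹, (u, false))] =
      ZZ M k c u 1 := by
    simp only [TSys.Model.vl_cons, TSys.Model.vl_nil, TSys.Model.sv_true, TSys.Model.sv_false, mul_one,
      map_mul, map_inv, map_one, ZZ]
    group
  refine ⟨rfl, ?_, ?_, ?_, ?_, ?_, Or.inl rfl, ?_, ?_⟩
  · rw [h]
    simp
  · have e : f⁻¹ * (f * c⁻¹) = 1 * c⁻¹ * 1 := by group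
    rw [e]
    exact memB S (one_mem S) hc (one_mem S)
  · intro y hy
    simp at hy
  · intro y hy
    simp at hy
  · rw [h]
    exact one_mem S
  · rw [h]
    exact hfull
  · intro i
    simp only [List.take_nil]
    left
    exact ⟨k, u, c, hc, 1, one_mem S, hfull⟩

lemma recursion (rl : List (F × Sg E)) : ∀ (f : F) (k : E) (c : F) (u : E), c ∈ LL S →
    ∃ (p : List (F × Sg E)) (f0 : F) (s0 : Sg E) (q : List (F × Sg E)) (f0' : F) (s0' : Sg E)
      (q' : List (F × Sg E)), Rec M rl f k c u p f0 s0 q f0' s0' q' := by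
  induction rl with
  | nil =>
    intro f k c u hc
    exact ⟨_, _, _, _, _, _, _, rec_keep M [] f k c u hc (by rw [S.rr_nil])⟩
  | cons x rl ih =>
    intro f k c u hc
    obtain ⟨f1, ⟨k1, e⟩⟩ := x
    cases e
    · rcases S.rr_cases_f f1 k1 (f * c⁻¹) u rl with h | ⟨a, u', c', h1, h2⟩
      · exact ⟨_, _, _, _, _, _, _, rec_keep M _ f k c u hc h⟩
      · have hfull : (M.vl ([(f1, (k1, false)), (f, (k, true))] : List (F × Sg E)))⁻¹ *
            M.vl [(f1 * a, (u', true))] = ZZ M k c u c' := by
          have hb := rel_b M h1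
          simp only [TSys.Model.vl_cons, TSys.Model.vl_nil, TSys.Model.sv_true,
            TSys.Model.sv_false, mul_one, map_mul, map_inv, ZZ] at hb ⊢
          have e1 : (M.io f1 * (M.ev k1)⁻¹ * (M.io f * M.ev k))⁻¹ * (M.io f1 * M.io a * M.ev u') =
              (M.ev k)⁻¹ * (M.io f)⁻¹ * (M.ev k1 * M.io a * M.ev u') := by group
          rw [e1, hb]
          group
        refine ⟨rl.reverse, f1, (k1, false), [(f, (k, true))], f1 * a, (u', true), [], ?_, ?_, ?_, ?_,
          ?_, ?_, Or.inr rfl, ?_, ?_⟩
        · simp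
        · rw [h2]
          simp
        · have e1 : f1⁻¹ * (f1 * a) = a * 1⁻¹ * 1 := by group
          rw [e1]
          exact memB S (lab2 S h1) (one_mem S) (one_mem S)
        · intro y hy
          have : y = (f, (k, true)) := by simpa using hy
          rw [this]
          have e1 : f = 1 * ((f * c⁻¹)⁻¹)⁻¹ * c := by group
          have hB := memB S (one_mem S) (lab1 S h1) hc
          rw [← e1] at hB
          exact hB
        · intro y hy
          simp at hy
        · rw [h2]
          exact lab3 S h1
        · rw [h2]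
          exact hfull
        · intro i
          rcases Nat.eq_zero_or_pos i with hi | hi
          · subst hi
            right; right
            refine ⟨k1, u', a, lab2 S h1, ?_⟩
            simp only [List.take_zero, TSys.Model.vl_cons, TSys.Model.vl_nil, TSys.Model.sv_true,
              TSys.Model.sv_false, mul_one, map_mul]
            group
          · have ht : ([(f, (k, true))] : List (F × Sg E)).take i = [(f, (k, true))] :=
              List.take_of_length_le (by simp only [List.length_singleton]; omega)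
            rw [ht, List.take_nil]
            left
            exact ⟨k, u, c, hc, c', lab3 S h1, hfull⟩
    · rcases S.rr_cases_t f1 k1 (f * c⁻¹) u rl with h | ⟨h, r, a, u1, c1, a', u', c', h1, h2, h3⟩
      · exact ⟨_, _, _, _, _, _, _, rec_keep M _ f k c u hc h⟩
      · obtain ⟨p, f0, s0, q, f0', s0', q', R⟩ := ih f1 k1 c1 u1 (lab3 S h1)
        obtain ⟨y, hy⟩ : ∃ y, y = (S.rr rl (f1 * c1⁻¹) u1).2 := ⟨_, rfl⟩
        have hyL : y ∈ LL S := by rw [hy]; exact R.b4
        have hRfull := R.full
        rw [← hy] at hRfull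
        rw [← hy] at h3
        have hwB : y * (a⁻¹ * a') ∈ BB S := by
          have := memB S hyL (lab2 S h1) (lab2 S h2)
          rwa [mul_assoc] at this
        have hfull : (M.vl ((f0, s0) :: (q ++ [(f, (k, true))])))⁻¹ *
            M.vl ((f0', s0') :: (q' ++ [(y * (a⁻¹ * a'), (u', true))])) = ZZ M k c u c' := by
          have e1 : M.vl ((f0, s0) :: (q ++ [(f, (k, true))])) =
              M.vl ((f0, s0) :: q) * (M.io f * M.ev k) := by
            rw [← List.cons_append, M.vl_append]
            simp
          have e2 : M.vl ((f0', s0') :: (q' ++ [(y * (a⁻¹ * a'), (u', true))])) =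
              M.vl ((f0', s0') :: q') * (M.io (y * (a⁻¹ * a')) * M.ev u') := by
            rw [← List.cons_append, M.vl_append]
            simp
          rw [e1, e2]
          have e3 : (M.vl ((f0, s0) :: q) * (M.io f * M.ev k))⁻¹ *
              (M.vl ((f0', s0') :: q') * (M.io (y * (a⁻¹ * a')) * M.ev u')) =
              (M.ev k)⁻¹ * (M.io f)⁻¹ * ((M.vl ((f0, s0) :: q))⁻¹ * M.vl ((f0', s0') :: q')) *
                (M.io (y * (a⁻¹ * a')) * M.ev u') := by group
          rw [e3, hRfull]
          have ra := rel_a M h1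
          have rb := rel_b M h2
          have e4 : (M.ev k)⁻¹ * (M.io f)⁻¹ * ZZ M k1 c1 u1 y * (M.io (y * (a⁻¹ * a')) * M.ev u') =
              (M.ev k)⁻¹ * (M.io f)⁻¹ * ((M.ev k1)⁻¹ * (M.io c1)⁻¹ * (M.ev u1)⁻¹ * (M.io a)⁻¹) *
                (M.io a' * M.ev u') := by
            simp only [ZZ, map_mul, map_inv]
            group
          rw [e4, ra]
          have e5 : (M.ev k)⁻¹ * (M.io f)⁻¹ * (M.io h * M.ev r) * (M.io a' * M.ev u') =
              (M.ev k)⁻¹ * (M.io f)⁻¹ * M.io h * (M.ev r * M.io a' * M.ev u') := by group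
          rw [e5, rb]
          simp only [ZZ, map_mul, map_inv]
          group
        refine ⟨p, f0, s0, q ++ [(f, (k, true))], f0', s0', q' ++ [(y * (a⁻¹ * a'), (u', true))],
          ?_, ?_, R.b1, ?_, ?_, ?_, ?_, ?_, ?_⟩
        · have e1 := R.e1
          simp only [List.reverse_cons]
          rw [e1]
          simp
        · rw [h3]
          simp only [List.reverse_cons]
          rw [R.e2]
          simp
        · intro z hz
          rw [List.mem_append] at hz
          rcases hz with hz | hz
          · exact R.b2 z hz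
          · have : z = (f, (k, true)) := by simpa using hz
            rw [this]
            have e1 : f = h * ((f * c⁻¹)⁻¹ * h)⁻¹ * c := by group
            have hB := memB S (lab1 S h1) (lab1 S h2) hc
            rw [← e1] at hB
            exact hB
        · intro z hz
          rw [List.mem_append] at hz
          rcases hz with hz | hz
          · exact R.b3 z hz
          · have : z = (y * (a⁻¹ * a'), (u', true)) := by simpa using hz
            rw [this]
            exact hwB
        · rw [h3]
          exact lab3 S h2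
        · rw [List.length_append, List.length_append, List.length_singleton, List.length_singleton]
          rcases R.len with h4 | h4 <;> omega
        · rw [h3]
          exact hfull
        · intro i
          by_cases hi : i ≤ q'.length
          · have hq' : (q' ++ [(y * (a⁻¹ * a'), (u', true))]).take i = q'.take i :=
              List.take_append_of_le_length hi
            have hq : (q ++ [(f, (k, true))]).take i = q.take i :=
              List.take_append_of_le_length (by rcases R.len with h4 | h4 <;> omega)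
            rw [hq, hq']
            exact R.part i
          · have hq' : (q' ++ [(y * (a⁻¹ * a'), (u', true))]).take i =
                q' ++ [(y * (a⁻¹ * a'), (u', true))] :=
              List.take_of_length_le (by
                rw [List.length_append, List.length_singleton]
                omega)
            rw [hq']
            by_cases hi2 : i ≤ q.length
            · have hlen : q.length = q'.length + 1 := by
                rcases R.len with h4 | h4
                · omega
                · exact h4
              have hq : (q ++ [(f, (k, true))]).take i = q := by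
                rw [List.take_append_of_le_length hi2, List.take_of_length_le (by omega)]
              rw [hq]
              right; left
              refine ⟨ZZ M k1 c1 u1 y, ⟨k1, u1, c1, lab3 S h1, y, hyL, rfl⟩, _, hwB, u', ?_⟩
              rw [← hRfull]
              have e2 : M.vl ((f0', s0') :: (q' ++ [(y * (a⁻¹ * a'), (u', true))])) =
                  M.vl ((f0', s0') :: q') * (M.io (y * (a⁻¹ * a')) * M.ev u') := by
                rw [← List.cons_append, M.vl_append]
                simp
              rw [e2, mul_assoc]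
            · have hq : (q ++ [(f, (k, true))]).take i = q ++ [(f, (k, true))] :=
                List.take_of_length_le (by
                  rw [List.length_append, List.length_singleton]
                  omega)
              rw [hq, hfull]
              left
              exact ⟨k, u, c, hc, c', lab3 S h2, rfl⟩

end

end BA.RSM

namespace BA

open RSM in
theorem specRS : SpecRS := by
  intro F E _ _ S G _ M
  refine ⟨BB S, KK M, BB_finite S, KK_finite M, ?_⟩
  intro x l g _ l' g' hl' hg'
  rcases l.eq_nil_or_concat with h0 | ⟨l0, y, h0⟩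
  · left
    subst h0
    rw [List.reverse_nil, S.rm_nil] at hl' hg'
    rw [hl', hg']
    simp
  · have hrev : l.reverse = y :: l0.reverse := by
      rw [h0]
      simp
    obtain ⟨f, ⟨k, e⟩⟩ := y
    have hl : l = l0 ++ [(f, (k, e))] := by
      rw [h0]
      simp
    rw [hrev] at hl' hg'
    cases e
    · by_cases hc : k = x ∧ g = 1
      · obtain ⟨rfl, rfl⟩ := hc
        right; left
        rw [S.rm_cancel] at hl' hg'
        rw [hl', hg', hl]
        simp
      · left
        rw [S.rm_keep (y := (f, (k, false))) (g := g) (x := x) hc] at hl' hg'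
        rw [hl', hg', hl]
        simp
    · by_cases hD : S.D k g x
      · obtain ⟨a, u, c, htri⟩ := hD
        right; right
        rw [S.rm_t htri] at hl' hg'
        obtain ⟨p, f0, s0, q, f0', s0', q', R⟩ := recursion M l0.reverse f k c u (lab3 S htri)
        have e1 := R.e1
        rw [List.reverse_reverse] at e1
        refine ⟨p, f0, s0, q, f0', s0', q', ?_, ?_, R.b1, R.b2, R.b3, ?_, ?_, ?_, ?_, R.part⟩
        · rw [hl, e1]
        · rw [hl', R.e2]
        · have hB := memB S (lab1 S htri) (one_mem S) (one_mem S)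
          have e2 : g * (1 : F)⁻¹ * 1 = g := by group
          rw [e2] at hB
          exact hB
        · rw [hg']
          have hB := memB S R.b4 (lab2 S htri) (one_mem S)
          rw [mul_one] at hB
          exact hB
        · rcases R.len with h4 | h4 <;> omega
        · rcases R.len with h4 | h4 <;> omega
      · left
        rw [S.rm_keep (y := (f, (k, true))) (g := g) (x := x) hD] at hl' hg'
        rw [hl', hg', hl]
        simp

end BA
end

section
set_option autoImplicit false

namespace BA

namespace RVM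

variable {F E : Type} [Group F]

theorem rr_val (S : TSys F E) {G : Type} [Group G] (M : S.Model G) (rl : List (F × Sg E)) :
    ∀ (g : F) (u : E),
    M.vl (S.rr rl g u).1.reverse * M.io (S.rr rl g u).2 = M.vl rl.reverse * M.io g * (M.ev u)⁻¹ := by
  induction rl with
  | nil =>
    intro g u
    rw [S.rr_nil]
    simp
  | cons x rl ih =>
    intro g u
    obtain ⟨f, k, e⟩ := x
    cases e with
    | true =>
      rcases S.rr_cases_t f k g u rl with h | ⟨h, r, a, u1, c, a', u', c', h1, h2, h3⟩
      · rw [h]
        simp [M.vl_append, mul_assoc]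
      · rw [h3]
        have hr := M.rel h1
        have hr' := M.rel h2
        have hi := ih (f * c⁻¹) u1
        have e1 : (M.io c)⁻¹ * (M.ev u1)⁻¹ * (M.io a)⁻¹ = M.ev k * M.io h * M.ev r := by
          have e2 : (M.ev k * M.io h * M.ev r) * (M.io a * M.ev u1 * M.io c) = 1 := by
            simpa [mul_assoc] using hr
          rw [eq_comm, mul_eq_one_iff_eq_inv.1 e2]
          group
        have e3 : M.io a' * M.ev u' * M.io c' = (M.ev u * ((M.io g)⁻¹ * M.io h) * M.ev r)⁻¹ := by
          have e4 : (M.ev u * ((M.io g)⁻¹ * M.io h) * M.ev r) * (M.io a' * M.ev u' * M.io c') = 1 := by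
            simpa [mul_assoc] using hr'
          exact (inv_eq_of_mul_eq_one_right e4).symm
        simp only [List.reverse_cons, M.vl_append, TSys.Model.vl_cons, TSys.Model.vl_nil, map_mul, map_inv,
          TSys.Model.sv_true] at hi ⊢
        calc M.vl (S.rr rl (f * c⁻¹) u1).1.reverse *
              (M.io (S.rr rl (f * c⁻¹) u1).2 * ((M.io a)⁻¹ * M.io a') * M.ev u' * 1) * M.io c'
            = (M.vl (S.rr rl (f * c⁻¹) u1).1.reverse * M.io (S.rr rl (f * c⁻¹) u1).2) * (M.io a)⁻¹ *
                (M.io a' * M.ev u' * M.io c') := by group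
          _ = (M.vl rl.reverse * M.io f) * ((M.io c)⁻¹ * (M.ev u1)⁻¹ * (M.io a)⁻¹) *
                (M.io a' * M.ev u' * M.io c') := by rw [hi]; group
          _ = _ := by rw [e1, e3]; group
    | false =>
      rcases S.rr_cases_f f k g u rl with h | ⟨a, u', c, h1, h3⟩
      · rw [h]
        simp [M.vl_append, mul_assoc]
      · rw [h3]
        have hr := M.rel h1
        have e3 : M.io a * M.ev u' * M.io c = (M.ev u * (M.io g)⁻¹ * M.ev k)⁻¹ := by
          have e4 : (M.ev u * (M.io g)⁻¹ * M.ev k) * (M.io a * M.ev u' * M.io c) = 1 := by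
            simpa [mul_assoc] using hr
          exact (inv_eq_of_mul_eq_one_right e4).symm
        simp only [List.reverse_cons, M.vl_append, TSys.Model.vl_cons, TSys.Model.vl_nil, map_mul,
          TSys.Model.sv_true, TSys.Model.sv_false]
        calc M.vl rl.reverse * (M.io f * M.io a * M.ev u' * 1) * M.io c
            = M.vl rl.reverse * M.io f * (M.io a * M.ev u' * M.io c) := by group
          _ = _ := by rw [e3]; group

theorem rm_val (S : TSys F E) {G : Type} [Group G] (M : S.Model G) (rl : List (F × Sg E)) (g : F) (x : E) :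
    M.vl (S.rm rl g x).1.reverse * M.io (S.rm rl g x).2 = M.vl rl.reverse * M.io g * M.ev x := by
  classical
  rcases rl with _ | ⟨⟨f, k, e⟩, rl⟩
  · rw [S.rm_nil]
    simp
  · by_cases hk : S.Keep (k, e) g (x, true)
    · rw [S.rm_keep (y := (f, (k, e))) hk]
      simp [M.vl_append, mul_assoc]
    · cases e with
      | true =>
        have h1 : S.D k g x := by
          by_contra h2
          exact hk h2
        obtain ⟨a, u, c, h2⟩ := h1
        rw [S.rm_t h2]
        have hr := M.rel h2
        have hi := rr_val S M rl (f * c⁻¹) u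
        have e1 : (M.io c)⁻¹ * (M.ev u)⁻¹ * (M.io a)⁻¹ = M.ev k * M.io g * M.ev x := by
          have e2 : (M.ev k * M.io g * M.ev x) * (M.io a * M.ev u * M.io c) = 1 := by
            simpa [mul_assoc] using hr
          rw [eq_comm, mul_eq_one_iff_eq_inv.1 e2]
          group
        simp only [List.reverse_cons, M.vl_append, TSys.Model.vl_cons, TSys.Model.vl_nil, map_mul, map_inv,
          TSys.Model.sv_true] at hi ⊢
        calc M.vl (S.rr rl (f * c⁻¹) u).1.reverse * (M.io (S.rr rl (f * c⁻¹) u).2 * (M.io a)⁻¹)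
            = (M.vl (S.rr rl (f * c⁻¹) u).1.reverse * M.io (S.rr rl (f * c⁻¹) u).2) * (M.io a)⁻¹ := by group
          _ = (M.vl rl.reverse * M.io f) * ((M.io c)⁻¹ * (M.ev u)⁻¹ * (M.io a)⁻¹) := by rw [hi]; group
          _ = _ := by rw [e1]; group
      | false =>
        have h1 : k = x ∧ g = 1 := by
          by_contra h2
          exact hk h2
        obtain ⟨rfl, rfl⟩ := h1
        rw [S.rm_cancel]
        simp [M.vl_append, mul_assoc]

end RVM

theorem specRV : SpecRV := by
  intro F E _ S G _ M rl g u
  exact ⟨RVM.rr_val S M rl g u, RVM.rm_val S M rl g u⟩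

end BA
end

section
set_option autoImplicit false

namespace BA.VEM

open BA

variable {T E : Type} [DecidableEq T] {S : TSys (FreeGroup T) E} {G : Type} [Group G] (M : S.Model G)

theorem wv_B (L : List (T × Bool)) : M.wv (L.map (Let.B (E := E))) = M.io (FreeGroup.mk L) := by
  induction L with
  | nil =>
    have h : (FreeGroup.mk ([] : List (T × Bool))) = 1 := rfl
    rw [h, map_one]; simp [TSys.Model.wv]
  | cons z L ih =>
    rw [List.map_cons, TSys.Model.wv_cons, ih]
    have h : FreeGroup.mk (z :: L) = FreeGroup.mk [z] * FreeGroup.mk L := by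
      rw [FreeGroup.mul_mk]; rfl
    rw [h, map_mul]
    rfl

theorem wv_word (g : FreeGroup T) : M.wv (g.toWord.map (Let.B (E := E))) = M.io g := by
  rw [wv_B, FreeGroup.mk_toWord]

theorem wv_encB (C : ℕ) (x : FreeGroup T × Sg E) : M.wv (encB C x) = M.io x.1 * M.sv x.2 := by
  unfold encB
  split_ifs with h
  · rw [TSys.Model.wv_cons, TSys.Model.wv_nil, mul_one]; rfl
  · rw [TSys.Model.wv_append, wv_word, TSys.Model.wv_cons, TSys.Model.wv_nil, mul_one]
    show M.io x.1 * (M.io 1 * M.sv x.2) = _
    rw [map_one, one_mul]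

theorem wv_flat (C : ℕ) (l : List (FreeGroup T × Sg E)) : M.wv (l.flatMap (encB C)) = M.vl l := by
  induction l with
  | nil => simp [TSys.Model.wv]
  | cons x l ih =>
    rw [List.flatMap_cons, TSys.Model.wv_append, ih, wv_encB, TSys.Model.vl_cons]

end BA.VEM

namespace BA

theorem specVE : SpecVE := by
  intro T E _ S G _ M C
  refine ⟨VEM.wv_encB M C, VEM.wv_flat M C, VEM.wv_word M, ?_, ?_⟩
  · intro st
    unfold enc
    rw [TSys.Model.wv_append, VEM.wv_flat, VEM.wv_word]
    rfl
  · intro st y hy
    unfold enc at hy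
    rw [List.mem_append] at hy
    rcases hy with hy | hy
    · rw [List.mem_flatMap] at hy
      obtain ⟨x, hx, hy⟩ := hy
      unfold encB at hy
      split_ifs at hy with h
      · rw [List.mem_singleton] at hy
        right
        exact ⟨x.1, x.2, h, by rw [hy]⟩
      · rw [List.mem_append] at hy
        rcases hy with hy | hy
        · rw [List.mem_map] at hy
          obtain ⟨z, _, hz⟩ := hy
          left
          exact ⟨z, by rw [← hz]⟩
        · rw [List.mem_singleton] at hy
          right
          exact ⟨1, x.2, by rw [FreeGroup.norm_one]; exact Nat.zero_le _, by rw [hy]⟩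
    · rw [List.mem_map] at hy
      obtain ⟨z, _, hz⟩ := hy
      left
      exact ⟨z, by rw [← hz]⟩

end BA
end

section
set_option autoImplicit false

namespace BA.WBM

open BA

variable {T E : Type} [DecidableEq T] {S : TSys (FreeGroup T) E} {G : Type} [Group G] (M : S.Model G)

theorem flat_eq (C : ℕ) (q : List (FreeGroup T × Sg E)) (h : ∀ x ∈ q, x.1.norm ≤ C) :
    q.flatMap (encB C) = q.map (fun x => Let.M x.1 x.2) := by
  induction q with
  | nil => rfl
  | cons x q ih =>
    rw [List.flatMap_cons, List.map_cons, ih (fun y hy => h y (List.mem_cons_of_mem _ hy))]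
    unfold encB
    rw [if_pos (h x List.mem_cons_self)]
    rfl

theorem wv_map (q : List (FreeGroup T × Sg E)) :
    M.wv (q.map (fun x => Let.M x.1 x.2)) = M.vl q := by
  induction q with
  | nil => simp [TSys.Model.wv]
  | cons x q ih =>
    rw [List.map_cons, TSys.Model.wv_cons, ih, TSys.Model.vl_cons]
    rfl

end BA.WBM

namespace BA

theorem specWB : SpecWB := by
  intro T E _ S G _ M C q h
  rw [WBM.flat_eq C q h]
  refine ⟨by rw [List.length_map], ?_⟩
  intro t
  rw [← List.map_take, WBM.wv_map]

end BA
end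

section
set_option autoImplicit false

namespace BA
namespace WUM

section free

variable {T : Type} [DecidableEq T]

theorem ball_fin [Finite T] (n : ℕ) : {h : FreeGroup T | h.norm ≤ n}.Finite :=
  (List.finite_length_le (T × Bool) n).preimage (FreeGroup.toWord_injective.injOn)

/-- left multiplication by a short word: the reduced words have a common end -/
theorem left (L : List (T × Bool)) (f : FreeGroup T) : ∃ A β γ : List (T × Bool),
    f.toWord = β ++ A ∧ (FreeGroup.mk L * f).toWord = γ ++ A ∧
    β.length ≤ L.length ∧ γ.length ≤ L.length := by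
  induction L with
  | nil =>
    refine ⟨f.toWord, [], [], by simp, ?_, le_rfl, le_rfl⟩
    have : (FreeGroup.mk [] : FreeGroup T) = 1 := rfl
    rw [this, one_mul]
    simp
  | cons z L ih =>
    obtain ⟨A, β, γ, h1, h2, h3, h4⟩ := ih
    have e : (FreeGroup.mk (z :: L) * f).toWord
        = FreeGroup.reduce (z :: (FreeGroup.mk L * f).toWord) := by
      have e1 : (FreeGroup.mk (z :: L) : FreeGroup T) * f
          = FreeGroup.mk [z] * (FreeGroup.mk L * f) := by
        rw [← mul_assoc]
        rfl
      rw [e1, FreeGroup.toWord_mul]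
      rfl
    have hred : FreeGroup.reduce (γ ++ A) = γ ++ A := by
      rw [← h2]; exact FreeGroup.reduce_toWord _
    rw [h2, FreeGroup.reduce.cons, hred] at e
    rcases γ with _ | ⟨g0, γ⟩
    · rcases A with _ | ⟨a0, A⟩
      · refine ⟨[], β, [z], by simpa using h1, by simpa using e, by simp; omega, by simp⟩
      · by_cases hc : z.1 = a0.1 ∧ z.2 = !a0.2
        · refine ⟨A, β ++ [a0], [], by simpa using h1, ?_, by simp; omega, by simp⟩
          simp only [List.nil_append] at e ⊢
          rw [e, if_pos hc]
        · refine ⟨a0 :: A, β, [z], h1, ?_, by simp; omega, by simp⟩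
          simp only [List.nil_append] at e
          rw [e, if_neg hc]
          rfl
    · by_cases hc : z.1 = g0.1 ∧ z.2 = !g0.2
      · refine ⟨A, β, γ, h1, ?_, by simp; omega, ?_⟩
        · simp only [List.cons_append] at e
          rw [e, if_pos hc]
        · simp only [List.length_cons] at h4 ⊢
          omega
      · refine ⟨A, β, z :: g0 :: γ, h1, ?_, by simp; omega, ?_⟩
        · simp only [List.cons_append] at e ⊢
          rw [e, if_neg hc]
        · simp only [List.length_cons] at h4 ⊢
          omega

theorem left' (u f : FreeGroup T) (N : ℕ) (hu : u.norm ≤ N) : ∃ A β γ : List (T × Bool),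
    f.toWord = β ++ A ∧ (u * f).toWord = γ ++ A ∧ β.length ≤ N ∧ γ.length ≤ N := by
  obtain ⟨A, β, γ, h1, h2, h3, h4⟩ := left u.toWord f
  rw [FreeGroup.mk_toWord] at h2
  exact ⟨A, β, γ, h1, h2, h3.trans hu, h4.trans hu⟩

theorem right' (f f' : FreeGroup T) (N : ℕ) (hu : (f⁻¹ * f').norm ≤ N) :
    ∃ A β γ : List (T × Bool),
    f.toWord = A ++ β ∧ f'.toWord = A ++ γ ∧ β.length ≤ N ∧ γ.length ≤ N := by
  obtain ⟨A, β, γ, h1, h2, h3, h4⟩ := left' (f'⁻¹ * f) f⁻¹ N (by
    have : f'⁻¹ * f = (f⁻¹ * f')⁻¹ := by group
    rw [this, FreeGroup.norm_inv_eq]; exact hu)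
  have e : f'⁻¹ * f * f⁻¹ = f'⁻¹ := by group
  rw [e] at h2
  rw [FreeGroup.toWord_inv] at h1 h2
  refine ⟨FreeGroup.invRev A, FreeGroup.invRev β, FreeGroup.invRev γ, ?_, ?_, ?_, ?_⟩
  · have := congrArg FreeGroup.invRev h1
    rw [FreeGroup.invRev_invRev, FreeGroup.invRev_append] at this
    exact this
  · have := congrArg FreeGroup.invRev h2
    rw [FreeGroup.invRev_invRev, FreeGroup.invRev_append] at this
    exact this
  · rw [FreeGroup.invRev_length]; exact h3
  · rw [FreeGroup.invRev_length]; exact h4

theorem norm_le_of (f f' : FreeGroup T) (N : ℕ) (hu : (f⁻¹ * f').norm ≤ N) :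
    f'.norm ≤ f.norm + N := by
  have h1 : f' = f * (f⁻¹ * f') := by group
  calc f'.norm = (f * (f⁻¹ * f')).norm := by rw [← h1]
    _ ≤ f.norm + (f⁻¹ * f').norm := FreeGroup.norm_mul_le _ _
    _ ≤ _ := by omega

end free

section words

variable {T E : Type} [DecidableEq T]

/-- the short letters -/
def Lam (C : ℕ) : Set (Let T E) :=
  {y | (∃ z : T × Bool, y = Let.B z) ∨ ∃ (f : FreeGroup T) (s : Sg E), f.norm ≤ C ∧ y = Let.M f s}

theorem Lam_fin [Finite T] [Finite E] (C : ℕ) : (Lam C : Set (Let T E)).Finite := by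
  have h1 : (Set.range (fun z : T × Bool => (Let.B z : Let T E))).Finite := Set.finite_range _
  have h2 : ((fun p : FreeGroup T × Sg E => Let.M p.1 p.2) ''
      ({h : FreeGroup T | h.norm ≤ C} ×ˢ (Set.univ : Set (Sg E)))).Finite :=
    ((ball_fin C).prod Set.finite_univ).image _
  apply (h1.union h2).subset
  rintro y (⟨z, rfl⟩ | ⟨f, s, hf, rfl⟩)
  · exact Or.inl ⟨z, rfl⟩
  · exact Or.inr ⟨(f, s), ⟨hf, Set.mem_univ _⟩, rfl⟩

/-- the short words -/
def SW (C n : ℕ) : Set (List (Let T E)) := {Q | Q.length ≤ n ∧ ∀ y ∈ Q, y ∈ (Lam C : Set (Let T E))}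

theorem SW_fin [Finite T] [Finite E] (C n : ℕ) : (SW C n : Set (List (Let T E))).Finite := by
  have hf := Lam_fin (T := T) (E := E) C
  have : Finite (Lam C : Set (Let T E)) := hf
  have h1 : ((List.map Subtype.val) '' {l : List (Lam C : Set (Let T E)) | l.length ≤ n}).Finite :=
    (List.finite_length_le _ n).image _
  apply h1.subset
  rintro Q ⟨hQ1, hQ2⟩
  refine ⟨Q.pmap (fun y hy => (⟨y, hy⟩ : (Lam C : Set (Let T E)))) hQ2, ?_, ?_⟩
  · simpa using hQ1
  · rw [List.map_pmap]
    simp

variable {S : TSys (FreeGroup T) E} {G : Type} [Group G] (M : S.Model G)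

/-- the values of the short words -/
def VS (C n : ℕ) : Set G := M.wv '' (SW C n : Set (List (Let T E)))

theorem VS_fin [Finite T] [Finite E] (C n : ℕ) : (VS M C n).Finite := (SW_fin C n).image _

theorem SW_take {C n : ℕ} {Q : List (Let T E)} (h : Q ∈ (SW C n : Set (List (Let T E)))) (i : ℕ) :
    Q.take i ∈ (SW C n : Set (List (Let T E))) := by
  refine ⟨?_, ?_⟩
  · rw [List.length_take]
    exact (min_le_right _ _).trans h.1
  · intro y hy
    exact h.2 y (List.mem_of_mem_take hy)

theorem SW_nil (C n : ℕ) : ([] : List (Let T E)) ∈ (SW C n : Set (List (Let T E))) :=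
  ⟨Nat.zero_le _, by simp⟩

theorem SW_mono {C n n' : ℕ} (h : n ≤ n') {Q : List (Let T E)}
    (hQ : Q ∈ (SW C n : Set (List (Let T E)))) : Q ∈ (SW C n' : Set (List (Let T E))) :=
  ⟨hQ.1.trans h, hQ.2⟩

theorem SW_append {C n n' : ℕ} {Q Q' : List (Let T E)}
    (hQ : Q ∈ (SW C n : Set (List (Let T E)))) (hQ' : Q' ∈ (SW C n' : Set (List (Let T E)))) :
    Q ++ Q' ∈ (SW C (n + n') : Set (List (Let T E))) := by
  refine ⟨?_, ?_⟩
  · rw [List.length_append]
    exact Nat.add_le_add hQ.1 hQ'.1
  · intro y hy
    rcases List.mem_append.1 hy with h | h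
    · exact hQ.2 y h
    · exact hQ'.2 y h

theorem SW_B {C n : ℕ} {β : List (T × Bool)} (h : β.length ≤ n) :
    β.map Let.B ∈ (SW C n : Set (List (Let T E))) := by
  refine ⟨by simpa using h, ?_⟩
  intro y hy
  obtain ⟨z, _, rfl⟩ := List.mem_map.1 hy
  exact Or.inl ⟨z, rfl⟩

theorem SW_M {C : ℕ} {f : FreeGroup T} {s : Sg E} (h : f.norm ≤ C) :
    [Let.M f s] ∈ (SW C 1 : Set (List (Let T E))) := by
  refine ⟨by simp, ?_⟩
  intro y hy
  rw [List.mem_singleton] at hy
  subst hy
  exact Or.inr ⟨f, s, h, rfl⟩

theorem SW_enc {C n : ℕ} {f : FreeGroup T} {s : Sg E} (h : f.norm ≤ n) :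
    encB C (f, s) ∈ (SW C (n + 1) : Set (List (Let T E))) := by
  unfold encB
  split_ifs with hc
  · exact SW_mono (by omega) (SW_M hc)
  · exact SW_append (SW_B h) (SW_M (by simp))

/-- a common end -/
theorem tail (C n : ℕ) (K : Set G) (x : G) (P P' R : List (Let T E))
    (hP : P ∈ (SW C n : Set (List (Let T E)))) (hP' : P' ∈ (SW C n : Set (List (Let T E))))
    (hx : x * M.wv P = M.wv P') (h1 : (1 : G) ∈ K) (hK : ∀ v ∈ VS M C n, (x * v)⁻¹ ∈ K) :
    M.Close n K x (P ++ R) (P' ++ R) := by
  intro t
  rcases le_or_gt P.length t with h | h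
  · refine ⟨t - P.length + P'.length, ?_, ?_, ?_⟩
    · have := hP.1; omega
    · have := hP'.1; omega
    · have e1 : (P ++ R).take t = P ++ R.take (t - P.length) := by
        rw [List.take_append, List.take_of_length_le h]
      have e2 : (P' ++ R).take (t - P.length + P'.length) = P' ++ R.take (t - P.length) := by
        rw [List.take_append, List.take_of_length_le (by omega)]
        congr 2
        omega
      rw [e1, e2, M.wv_append, M.wv_append, ← hx]
      have : (x * (M.wv P * M.wv (R.take (t - P.length))))⁻¹ *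
          (x * M.wv P * M.wv (R.take (t - P.length))) = 1 := by group
      rw [this]
      exact h1
  · refine ⟨0, ?_, by omega, ?_⟩
    · have := hP.1; omega
    · have e1 : (P ++ R).take t = P.take t := List.take_append_of_le_length h.le
      rw [e1, List.take_zero, M.wv_nil, mul_one]
      exact hK _ ⟨P.take t, SW_take hP t, rfl⟩

/-- a common beginning -/
theorem head (C n : ℕ) (K : Set G) (A P P' : List (Let T E))
    (hP : P ∈ (SW C n : Set (List (Let T E)))) (hP' : P' ∈ (SW C n : Set (List (Let T E))))
    (hK : ∀ v ∈ VS M C n, ∀ v' ∈ VS M C n, v⁻¹ * v' ∈ K) :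
    M.Close n K 1 (A ++ P) (A ++ P') := by
  intro t
  refine ⟨t, by omega, by omega, ?_⟩
  have e1 : ∀ Q : List (Let T E), (A ++ Q).take t = A.take t ++ Q.take (t - A.length) := by
    intro Q; rw [List.take_append]
  rw [e1, e1, M.wv_append, M.wv_append, one_mul]
  have : (M.wv (A.take t) * M.wv (P.take (t - A.length)))⁻¹ *
      (M.wv (A.take t) * M.wv (P'.take (t - A.length)))
      = (M.wv (P.take (t - A.length)))⁻¹ * M.wv (P'.take (t - A.length)) := by group
  rw [this]
  exact hK _ ⟨_, SW_take hP _, rfl⟩ _ ⟨_, SW_take hP' _, rfl⟩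

end words

end WUM

open WUM in
theorem specWU (hVE : SpecVE) : SpecWU := by
  intro T E _ _ _ S G _ M N C
  set n : ℕ := C + N + 1 with hn
  set K : Set G := {1} ∪ ((fun p : G × G => (p.1 * p.2)⁻¹) ''
    ((M.io '' {h : FreeGroup T | h.norm ≤ N}) ×ˢ VS M C n)) with hK
  refine ⟨n, K, ?_, ?_⟩
  · exact (Set.finite_singleton _).union
      ((((ball_fin N).image _).prod (VS_fin M C n)).image _)
  · intro u hu p g
    obtain ⟨v1, v2, v3, v4, v5⟩ := hVE S M C
    have h1 : (1 : G) ∈ K := Or.inl rfl
    have hKu : ∀ v ∈ VS M C n, (M.io u * v)⁻¹ ∈ K := fun v hv =>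
      Or.inr ⟨(M.io u, v), ⟨⟨u, hu, rfl⟩, hv⟩, rfl⟩
    -- values of runs
    have vB : ∀ L : List (T × Bool), M.wv (L.map (Let.B (E := E))) = M.io (FreeGroup.mk L) := by
      intro L
      induction L with
      | nil =>
        have : (FreeGroup.mk [] : FreeGroup T) = 1 := rfl
        rw [this, map_one]
        exact M.wv_nil
      | cons z L ih =>
        rw [List.map_cons, M.wv_cons, ih]
        have : (FreeGroup.mk (z :: L) : FreeGroup T) = FreeGroup.mk [z] * FreeGroup.mk L := rfl
        rw [this, map_mul]
        rfl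
    rcases p with _ | ⟨⟨f, s⟩, p⟩
    · -- final run
      obtain ⟨A, β, γ, a1, a2, a3, a4⟩ := left' u g N hu
      have e1 : enc C (([] : List (FreeGroup T × Sg E)), g)
          = β.map Let.B ++ A.map Let.B := by
        unfold enc
        simp only [List.flatMap_nil, List.nil_append]
        rw [a1, List.map_append]
      have e2 : enc C (lf u (([] : List (FreeGroup T × Sg E)), g))
          = γ.map Let.B ++ A.map Let.B := by
        unfold enc
        simp only [lf_nil, List.flatMap_nil, List.nil_append]
        rw [a2, List.map_append]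
      rw [e1, e2]
      apply tail M C n K (M.io u) _ _ _ (SW_B (by omega)) (SW_B (by omega)) _ h1 hKu
      rw [vB, vB, ← map_mul]
      congr 1
      have b1 : g = FreeGroup.mk β * FreeGroup.mk A := by
        rw [FreeGroup.mul_mk, ← a1, FreeGroup.mk_toWord]
      have b2 : u * g = FreeGroup.mk γ * FreeGroup.mk A := by
        rw [FreeGroup.mul_mk, ← a2, FreeGroup.mk_toWord]
      rw [b1, ← mul_assoc] at b2
      exact mul_right_cancel b2
    · set R : List (Let T E) := p.flatMap (encB C) ++ g.toWord.map Let.B with hR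
      have e1 : enc C ((f, s) :: p, g) = encB C (f, s) ++ R := by
        unfold enc
        rw [hR, List.flatMap_cons, List.append_assoc]
      have e2 : enc C (lf u ((f, s) :: p, g)) = encB C (u * f, s) ++ R := by
        unfold enc
        rw [hR, lf_cons, List.flatMap_cons, List.append_assoc]
      rw [e1, e2]
      by_cases hlong : C < f.norm ∧ C < (u * f).norm
      · obtain ⟨A, β, γ, a1, a2, a3, a4⟩ := left' u f N hu
        have e3 : encB C (f, s) = β.map Let.B ++ (A.map Let.B ++ [Let.M 1 s]) := by
          unfold encB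
          rw [if_neg (by simpa using hlong.1)]
          simp only
          rw [a1, List.map_append, List.append_assoc]
        have e4 : encB C (u * f, s) = γ.map Let.B ++ (A.map Let.B ++ [Let.M 1 s]) := by
          unfold encB
          rw [if_neg (by simpa using hlong.2)]
          simp only
          rw [a2, List.map_append, List.append_assoc]
        have e5 : encB C (f, s) ++ R = β.map Let.B ++ ((A.map Let.B ++ [Let.M 1 s]) ++ R) := by
          rw [e3, List.append_assoc]
        have e6 : encB C (u * f, s) ++ R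
            = γ.map Let.B ++ ((A.map Let.B ++ [Let.M 1 s]) ++ R) := by
          rw [e4, List.append_assoc]
        rw [e5, e6]
        apply tail M C n K (M.io u) _ _ _ (SW_B (by omega)) (SW_B (by omega)) _ h1 hKu
        rw [vB, vB, ← map_mul]
        congr 1
        have b1 : f = FreeGroup.mk β * FreeGroup.mk A := by
          rw [FreeGroup.mul_mk, ← a1, FreeGroup.mk_toWord]
        have b2 : u * f = FreeGroup.mk γ * FreeGroup.mk A := by
          rw [FreeGroup.mul_mk, ← a2, FreeGroup.mk_toWord]
        nth_rewrite 1 [b1] at b2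
        rw [← mul_assoc] at b2
        exact mul_right_cancel b2
      · have hshort : f.norm ≤ C + N ∧ (u * f).norm ≤ C + N := by
          have h2 : (u * f).norm ≤ u.norm + f.norm := FreeGroup.norm_mul_le _ _
          have h3 : f.norm ≤ u.norm + (u * f).norm := by
            have : f = u⁻¹ * (u * f) := by group
            calc f.norm = (u⁻¹ * (u * f)).norm := by rw [← this]
              _ ≤ u⁻¹.norm + (u * f).norm := FreeGroup.norm_mul_le _ _
              _ = _ := by rw [FreeGroup.norm_inv_eq]
          omega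
        apply tail M C n K (M.io u) _ _ _ (SW_enc hshort.1) (SW_enc hshort.2) _ h1 hKu
        rw [v1, v1, map_mul]
        simp only [mul_assoc]

end BA
end

section
set_option autoImplicit false

namespace BA

open WUM in
theorem specWF : SpecWF := by
  intro T E _ _ _ S G _ M N C
  set n : ℕ := C + N + 1 with hn
  set K : Set G := (fun p : G × G => p.1⁻¹ * p.2) '' (VS M C n ×ˢ VS M C n) with hK
  have hK2 : ∀ v ∈ VS M C n, ∀ v' ∈ VS M C n, v⁻¹ * v' ∈ K := fun v hv v' hv' =>
    ⟨(v, v'), ⟨hv, hv'⟩, rfl⟩
  refine ⟨n, K, ((VS_fin M C n).prod (VS_fin M C n)).image _, ?_, ?_, ?_⟩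
  · intro f f' s s' hff
    have hff' : (f'⁻¹ * f).norm ≤ N := by
      have : f'⁻¹ * f = (f⁻¹ * f')⁻¹ := by group
      rw [this, FreeGroup.norm_inv_eq]; exact hff
    have g1 := norm_le_of f f' N hff
    have g2 := norm_le_of f' f N hff'
    refine ⟨?_, ?_⟩
    · by_cases hlong : C < f.norm ∧ C < f'.norm
      · obtain ⟨A, β, γ, a1, a2, a3, a4⟩ := right' f f' N hff
        have e3 : encB C (f, s) = A.map Let.B ++ (β.map Let.B ++ [Let.M 1 s]) := by
          unfold encB
          rw [if_neg (by simpa using hlong.1)]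
          simp only
          rw [a1, List.map_append, List.append_assoc]
        have e4 : encB C (f', s') = A.map Let.B ++ (γ.map Let.B ++ [Let.M 1 s']) := by
          unfold encB
          rw [if_neg (by simpa using hlong.2)]
          simp only
          rw [a2, List.map_append, List.append_assoc]
        rw [e3, e4]
        apply head M C n K _ _ _ _ _ hK2
        · exact SW_mono (by omega) (SW_append (n := N) (n' := 1) (SW_B (by omega)) (SW_M (by simp)))
        · exact SW_mono (by omega) (SW_append (n := N) (n' := 1) (SW_B (by omega)) (SW_M (by simp)))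
      · have hshort : f.norm ≤ C + N ∧ f'.norm ≤ C + N := by omega
        have := head M C n K [] (encB C (f, s)) (encB C (f', s')) (SW_enc hshort.1)
          (SW_enc hshort.2) hK2
        simpa using this
    · unfold encB
      simp only
      unfold FreeGroup.norm at g1 g2
      split_ifs with h1 h2 h2
      · simp
      · simp only [List.length_append, List.length_map, List.length_singleton]
        omega
      · unfold FreeGroup.norm at h1 h2
        simp only [List.length_append, List.length_map, List.length_singleton]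
        omega
      · simp only [List.length_append, List.length_map, List.length_singleton]
        omega
  · intro g s
    by_cases hC : g.norm ≤ C
    · have e : encB C (g, s) = [Let.M g s] := by
        unfold encB
        rw [if_pos (by simpa using hC)]
      rw [e]
      have q1 : g.toWord.map (Let.B (E := E)) ∈ (SW C n : Set (List (Let T E))) :=
        SW_B (by unfold FreeGroup.norm at hC; omega)
      have q2 : [Let.M g s] ∈ (SW C n : Set (List (Let T E))) := SW_mono (by omega) (SW_M hC)
      refine ⟨?_, ?_⟩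
      · simpa using head M C n K [] _ _ q1 q2 hK2
      · simpa using head M C n K [] _ _ q2 q1 hK2
    · have e : encB C (g, s) = g.toWord.map Let.B ++ [Let.M 1 s] := by
        unfold encB
        rw [if_neg (by simpa using hC)]
      rw [e]
      have q2 : [Let.M (1 : FreeGroup T) s] ∈ (SW C n : Set (List (Let T E))) :=
        SW_mono (by omega) (SW_M (by simp))
      refine ⟨?_, ?_⟩
      · simpa using head M C n K (g.toWord.map Let.B) [] _ (SW_nil C n) q2 hK2
      · simpa using head M C n K (g.toWord.map Let.B) _ [] q2 (SW_nil C n) hK2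
  · intro g g' hgg
    obtain ⟨A, β, γ, a1, a2, a3, a4⟩ := right' g g' N hgg
    rw [a1, a2, List.map_append, List.map_append]
    exact head M C n K _ _ _ (SW_B (by omega)) (SW_B (by omega)) hK2

end BA
end

section
/-!
# MP_135d84_al, module WL: left multiplication
-/
set_option autoImplicit false

namespace BA

namespace WLM

/-- a bound for the norms of the elements of a finite set -/
theorem exists_bound {T : Type} [DecidableEq T] (B : Set (FreeGroup T)) (hB : B.Finite) :
    ∃ N : ℕ, 1 ≤ N ∧ ∀ f ∈ B, f.norm ≤ N := by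
  obtain ⟨N, hN⟩ := (hB.image (fun f : FreeGroup T => f.norm)).bddAbove
  exact ⟨max 1 N, le_max_left _ _, fun f hf => le_trans (hN ⟨f, hf, rfl⟩) (le_max_right _ _)⟩

end WLM

open WLM in
theorem specWL (hLS : SpecLS) (hOPV : SpecOPV) (hVE : SpecVE) (hWB : SpecWB) (hCC : SpecCC)
    (hCS : SpecCS) (hWU : SpecWU) : SpecWL := by
  intro T E _ _ _ S G _ M
  obtain ⟨B, K0, hB, hK0, hls⟩ := hLS S M
  obtain ⟨N, hN1, hN⟩ := exists_bound B hB
  refine ⟨N, ?_⟩
  intro C hC
  obtain ⟨c, K1, hK1, hwu⟩ := hWU S M N C
  obtain ⟨-, hvl, -, hval, hmem⟩ := hVE S M C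
  have hP := BIM.finite_PC M C
  obtain ⟨K2, hK2, hcs2⟩ := hCS S M (M.PC C) hP (2 + c) (K0 ∪ K1) (hK0.union hK1)
  obtain ⟨K3, hK3, hcs3⟩ := hCS S M (M.PC C) hP c K1 hK1
  refine ⟨K2 ∪ K3, hK2.union hK3, ?_, ?_⟩
  · rintro s ⟨l, g⟩
    obtain ⟨q, q', p, u, hl, hu, hop, hq, hq', hlen, hlen', hi⟩ := hls s l g
    have hqC : ∀ x ∈ q, x.1.norm ≤ C := fun x hx => le_trans (hN _ (hq x hx)) hC
    have hqC' : ∀ x ∈ q', x.1.norm ≤ C := fun x hx => le_trans (hN _ (hq' x hx)) hC
    obtain ⟨w1, w2⟩ := hWB S M C q hqC
    obtain ⟨w1', w2'⟩ := hWB S M C q' hqC'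
    have e1 : enc C (l, g) = q.flatMap (encB C) ++ enc C (p, g) := by
      rw [hl]
      simp [enc, List.flatMap_append]
    have e2 : enc C (S.opS s (l, g)) = q'.flatMap (encB C) ++ enc C (lf u (p, g)) := by
      rw [hop]
      simp [enc, List.flatMap_append]
    have hcl : M.Close 2 K0 (M.sv s) (q.flatMap (encB C)) (q'.flatMap (encB C)) := by
      intro t
      refine ⟨t, by omega, by omega, ?_⟩
      rw [w2, w2']
      exact hi t
    have hbase : ((M.sv s * M.wv (q.flatMap (encB C)))⁻¹ * M.wv (q'.flatMap (encB C)))⁻¹ = M.io u := by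
      rw [hvl, hvl]
      have h1 := hOPV S M s (l, g)
      rw [hop, hl] at h1
      have h2 : M.val (q' ++ (lf u (p, g)).1, (lf u (p, g)).2) = M.vl q' * (M.io u * M.val (p, g)) := by
        rw [M.val_mk, M.vl_append, mul_assoc]
        congr 1
        exact M.val_lf u (p, g)
      have h3 : M.val (q ++ p, g) = M.vl q * M.val (p, g) := by
        rw [M.val_mk, M.vl_append, mul_assoc]
        rfl
      rw [h2, h3, ← mul_assoc, ← mul_assoc] at h1
      have h4 := mul_right_cancel h1
      rw [← h4]
      group
    have hV := hwu u (hN u hu) p g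
    rw [← hbase] at hV
    have hfin := hCC S M 2 c K0 K1 (M.sv s) _ _ _ _ hcl
      (by rw [w1, w1']; exact hlen) (by rw [w1, w1']; exact hlen') hV
    rw [← e1, ← e2] at hfin
    have hs := hcs2 _ _ _ (fun y hy => hmem _ y hy) hfin
    exact fun t => Or.inl (hs t)
  · rintro z ⟨p, g⟩
    have hz : (FreeGroup.mk [z]).norm ≤ N := by
      refine le_trans FreeGroup.norm_mk_le ?_
      simpa using hN1
    have hV := hwu (FreeGroup.mk [z]) hz p g
    have hs := hcs3 _ _ _ (fun y hy => hmem _ y hy) hV
    exact fun t => Or.inr (hs t)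

end BA
end

section
/-!
# MP_135d84_al, module WR: right multiplication
-/
set_option autoImplicit false

namespace BA

namespace WRM

section

variable {T E : Type} {S : TSys (FreeGroup T) E} {G : Type} [Group G] (M : S.Model G)

theorem close_mono {c c' : ℕ} {K K' : Set G} (hc : c ≤ c') (hK : K ⊆ K') {x : G}
    {w w' : List (Let T E)} (h : M.Close c K x w w') : M.Close c' K' x w w' := by
  intro t
  obtain ⟨t', h1, h2, h3⟩ := h t
  exact ⟨t', by omega, by omega, hK h3⟩

theorem close_refl (w : List (Let T E)) : M.Close 0 {1} 1 w w := by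
  intro t
  exact ⟨t, by omega, by omega, by simp⟩

end

/-- values of short words of generators -/
def QQ {T E : Type} {S : TSys (FreeGroup T) E} {G : Type} [Group G] (M : S.Model G) (N : ℕ) : Set G :=
  (fun w : List (T × Bool) => M.wv (w.map (Let.B (E := E)))) '' {w | w.length ≤ N}

theorem finite_QQ {T E : Type} [Finite T] {S : TSys (FreeGroup T) E} {G : Type} [Group G]
    (M : S.Model G) (N : ℕ) : (QQ M N).Finite :=
  (List.finite_length_le (T × Bool) N).image _

theorem take_mem_QQ {T E : Type} [DecidableEq T] {S : TSys (FreeGroup T) E} {G : Type} [Group G]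
    (M : S.Model G) (N : ℕ) (g : FreeGroup T) (hg : g.norm ≤ N) (t : ℕ) :
    M.wv ((g.toWord.map (Let.B (E := E))).take t) ∈ QQ M N := by
  refine ⟨g.toWord.take t, ?_, ?_⟩
  · show (g.toWord.take t).length ≤ N
    rw [List.length_take]
    exact le_trans (min_le_right _ _) hg
  · show M.wv ((g.toWord.take t).map Let.B) = _
    rw [List.map_take]

end WRM

open WRM WLM in
theorem specWR (hRS : SpecRS) (hVE : SpecVE) (hWB : SpecWB) (hCC : SpecCC) (hCS : SpecCS)
    (hWF : SpecWF) : SpecWR := by
  intro T E _ _ _ S G _ M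
  obtain ⟨B, K0, hB, hK0, hrs⟩ := hRS S M
  obtain ⟨N, hN1, hN⟩ := exists_bound B hB
  refine ⟨N, ?_⟩
  intro C hC
  obtain ⟨c, K1, hK1, hwf1, hwf2, hwf3⟩ := hWF S M N C
  obtain ⟨hve, hvl, -, hval, hmem⟩ := hVE S M C
  have hP := BIM.finite_PC M C
  -- the set for the final runs
  set K3 : Set G := (fun p : G × G × G => (p.1⁻¹ * p.2.1)⁻¹ * p.2.2) '' (K0 ×ˢ (QQ M N ×ˢ QQ M N)) with hK3d
  have hK3 : K3.Finite := (hK0.prod ((finite_QQ M N).prod (finite_QQ M N))).image _
  set KT : Set G := {1} ∪ (K1 ∪ (K0 ∪ K3)) with hKTd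
  have hKT : KT.Finite := (Set.finite_singleton _).union (hK1.union (hK0.union hK3))
  set cT : ℕ := 0 + (c + (2 + 0)) with hcT
  obtain ⟨K2, hK2, hcs⟩ := hCS S M (M.PC C) hP cT KT hKT
  have hone : ∀ W : List (Let T E), ((1 * M.wv W)⁻¹ * M.wv W)⁻¹ = 1 := by
    intro W
    simp
  have hsub1 : ({1} : Set G) ∪ K1 ⊆ KT := by
    intro x hx
    rcases hx with hx | hx
    · exact Or.inl hx
    · exact Or.inr (Or.inl hx)
  refine ⟨K2, hK2, ?_, ?_⟩
  · intro x l g hl
    refine hcs _ _ _ (fun y hy => hmem _ y hy) ?_
    obtain ⟨l', hl'⟩ : ∃ l', l' = (S.rm l.reverse g x).1.reverse := ⟨_, rfl⟩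
    obtain ⟨g', hg'⟩ : ∃ g', g' = (S.rm l.reverse g x).2 := ⟨_, rfl⟩
    rw [← hl', ← hg']
    rcases hrs x l g hl l' g' hl' hg' with ⟨h1, h2⟩ | ⟨h1, h2⟩ |
      ⟨p, f, s, q, f', s', q', h1, h2, hff, hq, hq', hg, hg2, hlen, hlen', hi⟩
    · have e1 : enc C (l, g) = l.flatMap (encB C) ++ g.toWord.map Let.B := rfl
      have e2 : enc C (l', g') = l.flatMap (encB C) ++ encB C (g, (x, true)) := by
        rw [h1, h2]
        simp [enc, List.flatMap_append]
      rw [e1, e2]
      have := hCC S M 0 c {1} K1 1 _ _ _ _ (close_refl M (l.flatMap (encB C))) (by omega) (by omega)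
        (by rw [hone]; exact (hwf2 g (x, true)).1)
      exact close_mono M (by omega) hsub1 this
    · have e1 : enc C (l, g) = l'.flatMap (encB C) ++ encB C (g', (x, false)) := by
        rw [h1, h2]
        simp [enc, List.flatMap_append]
      have e2 : enc C (l', g') = l'.flatMap (encB C) ++ g'.toWord.map Let.B := rfl
      rw [e1, e2]
      have := hCC S M 0 c {1} K1 1 _ _ _ _ (close_refl M (l'.flatMap (encB C))) (by omega) (by omega)
        (by rw [hone]; exact (hwf2 g' (x, false)).2)
      exact close_mono M (by omega) hsub1 this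
    · have e1 : enc C (l, g) = p.flatMap (encB C) ++ (encB C (f, s) ++ (q.flatMap (encB C) ++
          g.toWord.map Let.B)) := by
        rw [h1]
        simp [enc, List.flatMap_append]
      have e2 : enc C (l', g') = p.flatMap (encB C) ++ (encB C (f', s') ++ (q'.flatMap (encB C) ++
          g'.toWord.map Let.B)) := by
        rw [h2]
        simp [enc, List.flatMap_append]
      have hqC : ∀ x ∈ q, x.1.norm ≤ C := fun x hx => le_trans (hN _ (hq x hx)) hC
      have hqC' : ∀ x ∈ q', x.1.norm ≤ C := fun x hx => le_trans (hN _ (hq' x hx)) hC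
      obtain ⟨w1, w2⟩ := hWB S M C q hqC
      obtain ⟨w1', w2'⟩ := hWB S M C q' hqC'
      have hff1 : (f⁻¹ * f').norm ≤ N := hN _ hff
      have hff2 : (f'⁻¹ * f).norm ≤ N := by
        have e : (f⁻¹ * f')⁻¹ = f'⁻¹ * f := by group
        rw [← e, FreeGroup.norm_inv_eq]
        exact hff1
      rw [e1, e2]
      -- the base elements
      have hx2 : ∀ i, ((((1 * M.wv (encB C (f, s)))⁻¹ * M.wv (encB C (f', s')))⁻¹) *
          M.vl (q.take i))⁻¹ * M.vl (q'.take i) ∈ K0 := by
        intro i
        have h := hi i
        rw [M.vl_cons, M.vl_cons] at h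
        rw [hve, hve]
        have e : (((1 * (M.io (f, s).1 * M.sv (f, s).2))⁻¹ * (M.io (f', s').1 * M.sv (f', s').2))⁻¹ *
            M.vl (q.take i))⁻¹ * M.vl (q'.take i) =
            (M.io (f, s).1 * M.sv (f, s).2 * M.vl (q.take i))⁻¹ *
            (M.io (f', s').1 * M.sv (f', s').2 * M.vl (q'.take i)) := by
          group
        rw [e]
        exact h
      have hc2 : M.Close 2 K0 (((1 * M.wv (encB C (f, s)))⁻¹ * M.wv (encB C (f', s')))⁻¹)
          (q.flatMap (encB C)) (q'.flatMap (encB C)) := by
        intro t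
        refine ⟨t, by omega, by omega, ?_⟩
        rw [w2, w2']
        exact hx2 t
      have hc3 : M.Close 0 K3 (((((1 * M.wv (encB C (f, s)))⁻¹ * M.wv (encB C (f', s')))⁻¹) *
          M.wv (q.flatMap (encB C)))⁻¹ * M.wv (q'.flatMap (encB C)))⁻¹
          (g.toWord.map Let.B) (g'.toWord.map Let.B) := by
        intro t
        refine ⟨t, by omega, by omega, ?_⟩
        have hk := hx2 (max q.length q'.length)
        rw [List.take_of_length_le (le_max_left q.length q'.length),
          List.take_of_length_le (le_max_right q.length q'.length)] at hk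
        rw [hvl, hvl]
        exact ⟨(_, _, _), ⟨hk, take_mem_QQ M N g (hN g hg) t, take_mem_QQ M N g' (hN g' hg2) t⟩, rfl⟩
      have s3 := hCC S M 2 0 K0 K3 _ _ _ _ _ hc2 (by rw [w1, w1']; exact hlen)
        (by rw [w1, w1']; exact hlen') hc3
      have s2 := hCC S M c (2 + 0) K1 (K0 ∪ K3) 1 (encB C (f, s)) (encB C (f', s')) _ _
        (hwf1 f f' s s' hff1).1 (hwf1 f f' s s' hff1).2 (hwf1 f' f s' s hff2).2 s3
      have s1 := hCC S M 0 (c + (2 + 0)) {1} (K1 ∪ (K0 ∪ K3)) 1 _ _ _ _
        (close_refl M (p.flatMap (encB C))) (by omega) (by omega) (by rw [hone]; exact s2)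
      exact s1
  · intro z l g
    refine hcs _ _ _ (fun y hy => hmem _ y hy) ?_
    have e1 : enc C (l, g) = l.flatMap (encB C) ++ g.toWord.map Let.B := rfl
    have e2 : enc C (l, g * FreeGroup.mk [z]) = l.flatMap (encB C) ++
      (g * FreeGroup.mk [z]).toWord.map Let.B := rfl
    rw [e1, e2]
    have hz : (g⁻¹ * (g * FreeGroup.mk [z])).norm ≤ N := by
      rw [inv_mul_cancel_left]
      refine le_trans FreeGroup.norm_mk_le ?_
      simpa using hN1
    have := hCC S M 0 c {1} K1 1 _ _ _ _ (close_refl M (l.flatMap (encB C))) (by omega) (by omega)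
      (by rw [hone]; exact hwf3 g (g * FreeGroup.mk [z]) hz)
    exact close_mono M (by omega) hsub1 this

end BA
end
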