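import Pool.Agent.Lib.MP_135d84_al.BA.SpecB
import Pool.Agent.Lib.MP_135d84_al.BA.WR
import Pool.Agent.Lib.MP_135d84_al.BA.C4
import Pool.Agent.Lib.MP_135d84_al.BA.RTC

section
/-!
# MP_135d84_al, module ALT: the Artin relation is the periodicity of the sequence `xq`
-/
set_option autoImplicit false

namespace BA

namespace ALTM

variable {H : Type*} [Group H] (a b : H)

theorem xq_one : xq a b 1 = b := by
  show (xq a b 0)⁻¹ * (a * b) = b
  show a⁻¹ * (a * b) = b
  group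

theorem xq_add_two (i : ℕ) : xq a b (i + 2) = (a * b)⁻¹ * xq a b i * (a * b) := by
  show (xq a b (i + 1))⁻¹ * (a * b) = _
  show ((xq a b i)⁻¹ * (a * b))⁻¹ * (a * b) = _
  group

theorem alt_even (k : ℕ) : altWord a b (2 * k) = (a * b) ^ k := by
  induction k with
  | zero => rw [pow_zero]; rfl
  | succ k ih =>
    have h1 : 2 * (k + 1) = 2 * k + 1 + 1 := by ring
    rw [h1]
    show a * (b * altWord a b (2 * k)) = _
    rw [ih, pow_succ', mul_assoc]

theorem pow_conj (k : ℕ) : (b * a) ^ k = a⁻¹ * (a * b) ^ k * a := by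
  induction k with
  | zero => simp
  | succ k ih =>
    rw [pow_succ, ih, pow_succ]
    group

theorem xq_even (k : ℕ) : xq a b (2 * k) = ((a * b) ^ k)⁻¹ * a * (a * b) ^ k := by
  induction k with
  | zero => simp [xq]
  | succ k ih =>
    have h1 : 2 * (k + 1) = 2 * k + 2 := by ring
    rw [h1, xq_add_two, ih, pow_succ]
    group

theorem xq_odd (k : ℕ) : xq a b (2 * k + 1) = ((a * b) ^ k)⁻¹ * b * (a * b) ^ k := by
  induction k with
  | zero => simp [xq_one]
  | succ k ih =>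
    have h1 : 2 * (k + 1) + 1 = 2 * k + 1 + 2 := by ring
    rw [h1, xq_add_two, ih, pow_succ]
    group

theorem alt_iff (m : ℕ) : altWord a b m = altWord b a m ↔ xq a b m = a := by
  obtain ⟨k, rfl | rfl⟩ := Nat.even_or_odd' m
  · rw [alt_even, alt_even, pow_conj a b k, xq_even]
    generalize (a * b) ^ k = q
    constructor
    · intro h
      have h2 : a * q = q * a := by
        calc a * q = a * (a⁻¹ * q * a) := by rw [← h]
          _ = q * a := by group
      rw [mul_assoc, h2]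
      group
    · intro h
      have h2 : a * q = q * a := by
        calc a * q = q * (q⁻¹ * a * q) := by group
          _ = _ := by rw [h]
      rw [mul_assoc, ← h2]
      group
  · have e1 : altWord a b (2 * k + 1) = (a * b) ^ k * a := by
      show a * altWord b a (2 * k) = _
      rw [alt_even, pow_conj a b k]
      group
    have e2 : altWord b a (2 * k + 1) = b * (a * b) ^ k := by
      show b * altWord a b (2 * k) = _
      rw [alt_even]
    rw [e1, e2, xq_odd]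
    constructor
    · intro h
      rw [mul_assoc, ← h]
      group
    · intro h
      calc (a * b) ^ k * a = (a * b) ^ k * (((a * b) ^ k)⁻¹ * b * (a * b) ^ k) := by rw [h]
        _ = _ := by group

end ALTM

theorem specALT : SpecALT := by
  intro H _ a b
  exact ⟨ALTM.xq_one a b, ALTM.xq_add_two a b, ALTM.alt_iff a b⟩

end BA
end

section
/-!
# MP_135d84_al, module FIN: finiteness of the set of symbols
-/
set_option autoImplicit false

namespace BA

namespace FINM

theorem finCT (m n : ℕ) : Finite {z : ℤ // CT m n z} := by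
  apply Set.Finite.subset (s := Set.Icc (-(n : ℤ)) m ∪ Set.Icc (-(n : ℤ) - m) (m + n)) (Set.toFinite _)
  intro z hz
  rcases hz with h | ⟨h1, h2, -⟩
  · right; constructor <;> omega
  · right; constructor <;> omega

theorem finCE (m : ℕ) : Finite {z : ℤ // CE m z} := by
  apply Set.Finite.subset (s := Set.Icc (0 : ℤ) m) (Set.toFinite _)
  intro z hz
  rcases hz with h | h
  · subst h; constructor <;> omega
  · constructor <;> omega

end FINM

open FINM in
theorem specFIN : SpecFIN := by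
  intro V _ _ M arr
  have h1 : Finite (TT M) := by unfold TT; infer_instance
  have h2 : Finite (EE M arr) := by unfold EE; infer_instance
  refine ⟨h1, ?_⟩
  have _i1 : ∀ p : TT M, Finite {z : ℤ // CT (M p.1.1 p.1.2.1) (M p.1.2.2 p.1.2.1) z} := fun p => finCT _ _
  have _i2 : ∀ p : EE M arr, Finite {z : ℤ // CE (M p.1.1 p.1.2) z} := fun p => finCE _
  let F : Sym M arr → V ⊕ ((Σ p : EE M arr, {z : ℤ // CE (M p.1.1 p.1.2) z}) ⊕
      (Σ p : TT M, {z : ℤ // CT (M p.1.1 p.1.2.1) (M p.1.2.2 p.1.2.1) z})) := fun s =>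
    match s with
    | .gen v => Sum.inl v
    | .e p z h => Sum.inr (Sum.inl ⟨p, ⟨z, h⟩⟩)
    | .t p z h => Sum.inr (Sum.inr ⟨p, ⟨z, h⟩⟩)
  apply Finite.of_injective F
  intro a b hab
  cases a with
  | gen v =>
    cases b with
    | gen w => simp only [F, Sum.inl.injEq] at hab; rw [hab]
    | e p z h => simp [F] at hab
    | t p z h => simp [F] at hab
  | e p z h =>
    cases b with
    | gen w => simp [F] at hab
    | e q z' h' =>
      simp only [F, Sum.inr.injEq, Sum.inl.injEq] at hab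
      obtain ⟨h1, h2⟩ := Sigma.mk.inj hab
      subst h1
      have := congrArg Subtype.val (eq_of_heq h2)
      simp only at this
      subst this
      rfl
    | t q z' h' => simp [F] at hab
  | t p z h =>
    cases b with
    | gen w => simp [F] at hab
    | e q z' h' => simp [F] at hab
    | t q z' h' =>
      simp only [F, Sum.inr.injEq] at hab
      obtain ⟨h1, h2⟩ := Sigma.mk.inj hab
      subst h1
      have := congrArg Subtype.val (eq_of_heq h2)
      simp only at this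
      subst this
      rfl

end BA
end

section
/-!
# MP_135d84_al: assembly (conditional form)
-/
set_option autoImplicit false

namespace BA

theorem good_biautomatic (hFIN : SpecFIN) (hSYS : SpecSYS) (hMOD : SpecMOD) (hBI : SpecBI)
    {V : Type} [Finite V] (M : CoxeterMatrix V) (arr : V → V → Prop) (h : Good M arr) :
    Biautomatic (ArtinGroup M) := by
  classical
  haveI : Fintype V := Fintype.ofFinite V
  letI : LinearOrder V := LinearOrder.lift' (Fintype.equivFin V) (Fintype.equivFin V).injective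
  obtain ⟨S, hS⟩ := hSYS M arr h
  obtain ⟨Mo⟩ := hMOD M arr h S hS
  obtain ⟨h1, h2⟩ := hFIN M arr
  haveI := h1
  haveI := h2
  exact hBI S Mo

theorem c4free_biautomatic (hFIN : SpecFIN) (hSYS : SpecSYS) (hMOD : SpecMOD) (hBI : SpecBI) (hC4 : SpecC4)
    {V : Type} [Finite V] (M : CoxeterMatrix V)
    (h1 : ∀ a b u v, a ≠ b → u ≠ v → 2 ≤ M a u → 2 ≤ M a v → 2 ≤ M b u → 2 ≤ M b v → False)
    (h2 : ∀ a b c, M a c = 2 → 2 ≤ M a b → 2 ≤ M c b → 2 * (M a b + M c b) < M a b * M c b) :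
    Biautomatic (ArtinGroup M) := by
  classical
  haveI : Fintype V := Fintype.ofFinite V
  letI : LinearOrder V := LinearOrder.lift' (Fintype.equivFin V) (Fintype.equivFin V).injective
  obtain ⟨arr, h⟩ := hC4 M h1 h2
  exact good_biautomatic hFIN hSYS hMOD hBI M arr h

end BA
end

section
/-!
# MP_135d84_al, module GL: the gluing lemma
-/
set_option autoImplicit false

namespace BA

namespace GLM

variable {P X F : Type} [Group F] (A : Fam P X F)

/-- `x k y` occurs in a relator of the piece `p` -/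
def DD (p : P) (x : X) (k : ℤ) (y : X) : Prop := ∃ l z r, A.tri p x k y l z r

variable {A}

theorem memA {p : P} {x : X} {k : ℤ} {y : X} (h : DD A p x k y) : A.mem p x := by
  obtain ⟨l, z, r, h⟩ := h
  exact (A.memD _ _ _ _ _ _ _ h).1

theorem memB {p : P} {x : X} {k : ℤ} {y : X} (h : DD A p x k y) : A.mem p y := by
  obtain ⟨l, z, r, h⟩ := h
  exact (A.memD _ _ _ _ _ _ _ h).2

theorem exv {p : P} {x : X} {k : ℤ} {y : X} (h : DD A p x k y) :
    Multiplicative.toAdd (A.ex p (A.phi p ^ k)) = k := by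
  obtain ⟨l, z, r, h⟩ := h
  rcases A.ex_eq p with h0 | h1
  · rw [h0 _ _ _ _ _ _ h]; simp
  · rw [map_zpow, h1]; simp

theorem exn {p q : P} (hpq : p ≠ q) (k : ℤ) :
    Multiplicative.toAdd (A.ex p (A.phi q ^ k)) = 0 := by
  rw [map_zpow, A.ex_ne p q hpq]; simp

theorem no_self {p q : P} {x y : X} (hpq : p ≠ q) (hx : A.mem p x) (hy : A.mem p y)
    (h : DD A q x 0 y) : False := by
  have hxy : x = y := A.sh2 p q x y hpq hx (memA h) hy (memB h)
  subst hxy
  obtain ⟨l, z, r, h'⟩ := h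
  exact A.self0 _ _ _ _ _ (A.sh1 p q x hpq hx (memA ⟨l, z, r, h'⟩)) h'

end GLM

open GLM in
theorem specGL : SpecGL := by
  intro P X F _ A
  refine ⟨?_, ?_⟩
  · rintro x f y g z h g' z' h' ⟨p, k, l, r, ht, rfl, rfl, rfl⟩ ⟨q, k', l', r', ht', hf, rfl, rfl⟩
    have hd : DD A p x k y := ⟨_, _, _, ht⟩
    have hd' : DD A q x k' y := ⟨_, _, _, ht'⟩
    by_cases hpq : p = q
    · subst hpq
      have hk : k = k' := by
        have := congrArg (fun w => Multiplicative.toAdd (A.ex p w)) hf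
        simp only [exv hd, exv hd'] at this
        exact this
      subst hk
      obtain ⟨h1, h2, h3⟩ := A.fn _ _ _ _ _ _ _ _ _ _ ht ht'
      subst h1 h2 h3
      exact ⟨rfl, rfl, rfl⟩
    · exfalso
      have hk : k = 0 := by
        have := congrArg (fun w => Multiplicative.toAdd (A.ex p w)) hf
        simp only [exv hd, exn hpq] at this
        exact this
      subst hk
      exact no_self (Ne.symm hpq) (memA hd') (memB hd') hd
  · rintro x x' y y' f f' g g' ⟨a1, z1, b1, p11, k, l1, r1, h11, rfl, -, -⟩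
      ⟨a2, z2, b2, p12, k', l2, r2, h12, rfl, -, -⟩ ⟨a3, z3, b3, p21, j, l3, r3, h21, rfl, -, -⟩
      ⟨a4, z4, b4, p22, j', l4, r4, h22, rfl, -, -⟩ heq
    have d11 : DD A p11 x k y := ⟨_, _, _, h11⟩
    have d12 : DD A p12 x k' y' := ⟨_, _, _, h12⟩
    have d21 : DD A p21 x' j y := ⟨_, _, _, h21⟩
    have d22 : DD A p22 x' j' y' := ⟨_, _, _, h22⟩
    have hex : ∀ p, -Multiplicative.toAdd (A.ex p (A.phi p11 ^ k)) +
        Multiplicative.toAdd (A.ex p (A.phi p12 ^ k')) =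
        -Multiplicative.toAdd (A.ex p (A.phi p21 ^ j)) +
        Multiplicative.toAdd (A.ex p (A.phi p22 ^ j')) := by
      intro p
      have := congrArg (fun w => Multiplicative.toAdd (A.ex p w)) heq
      simpa only [map_mul, map_inv, toAdd_mul, toAdd_inv] using this
    clear h11 h12 h21 h22 heq
    by_cases e1 : p11 = p12
    · subst e1
      by_cases e2 : p21 = p22
      · subst e2
        by_cases e3 : p11 = p21
        · subst e3
          have h := hex p11
          rw [exv d11, exv d12, exv d21, exv d22] at h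
          rcases A.k22 p11 x x' y y' k k' j j' d11 d12 d21 d22 h with ⟨h1, h2⟩ | ⟨h1, h2⟩
          · left; subst h1 h2; exact ⟨rfl, rfl⟩
          · right; subst h1 h2; exact ⟨rfl, rfl⟩
        · right
          have h := hex p11
          rw [exv d11, exv d12, exn e3, exn e3] at h
          have hk : k = k' := by omega
          subst hk
          exact ⟨A.sh2 p11 p21 y y' e3 (memB d11) (memB d21) (memB d12) (memB d22), rfl⟩
      · by_cases e3 : p11 = p21
        · subst e3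
          -- p11 = p12 = p21, p22 different
          have h := hex p22
          rw [exv d22, exn (Ne.symm e2), exn (Ne.symm e2), exn (Ne.symm e2)] at h
          have hj : j' = 0 := by omega
          subst hj
          exact (no_self e2 (memA d21) (memB d12) d22).elim
        · by_cases e4 : p11 = p22
          · subst e4
            have h := hex p21
            rw [exv d21, exn (Ne.symm e3), exn (Ne.symm e3), exn e2] at h
            have hj : j = 0 := by omega
            subst hj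
            exact (no_self e3 (memA d22) (memB d11) d21).elim
          · -- p11 = p12, p21, p22 different
            have h1 := hex p21
            have h2 := hex p22
            have h3 := hex p11
            rw [exv d21, exn (Ne.symm e3), exn (Ne.symm e3), exn e2] at h1
            rw [exv d22, exn (Ne.symm e4), exn (Ne.symm e4), exn (Ne.symm e2)] at h2
            rw [exv d11, exv d12, exn e3, exn e4] at h3
            have hj : j = 0 := by omega
            have hj' : j' = 0 := by omega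
            have hk : k = k' := by omega
            subst hj hj' hk
            by_cases hy : y = y'
            · right; exact ⟨hy, rfl⟩
            · exact (A.tria p11 p21 p22 y' y x' e3 e2 e4
                (A.sh1 p11 p22 y' e4 (memB d12) (memB d22)) (A.sh1 p11 p21 y e3 (memB d11) (memB d21))
                (A.sh1 p21 p22 x' e2 (memA d21) (memA d22)) (memB d12) (memB d11) (Ne.symm hy)
                d21 d22).elim
    · by_cases e2 : p21 = p22
      · subst e2
        by_cases e3 : p11 = p21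
        · subst e3
          -- p12 different from p
          have h := hex p12
          rw [exv d12, exn (Ne.symm e1), exn (Ne.symm e1), exn (Ne.symm e1)] at h
          have hk : k' = 0 := by omega
          subst hk
          exact (no_self e1 (memA d11) (memB d22) d12).elim
        · by_cases e4 : p12 = p21
          · subst e4
            have h := hex p11
            rw [exv d11, exn e1, exn e1, exn e1] at h
            have hk : k = 0 := by omega
            subst hk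
            exact (no_self (Ne.symm e1) (memA d12) (memB d21) d11).elim
          · -- p21 = p22 = p, p11, p12 different
            have h1 := hex p11
            have h2 := hex p12
            rw [exv d11, exn e1, exn e3, exn e3] at h1
            rw [exv d12, exn (Ne.symm e1), exn e4, exn e4] at h2
            have hk : k = 0 := by omega
            have hk' : k' = 0 := by omega
            subst hk hk'
            by_cases hy : y = y'
            · right; exact ⟨hy, by simp⟩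
            · exact (A.tria p21 p11 p12 y' y x (Ne.symm e3) e1 (Ne.symm e4)
                (A.sh1 p21 p12 y' (Ne.symm e4) (memB d22) (memB d12))
                (A.sh1 p21 p11 y (Ne.symm e3) (memB d21) (memB d11))
                (A.sh1 p11 p12 x e1 (memA d11) (memA d12)) (memB d22) (memB d21) (Ne.symm hy)
                d11 d12).elim
      · by_cases e3 : p11 = p21
        · subst e3
          by_cases e4 : p12 = p22
          · subst e4
            left
            have h := hex p11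
            rw [exv d11, exv d21, exn e1, exn e1] at h
            have hk : k = j := by omega
            subst hk
            exact ⟨A.sh2 p11 p12 x x' e1 (memA d11) (memA d12) (memA d21) (memA d22), rfl⟩
          · -- p11 = p21 = p, p12, p22 different
            have h1 := hex p12
            have h2 := hex p22
            have h3 := hex p11
            rw [exv d12, exn (Ne.symm e1), exn (Ne.symm e1), exn e4] at h1
            rw [exv d22, exn (Ne.symm e2), exn (Ne.symm e2), exn (Ne.symm e4)] at h2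
            rw [exv d11, exv d21, exn e1, exn e2] at h3
            have hk' : k' = 0 := by omega
            have hj' : j' = 0 := by omega
            have hk : k = j := by omega
            subst hk' hj' hk
            by_cases hx : x = x'
            · left; exact ⟨hx, rfl⟩
            · exact (A.trib p11 p12 p22 x' x y' e1 e4 e2
                (A.sh1 p11 p22 x' e2 (memA d21) (memA d22))
                (A.sh1 p11 p12 x e1 (memA d11) (memA d12))
                (A.sh1 p12 p22 y' e4 (memB d12) (memB d22)) (memA d21) (memA d11) (Ne.symm hx)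
                d12 d22).elim
        · by_cases e4 : p12 = p22
          · subst e4
            by_cases e5 : p12 = p21
            · exact absurd e5.symm e2
            · -- p12 = p22 = p, p11, p21 different
              have h1 := hex p11
              have h2 := hex p21
              rw [exv d11, exn e1, exn e3, exn e1] at h1
              rw [exv d21, exn (Ne.symm e3), exn e2, exn e2] at h2
              have hk : k = 0 := by omega
              have hj : j = 0 := by omega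
              subst hk hj
              by_cases hx : x = x'
              · left; exact ⟨hx, by simp⟩
              · exact (A.trib p12 p11 p21 x' x y (Ne.symm e1) e3 e5
                  (A.sh1 p12 p21 x' e5 (memA d22) (memA d21))
                  (A.sh1 p12 p11 x (Ne.symm e1) (memA d12) (memA d11))
                  (A.sh1 p11 p21 y e3 (memB d11) (memB d21)) (memA d22) (memA d12) (Ne.symm hx)
                  d11 d21).elim
          · by_cases e5 : p11 = p22
            · subst e5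
              by_cases e6 : p12 = p21
              · subst e6
                -- p11 = p22 = p, p12 = p21 = q
                have h1 := hex p11
                rw [exv d11, exv d22, exn e1, exn e1] at h1
                have hxy : x = y := A.sh2 p11 p12 x y e1 (memA d11) (memA d12) (memB d11) (memB d21)
                have hxx : x = x' := A.sh2 p11 p12 x x' e1 (memA d11) (memA d12) (memA d22) (memA d21)
                have hxy' : x = y' := A.sh2 p11 p12 x y' e1 (memA d11) (memA d12) (memB d22) (memB d12)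
                subst hxy hxx hxy'
                exact (A.selfk p11 p11 x k j' (A.sh1 p11 p12 x e1 (memA d11) (memA d12)) d11 d22
                  (by omega)).elim
              · -- p11 = p22 = p, p12, p21 different
                have h := hex p12
                rw [exv d12, exn (Ne.symm e1), exn (Ne.symm e1), exn e6] at h
                have hk : k' = 0 := by omega
                subst hk
                exact (no_self e1 (memA d11) (memB d22) d12).elim
            · by_cases e6 : p12 = p21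
              · subst e6
                have h := hex p11
                rw [exv d11, exn e1, exn e1, exn e5] at h
                have hk : k = 0 := by omega
                subst hk
                exact (no_self (Ne.symm e1) (memA d12) (memB d21) d11).elim
              · -- all different
                have h1 := hex p11
                have h2 := hex p12
                have h3 := hex p21
                have h4 := hex p22
                rw [exv d11, exn e1, exn e3, exn e5] at h1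
                rw [exv d12, exn (Ne.symm e1), exn e6, exn e4] at h2
                rw [exv d21, exn (Ne.symm e3), exn (Ne.symm e6), exn e2] at h3
                rw [exv d22, exn (Ne.symm e5), exn (Ne.symm e4), exn (Ne.symm e2)] at h4
                have hk : k = 0 := by omega
                have hk' : k' = 0 := by omega
                have hj : j = 0 := by omega
                have hj' : j' = 0 := by omega
                subst hk hk' hj hj'
                rcases A.four p11 p12 p21 p22 x x' y y'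
                  (A.sh1 p11 p12 x e1 (memA d11) (memA d12))
                  (A.sh1 p21 p22 x' e2 (memA d21) (memA d22))
                  (A.sh1 p11 p21 y e3 (memB d11) (memB d21))
                  (A.sh1 p12 p22 y' e4 (memB d12) (memB d22)) d11 d12 d21 d22 with h | h
                · left; exact ⟨h, by simp⟩
                · right; exact ⟨h, by simp⟩

end BA
end

section
/-!
# LF: the local tables are functional
-/
set_option autoImplicit false

namespace BA

namespace LFM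

theorem f5 (m n : ℤ) (hm : 5 ≤ m) (hn : 5 ≤ n) (s k t l u r l' u' r' : ℤ)
    (h : base5 m n s k t l u r ∨ base5 m n t l u r s k ∨ base5 m n u r s k t l)
    (h' : base5 m n s k t l' u' r' ∨ base5 m n t l' u' r' s k ∨ base5 m n u' r' s k t l') :
    l = l' ∧ u = u' ∧ r = r' := by
  unfold base5 at h h'
  rcases h with (h | h | h | h | h | h | h | h) | (h | h | h | h | h | h | h | h) |
    (h | h | h | h | h | h | h | h) <;>
  rcases h' with (h' | h' | h' | h' | h' | h' | h' | h') |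
    (h' | h' | h' | h' | h' | h' | h' | h') | (h' | h' | h' | h' | h' | h' | h' | h') <;>
  omega

theorem f4 (n : ℤ) (hn : 5 ≤ n) (s k t l u r l' u' r' : ℤ)
    (h : base4 n s k t l u r ∨ base4 n t l u r s k ∨ base4 n u r s k t l)
    (h' : base4 n s k t l' u' r' ∨ base4 n t l' u' r' s k ∨ base4 n u' r' s k t l') :
    l = l' ∧ u = u' ∧ r = r' := by
  unfold base4 at h h'
  rcases h with (h | h | h | h | h | h) | (h | h | h | h | h | h) | (h | h | h | h | h | h) <;>
  rcases h' with (h' | h' | h' | h' | h' | h') | (h' | h' | h' | h' | h' | h') |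
    (h' | h' | h' | h' | h' | h') <;>
  omega

theorem f3 (n : ℤ) (hn : 7 ≤ n) (s k t l u r l' u' r' : ℤ)
    (h : base3 n s k t l u r ∨ base3 n t l u r s k ∨ base3 n u r s k t l)
    (h' : base3 n s k t l' u' r' ∨ base3 n t l' u' r' s k ∨ base3 n u' r' s k t l') :
    l = l' ∧ u = u' ∧ r = r' := by
  unfold base3 at h h'
  rcases h with (h | h | h | h | h | h) | (h | h | h | h | h | h) | (h | h | h | h | h | h) <;>
  rcases h' with (h' | h' | h' | h' | h' | h') | (h' | h' | h' | h' | h' | h') |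
    (h' | h' | h' | h' | h' | h') <;>
  omega

theorem LT3 {m n : ℕ} (hm : m = 3) {s k t l u r : ℤ} (h : LT m n s k t l u r) :
    base3 n s k t l u r ∨ base3 n t l u r s k ∨ base3 n u r s k t l := by
  unfold LT baseT at h
  rcases h with (h | h | h) | (h | h | h) | (h | h | h) <;> first | omega | tauto

theorem LT4 {m n : ℕ} (hm : m = 4) {s k t l u r : ℤ} (h : LT m n s k t l u r) :
    base4 n s k t l u r ∨ base4 n t l u r s k ∨ base4 n u r s k t l := by
  unfold LT baseT at h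
  rcases h with (h | h | h) | (h | h | h) | (h | h | h) <;> first | omega | tauto

theorem LT5 {m n : ℕ} (hm : 5 ≤ m) {s k t l u r : ℤ} (h : LT m n s k t l u r) :
    base5 m n s k t l u r ∨ base5 m n t l u r s k ∨ base5 m n u r s k t l := by
  unfold LT baseT at h
  rcases h with (h | h | h) | (h | h | h) | (h | h | h) <;> first | omega | tauto

end LFM

open LFM in
theorem specLF : SpecLF := by
  constructor
  · intro m n hmn s k t l u r l' u' r' h h'
    rcases hmn with ⟨hm, hn⟩ | ⟨hm, hn⟩ | ⟨hm, hn⟩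
    · exact f3 n (by exact_mod_cast hn) s k t l u r l' u' r' (LT3 hm h) (LT3 hm h')
    · exact f4 n (by exact_mod_cast hn) s k t l u r l' u' r' (LT4 hm h) (LT4 hm h')
    · exact f5 m n (by exact_mod_cast hm) (by exact_mod_cast hn) s k t l u r l' u' r' (LT5 hm h)
        (LT5 hm h')
  · intro m hm s t u u' h h'
    unfold LE baseE at h h'
    omega

end BA
end

section
/-!
# MP_135d84_al, module LK3: K22 for m = 3
-/
set_option autoImplicit false

namespace BA

namespace LK3M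

/-- the list of the triples `(s,k,t)` which occur -/
def D3 (n : ℤ) (s k t : ℤ) : Prop :=
  (s = 1 ∧ k = 0 ∧ t = -1) ∨ (s = 1 ∧ k = 0 ∧ t = 2) ∨ (s = 1 ∧ k = 0 ∧ -n + 2 ≤ t ∧ t ≤ -5) ∨
  (s = 1 ∧ k = 1 ∧ t = 1) ∨ (s = 1 ∧ k = -1 ∧ t = -1) ∨ (s = 1 ∧ k = -2 ∧ t = 1) ∨
  (s = 1 ∧ k = 2 ∧ t = -5) ∨
  (s = -1 ∧ k = 0 ∧ t = 1) ∨ (s = -1 ∧ k = 0 ∧ t = 2) ∨ (s = -1 ∧ k = -1 ∧ t = 1) ∨
  (s = 2 ∧ k = -1 ∧ t = 1) ∨ (s = 2 ∧ k = -1 ∧ t = -1) ∨
  (-n + 2 ≤ s ∧ s ≤ -5 ∧ k = -1 ∧ t = 1) ∨ (s = -5 ∧ k = -3 ∧ t = 1) ∨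
  (-n + 2 < s ∧ s ≤ -5 ∧ k = 0 ∧ t = s - 1) ∨ (s = -n + 2 ∧ k = 2 ∧ t = -5)

theorem toD3 (n : ℕ) (hn : 7 ≤ n) (s k t : ℤ) (h : ∃ l u r, LT 3 n s k t l u r) :
    D3 n s k t := by
  obtain ⟨l, u, r, h⟩ := h
  have hn' : (7 : ℤ) ≤ n := by exact_mod_cast hn
  unfold LT baseT base3 at h
  unfold D3
  rcases h with (⟨-, h⟩ | ⟨h0, -⟩ | ⟨h0, -⟩) | (⟨-, h⟩ | ⟨h0, -⟩ | ⟨h0, -⟩) |
    (⟨-, h⟩ | ⟨h0, -⟩ | ⟨h0, -⟩)
  · rcases h with h | h | h | h | h | h <;>
      (repeat (first | (left; omega) | right)) <;> (try omega)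
  · omega
  · omega
  · rcases h with h | h | h | h | h | h <;>
      (repeat (first | (left; omega) | right)) <;> (try omega)
  · omega
  · omega
  · rcases h with h | h | h | h | h | h <;>
      (repeat (first | (left; omega) | right)) <;> (try omega)
  · omega
  · omega

theorem k22D3 (n : ℤ) (hn : 7 ≤ n) (s s' t t' k k' j j' : ℤ)
    (h1 : D3 n s k t) (h2 : D3 n s k' t') (h3 : D3 n s' j t) (h4 : D3 n s' j' t')
    (h : -k + k' = -j + j') : (s = s' ∧ k = j) ∨ (t = t' ∧ k = k') := by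
  unfold D3 at h1 h2 h3 h4
  rcases h1 with h1 | h1 | h1 | h1 | h1 | h1 | h1 | h1 | h1 | h1 | h1 | h1 | h1 | h1 | h1 | h1 <;>
  rcases h2 with h2 | h2 | h2 | h2 | h2 | h2 | h2 | h2 | h2 | h2 | h2 | h2 | h2 | h2 | h2 | h2 <;>
  omega

end LK3M

open LK3M in
theorem specLK3 : SpecLK3 := by
  intro n hn s s' t t' k k' j j' h1 h2 h3 h4 h
  exact k22D3 n (by exact_mod_cast hn) s s' t t' k k' j j'
    (toD3 n hn s k t h1) (toD3 n hn s k' t' h2) (toD3 n hn s' j t h3)
    (toD3 n hn s' j' t' h4) h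

end BA
end

section
/-!
# MP_135d84_al, module LK4: K22 for m = 4
-/
set_option autoImplicit false

namespace BA

namespace LK4M

/-- the list of the triples `(s,k,t)` which occur -/
def D4 (n : ℤ) (s k t : ℤ) : Prop :=
  (s = 1 ∧ k = 0 ∧ t = -1) ∨ (s = 1 ∧ k = 0 ∧ t = 2) ∨ (s = 1 ∧ k = 0 ∧ -n ≤ t ∧ t ≤ -5) ∨
  (s = 1 ∧ k = -1 ∧ t = -1) ∨ (s = 1 ∧ k = -2 ∧ t = -n) ∨
  (s = -1 ∧ k = 0 ∧ t = 1) ∨ (s = -1 ∧ k = 0 ∧ t = 2) ∨
  (s = -1 ∧ k = -1 ∧ t = 1) ∨ (s = -1 ∧ k = -1 ∧ t = -n) ∨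
  (s = 2 ∧ k = -1 ∧ t = 1) ∨ (s = 2 ∧ k = -1 ∧ t = -1) ∨
  (-n ≤ s ∧ s ≤ -5 ∧ k = -1 ∧ t = 1) ∨ (-n < s ∧ s ≤ -5 ∧ k = 0 ∧ t = s - 1) ∨
  (s = -n ∧ k = 0 ∧ t = -1) ∨ (s = -n ∧ k = 1 ∧ t = 1) ∨ (s = -n ∧ k = 2 ∧ t = -5)

theorem toD4 (n : ℕ) (hn : 5 ≤ n) (s k t : ℤ) (h : ∃ l u r, LT 4 n s k t l u r) :
    D4 n s k t := by
  obtain ⟨l, u, r, h⟩ := h
  have hn' : (5 : ℤ) ≤ n := by exact_mod_cast hn
  unfold LT baseT base4 at h
  unfold D4
  rcases h with (⟨h0, -⟩ | ⟨-, h⟩ | ⟨h0, -⟩) | (⟨h0, -⟩ | ⟨-, h⟩ | ⟨h0, -⟩) |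
    (⟨h0, -⟩ | ⟨-, h⟩ | ⟨h0, -⟩)
  · omega
  · rcases h with h | h | h | h | h | h <;>
      (repeat (first | (left; omega) | right)) <;> (try omega)
  · omega
  · omega
  · rcases h with h | h | h | h | h | h <;>
      (repeat (first | (left; omega) | right)) <;> (try omega)
  · omega
  · omega
  · rcases h with h | h | h | h | h | h <;>
      (repeat (first | (left; omega) | right)) <;> (try omega)
  · omega

theorem k22D4 (n : ℤ) (hn : 5 ≤ n) (s s' t t' k k' j j' : ℤ)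
    (h1 : D4 n s k t) (h2 : D4 n s k' t') (h3 : D4 n s' j t) (h4 : D4 n s' j' t')
    (h : -k + k' = -j + j') : (s = s' ∧ k = j) ∨ (t = t' ∧ k = k') := by
  unfold D4 at h1 h2 h3 h4
  rcases h1 with h1 | h1 | h1 | h1 | h1 | h1 | h1 | h1 | h1 | h1 | h1 | h1 | h1 | h1 | h1 | h1 <;>
  rcases h2 with h2 | h2 | h2 | h2 | h2 | h2 | h2 | h2 | h2 | h2 | h2 | h2 | h2 | h2 | h2 | h2 <;>
  omega

end LK4M

open LK4M in
theorem specLK4 : SpecLK4 := by
  intro n hn s s' t t' k k' j j' h1 h2 h3 h4 h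
  exact k22D4 n (by exact_mod_cast hn) s s' t t' k k' j j'
    (toD4 n hn s k t h1) (toD4 n hn s k' t' h2) (toD4 n hn s' j t h3)
    (toD4 n hn s' j' t' h4) h

end BA
end

section
/-!
# MP_135d84_al, module LK5: K22 for m, n ≥ 5
-/
set_option autoImplicit false

namespace BA

namespace LK5M

/-- the list of the triples `(s,k,t)` which occur -/
def D5 (m n : ℤ) (s k t : ℤ) : Prop :=
  (s = -1 ∧ k = 0 ∧ t = 1) ∨ (s = -1 ∧ k = 0 ∧ t = 2) ∨ (s = -1 ∧ k = 0 ∧ 5 ≤ t ∧ t ≤ m) ∨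
  (s = -1 ∧ k = -1 ∧ t = 1) ∨ (s = -1 ∧ k = -1 ∧ t = -n) ∨
  (s = 1 ∧ k = 0 ∧ t = -1) ∨ (s = 1 ∧ k = 0 ∧ t = 2) ∨ (s = 1 ∧ k = 0 ∧ -n ≤ t ∧ t ≤ -5) ∨
  (s = 1 ∧ k = -1 ∧ t = -1) ∨ (s = 1 ∧ k = -1 ∧ t = m) ∨
  (s = 2 ∧ k = -1 ∧ t = 1) ∨ (s = 2 ∧ k = -1 ∧ t = -1) ∨
  (5 ≤ s ∧ s ≤ m ∧ k = -1 ∧ t = -1) ∨ (5 ≤ s ∧ s < m ∧ k = 0 ∧ t = s + 1) ∨
  (s = m ∧ k = 0 ∧ t = 1) ∨ (s = m ∧ k = 1 ∧ t = -5) ∨
  (-n ≤ s ∧ s ≤ -5 ∧ k = -1 ∧ t = 1) ∨ (-n < s ∧ s ≤ -5 ∧ k = 0 ∧ t = s - 1) ∨
  (s = -n ∧ k = 0 ∧ t = -1) ∨ (s = -n ∧ k = 1 ∧ t = 5)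

theorem toD5 (m n : ℕ) (hm : 5 ≤ m) (hn : 5 ≤ n) (s k t : ℤ) (h : ∃ l u r, LT m n s k t l u r) :
    D5 m n s k t := by
  obtain ⟨l, u, r, h⟩ := h
  have hm' : (5 : ℤ) ≤ m := by exact_mod_cast hm
  have hn' : (5 : ℤ) ≤ n := by exact_mod_cast hn
  unfold LT baseT base5 at h
  unfold D5
  rcases h with (⟨h0, -⟩ | ⟨h0, -⟩ | ⟨-, h⟩) | (⟨h0, -⟩ | ⟨h0, -⟩ | ⟨-, h⟩) |
    (⟨h0, -⟩ | ⟨h0, -⟩ | ⟨-, h⟩)
  · omega
  · omega
  · rcases h with h | h | h | h | h | h | h | h <;>
      (repeat (first | (left; omega) | right)) <;> (try omega)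
  · omega
  · omega
  · rcases h with h | h | h | h | h | h | h | h <;>
      (repeat (first | (left; omega) | right)) <;> (try omega)
  · omega
  · omega
  · rcases h with h | h | h | h | h | h | h | h <;>
      (repeat (first | (left; omega) | right)) <;> (try omega)


theorem k22D5 (m n : ℤ) (hm : 5 ≤ m) (hn : 5 ≤ n) (s s' t t' k k' j j' : ℤ)
    (h1 : D5 m n s k t) (h2 : D5 m n s k' t') (h3 : D5 m n s' j t) (h4 : D5 m n s' j' t')
    (h : -k + k' = -j + j') : (s = s' ∧ k = j) ∨ (t = t' ∧ k = k') := by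
  unfold D5 at h1 h2 h3 h4
  rcases h1 with h1 | h1 | h1 | h1 | h1 | h1 | h1 | h1 | h1 | h1 | h1 | h1 | h1 | h1 | h1 | h1 | h1 | h1 | h1 | h1 <;>
  rcases h2 with h2 | h2 | h2 | h2 | h2 | h2 | h2 | h2 | h2 | h2 | h2 | h2 | h2 | h2 | h2 | h2 | h2 | h2 | h2 | h2 <;>
  omega

end LK5M

open LK5M in
theorem specLK5 : SpecLK5 := by
  intro m n hm hn s s' t t' k k' j j' h1 h2 h3 h4 h
  exact k22D5 m n (by exact_mod_cast hm) (by exact_mod_cast hn) s s' t t' k k' j j'
    (toD5 m n hm hn s k t h1) (toD5 m n hm hn s k' t' h2) (toD5 m n hm hn s' j t h3)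
    (toD5 m n hm hn s' j' t' h4) h

end BA
end

section
/-!
# LX: K22 for edges; valid codes; arrows between generators; finiteness
-/
set_option autoImplicit false

namespace BA

namespace LXM

theorem arc {m : ℕ} (hm : 2 ≤ m) {s t u : ℤ} (h : LE m s t u) :
    (1 ≤ s ∧ s < m ∧ t = s + 1) ∨ (s = m ∧ t = 1) ∨ (1 ≤ s ∧ s ≤ m ∧ t = 0) ∨
      (s = 0 ∧ 1 ≤ t ∧ t ≤ m) := by
  unfold LE baseE at h
  omega

theorem LT3 {m n : ℕ} (hm : m = 3) {s k t l u r : ℤ} (h : LT m n s k t l u r) :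
    base3 n s k t l u r ∨ base3 n t l u r s k ∨ base3 n u r s k t l := by
  unfold LT baseT at h
  rcases h with (h | h | h) | (h | h | h) | (h | h | h) <;> first | omega | tauto

theorem LT4 {m n : ℕ} (hm : m = 4) {s k t l u r : ℤ} (h : LT m n s k t l u r) :
    base4 n s k t l u r ∨ base4 n t l u r s k ∨ base4 n u r s k t l := by
  unfold LT baseT at h
  rcases h with (h | h | h) | (h | h | h) | (h | h | h) <;> first | omega | tauto

theorem LT5 {m n : ℕ} (hm : 5 ≤ m) {s k t l u r : ℤ} (h : LT m n s k t l u r) :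
    base5 m n s k t l u r ∨ base5 m n t l u r s k ∨ base5 m n u r s k t l := by
  unfold LT baseT at h
  rcases h with (h | h | h) | (h | h | h) | (h | h | h) <;> first | omega | tauto

/-- the bounds -/
def Bd (m n : ℕ) (s k t : ℤ) : Prop :=
  -((m : ℤ) + n + 3) ≤ s ∧ s ≤ (m : ℤ) + n + 3 ∧ -3 ≤ k ∧ k ≤ 3 ∧
    -((m : ℤ) + n + 3) ≤ t ∧ t ≤ (m : ℤ) + n + 3

/-- the third statement and the bounds -/
def Q (m n : ℕ) (s k t : ℤ) : Prop :=
  ((s = 1 ∨ s = 2 ∨ s = -1 ∨ CT m n s) ∧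
    (s = t → (s = 1 ∨ s = 2 ∨ s = -1) → s = 1 ∧ (k = 1 ∨ k = -2)) ∧
    (k = 0 → (s = 1 ∨ s = 2 ∨ s = -1) → (t = 1 ∨ t = 2 ∨ t = -1) →
      (s = 1 ∧ t = -1) ∨ (s = -1 ∧ t = 1) ∨ (s = 1 ∧ t = 2) ∨ (s = -1 ∧ t = 2))) ∧ Bd m n s k t

theorem q5 {m n : ℕ} (hm : 5 ≤ m) (hn : 5 ≤ n) {s k t l u r : ℤ} (h : LT m n s k t l u r) :
    Q m n s k t := by
  have h := LT5 hm h
  unfold base5 at h
  unfold Q CT Bd
  rcases h with (h | h | h | h | h | h | h | h) | (h | h | h | h | h | h | h | h) |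
    (h | h | h | h | h | h | h | h) <;> omega

theorem q4 {m n : ℕ} (hm : m = 4) (hn : 5 ≤ n) {s k t l u r : ℤ} (h : LT m n s k t l u r) :
    Q m n s k t := by
  have h := LT4 hm h
  unfold base4 at h
  unfold Q CT Bd
  rcases h with (h | h | h | h | h | h) | (h | h | h | h | h | h) |
    (h | h | h | h | h | h) <;> omega

theorem q3 {m n : ℕ} (hm : m = 3) (hn : 7 ≤ n) {s k t l u r : ℤ} (h : LT m n s k t l u r) :
    Q m n s k t := by
  have h := LT3 hm h
  unfold base3 at h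
  unfold Q CT Bd
  rcases h with (h | h | h | h | h | h) | (h | h | h | h | h | h) |
    (h | h | h | h | h | h) <;> omega

theorem q {m n : ℕ} (hmn : OKT m n) {s k t l u r : ℤ} (h : LT m n s k t l u r) : Q m n s k t := by
  rcases hmn with ⟨hm, hn⟩ | ⟨hm, hn⟩ | ⟨hm, hn⟩
  · exact q3 hm hn h
  · exact q4 hm hn h
  · exact q5 hm hn h

end LXM

open LXM in
theorem specLX : SpecLX := by
  refine ⟨?_, ?_, ?_, ?_, ?_⟩
  · rintro m hm s s' t t' ⟨u1, h1⟩ ⟨u2, h2⟩ ⟨u3, h3⟩ ⟨u4, h4⟩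
    have h1 := arc hm h1
    have h2 := arc hm h2
    have h3 := arc hm h3
    have h4 := arc hm h4
    rcases h1 with h1 | h1 | h1 | h1 <;> rcases h4 with h4 | h4 | h4 | h4 <;> omega
  · intro m hm s t u h
    unfold LE baseE at h
    unfold CE
    omega
  · intro m n hmn s k t l u r h
    exact (q hmn h).1
  · intro m n hmn
    refine (Set.finite_Icc ((-((m : ℤ) + n + 3), -3, -((m : ℤ) + n + 3)) : ℤ × ℤ × ℤ)
      ((m : ℤ) + n + 3, 3, (m : ℤ) + n + 3)).subset ?_
    rintro ⟨s, k, t⟩ ⟨l, u, r, h⟩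
    obtain ⟨b1, b2, b3, b4, b5, b6⟩ := (q hmn h).2
    exact ⟨⟨b1, b3, b5⟩, ⟨b2, b4, b6⟩⟩
  · intro m
    refine (Set.finite_Icc ((-((m : ℤ) + 3), -((m : ℤ) + 3)) : ℤ × ℤ)
      ((m : ℤ) + 3, (m : ℤ) + 3)).subset ?_
    rintro ⟨s, t⟩ ⟨u, h⟩
    have hb : (-((m : ℤ) + 3) ≤ s ∧ -((m : ℤ) + 3) ≤ t) ∧ (s ≤ (m : ℤ) + 3 ∧ t ≤ (m : ℤ) + 3) := by
      unfold LE baseE at h
      dsimp only at h
      omega
    exact hb

end BA
end

section
/-!
# MP_135d84_al, module MOD: the Artin group is a model of the system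
-/
set_option autoImplicit false

namespace BA

namespace MODM

theorem map_alt {G H : Type} [Group G] [Group H] (φ : G →* H) (n : ℕ) (s t : G) :
    φ (altWord s t n) = altWord (φ s) (φ t) n := by
  induction n generalizing s t with
  | zero => simp [altWord]
  | succ n ih => simp [altWord, ih]

theorem map_xq {G H : Type} [Group G] [Group H] (φ : G →* H) (a b : G) (i : ℕ) :
    φ (xq a b i) = xq (φ a) (φ b) i := by
  induction i with
  | zero => simp [xq]
  | succ n ih => simp [xq, ih]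

theorem map_stdT {G H : Type} [Group G] [Group H] (φ : G →* H) (a b c : G) (z : ℤ) :
    φ (stdT a b c z) = stdT (φ a) (φ b) (φ c) z := by
  unfold stdT
  split_ifs <;> exact map_xq φ _ _ _

theorem map_stdE {G H : Type} [Group G] [Group H] (φ : G →* H) (a b : G) (z : ℤ) :
    φ (stdE a b z) = stdE (φ a) (φ b) z := by
  unfold stdE
  split_ifs
  · simp
  · exact map_xq φ _ _ _

theorem stdT_one {G : Type} [Group G] (a b c : G) : stdT a b c 1 = a := by
  simp [stdT, xq]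

theorem stdT_two {G : Type} [Group G] (a b c : G) : stdT a b c 2 = b := by
  simp [stdT, xq]

theorem stdT_neg {G : Type} [Group G] (a b c : G) : stdT a b c (-1) = c := by
  simp [stdT, xq]

theorem stdE_one {G : Type} [Group G] (a b : G) : stdE a b 1 = a := by
  simp [stdE, xq]

theorem stdE_two {G : Type} [Group G] (a b : G) : stdE a b 2 = b := by
  simp [stdE, xq]

section graph

variable {V : Type} [LinearOrder V] (M : CoxeterMatrix V) (arr : V → V → Prop)

/-- the generators of the Artin group -/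
def gv (v : V) : ArtinGroup M := PresentedGroup.of v

theorem artin (s t : V) : altWord (gv M s) (gv M t) (M s t) = altWord (gv M t) (gv M s) (M s t) := by
  have h : (PresentedGroup.mk (artinRels M)) (altWord (FreeGroup.of s) (FreeGroup.of t) (M s t) *
      (altWord (FreeGroup.of t) (FreeGroup.of s) (M s t))⁻¹) = 1 := by
    apply PresentedGroup.one_of_mem
    exact ⟨s, t, rfl⟩
  rw [map_mul, map_inv, map_alt, map_alt] at h
  exact mul_inv_eq_one.1 h

/-- the homomorphism of the vertex group -/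
def iog : FreeGroup (TT M) →* ArtinGroup M :=
  FreeGroup.lift (fun p => gv M p.1.1 * gv M p.1.2.2 * gv M p.1.2.1)

/-- the values of the symbols -/
def evg : Sym M arr → ArtinGroup M
  | Sym.gen v => gv M v
  | Sym.e p z _ => stdE (gv M p.1.1) (gv M p.1.2) z
  | Sym.t p z _ => stdT (gv M p.1.1) (gv M p.1.2.1) (gv M p.1.2.2) z

variable {M arr}

theorem evg_repT {p : TT M} {z : ℤ} {x : Sym M arr} (h : RepT M arr p z x) :
    evg M arr x = stdT (gv M p.1.1) (gv M p.1.2.1) (gv M p.1.2.2) z := by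
  cases h with
  | a => exact (stdT_one _ _ _).symm
  | b => exact (stdT_two _ _ _).symm
  | c => exact (stdT_neg _ _ _).symm
  | x z h => rfl

theorem evg_repE {p : EE M arr} {z : ℤ} {x : Sym M arr} (h : RepE M arr p z x) :
    evg M arr x = stdE (gv M p.1.1) (gv M p.1.2) z := by
  cases h with
  | a => exact (stdE_one _ _).symm
  | b => exact (stdE_two _ _).symm
  | x z h => rfl

theorem okt (G : Good M arr) (p : TT M) : OKT (M p.1.1 p.1.2.1) (M p.1.2.2 p.1.2.1) := by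
  obtain ⟨⟨a, b, c⟩, h1, h2, h3, h4⟩ := p
  simp only at h1 h2 h3 h4 ⊢
  obtain ⟨-, -, h5⟩ := G.sink a b c h1 h2 h3
  have h6 : M a b ≤ M c b := by rcases h4 with h | h <;> omega
  have h7 : M a b ≠ 2 := by
    intro h
    rw [h] at h5
    omega
  rcases Nat.lt_or_ge (M a b) 5 with h8 | h8
  · have h9 : M a b = 3 ∨ M a b = 4 := by omega
    rcases h9 with h9 | h9
    · left
      rw [h9] at h5
      exact ⟨h9, by omega⟩
    · right; left
      rw [h9] at h5
      exact ⟨h9, by omega⟩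
  · right; right
    exact ⟨h8, by omega⟩

open Classical in
/-- the function of codes in a triangle piece -/
noncomputable def XT {H : Type} [Group H] (w : Sym M arr → H) (p : TT M) (z : ℤ) : H :=
  if z = 1 then w (Sym.gen p.1.1) else if z = 2 then w (Sym.gen p.1.2.1) else
    if z = -1 then w (Sym.gen p.1.2.2) else
      if h : CT (M p.1.1 p.1.2.1) (M p.1.2.2 p.1.2.1) z then w (Sym.t p z h) else 1

open Classical in
/-- the function of codes in an edge piece -/
noncomputable def XE {H : Type} [Group H] (w : Sym M arr → H) (p : EE M arr) (z : ℤ) : H :=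
  if z = 1 then w (Sym.gen p.1.1) else if z = 2 then w (Sym.gen p.1.2) else
      if h : CE (M p.1.1 p.1.2) z then w (Sym.e p z h) else 1

theorem XT_rep {H : Type} [Group H] (w : Sym M arr → H) {p : TT M} {z : ℤ} {x : Sym M arr}
    (h : RepT M arr p z x) : XT w p z = w x := by
  cases h with
  | a => simp [XT]
  | b => simp [XT]
  | c => simp [XT]
  | x z h =>
    have h1 : z ≠ 1 := by rcases h with h | h <;> omega
    have h2 : z ≠ 2 := by rcases h with h | h <;> omega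
    have h3 : z ≠ -1 := by rcases h with h | h <;> omega
    simp only [XT]
    rw [if_neg h1, if_neg h2, if_neg h3, dif_pos h]

theorem XE_rep {H : Type} [Group H] (w : Sym M arr → H) {p : EE M arr} {z : ℤ} {x : Sym M arr}
    (h : RepE M arr p z x) : XE w p z = w x := by
  cases h with
  | a => simp [XE]
  | b => simp [XE]
  | x z h =>
    have h1 : z ≠ 1 := by rcases h with h | h <;> omega
    have h2 : z ≠ 2 := by rcases h with h | h <;> omega
    simp only [XE]
    rw [if_neg h1, if_neg h2, dif_pos h]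

theorem repT_ex (p : TT M) (z : ℤ)
    (h : z = 1 ∨ z = 2 ∨ z = -1 ∨ CT (M p.1.1 p.1.2.1) (M p.1.2.2 p.1.2.1) z) :
    ∃ x : Sym M arr, RepT M arr p z x := by
  rcases h with rfl | rfl | rfl | h
  · exact ⟨_, RepT.a⟩
  · exact ⟨_, RepT.b⟩
  · exact ⟨_, RepT.c⟩
  · exact ⟨_, RepT.x z h⟩

theorem repE_ex (p : EE M arr) (z : ℤ)
    (h : z = 1 ∨ z = 2 ∨ CE (M p.1.1 p.1.2) z) :
    ∃ x : Sym M arr, RepE M arr p z x := by
  rcases h with rfl | rfl | h
  · exact ⟨_, RepE.a⟩
  · exact ⟨_, RepE.b⟩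
  · exact ⟨_, RepE.x z h⟩

theorem LT_rot {m n : ℕ} {s k t l u r : ℤ} (h : LT m n s k t l u r) : LT m n t l u r s k := by
  rcases h with h | h | h
  · right; right; exact h
  · left; exact h
  · right; left; exact h

theorem LE_rot {m : ℕ} {s t u : ℤ} (h : LE m s t u) : LE m t u s := by
  rcases h with h | h | h
  · right; right; exact h
  · left; exact h
  · right; left; exact h

section target

variable {H : Type} [Group H] (κ : FreeGroup (TT M) →* H) (w : Sym M arr → H)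
  (hw : ∀ {s f t a u b}, UTri M arr s f t a u b → w s * κ f * w t * κ a * w u * κ b = 1)

include hw

theorem tri_facts (hRTF : SpecRTF) (hLX : SpecLX) (G : Good M arr) (p : TT M) :
    κ (FreeGroup.of p) = w (Sym.gen p.1.1) * w (Sym.gen p.1.2.2) * w (Sym.gen p.1.2.1) ∧
    w (Sym.gen p.1.1) * w (Sym.gen p.1.2.2) = w (Sym.gen p.1.2.2) * w (Sym.gen p.1.1) ∧
    altWord (w (Sym.gen p.1.1)) (w (Sym.gen p.1.2.1)) (M p.1.1 p.1.2.1) =
      altWord (w (Sym.gen p.1.2.1)) (w (Sym.gen p.1.1)) (M p.1.1 p.1.2.1) ∧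
    altWord (w (Sym.gen p.1.2.2)) (w (Sym.gen p.1.2.1)) (M p.1.2.2 p.1.2.1) =
      altWord (w (Sym.gen p.1.2.1)) (w (Sym.gen p.1.2.2)) (M p.1.2.2 p.1.2.1) ∧
    ∀ (z : ℤ) (h : CT (M p.1.1 p.1.2.1) (M p.1.2.2 p.1.2.1) z), w (Sym.t p z h) =
      stdT (w (Sym.gen p.1.1)) (w (Sym.gen p.1.2.1)) (w (Sym.gen p.1.2.2)) z := by
  have hok := okt G p
  have hrel : ∀ s k t l u r : ℤ, LT (M p.1.1 p.1.2.1) (M p.1.2.2 p.1.2.1) s k t l u r →
      XT w p s * (κ (FreeGroup.of p)) ^ k * XT w p t * (κ (FreeGroup.of p)) ^ l * XT w p u *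
        (κ (FreeGroup.of p)) ^ r = 1 := by
    intro s k t l u r h
    have h1 := (hLX.2.2.1 _ _ hok s k t l u r h).1
    have h2 := (hLX.2.2.1 _ _ hok t l u r s k (LT_rot h)).1
    have h3 := (hLX.2.2.1 _ _ hok u r s k t l (LT_rot (LT_rot h))).1
    obtain ⟨x, hx⟩ := repT_ex (arr := arr) p s h1
    obtain ⟨y, hy⟩ := repT_ex (arr := arr) p t h2
    obtain ⟨z, hz⟩ := repT_ex (arr := arr) p u h3
    rw [XT_rep w hx, XT_rep w hy, XT_rep w hz]
    have h4 := hw (UTri.t p s k t l u r x y z h hx hy hz)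
    rw [map_zpow, map_zpow, map_zpow] at h4
    exact h4
  have key := hRTF (M p.1.1 p.1.2.1) (M p.1.2.2 p.1.2.1) hok (XT w p) (κ (FreeGroup.of p)) hrel
  have e1 : XT w p 1 = w (Sym.gen p.1.1) := XT_rep w RepT.a
  have e2 : XT w p 2 = w (Sym.gen p.1.2.1) := XT_rep w RepT.b
  have e3 : XT w p (-1) = w (Sym.gen p.1.2.2) := XT_rep w RepT.c
  rw [e1, e2, e3] at key
  obtain ⟨k1, k2, k3, k4, k5⟩ := key
  refine ⟨k1, k2, k3, k4, ?_⟩
  intro z h
  rw [← k5 z h]
  exact (XT_rep w (RepT.x z h)).symm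

theorem edge_facts (hREF : SpecREF) (hLX : SpecLX) (G : Good M arr) (p : EE M arr) :
    altWord (w (Sym.gen p.1.1)) (w (Sym.gen p.1.2)) (M p.1.1 p.1.2) =
      altWord (w (Sym.gen p.1.2)) (w (Sym.gen p.1.1)) (M p.1.1 p.1.2) ∧
    ∀ (z : ℤ) (h : CE (M p.1.1 p.1.2) z), w (Sym.e p z h) =
      stdE (w (Sym.gen p.1.1)) (w (Sym.gen p.1.2)) z := by
  have hm : 2 ≤ M p.1.1 p.1.2 := G.adj _ _ p.2.1
  have hrel : ∀ s t u : ℤ, LE (M p.1.1 p.1.2) s t u → XE w p s * XE w p t * XE w p u = 1 := by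
    intro s t u h
    have h1 := (hLX.2.1 _ hm s t u h).1
    have h2 := (hLX.2.1 _ hm t u s (LE_rot h)).1
    have h3 := (hLX.2.1 _ hm u s t (LE_rot (LE_rot h))).1
    obtain ⟨x, hx⟩ := repE_ex (arr := arr) p s h1
    obtain ⟨y, hy⟩ := repE_ex (arr := arr) p t h2
    obtain ⟨z, hz⟩ := repE_ex (arr := arr) p u h3
    rw [XE_rep w hx, XE_rep w hy, XE_rep w hz]
    have h4 := hw (UTri.e p s t u x y z h hx hy hz)
    simpa using h4
  have key := (hREF (H := H) (M p.1.1 p.1.2) hm).1 (XE w p) hrel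
  have e1 : XE w p 1 = w (Sym.gen p.1.1) := XE_rep w RepE.a
  have e2 : XE w p 2 = w (Sym.gen p.1.2) := XE_rep w RepE.b
  rw [e1, e2] at key
  refine ⟨key.1, ?_⟩
  intro z h
  rw [← key.2 z h]
  exact (XE_rep w (RepE.x z h)).symm

theorem tri_rel (hRTF : SpecRTF) (hLX : SpecLX) (G : Good M arr) (a b c : V) (h1 : M a c = 2)
    (h2 : 2 ≤ M a b) (h3 : 2 ≤ M c b) :
    w (Sym.gen a) * w (Sym.gen c) = w (Sym.gen c) * w (Sym.gen a) ∧
    altWord (w (Sym.gen a)) (w (Sym.gen b)) (M a b) = altWord (w (Sym.gen b)) (w (Sym.gen a)) (M a b) ∧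
    altWord (w (Sym.gen c)) (w (Sym.gen b)) (M c b) =
      altWord (w (Sym.gen b)) (w (Sym.gen c)) (M c b) := by
  have hac : a ≠ c := by
    rintro rfl
    rw [M.diagonal] at h1
    omega
  rcases lt_trichotomy (M a b) (M c b) with h | h | h
  · have := tri_facts κ w hw hRTF hLX G ⟨(a, b, c), h1, h2, h3, Or.inl h⟩
    exact ⟨this.2.1, this.2.2.1, this.2.2.2.1⟩
  · rcases lt_or_gt_of_ne hac with h' | h'
    · have := tri_facts κ w hw hRTF hLX G ⟨(a, b, c), h1, h2, h3, Or.inr ⟨h, h'⟩⟩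
      exact ⟨this.2.1, this.2.2.1, this.2.2.2.1⟩
    · have := tri_facts κ w hw hRTF hLX G
        ⟨(c, b, a), by rw [M.symmetric]; exact h1, h3, h2, Or.inr ⟨h.symm, h'⟩⟩
      exact ⟨this.2.1.symm, this.2.2.2.1, this.2.2.1⟩
  · have := tri_facts κ w hw hRTF hLX G
      ⟨(c, b, a), by rw [M.symmetric]; exact h1, h3, h2, Or.inl h⟩
    exact ⟨this.2.1.symm, this.2.2.2.1, this.2.2.1⟩

theorem pair_rel (hRTF : SpecRTF) (hREF : SpecREF) (hLX : SpecLX) (G : Good M arr) (s t : V) :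
    altWord (w (Sym.gen s)) (w (Sym.gen t)) (M s t) =
      altWord (w (Sym.gen t)) (w (Sym.gen s)) (M s t) := by
  classical
  have hsym : ∀ a b : V, M a b = M b a := fun a b => M.symmetric a b
  rcases Nat.lt_or_ge (M s t) 2 with h2 | h2
  · rcases Nat.lt_or_ge (M s t) 1 with h1 | h1
    · have h0 : M s t = 0 := by omega
      rw [h0]
      rfl
    · have h11 : M s t = 1 := by omega
      have hst : s = t := by
        by_contra hne
        exact M.off_diagonal s t hne h11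
      subst hst
      rfl
  by_cases hu : ∃ u, 2 ≤ M s u ∧ 2 ≤ M t u ∧ (M s t = 2 ∨ M s u = 2 ∨ M t u = 2)
  · obtain ⟨u, hsu, htu, h | h | h⟩ := hu
    · -- s t has label 2
      have := (tri_rel κ w hw hRTF hLX G s u t h hsu htu).1
      rw [h]
      simpa [altWord] using this
    · -- s u has label 2
      exact (tri_rel κ w hw hRTF hLX G s t u h h2 (by rw [hsym]; exact htu)).2.1
    · -- t u has label 2
      have := (tri_rel κ w hw hRTF hLX G t s u h (by rw [hsym]; exact h2) (by rw [hsym]; exact hsu)).2.1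
      rw [hsym s t]
      exact this.symm
  · -- edge piece
    have hu' : ¬ ∃ u, 2 ≤ M t u ∧ 2 ≤ M s u ∧ (M t s = 2 ∨ M t u = 2 ∨ M s u = 2) := by
      rintro ⟨u, h3, h4, h5⟩
      apply hu
      refine ⟨u, h4, h3, ?_⟩
      rw [hsym t s] at h5
      tauto
    have hne : s ≠ t := by
      rintro rfl
      rw [M.diagonal] at h2
      omega
    have hE1 : ∀ _ : IsE M arr s t, altWord (w (Sym.gen s)) (w (Sym.gen t)) (M s t) =
        altWord (w (Sym.gen t)) (w (Sym.gen s)) (M s t) := fun h =>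
      (edge_facts κ w hw hREF hLX G ⟨(s, t), h⟩).1
    have hE2 : ∀ _ : IsE M arr t s, altWord (w (Sym.gen s)) (w (Sym.gen t)) (M s t) =
        altWord (w (Sym.gen t)) (w (Sym.gen s)) (M s t) := fun h => by
      have := (edge_facts κ w hw hREF hLX G ⟨(t, s), h⟩).1
      rw [hsym s t]
      exact this.symm
    by_cases h3 : M s t = 2
    · rcases lt_or_gt_of_ne hne with h4 | h4
      · exact hE1 ⟨G.two s t h3, fun _ => h4, hu⟩
      · exact hE2 ⟨G.two t s (by rw [hsym]; exact h3), fun _ => h4, hu'⟩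
    · rcases G.tot s t (by omega) with h4 | h4
      · exact hE1 ⟨h4, fun h => absurd h h3, hu⟩
      · exact hE2 ⟨h4, fun h => absurd (by rw [hsym]; exact h) h3, hu'⟩

end target

end graph

end MODM

open MODM in
theorem specMOD (hRTF : SpecRTF) (hRTC : SpecRTC) (hREF : SpecREF) (hLX : SpecLX) : SpecMOD := by
  intro V _ _ M arr G S hS
  have artin2 : ∀ a c : V, M a c = 2 → gv M a * gv M c = gv M c * gv M a := by
    intro a c h
    have := artin M a c
    rw [h] at this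
    simpa [altWord] using this
  refine ⟨⟨iog M, evg M arr, ?_, ?_, ?_⟩⟩
  · intro s f t a u b h
    rw [hS] at h
    cases h with
    | t p s k t l u r x y z h hx hy hz =>
      rw [evg_repT hx, evg_repT hy, evg_repT hz, map_zpow, map_zpow, map_zpow]
      have hp : iog M (FreeGroup.of p) = gv M p.1.1 * gv M p.1.2.2 * gv M p.1.2.1 := by
        simp [iog]
      rw [hp]
      exact hRTC _ _ (okt G p) _ _ _ (artin2 _ _ p.2.1) (artin M _ _) (artin M _ _) s k t l u r h
    | e p s t u x y z h hx hy hz =>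
      rw [evg_repE hx, evg_repE hy, evg_repE hz]
      have := (hREF (H := ArtinGroup M) (M p.1.1 p.1.2) (G.adj _ _ p.2.1)).2 (gv M p.1.1) (gv M p.1.2)
        (artin M _ _) s t u h
      simpa using this
  · rw [eq_top_iff, ← PresentedGroup.closure_range_of (artinRels M)]
    apply Subgroup.closure_mono
    rintro x ⟨v, rfl⟩
    right
    exact ⟨Sym.gen v, rfl⟩
  · intro H _ κ w hw
    rw [hS] at hw
    have hrel : ∀ r ∈ artinRels M, FreeGroup.lift (fun v => w (Sym.gen v)) r = 1 := by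
      rintro r ⟨s, t, rfl⟩
      rw [map_mul, map_inv, map_alt, map_alt, FreeGroup.lift_apply_of, FreeGroup.lift_apply_of]
      exact mul_inv_eq_one.2 (pair_rel κ w hw hRTF hREF hLX G s t)
    have hof : ∀ v, PresentedGroup.toGroup hrel (gv M v) = w (Sym.gen v) := by
      intro v
      exact PresentedGroup.toGroup.of hrel
    refine ⟨PresentedGroup.toGroup hrel, ?_, ?_⟩
    · intro f
      have : (PresentedGroup.toGroup hrel).comp (iog M) = κ := by
        ext p
        have h1 : iog M (FreeGroup.of p) = gv M p.1.1 * gv M p.1.2.2 * gv M p.1.2.1 := by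
          simp [iog]
        rw [MonoidHom.comp_apply, h1, map_mul, map_mul, hof, hof, hof]
        exact (tri_facts κ w hw hRTF hLX G p).1.symm
      exact DFunLike.congr_fun this f
    · intro e
      cases e with
      | gen v => exact hof v
      | e p z h =>
        show PresentedGroup.toGroup hrel (stdE (gv M p.1.1) (gv M p.1.2) z) = _
        rw [map_stdE, hof, hof]
        exact ((edge_facts κ w hw hREF hLX G p).2 z h).symm
      | t p z h =>
        show PresentedGroup.toGroup hrel (stdT (gv M p.1.1) (gv M p.1.2.1) (gv M p.1.2.2) z) = _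
        rw [map_stdT, hof, hof, hof]
        exact ((tri_facts κ w hw hRTF hLX G p).2.2.2.2 z h).symm

end BA
end

section
/-! # REF: edge pieces -/
set_option autoImplicit false

namespace BA

namespace REFM

variable {H : Type} [Group H]

theorem xq_mul (a b : H) (i : ℕ) : xq a b i * xq a b (i + 1) = a * b := by
  change xq a b i * ((xq a b i)⁻¹ * (a * b)) = a * b
  group

theorem stdE_pos (a b : H) (i : ℕ) : stdE a b ((i : ℤ) + 1) = xq a b i := by
  unfold stdE
  rw [if_neg (by omega)]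
  congr 1
  omega

theorem stdE_zero (a b : H) : stdE a b 0 = (a * b)⁻¹ := by
  unfold stdE
  rw [if_pos rfl]

theorem rot {x y z : H} (h : y * z * x = 1) : x * y * z = 1 := by
  rw [mul_assoc]
  exact mul_eq_one_comm.1 h

end REFM

open REFM in
theorem specREF (hALT : SpecALT) : SpecREF := by
  intro H _ m hm
  refine ⟨fun X hX => ?_, fun a b hab => ?_⟩
  · have hb : ∀ s t u : ℤ, baseE m s t u → X s * X t * X u = 1 := fun s t u h => hX s t u (Or.inl h)
    have h0 : X 1 * X 2 * X 0 = 1 := hb 1 2 0 (Or.inl ⟨le_rfl, by omega, rfl, rfl⟩)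
    have h0' : X 0 = (X 1 * X 2)⁻¹ := by
      rw [eq_inv_iff_mul_eq_one]
      exact mul_eq_one_comm.1 h0
    have hx : ∀ i : ℕ, i < m → X ((i : ℤ) + 1) = xq (X 1) (X 2) i := by
      intro i
      induction i with
      | zero => intro _; simp [xq]
      | succ i ih =>
        intro hi
        have h1 := hb ((i : ℤ) + 1) ((i : ℤ) + 1 + 1) 0 (Or.inl ⟨by omega, by omega, rfl, rfl⟩)
        rw [ih (by omega), h0', mul_inv_eq_one] at h1
        change X (((i + 1 : ℕ) : ℤ) + 1) = (xq (X 1) (X 2) i)⁻¹ * (X 1 * X 2)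
        rw [← h1]
        push_cast
        group
    obtain ⟨m', hm'⟩ : ∃ m' : ℕ, m' + 1 = m := ⟨m - 1, by omega⟩
    obtain ⟨-, -, hper⟩ := hALT (X 1) (X 2)
    refine ⟨(hper m).2 ?_, ?_⟩
    · have h1 := hb (m : ℤ) 1 0 (Or.inr ⟨rfl, rfl, rfl⟩)
      have h2 : X (m : ℤ) = xq (X 1) (X 2) m' := by
        rw [← hx m' (by omega)]
        congr 1
        omega
      rw [h2, h0', mul_inv_eq_one] at h1
      rw [← hm']
      change (xq (X 1) (X 2) m')⁻¹ * (X 1 * X 2) = X 1
      rw [← h1]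
      group
    · intro z hz
      rcases hz with rfl | ⟨hz1, hz2⟩
      · rw [stdE_zero, h0']
      · obtain ⟨i, rfl⟩ : ∃ i : ℕ, z = (i : ℤ) + 1 := ⟨(z - 1).toNat, by omega⟩
        rw [stdE_pos, hx i (by omega)]
  · obtain ⟨-, -, hper⟩ := hALT a b
    have hm1 : xq a b m = a := (hper m).1 hab
    obtain ⟨m', hm'⟩ : ∃ m' : ℕ, m' + 1 = m := ⟨m - 1, by omega⟩
    have hbase : ∀ s t u : ℤ, baseE m s t u → stdE a b s * stdE a b t * stdE a b u = 1 := by
      intro s t u h
      rcases h with ⟨h1, h2, rfl, rfl⟩ | ⟨rfl, rfl, rfl⟩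
      · obtain ⟨i, rfl⟩ : ∃ i : ℕ, s = (i : ℤ) + 1 := ⟨(s - 1).toNat, by omega⟩
        rw [stdE_pos, show ((i : ℤ) + 1 + 1) = ((i + 1 : ℕ) : ℤ) + 1 by push_cast; ring, stdE_pos,
          stdE_zero, xq_mul]
        group
      · have e1 : stdE a b (m : ℤ) = xq a b m' := by
          rw [← stdE_pos a b m']
          congr 1
          omega
        have e2 : stdE a b 1 = a := stdE_pos a b 0
        have e3 := xq_mul a b m'
        rw [hm', hm1] at e3
        rw [e1, e2, stdE_zero, e3]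
        group
    intro s t u h
    rcases h with h | h | h
    · exact hbase _ _ _ h
    · exact rot (hbase _ _ _ h)
    · exact rot (rot (hbase _ _ _ h))

end BA
end

section
/-!
# MP_135d84_al, module RTF: the relators of a triangle piece imply the Artin relations
-/
set_option autoImplicit false

namespace BA

namespace RTFM

variable {H : Type} [Group H]

/-- the chain x_{i+1} = x_i⁻¹ p -/
theorem chain (a b p : H) (hp : p = a * b) (Y : ℤ → H) (i0 N : ℕ) (h0 : Y i0 = xq a b (i0 - 1)) (hi0 : 1 ≤ i0)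
    (hs : ∀ t : ℤ, (i0 : ℤ) ≤ t → t < N → Y (t + 1) = (Y t)⁻¹ * p) :
    ∀ j : ℕ, i0 ≤ j → j ≤ N → Y j = xq a b (j - 1) := by
  intro j hj
  induction j, hj using Nat.le_induction with
  | base => intro _; exact h0
  | succ j hj ih =>
    intro hN
    have h1 := ih (by omega)
    have h2 := hs j (by exact_mod_cast hj) (by exact_mod_cast hN)
    have h3 : ((j + 1 : ℕ) : ℤ) = (j : ℤ) + 1 := by push_cast; ring
    rw [h3, h2, h1, hp]
    obtain ⟨i, rfl⟩ : ∃ i, j = i + 1 := ⟨j - 1, by omega⟩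
    rfl

theorem xq3 (a b : H) : xq a b 3 = (a * b)⁻¹ * b * (a * b) := by
  show (((a⁻¹ * (a * b)))⁻¹ * (a * b))⁻¹ * (a * b) = _
  group

theorem xq2 (a b : H) : xq a b 2 = (a * b)⁻¹ * a * (a * b) := by
  show ((a⁻¹ * (a * b)))⁻¹ * (a * b) = _
  group

theorem xq_succ (a b : H) (i : ℕ) : xq a b (i + 1) = (xq a b i)⁻¹ * (a * b) := rfl

/-- common conclusions from the first two relators -/
theorem common (a b c d : H) (h1 : a * c * b * d⁻¹ = 1) (h2 : c * a * b * d⁻¹ = 1) :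
    d = a * c * b ∧ a * c = c * a ∧ c⁻¹ * d = a * b ∧ a⁻¹ * d = c * b := by
  have e1 : d = a * c * b := (mul_inv_eq_one.1 h1).symm
  have e2 : d = c * a * b := (mul_inv_eq_one.1 h2).symm
  refine ⟨e1, ?_, ?_, ?_⟩
  · have h3 : a * c * b = c * a * b := e1.symm.trans e2
    exact mul_right_cancel h3
  · rw [e2]; group
  · rw [e1]; group

theorem fin (m n : ℕ) (X : ℤ → H) (d : H)
    (hc : d = X 1 * X (-1) * X 2 ∧ X 1 * X (-1) = X (-1) * X 1)
    (hALT : SpecALT)
    (hx : xq (X 1) (X 2) m = X 1) (hy : xq (X (-1)) (X 2) n = X (-1))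
    (hz : ∀ z : ℤ, CT m n z → X z = stdT (X 1) (X 2) (X (-1)) z) :
    d = X 1 * X (-1) * X 2 ∧ X 1 * X (-1) = X (-1) * X 1 ∧
    altWord (X 1) (X 2) m = altWord (X 2) (X 1) m ∧
    altWord (X (-1)) (X 2) n = altWord (X 2) (X (-1)) n ∧
    ∀ z : ℤ, CT m n z → X z = stdT (X 1) (X 2) (X (-1)) z :=
  ⟨hc.1, hc.2, ((hALT (X 1) (X 2)).2.2 m).2 hx, ((hALT (X (-1)) (X 2)).2.2 n).2 hy, hz⟩

/-- the values on the negative codes -/
theorem neg_std (a b c : H) (X : ℤ → H) (N : ℕ)
    (h : ∀ j : ℕ, 5 ≤ j → j ≤ N → X (-(j : ℤ)) = xq c b (j - 1)) (z : ℤ) (h1 : -(N : ℤ) ≤ z)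
    (h2 : z ≤ -5) : X z = stdT a b c z := by
  obtain ⟨j, rfl⟩ : ∃ j : ℕ, z = -(j : ℤ) := ⟨(-z).toNat, by omega⟩
  rw [h j (by omega) (by omega)]
  unfold stdT
  rw [if_neg (by omega)]
  congr 1
  omega

theorem pos_std (a b c : H) (X : ℤ → H) (N : ℕ)
    (h : ∀ j : ℕ, 5 ≤ j → j ≤ N → X (j : ℤ) = xq a b (j - 1)) (z : ℤ) (h1 : z ≤ N)
    (h2 : 5 ≤ z) : X z = stdT a b c z := by
  obtain ⟨j, rfl⟩ : ∃ j : ℕ, z = (j : ℤ) := ⟨z.toNat, by omega⟩
  rw [h j (by omega) (by omega)]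
  unfold stdT
  rw [if_pos (by omega)]
  congr 1
  omega

/-- the chain for the negative codes -/
theorem negchain (a b c d : H) (hd : a⁻¹ * d = c * b) (X : ℤ → H) (N : ℕ)
    (h5 : X (-5) = xq c b 4)
    (hs : ∀ t : ℤ, -(N : ℤ) < t → t ≤ -5 → a * X t * X (t - 1) * d⁻¹ = 1) :
    ∀ j : ℕ, 5 ≤ j → j ≤ N → X (-(j : ℤ)) = xq c b (j - 1) := by
  refine chain c b (a⁻¹ * d) hd (fun t => X (-t)) 5 N ?_ (by norm_num) ?_
  · exact h5
  · intro t h1 h2
    have h3 := hs (-t) (by omega) (by push_cast at h1; omega)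
    have h4 : X (-(t + 1)) = X (-t - 1) := by congr 1; ring
    show X (-(t + 1)) = (X (-t))⁻¹ * (a⁻¹ * d)
    rw [h4]
    calc X (-t - 1) = (X (-t))⁻¹ * a⁻¹ * (a * X (-t) * X (-t - 1) * d⁻¹) * d := by group
      _ = _ := by rw [h3]; group

theorem poschain (a b c d : H) (hd : c⁻¹ * d = a * b) (X : ℤ → H) (N : ℕ)
    (h5 : X 5 = xq a b 4)
    (hs : ∀ t : ℤ, 5 ≤ t → t < N → c * X t * X (t + 1) * d⁻¹ = 1) :
    ∀ j : ℕ, 5 ≤ j → j ≤ N → X (j : ℤ) = xq a b (j - 1) := by
  refine chain a b (c⁻¹ * d) hd X 5 N ?_ (by norm_num) ?_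
  · exact h5
  · intro t h1 h2
    have h3 := hs t (by push_cast at h1; omega) h2
    calc X (t + 1) = (X t)⁻¹ * c⁻¹ * (c * X t * X (t + 1) * d⁻¹) * d := by group
      _ = _ := by rw [h3]; group

theorem case5 (hALT : SpecALT) (m n : ℕ) (hm : 5 ≤ m) (hn : 5 ≤ n) (X : ℤ → H) (d : H)
    (hr : ∀ s k t l u r : ℤ, base5 m n s k t l u r → X s * d ^ k * X t * d ^ l * X u * d ^ r = 1) :
    d = X 1 * X (-1) * X 2 ∧ X 1 * X (-1) = X (-1) * X 1 ∧
    altWord (X 1) (X 2) m = altWord (X 2) (X 1) m ∧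
    altWord (X (-1)) (X 2) n = altWord (X 2) (X (-1)) n ∧
    ∀ z : ℤ, CT m n z → X z = stdT (X 1) (X 2) (X (-1)) z := by
  have r1 := hr 1 0 (-1) 0 2 (-1) (by unfold base5; omega)
  have r2 := hr (-1) 0 1 0 2 (-1) (by unfold base5; omega)
  have r3 := hr (-1) (-1) 1 0 (-n) 0 (by unfold base5; omega)
  have r4 := hr (-1) (-1) (-n) 1 5 (-1) (by unfold base5; omega)
  have r5 : ∀ t : ℤ, 5 ≤ t → t < m → X (-1) * X t * X (t + 1) * d⁻¹ = 1 := by
    intro t h1 h2
    have := hr (-1) 0 t 0 (t + 1) (-1) (by unfold base5; omega)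
    simpa [zpow_zero, zpow_neg_one] using this
  have r6 := hr (-1) 0 m 0 1 (-1) (by unfold base5; omega)
  have r7 := hr 1 (-1) m 1 (-5) (-1) (by unfold base5; omega)
  have r8 : ∀ t : ℤ, -(n : ℤ) < t → t ≤ -5 → X 1 * X t * X (t - 1) * d⁻¹ = 1 := by
    intro t h1 h2
    have := hr 1 0 t 0 (t - 1) (-1) (by unfold base5; omega)
    simpa [zpow_zero, zpow_neg_one] using this
  simp only [zpow_zero, zpow_neg_one, zpow_one, mul_one] at r1 r2 r3 r4 r6 r7
  obtain ⟨c1, c2, c3, c4⟩ := common (X 1) (X 2) (X (-1)) d r1 r2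
  have hyn : X (-n) = X (-1) * X 2 * (X (-1))⁻¹ := by
    calc X (-n) = (X 1)⁻¹ * d * (X (-1))⁻¹ * (X (-1) * d⁻¹ * X 1 * X (-n)) := by group
      _ = _ := by rw [r3, c4]; group
  have hx5 : X 5 = xq (X 1) (X 2) 4 := by
    rw [xq_succ, xq3]
    have e1 : X 5 = (d⁻¹ * X (-n) * d)⁻¹ * (X (-1))⁻¹ *
        (X (-1) * d⁻¹ * X (-n) * d * X 5 * d⁻¹) * d := by group
    rw [r4, hyn] at e1
    rw [e1, ← c3]
    group
  have hxs := poschain (X 1) (X 2) (X (-1)) d c3 X m hx5 r5
  have hXm : X m = xq (X 1) (X 2) (m - 1) := hxs m hm le_rfl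
  have hXm2 : X m = X 1 * X 2 * (X 1)⁻¹ := by
    calc X m = (X (-1))⁻¹ * (X (-1) * X m * X 1 * d⁻¹) * d * (X 1)⁻¹ := by group
      _ = _ := by rw [r6, ← c3]; group
  have hper : xq (X 1) (X 2) m = X 1 := by
    obtain ⟨k, rfl⟩ : ∃ k, m = k + 1 := ⟨m - 1, by omega⟩
    rw [xq_succ]
    have : xq (X 1) (X 2) k = X ((k + 1 : ℕ) : ℤ) := hXm.symm
    rw [this, hXm2]
    group
  have hy5 : X (-5) = xq (X (-1)) (X 2) 4 := by
    rw [xq_succ, xq3]
    have e1 : X (-5) = (d⁻¹ * X m * d)⁻¹ * (X 1)⁻¹ *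
        (X 1 * d⁻¹ * X m * d * X (-5) * d⁻¹) * d := by group
    rw [r7, hXm2] at e1
    rw [e1, ← c4]
    group
  have hys := negchain (X 1) (X 2) (X (-1)) d c4 X n hy5 r8
  have hpery : xq (X (-1)) (X 2) n = X (-1) := by
    obtain ⟨k, rfl⟩ : ∃ k, n = k + 1 := ⟨n - 1, by omega⟩
    rw [xq_succ]
    have : xq (X (-1)) (X 2) k = X (-((k + 1 : ℕ) : ℤ)) := (hys (k + 1) hn le_rfl).symm
    rw [this, hyn]
    group
  refine fin m n X d ⟨c1, c2⟩ hALT hper hpery ?_
  rintro z (⟨h1, h2⟩ | ⟨h1, h2, _⟩)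
  · exact pos_std _ _ _ X m hxs z h2 h1
  · exact neg_std _ _ _ X n hys z h1 h2

theorem case4 (hALT : SpecALT) (n : ℕ) (hn : 5 ≤ n) (X : ℤ → H) (d : H)
    (hr : ∀ s k t l u r : ℤ, base4 n s k t l u r → X s * d ^ k * X t * d ^ l * X u * d ^ r = 1) :
    d = X 1 * X (-1) * X 2 ∧ X 1 * X (-1) = X (-1) * X 1 ∧
    altWord (X 1) (X 2) 4 = altWord (X 2) (X 1) 4 ∧
    altWord (X (-1)) (X 2) n = altWord (X 2) (X (-1)) n ∧
    ∀ z : ℤ, CT 4 n z → X z = stdT (X 1) (X 2) (X (-1)) z := by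
  have r1 := hr 1 0 (-1) 0 2 (-1) (by unfold base4; omega)
  have r2 := hr (-1) 0 1 0 2 (-1) (by unfold base4; omega)
  have r3 := hr (-1) (-1) 1 0 (-n) 0 (by unfold base4; omega)
  have r4 := hr (-1) (-1) (-n) 1 1 (-1) (by unfold base4; omega)
  have r5 := hr 1 (-2) (-n) 2 (-5) (-1) (by unfold base4; omega)
  have r8 : ∀ t : ℤ, -(n : ℤ) < t → t ≤ -5 → X 1 * X t * X (t - 1) * d⁻¹ = 1 := by
    intro t h1 h2
    have := hr 1 0 t 0 (t - 1) (-1) (by unfold base4; omega)
    simpa [zpow_zero, zpow_neg_one] using this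
  simp only [zpow_zero, zpow_neg_one, zpow_one, mul_one] at r1 r2 r3 r4
  obtain ⟨c1, c2, c3, c4⟩ := common (X 1) (X 2) (X (-1)) d r1 r2
  have hyn : X (-n) = X (-1) * X 2 * (X (-1))⁻¹ := by
    calc X (-n) = (X 1)⁻¹ * d * (X (-1))⁻¹ * (X (-1) * d⁻¹ * X 1 * X (-n)) := by group
      _ = _ := by rw [r3, c4]; group
  have hx4 : d⁻¹ * X (-n) * d = xq (X 1) (X 2) 3 := by
    rw [xq3, hyn, ← c3]
    group
  have hx4' : d⁻¹ * X (-n) * d = X 1 * X 2 * (X 1)⁻¹ := by
    calc d⁻¹ * X (-n) * d = (X (-1))⁻¹ * (X (-1) * d⁻¹ * X (-n) * d * X 1 * d⁻¹) * d * (X 1)⁻¹ := by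
          group
      _ = _ := by rw [r4, ← c3]; group
  have hper : xq (X 1) (X 2) 4 = X 1 := by
    rw [xq_succ, ← hx4, hx4']
    group
  have hy5 : X (-5) = xq (X (-1)) (X 2) 4 := by
    rw [xq_succ, xq3]
    have e1 : X (-5) = (d⁻¹ * (d⁻¹ * X (-n) * d) * d)⁻¹ * (X 1)⁻¹ *
        (X 1 * d ^ (-2 : ℤ) * X (-n) * d ^ (2 : ℤ) * X (-5) * d ^ (-1 : ℤ)) * d := by group
    rw [r5, hx4'] at e1
    rw [e1, ← c4]
    group
  have hys := negchain (X 1) (X 2) (X (-1)) d c4 X n hy5 r8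
  have hpery : xq (X (-1)) (X 2) n = X (-1) := by
    obtain ⟨k, rfl⟩ : ∃ k, n = k + 1 := ⟨n - 1, by omega⟩
    rw [xq_succ]
    have : xq (X (-1)) (X 2) k = X (-((k + 1 : ℕ) : ℤ)) := (hys (k + 1) hn le_rfl).symm
    rw [this, hyn]
    group
  refine fin 4 n X d ⟨c1, c2⟩ hALT hper hpery ?_
  rintro z (⟨h1, h2⟩ | ⟨h1, h2, _⟩)
  · push_cast at h2; omega
  · exact neg_std _ _ _ X n hys z h1 h2

theorem case3 (hALT : SpecALT) (n : ℕ) (hn : 7 ≤ n) (X : ℤ → H) (d : H)
    (hr : ∀ s k t l u r : ℤ, base3 n s k t l u r → X s * d ^ k * X t * d ^ l * X u * d ^ r = 1) :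
    d = X 1 * X (-1) * X 2 ∧ X 1 * X (-1) = X (-1) * X 1 ∧
    altWord (X 1) (X 2) 3 = altWord (X 2) (X 1) 3 ∧
    altWord (X (-1)) (X 2) n = altWord (X 2) (X (-1)) n ∧
    ∀ z : ℤ, CT 3 n z → X z = stdT (X 1) (X 2) (X (-1)) z := by
  have r1 := hr 1 0 (-1) 0 2 (-1) (by unfold base3; omega)
  have r2 := hr (-1) 0 1 0 2 (-1) (by unfold base3; omega)
  have r3 := hr (-1) (-1) 1 1 1 (-1) (by unfold base3; omega)
  have r4 := hr 1 (-2) 1 2 (-5) (-1) (by unfold base3; omega)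
  have r5 := hr 1 0 (-n + 2) 2 (-5) (-3) (by unfold base3; omega)
  have r8 : ∀ t : ℤ, -((n - 2 : ℕ) : ℤ) < t → t ≤ -5 → X 1 * X t * X (t - 1) * d⁻¹ = 1 := by
    intro t h1 h2
    have := hr 1 0 t 0 (t - 1) (-1) (by unfold base3; omega)
    simpa [zpow_zero, zpow_neg_one] using this
  simp only [zpow_zero, zpow_neg_one, zpow_one, mul_one] at r1 r2 r3
  obtain ⟨c1, c2, c3, c4⟩ := common (X 1) (X 2) (X (-1)) d r1 r2
  have hx3 : d⁻¹ * X 1 * d = X 1 * X 2 * (X 1)⁻¹ := by
    calc d⁻¹ * X 1 * d = (X (-1))⁻¹ * (X (-1) * d⁻¹ * X 1 * d * X 1 * d⁻¹) * d * (X 1)⁻¹ := by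
          group
      _ = _ := by rw [r3, ← c3]; group
  have hx3' : d⁻¹ * X 1 * d = xq (X 1) (X 2) 2 := by
    rw [xq2, ← c3]
    have e1 : (X (-1)) * X 1 * (X (-1))⁻¹ = X 1 := by rw [← c2]; group
    calc d⁻¹ * X 1 * d = d⁻¹ * ((X (-1)) * X 1 * (X (-1))⁻¹) * d := by rw [e1]
      _ = _ := by group
  have hper : xq (X 1) (X 2) 3 = X 1 := by
    rw [xq_succ, ← hx3', hx3]
    group
  have hy4 : xq (X (-1)) (X 2) 3 = d ^ (-2 : ℤ) * X 1 * d ^ (2 : ℤ) := by
    rw [xq3]
    calc (X (-1) * X 2)⁻¹ * X 2 * (X (-1) * X 2) = d⁻¹ * (X 1 * X 2 * (X 1)⁻¹) * d := by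
          rw [← c4]; group
      _ = d⁻¹ * (d⁻¹ * X 1 * d) * d := by rw [hx3]
      _ = _ := by
        rw [zpow_neg, zpow_two]
        group
  have hy5 : X (-5) = xq (X (-1)) (X 2) 4 := by
    rw [xq_succ, hy4]
    have e1 : X (-5) = (d ^ (-2 : ℤ) * X 1 * d ^ (2 : ℤ))⁻¹ * (X 1)⁻¹ *
        (X 1 * d ^ (-2 : ℤ) * X 1 * d ^ (2 : ℤ) * X (-5) * d ^ (-1 : ℤ)) * d := by group
    rw [r4] at e1
    rw [e1, ← c4]
    group
  have hys := negchain (X 1) (X 2) (X (-1)) d c4 X (n - 2) hy5 r8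
  have hpery : xq (X (-1)) (X 2) n = X (-1) := by
    obtain ⟨k, rfl⟩ : ∃ k, n = k + 3 := ⟨n - 3, by omega⟩
    have h1 : xq (X (-1)) (X 2) k = X (-((k + 3 : ℕ) : ℤ) + 2) := by
      have h2 := hys (k + 1) (by omega) (by omega)
      have h3 : -((k + 1 : ℕ) : ℤ) = -((k + 3 : ℕ) : ℤ) + 2 := by push_cast; ring
      rw [h3] at h2
      exact h2.symm
    rw [xq_succ, xq_succ, xq_succ, h1]
    have e5 : X (-5) = (d ^ (-2 : ℤ) * X 1 * d ^ (2 : ℤ))⁻¹ * ((X 1)⁻¹ * d) := by
      rw [hy5, xq_succ, hy4, c4]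
    have e6 : (X (-((k + 3 : ℕ) : ℤ) + 2))⁻¹ * (X (-1) * X 2) =
        d ^ (2 : ℤ) * X (-5) * d ^ (-2 : ℤ) := by
      rw [← c4]
      calc (X (-((k + 3 : ℕ) : ℤ) + 2))⁻¹ * ((X 1)⁻¹ * d) =
            (X (-((k + 3 : ℕ) : ℤ) + 2))⁻¹ * (X 1)⁻¹ * 1 * d := by group
        _ = (X (-((k + 3 : ℕ) : ℤ) + 2))⁻¹ * (X 1)⁻¹ * (X 1 * d ^ (0 : ℤ) *
              X (-((k + 3 : ℕ) : ℤ) + 2) * d ^ (2 : ℤ) * X (-5) * d ^ (-3 : ℤ)) * d := by rw [r5]
        _ = _ := by group
    rw [e6, e5, ← c4]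
    have e7 : X (-1) = d * (X 1)⁻¹ * d⁻¹ * (X 1)⁻¹ * d := by
      calc X (-1) = (X (-1) * d⁻¹ * X 1 * d * X 1 * d⁻¹) * (d * (X 1)⁻¹ * d⁻¹ * (X 1)⁻¹ * d) := by
            group
        _ = _ := by rw [r3]; group
    rw [e7]
    group
  refine fin 3 n X d ⟨c1, c2⟩ hALT hper hpery ?_
  rintro z (⟨h1, h2⟩ | ⟨h1, h2, h3⟩)
  · push_cast at h2; omega
  · exact neg_std _ _ _ X (n - 2) hys z (by have := h3 rfl; omega) h2

end RTFM

theorem specRTF (hALT : SpecALT) : SpecRTF := by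
  intro H _ m n hok X d hr
  rcases hok with ⟨rfl, hn⟩ | ⟨rfl, hn⟩ | ⟨hm, hn⟩
  · refine RTFM.case3 hALT n hn X d ?_
    intro s k t l u r hb
    exact hr s k t l u r (Or.inl (Or.inl ⟨rfl, hb⟩))
  · refine RTFM.case4 hALT n hn X d ?_
    intro s k t l u r hb
    exact hr s k t l u r (Or.inl (Or.inr (Or.inl ⟨rfl, hb⟩)))
  · refine RTFM.case5 hALT m n hm hn X d ?_
    intro s k t l u r hb
    exact hr s k t l u r (Or.inl (Or.inr (Or.inr ⟨hm, hb⟩)))

end BA
end

section
/-!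
# MP_135d84_al, module SYS: the relators of a graph form a relative triangular presentation
-/
set_option autoImplicit false
set_option linter.unusedSectionVars false

namespace BA

namespace SYSM

section comb

variable {V : Type} [LinearOrder V] {M : CoxeterMatrix V} {arr : V → V → Prop}

/-- triangles with a label 2, not ordered -/
structure Tri (M : CoxeterMatrix V) (a b c : V) : Prop where
  ac : M a c = 2
  ab : 2 ≤ M a b
  cb : 2 ≤ M c b

theorem Tri.symm {a b c : V} (h : Tri M a b c) : Tri M c b a :=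
  ⟨by rw [M.symmetric]; exact h.ac, h.cb, h.ab⟩

theorem ne_of_two {a b : V} (h : 2 ≤ M a b) : a ≠ b := by
  rintro rfl
  rw [M.diagonal] at h
  omega

theorem Tri.sink {a b c : V} (G : Good M arr) (h : Tri M a b c) : arr a b ∧ arr c b ∧
    3 ≤ M a b ∧ 3 ≤ M c b ∧ arr a c ∧ arr c a := by
  obtain ⟨h1, h2, h3⟩ := G.sink a b c h.ac h.ab h.cb
  have hab := h.ab
  have hcb := h.cb
  refine ⟨h1, h2, ?_, ?_, G.two _ _ h.ac, G.two _ _ (by rw [M.symmetric]; exact h.ac)⟩
  · by_contra hc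
    have : M a b = 2 := by omega
    rw [this] at h3
    omega
  · by_contra hc
    have : M c b = 2 := by omega
    rw [this] at h3
    omega

/-- vertices of a triangle -/
def VT (a b c v : V) : Prop := v = a ∨ v = b ∨ v = c

theorem Tri.pair {a b c v w : V} (G : Good M arr) (h : Tri M a b c) (hv : VT a b c v) (hw : VT a b c w)
    (hvw : v ≠ w) :
    (M v w = 2 ∧ arr v b ∧ arr w b ∧ ((a = v ∧ c = w) ∨ (a = w ∧ c = v))) ∨
    (3 ≤ M v w ∧ b = w ∧ arr v w ∧ ∃ σ, arr σ v ∧ arr σ w ∧ ((a = v ∧ c = σ) ∨ (a = σ ∧ c = v))) ∨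
    (3 ≤ M v w ∧ b = v ∧ arr w v ∧ ∃ σ, arr σ w ∧ arr σ v ∧ ((a = w ∧ c = σ) ∨ (a = σ ∧ c = w))) := by
  obtain ⟨h1, h2, h3, h4, h5, h6⟩ := h.sink G
  have hac := h.ac
  rcases hv with rfl | rfl | rfl <;> rcases hw with rfl | rfl | rfl
  · exact absurd rfl hvw
  · right; left; exact ⟨h3, rfl, h1, c, h6, h2, Or.inl ⟨rfl, rfl⟩⟩
  · left; exact ⟨hac, h1, h2, Or.inl ⟨rfl, rfl⟩⟩
  · right; right; exact ⟨by rw [M.symmetric]; exact h3, rfl, h1, c, h6, h2, Or.inl ⟨rfl, rfl⟩⟩
  · exact absurd rfl hvw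
  · right; right; exact ⟨by rw [M.symmetric]; exact h4, rfl, h2, a, h5, h1, Or.inr ⟨rfl, rfl⟩⟩
  · left; exact ⟨by rw [M.symmetric]; exact hac, h2, h1, Or.inr ⟨rfl, rfl⟩⟩
  · right; left; exact ⟨h4, rfl, h2, a, h5, h1, Or.inr ⟨rfl, rfl⟩⟩
  · exact absurd rfl hvw

theorem Tri.uniq {a b c a' b' c' v w : V} (G : Good M arr) (h : Tri M a b c) (h' : Tri M a' b' c')
    (hv : VT a b c v) (hw : VT a b c w) (hv' : VT a' b' c' v) (hw' : VT a' b' c' w) (hvw : v ≠ w) :
    b = b' ∧ ((a = a' ∧ c = c') ∨ (a = c' ∧ c = a')) := by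
  rcases h.pair G hv hw hvw with ⟨h1, h2, h3, h4⟩ | ⟨h1, h2, h3, σ, h4, h5, h6⟩ |
      ⟨h1, h2, h3, σ, h4, h5, h6⟩ <;>
    rcases h'.pair G hv' hw' hvw with ⟨k1, k2, k3, k4⟩ | ⟨k1, k2, k3, τ, k4, k5, k6⟩ |
      ⟨k1, k2, k3, τ, k4, k5, k6⟩
  · rcases G.alt v w b b' h2 k2 h3 k3 with h | h
    · exact absurd h hvw
    · refine ⟨h, ?_⟩
      rcases h4 with ⟨rfl, rfl⟩ | ⟨rfl, rfl⟩ <;> rcases k4 with ⟨rfl, rfl⟩ | ⟨rfl, rfl⟩ <;> simp
  · omega
  · omega
  · omega
  · have hst : σ = τ := by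
      rcases G.alt σ τ v w h4 h5 k4 k5 with h | h
      · exact h
      · exact absurd h hvw
    subst hst
    refine ⟨h2.trans k2.symm, ?_⟩
    rcases h6 with ⟨rfl, rfl⟩ | ⟨rfl, rfl⟩ <;> rcases k6 with ⟨rfl, rfl⟩ | ⟨rfl, rfl⟩ <;> simp
  · exact (G.asym v w h1 ⟨h3, k3⟩).elim
  · omega
  · exact (G.asym v w h1 ⟨k3, h3⟩).elim
  · have hst : σ = τ := by
      rcases G.alt σ τ w v h4 h5 k4 k5 with h | h
      · exact h
      · exact absurd h.symm hvw
    subst hst
    refine ⟨h2.trans k2.symm, ?_⟩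
    rcases h6 with ⟨rfl, rfl⟩ | ⟨rfl, rfl⟩ <;> rcases k6 with ⟨rfl, rfl⟩ | ⟨rfl, rfl⟩ <;> simp

theorem isT_tri {a b c : V} (h : IsT M a b c) : Tri M a b c := ⟨h.1, h.2.1, h.2.2.1⟩

theorem tt_uniq (G : Good M arr) (p q : TT M) (v w : V) (hvw : v ≠ w)
    (hv : VT p.1.1 p.1.2.1 p.1.2.2 v) (hw : VT p.1.1 p.1.2.1 p.1.2.2 w)
    (hv' : VT q.1.1 q.1.2.1 q.1.2.2 v) (hw' : VT q.1.1 q.1.2.1 q.1.2.2 w) : p = q := by
  obtain ⟨⟨a, b, c⟩, hp⟩ := p
  obtain ⟨⟨a', b', c'⟩, hq⟩ := q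
  simp only at hp hq hv hw hv' hw'
  obtain ⟨h1, h2⟩ := (isT_tri hp).uniq G (isT_tri hq) hv hw hv' hw' hvw
  subst h1
  rcases h2 with ⟨rfl, rfl⟩ | ⟨rfl, rfl⟩
  · rfl
  · exfalso
    obtain ⟨-, -, -, h3⟩ := hp
    obtain ⟨-, -, -, h4⟩ := hq
    rcases h3 with h3 | ⟨h3, h3'⟩ <;> rcases h4 with h4 | ⟨h4, h4'⟩
    · omega
    · omega
    · omega
    · exact lt_asymm h3' h4'

/-- the ordered triangle of an unordered one -/
theorem tt_exists {a b c : V} (h : Tri M a b c) :
    ∃ p : TT M, VT p.1.1 p.1.2.1 p.1.2.2 a ∧ VT p.1.1 p.1.2.1 p.1.2.2 b ∧ VT p.1.1 p.1.2.1 p.1.2.2 c := by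
  have hac : a ≠ c := ne_of_two (M := M) (by rw [h.ac])
  have hs := h.symm
  rcases lt_trichotomy (M a b) (M c b) with h1 | h1 | h1
  · exact ⟨⟨(a, b, c), h.ac, h.ab, h.cb, Or.inl h1⟩, by simp [VT]⟩
  · rcases lt_or_gt_of_ne hac with h2 | h2
    · exact ⟨⟨(a, b, c), h.ac, h.ab, h.cb, Or.inr ⟨h1, h2⟩⟩, by simp [VT]⟩
    · exact ⟨⟨(c, b, a), hs.ac, hs.ab, hs.cb, Or.inr ⟨h1.symm, h2⟩⟩, by simp [VT]⟩
  · exact ⟨⟨(c, b, a), hs.ac, hs.ab, hs.cb, Or.inl h1⟩, by simp [VT]⟩

theorem tt_exists' {x y z : V} (hxy : 2 ≤ M x y) (hyz : 2 ≤ M y z) (hxz : 2 ≤ M x z)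
    (h2 : M x y = 2 ∨ M y z = 2 ∨ M x z = 2) :
    ∃ p : TT M, VT p.1.1 p.1.2.1 p.1.2.2 x ∧ VT p.1.1 p.1.2.1 p.1.2.2 y ∧ VT p.1.1 p.1.2.1 p.1.2.2 z := by
  have s1 := M.symmetric x y
  have s2 := M.symmetric y z
  have s3 := M.symmetric x z
  rcases h2 with h | h | h
  · obtain ⟨p, h1, h2, h3⟩ := tt_exists (M := M) (a := x) (b := z) (c := y) ⟨h, hxz, hyz⟩
    exact ⟨p, h1, h3, h2⟩
  · obtain ⟨p, h1, h2, h3⟩ := tt_exists (M := M) (a := y) (b := x) (c := z)
      ⟨h, by rw [M.symmetric]; exact hxy, by rw [M.symmetric]; exact hxz⟩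
    exact ⟨p, h2, h1, h3⟩
  · obtain ⟨p, h1, h2, h3⟩ := tt_exists (M := M) (a := x) (b := y) (c := z)
      ⟨h, hxy, by rw [M.symmetric]; exact hyz⟩
    exact ⟨p, h1, h2, h3⟩

theorem okt (G : Good M arr) (p : TT M) : OKT (M p.1.1 p.1.2.1) (M p.1.2.2 p.1.2.1) := by
  obtain ⟨⟨a, b, c⟩, hp⟩ := p
  simp only at hp ⊢
  obtain ⟨h1, h2, h3, h4⟩ := hp
  obtain ⟨-, -, h5⟩ := G.sink a b c h1 h2 h3
  have h6 : M a b ≤ M c b := by rcases h4 with h | h <;> omega
  have h7 : 3 ≤ M a b := by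
    by_contra hc
    have : M a b = 2 := by omega
    rw [this] at h5
    omega
  unfold OKT
  generalize M a b = m at *
  generalize M c b = n at *
  by_cases e3 : m = 3
  · subst e3; omega
  · by_cases e4 : m = 4
    · subst e4; omega
    · omega

end comb

section fam

variable {V : Type} [LinearOrder V] {M : CoxeterMatrix V} {arr : V → V → Prop}

abbrev mT (p : TT M) : ℕ := M p.1.1 p.1.2.1
abbrev nT (p : TT M) : ℕ := M p.1.2.2 p.1.2.1
abbrev mE (p : EE M arr) : ℕ := M p.1.1 p.1.2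

theorem tt_tri (p : TT M) : Tri M p.1.1 p.1.2.1 p.1.2.2 := isT_tri p.2

theorem tt_ne (p : TT M) : p.1.1 ≠ p.1.2.1 ∧ p.1.2.2 ≠ p.1.2.1 ∧ p.1.1 ≠ p.1.2.2 :=
  ⟨ne_of_two (tt_tri p).ab, ne_of_two (tt_tri p).cb, ne_of_two (M := M) (by rw [(tt_tri p).ac])⟩

theorem ee_ge (G : Good M arr) (p : EE M arr) : 2 ≤ M p.1.1 p.1.2 := G.adj _ _ p.2.1

theorem ee_ne (G : Good M arr) (p : EE M arr) : p.1.1 ≠ p.1.2 := ne_of_two (ee_ge G p)

/-- the code of a symbol is unique -/
theorem repT_code {p : TT M} {z z' : ℤ} {x : Sym M arr} (h : RepT M arr p z x) (h' : RepT M arr p z' x) :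
    z = z' := by
  obtain ⟨n1, n2, n3⟩ := tt_ne p
  cases h with
  | a => 
    generalize hx : Sym.gen (M := M) (arr := arr) p.1.1 = x at h'
    cases h' with
    | a => rfl
    | b => exact absurd (Sym.gen.inj hx) n1
    | c => exact absurd (Sym.gen.inj hx) n3
    | x z h => cases hx
  | b =>
    generalize hx : Sym.gen (M := M) (arr := arr) p.1.2.1 = x at h'
    cases h' with
    | a => exact absurd (Sym.gen.inj hx).symm n1
    | b => rfl
    | c => exact absurd (Sym.gen.inj hx).symm n2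
    | x z h => cases hx
  | c =>
    generalize hx : Sym.gen (M := M) (arr := arr) p.1.2.2 = x at h'
    cases h' with
    | a => exact absurd (Sym.gen.inj hx).symm n3
    | b => exact absurd (Sym.gen.inj hx) n2
    | c => rfl
    | x z h => cases hx
  | x z h =>
    cases h' with
    | x z h => rfl

theorem ct_ne {m n : ℕ} {z : ℤ} (h : CT m n z) : z ≠ 1 ∧ z ≠ 2 ∧ z ≠ -1 := by
  rcases h with h | h <;> refine ⟨?_, ?_, ?_⟩ <;> omega

theorem ce_ne {m : ℕ} {z : ℤ} (h : CE m z) : z ≠ 1 ∧ z ≠ 2 := by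
  rcases h with h | h <;> refine ⟨?_, ?_⟩ <;> omega

/-- the symbol of a code is unique -/
theorem repT_sym {p : TT M} {z : ℤ} {x x' : Sym M arr} (h : RepT M arr p z x) (h' : RepT M arr p z x') :
    x = x' := by
  generalize hz : z = w at h'
  cases h with
  | a => cases h' with
    | a => rfl
    | b => omega
    | c => omega
    | x z h => exact absurd hz.symm (ct_ne h).1
  | b => cases h' with
    | a => omega
    | b => rfl
    | c => omega
    | x z h => exact absurd hz.symm (ct_ne h).2.1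
  | c => cases h' with
    | a => omega
    | b => omega
    | c => rfl
    | x z h => exact absurd hz.symm (ct_ne h).2.2
  | x z h => cases h' with
    | a => exact absurd hz (ct_ne h).1
    | b => exact absurd hz (ct_ne h).2.1
    | c => exact absurd hz (ct_ne h).2.2
    | x z h => subst hz; rfl

theorem repE_code (G : Good M arr) {p : EE M arr} {z z' : ℤ} {x : Sym M arr} (h : RepE M arr p z x)
    (h' : RepE M arr p z' x) : z = z' := by
  have n1 := ee_ne G p
  cases h with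
  | a => 
    generalize hx : Sym.gen (M := M) (arr := arr) p.1.1 = x at h'
    cases h' with
    | a => rfl
    | b => exact absurd (Sym.gen.inj hx) n1
    | x z h => cases hx
  | b =>
    generalize hx : Sym.gen (M := M) (arr := arr) p.1.2 = x at h'
    cases h' with
    | a => exact absurd (Sym.gen.inj hx).symm n1
    | b => rfl
    | x z h => cases hx
  | x z h =>
    cases h' with
    | x z h => rfl

theorem repE_sym {p : EE M arr} {z : ℤ} {x x' : Sym M arr} (h : RepE M arr p z x) (h' : RepE M arr p z x') :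
    x = x' := by
  generalize hz : z = w at h'
  cases h with
  | a => cases h' with
    | a => rfl
    | b => omega
    | x z h => exact absurd hz.symm (ce_ne h).1
  | b => cases h' with
    | a => omega
    | b => rfl
    | x z h => exact absurd hz.symm (ce_ne h).2
  | x z h => cases h' with
    | a => exact absurd hz (ce_ne h).1
    | b => exact absurd hz (ce_ne h).2
    | x z h => subst hz; rfl

/-- membership -/
def Mem : TT M ⊕ EE M arr → Sym M arr → Prop
  | Sum.inl p, x => ∃ z, RepT M arr p z x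
  | Sum.inr p, x => ∃ z, RepE M arr p z x

/-- relators -/
def TriR : TT M ⊕ EE M arr → Sym M arr → ℤ → Sym M arr → ℤ → Sym M arr → ℤ → Prop
  | Sum.inl p, x, k, y, l, z, r => ∃ s t u, LT (mT p) (nT p) s k t l u r ∧ RepT M arr p s x ∧
      RepT M arr p t y ∧ RepT M arr p u z
  | Sum.inr p, x, k, y, l, z, r => k = 0 ∧ l = 0 ∧ r = 0 ∧ ∃ s t u, LE (mE p) s t u ∧ RepE M arr p s x ∧
      RepE M arr p t y ∧ RepE M arr p u z

/-- the vertices of a piece -/
def VP : TT M ⊕ EE M arr → V → Prop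
  | Sum.inl p, v => VT p.1.1 p.1.2.1 p.1.2.2 v
  | Sum.inr p, v => v = p.1.1 ∨ v = p.1.2

theorem mem_gen {p : TT M ⊕ EE M arr} {v : V} (h : Mem p (Sym.gen v)) : VP p v := by
  rcases p with p | p
  · obtain ⟨z, h⟩ := h
    generalize hx : Sym.gen (M := M) (arr := arr) v = x at h
    cases h with
    | a => exact Or.inl (Sym.gen.inj hx)
    | b => exact Or.inr (Or.inl (Sym.gen.inj hx))
    | c => exact Or.inr (Or.inr (Sym.gen.inj hx))
    | x z h => cases hx
  · obtain ⟨z, h⟩ := h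
    generalize hx : Sym.gen (M := M) (arr := arr) v = x at h
    cases h with
    | a => exact Or.inl (Sym.gen.inj hx)
    | b => exact Or.inr (Sym.gen.inj hx)
    | x z h => cases hx

theorem shared_gen {p q : TT M ⊕ EE M arr} {x : Sym M arr} (hpq : p ≠ q) (h : Mem p x) (h' : Mem q x) :
    ∃ v, x = Sym.gen v := by
  cases x with
  | gen v => exact ⟨v, rfl⟩
  | e r z hz =>
    exfalso
    rcases p with p | p <;> rcases q with q | q <;> obtain ⟨z1, h⟩ := h <;> obtain ⟨z2, h'⟩ := h'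
    · cases h
    · cases h
    · cases h'
    · cases h
      cases h'
      exact hpq rfl
  | t r z hz =>
    exfalso
    rcases p with p | p <;> rcases q with q | q <;> obtain ⟨z1, h⟩ := h <;> obtain ⟨z2, h'⟩ := h'
    · cases h
      cases h'
      exact hpq rfl
    · cases h'
    · cases h
    · cases h

/-- an edge piece is not contained in a triangle piece -/
theorem edge_not_tri (p : TT M) (q : EE M arr) {v w : V} (hvw : v ≠ w)
    (hv : VT p.1.1 p.1.2.1 p.1.2.2 v) (hw : VT p.1.1 p.1.2.1 p.1.2.2 w)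
    (hv' : v = q.1.1 ∨ v = q.1.2) (hw' : w = q.1.1 ∨ w = q.1.2) : False := by
  obtain ⟨⟨a, b, c⟩, hp⟩ := p
  obtain ⟨⟨s, t⟩, hq⟩ := q
  simp only at hp hq hv hw hv' hw'
  have T := isT_tri hp
  have hac := T.ac
  have hab := T.ab
  have hcb := T.cb
  have hca : M c a = 2 := by rw [M.symmetric]; exact hac
  have hba : 2 ≤ M b a := by rw [M.symmetric]; exact hab
  have hbc : 2 ≤ M b c := by rw [M.symmetric]; exact hcb
  obtain ⟨-, -, hn⟩ := hq
  apply hn
  have key : (s = v ∧ t = w) ∨ (s = w ∧ t = v) := by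
    rcases hv' with h | h <;> rcases hw' with h' | h'
    · exact absurd (h.trans h'.symm) hvw
    · exact Or.inl ⟨h.symm, h'.symm⟩
    · exact Or.inr ⟨h'.symm, h.symm⟩
    · exact absurd (h.trans h'.symm) hvw
  have key2 : VT a b c s ∧ VT a b c t ∧ s ≠ t := by
    rcases key with ⟨rfl, rfl⟩ | ⟨rfl, rfl⟩
    · exact ⟨hv, hw, hvw⟩
    · exact ⟨hw, hv, hvw.symm⟩
  obtain ⟨hs, ht, hst⟩ := key2
  rcases hs with rfl | rfl | rfl <;> rcases ht with rfl | rfl | rfl
  · exact absurd rfl hst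
  · exact ⟨c, by omega, by omega, by omega⟩
  · exact ⟨b, by omega, by omega, by omega⟩
  · exact ⟨c, by omega, by omega, by omega⟩
  · exact absurd rfl hst
  · exact ⟨a, by omega, by omega, by omega⟩
  · exact ⟨b, by omega, by omega, by omega⟩
  · exact ⟨a, by omega, by omega, by omega⟩
  · exact absurd rfl hst

theorem two_vertices (G : Good M arr) {p q : TT M ⊕ EE M arr} {v w : V} (hvw : v ≠ w)
    (hv : VP p v) (hw : VP p w) (hv' : VP q v) (hw' : VP q w) : p = q := by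
  rcases p with p | p <;> rcases q with q | q
  · rw [tt_uniq G p q v w hvw hv hw hv' hw']
  · exact (edge_not_tri p q hvw hv hw hv' hw').elim
  · exact (edge_not_tri q p hvw hv' hw' hv hw).elim
  · obtain ⟨⟨a, b⟩, hp⟩ := p
    obtain ⟨⟨s, t⟩, hq⟩ := q
    simp only [VP] at hp hq hv hw hv' hw'
    have key : (a = v ∧ b = w) ∨ (a = w ∧ b = v) := by
      rcases hv with h | h <;> rcases hw with h' | h'
      · exact absurd (h.trans h'.symm) hvw
      · exact Or.inl ⟨h.symm, h'.symm⟩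
      · exact Or.inr ⟨h'.symm, h.symm⟩
      · exact absurd (h.trans h'.symm) hvw
    have key2 : (s = v ∧ t = w) ∨ (s = w ∧ t = v) := by
      rcases hv' with h | h <;> rcases hw' with h' | h'
      · exact absurd (h.trans h'.symm) hvw
      · exact Or.inl ⟨h.symm, h'.symm⟩
      · exact Or.inr ⟨h'.symm, h.symm⟩
      · exact absurd (h.trans h'.symm) hvw
    have key3 : (s = a ∧ t = b) ∨ (s = b ∧ t = a) := by
      rcases key with ⟨rfl, rfl⟩ | ⟨rfl, rfl⟩ <;> rcases key2 with ⟨rfl, rfl⟩ | ⟨rfl, rfl⟩ <;> simp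
    rcases key3 with ⟨rfl, rfl⟩ | ⟨rfl, rfl⟩
    · rfl
    · exfalso
      obtain ⟨h1, h2, -⟩ := hp
      obtain ⟨h3, h4, -⟩ := hq
      have h5 := G.adj _ _ h1
      have hsym := M.symmetric s t
      by_cases h6 : M t s = 2
      · exact lt_asymm (h2 h6) (h4 (hsym.trans h6))
      · exact G.asym t s (by omega) ⟨h1, h3⟩

theorem triR_mem {p : TT M ⊕ EE M arr} {x y z : Sym M arr} {k l r : ℤ} (h : TriR p x k y l z r) :
    Mem p x ∧ Mem p y ∧ Mem p z := by
  rcases p with p | p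
  · obtain ⟨s, t, u, -, h1, h2, h3⟩ := h
    exact ⟨⟨s, h1⟩, ⟨t, h2⟩, ⟨u, h3⟩⟩
  · obtain ⟨-, -, -, s, t, u, -, h1, h2, h3⟩ := h
    exact ⟨⟨s, h1⟩, ⟨t, h2⟩, ⟨u, h3⟩⟩

theorem lt_rot {m n : ℕ} {s k t l u r : ℤ} (h : LT m n s k t l u r) : LT m n t l u r s k := by
  rcases h with h | h | h
  · exact Or.inr (Or.inr h)
  · exact Or.inl h
  · exact Or.inr (Or.inl h)

theorem le_rot {m : ℕ} {s t u : ℤ} (h : LE m s t u) : LE m t u s := by
  rcases h with h | h | h
  · exact Or.inr (Or.inr h)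
  · exact Or.inl h
  · exact Or.inr (Or.inl h)

theorem triR_rot {p : TT M ⊕ EE M arr} {x y z : Sym M arr} {k l r : ℤ} (h : TriR p x k y l z r) :
    TriR p y l z r x k := by
  rcases p with p | p
  · obtain ⟨s, t, u, h0, h1, h2, h3⟩ := h
    exact ⟨t, u, s, lt_rot h0, h2, h3, h1⟩
  · obtain ⟨h4, h5, h6, s, t, u, h0, h1, h2, h3⟩ := h
    exact ⟨h5, h6, h4, t, u, s, le_rot h0, h2, h3, h1⟩

theorem triR_fn (hLF : SpecLF) (G : Good M arr) {p : TT M ⊕ EE M arr} {x y z z' : Sym M arr}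
    {k l r l' r' : ℤ} (h : TriR p x k y l z r) (h' : TriR p x k y l' z' r') :
    l = l' ∧ z = z' ∧ r = r' := by
  rcases p with p | p
  · obtain ⟨s, t, u, h0, h1, h2, h3⟩ := h
    obtain ⟨s', t', u', h0', h1', h2', h3'⟩ := h'
    have e1 := repT_code h1 h1'
    have e2 := repT_code h2 h2'
    subst e1 e2
    obtain ⟨e3, e4, e5⟩ := hLF.1 _ _ (okt G p) _ _ _ _ _ _ _ _ _ h0 h0'
    subst e4
    exact ⟨e3, repT_sym h3 h3', e5⟩
  · obtain ⟨h4, h5, h6, s, t, u, h0, h1, h2, h3⟩ := h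
    obtain ⟨h4', h5', h6', s', t', u', h0', h1', h2', h3'⟩ := h'
    have e1 := repE_code G h1 h1'
    have e2 := repE_code G h2 h2'
    subst e1 e2
    have e4 := hLF.2 _ (ee_ge G p) _ _ _ _ h0 h0'
    subst e4
    exact ⟨by omega, repE_sym h3 h3', by omega⟩

theorem lk22 (h3 : SpecLK3) (h4 : SpecLK4) (h5 : SpecLK5) {m n : ℕ} (hok : OKT m n)
    {s s' t t' k k' j j' : ℤ}
    (a1 : ∃ l u r, LT m n s k t l u r) (a2 : ∃ l u r, LT m n s k' t' l u r)
    (a3 : ∃ l u r, LT m n s' j t l u r) (a4 : ∃ l u r, LT m n s' j' t' l u r)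
    (he : -k + k' = -j + j') : (s = s' ∧ k = j) ∨ (t = t' ∧ k = k') := by
  rcases hok with ⟨rfl, hn⟩ | ⟨rfl, hn⟩ | ⟨hm, hn⟩
  · exact h3 n hn s s' t t' k k' j j' a1 a2 a3 a4 he
  · exact h4 n hn s s' t t' k k' j j' a1 a2 a3 a4 he
  · exact h5 m n hm hn s s' t t' k k' j j' a1 a2 a3 a4 he

theorem triR_k22 (hK3 : SpecLK3) (hK4 : SpecLK4) (hK5 : SpecLK5) (hLX : SpecLX) (G : Good M arr)
    {p : TT M ⊕ EE M arr} {x x' y y' : Sym M arr} {k k' j j' : ℤ}
    (a1 : ∃ l z r, TriR p x k y l z r) (a2 : ∃ l z r, TriR p x k' y' l z r)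
    (a3 : ∃ l z r, TriR p x' j y l z r) (a4 : ∃ l z r, TriR p x' j' y' l z r)
    (he : -k + k' = -j + j') : (x = x' ∧ k = j) ∨ (y = y' ∧ k = k') := by
  obtain ⟨l1, z1, r1, a1⟩ := a1
  obtain ⟨l2, z2, r2, a2⟩ := a2
  obtain ⟨l3, z3, r3, a3⟩ := a3
  obtain ⟨l4, z4, r4, a4⟩ := a4
  rcases p with p | p
  · obtain ⟨s1, t1, u1, b1, c1, d1, e1⟩ := a1
    obtain ⟨s2, t2, u2, b2, c2, d2, e2⟩ := a2
    obtain ⟨s3, t3, u3, b3, c3, d3, e3⟩ := a3
    obtain ⟨s4, t4, u4, b4, c4, d4, e4⟩ := a4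
    have q1 := repT_code c1 c2
    have q2 := repT_code c3 c4
    have q3 := repT_code d1 d3
    have q4 := repT_code d2 d4
    subst q1 q2 q3 q4
    rcases lk22 hK3 hK4 hK5 (okt G p) ⟨_, _, _, b1⟩ ⟨_, _, _, b2⟩ ⟨_, _, _, b3⟩ ⟨_, _, _, b4⟩ he with
      ⟨h1, h2⟩ | ⟨h1, h2⟩
    · subst h1; exact Or.inl ⟨repT_sym c1 c3, h2⟩
    · subst h1; exact Or.inr ⟨repT_sym d1 d2, h2⟩
  · obtain ⟨f1, f2, f3, s1, t1, u1, b1, c1, d1, e1⟩ := a1
    obtain ⟨f4, f5, f6, s2, t2, u2, b2, c2, d2, e2⟩ := a2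
    obtain ⟨f7, f8, f9, s3, t3, u3, b3, c3, d3, e3⟩ := a3
    obtain ⟨g1, g2, g3, s4, t4, u4, b4, c4, d4, e4⟩ := a4
    have q1 := repE_code G c1 c2
    have q2 := repE_code G c3 c4
    have q3 := repE_code G d1 d3
    have q4 := repE_code G d2 d4
    subst q1 q2 q3 q4
    rcases hLX.1 _ (ee_ge G p) _ _ _ _ ⟨_, b1⟩ ⟨_, b2⟩ ⟨_, b3⟩ ⟨_, b4⟩ with h1 | h1
    · subst h1; exact Or.inl ⟨repE_sym c1 c3, by omega⟩
    · subst h1; exact Or.inr ⟨repE_sym d1 d2, by omega⟩

theorem repT_gen {p : TT M} {z : ℤ} {v : V} (h : RepT M arr p z (Sym.gen v)) :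
    (z = 1 ∧ v = p.1.1) ∨ (z = 2 ∧ v = p.1.2.1) ∨ (z = -1 ∧ v = p.1.2.2) := by
  generalize hx : Sym.gen (M := M) (arr := arr) v = x at h
  cases h with
  | a => exact Or.inl ⟨rfl, Sym.gen.inj hx⟩
  | b => exact Or.inr (Or.inl ⟨rfl, Sym.gen.inj hx⟩)
  | c => exact Or.inr (Or.inr ⟨rfl, Sym.gen.inj hx⟩)
  | x z h => cases hx

theorem repE_gen {p : EE M arr} {z : ℤ} {v : V} (h : RepE M arr p z (Sym.gen v)) :
    (z = 1 ∧ v = p.1.1) ∨ (z = 2 ∧ v = p.1.2) := by
  generalize hx : Sym.gen (M := M) (arr := arr) v = x at h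
  cases h with
  | a => exact Or.inl ⟨rfl, Sym.gen.inj hx⟩
  | b => exact Or.inr ⟨rfl, Sym.gen.inj hx⟩
  | x z h => cases hx

/-- relations between generators with exponent 0 are arrows -/
theorem triR_arr (hLX : SpecLX) (G : Good M arr) {p : TT M ⊕ EE M arr} {v w : V} {z : Sym M arr} {l r : ℤ}
    (h : TriR p (Sym.gen v) 0 (Sym.gen w) l z r) : arr v w := by
  rcases p with p | p
  · obtain ⟨s, t, u, h0, h1, h2, h3⟩ := h
    have T := (tt_tri p).sink G
    obtain ⟨t1, t2, t3, t4, t5, t6⟩ := T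
    obtain ⟨-, -, h4⟩ := hLX.2.2.1 _ _ (okt G p) _ _ _ _ _ _ h0
    have g1 := repT_gen h1
    have g2 := repT_gen h2
    have h5 := h4 rfl (by omega) (by omega)
    rcases h5 with ⟨e1, e2⟩ | ⟨e1, e2⟩ | ⟨e1, e2⟩ | ⟨e1, e2⟩ <;> subst e1 e2
    · rcases g1 with ⟨-, rfl⟩ | ⟨h, -⟩ | ⟨h, -⟩ <;> [skip; omega; omega]
      rcases g2 with ⟨h, -⟩ | ⟨h, -⟩ | ⟨-, rfl⟩ <;> [omega; omega; skip]
      exact t5
    · rcases g1 with ⟨h, -⟩ | ⟨h, -⟩ | ⟨-, rfl⟩ <;> [omega; omega; skip]
      rcases g2 with ⟨-, rfl⟩ | ⟨h, -⟩ | ⟨h, -⟩ <;> [skip; omega; omega]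
      exact t6
    · rcases g1 with ⟨-, rfl⟩ | ⟨h, -⟩ | ⟨h, -⟩ <;> [skip; omega; omega]
      rcases g2 with ⟨h, -⟩ | ⟨-, rfl⟩ | ⟨h, -⟩ <;> [omega; skip; omega]
      exact t1
    · rcases g1 with ⟨h, -⟩ | ⟨h, -⟩ | ⟨-, rfl⟩ <;> [omega; omega; skip]
      rcases g2 with ⟨h, -⟩ | ⟨-, rfl⟩ | ⟨h, -⟩ <;> [omega; skip; omega]
      exact t2
  · obtain ⟨-, -, -, s, t, u, h0, h1, h2, h3⟩ := h
    obtain ⟨-, h5, h6⟩ := hLX.2.1 _ (ee_ge G p) _ _ _ h0
    rcases repE_gen h1 with ⟨rfl, rfl⟩ | ⟨rfl, rfl⟩ <;> rcases repE_gen h2 with ⟨rfl, rfl⟩ | ⟨rfl, rfl⟩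
    · exact absurd rfl h5
    · exact p.2.1
    · apply G.two
      rw [M.symmetric]
      exact h6 rfl rfl
    · exact absurd rfl h5

theorem triR_self (hLX : SpecLX) (G : Good M arr) {p : TT M ⊕ EE M arr} {v : V} {z : Sym M arr} {k l r : ℤ}
    (h : TriR p (Sym.gen v) k (Sym.gen v) l z r) : k = 1 ∨ k = -2 := by
  rcases p with p | p
  · obtain ⟨s, t, u, h0, h1, h2, h3⟩ := h
    obtain ⟨-, h4, -⟩ := hLX.2.2.1 _ _ (okt G p) _ _ _ _ _ _ h0
    have e := repT_code h1 h2
    have g1 := repT_gen h1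
    exact (h4 e (by omega)).2
  · exfalso
    obtain ⟨-, -, -, s, t, u, h0, h1, h2, h3⟩ := h
    obtain ⟨-, h5, h6⟩ := hLX.2.1 _ (ee_ge G p) _ _ _ h0
    exact h5 (repE_code G h1 h2)

/-- a piece contains only adjacent vertices -/
theorem adj_of_mem (G : Good M arr) {p : TT M ⊕ EE M arr} {v w : V} (hvw : v ≠ w) (hv : VP p v) (hw : VP p w) :
    2 ≤ M v w := by
  rcases p with p | p
  · rcases (tt_tri p).pair G hv hw hvw with h | h | h
    · omega
    · omega
    · omega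
  · have h2 := ee_ge G p
    rcases hv with h | h <;> rcases hw with h' | h'
    · exact absurd (h.trans h'.symm) hvw
    · rw [h, h']; exact h2
    · rw [h, h', M.symmetric]; exact h2
    · exact absurd (h.trans h'.symm) hvw

/-- three pieces around a triangle: there is no label 2 -/
theorem no_two (G : Good M arr) {p q r : TT M ⊕ EE M arr} {x y z : V} (hpq : p ≠ q)
    (hxy : x ≠ y) (hyz : y ≠ z) (hxz : x ≠ z) (px : VP p x) (py : VP p y) (qy : VP q y) (qz : VP q z)
    (rx : VP r x) (rz : VP r z) : 3 ≤ M x y ∧ 3 ≤ M y z ∧ 3 ≤ M x z := by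
  have h1 := adj_of_mem G hxy px py
  have h2 := adj_of_mem G hyz qy qz
  have h3 := adj_of_mem G hxz rx rz
  by_contra hc
  obtain ⟨t, tx, ty, tz⟩ := tt_exists' (M := M) h1 h2 h3 (by omega)
  have e1 : p = Sum.inl t := two_vertices G hxy px py tx ty
  have e2 : q = Sum.inl t := two_vertices G hyz qy qz ty tz
  exact hpq (e1.trans e2.symm)

open Classical in
/-- the family of pieces -/
noncomputable def fam (hLF : SpecLF) (hK3 : SpecLK3) (hK4 : SpecLK4) (hK5 : SpecLK5) (hLX : SpecLX)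
    (G : Good M arr) : Fam (TT M ⊕ EE M arr) (Sym M arr) (FreeGroup (TT M)) where
  gen x := ∃ v, x = Sym.gen v
  mem := Mem
  tri := TriR
  phi p := match p with
    | Sum.inl p => FreeGroup.of p
    | Sum.inr _ => 1
  ex p := match p with
    | Sum.inl p => FreeGroup.lift (fun q => if q = p then Multiplicative.ofAdd (1 : ℤ) else 1)
    | Sum.inr _ => 1
  ex_ne p q hpq := by
    rcases p with p | p <;> rcases q with q | q
    · have : ¬ q = p := fun h => hpq (by rw [h])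
      simp [this]
    · simp
    · simp
    · simp
  ex_eq p := by
    rcases p with p | p
    · right; simp
    · left
      intro x k y l z r h
      exact h.1
  memD p x k y l z r h := ⟨(triR_mem h).1, (triR_mem h).2.1⟩
  rot p x k y l z r h := triR_rot h
  fn p x k y l z r l' z' r' h h' := triR_fn hLF G h h'
  k22 p x x' y y' k k' j j' h1 h2 h3 h4 he := triR_k22 hK3 hK4 hK5 hLX G h1 h2 h3 h4 he
  sh1 p q x hpq h h' := shared_gen hpq h h'
  sh2 p q x y hpq px qx py qy := by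
    obtain ⟨v, rfl⟩ := shared_gen hpq px qx
    obtain ⟨w, rfl⟩ := shared_gen hpq py qy
    by_contra hc
    exact hpq (two_vertices G (fun h => hc (by rw [h])) (mem_gen px) (mem_gen py) (mem_gen qx) (mem_gen qy))
  self0 p x l z r hx h := by
    obtain ⟨v, rfl⟩ := hx
    rcases triR_self hLX G h with h | h <;> omega
  selfk p q x k j hx h h' := by
    obtain ⟨v, rfl⟩ := hx
    obtain ⟨_, _, _, h⟩ := h
    obtain ⟨_, _, _, h'⟩ := h'
    rcases triR_self hLX G h with h | h <;> rcases triR_self hLX G h' with h' | h' <;> omega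
  tria p q r x y z hpq hqr hpr gx gy gz px py hxy hq hr := by
    obtain ⟨x, rfl⟩ := gx
    obtain ⟨y, rfl⟩ := gy
    obtain ⟨z, rfl⟩ := gz
    obtain ⟨_, _, _, hq⟩ := hq
    obtain ⟨_, _, _, hr⟩ := hr
    have a1 := triR_arr hLX G hq
    have a2 := triR_arr hLX G hr
    have nxy : x ≠ y := fun h => hxy (by rw [h])
    have nyz : y ≠ z := (ne_of_two (G.adj _ _ a1)).symm
    have nxz : x ≠ z := (ne_of_two (G.adj _ _ a2)).symm
    obtain ⟨h1, h2, h3⟩ := no_two G hpq nxy nyz nxz (mem_gen px) (mem_gen py)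
      (mem_gen (triR_mem hq).2.1) (mem_gen (triR_mem hq).1) (mem_gen (triR_mem hr).2.1)
      (mem_gen (triR_mem hr).1)
    have h1' : 3 ≤ M y x := by rw [M.symmetric]; exact h1
    have h2' : 3 ≤ M z y := by rw [M.symmetric]; exact h2
    have h3' : 3 ≤ M z x := by rw [M.symmetric]; exact h3
    exact G.asym x y h1 ⟨G.cyc z x y h3' h1 h2 a2, G.cyc z y x h2' h1' h3 a1⟩
  trib p q r x y z hpq hqr hpr gx gy gz px py hxy hq hr := by
    obtain ⟨x, rfl⟩ := gx
    obtain ⟨y, rfl⟩ := gy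
    obtain ⟨z, rfl⟩ := gz
    obtain ⟨_, _, _, hq⟩ := hq
    obtain ⟨_, _, _, hr⟩ := hr
    have a1 := triR_arr hLX G hq
    have a2 := triR_arr hLX G hr
    have nxy : x ≠ y := fun h => hxy (by rw [h])
    have nyz : y ≠ z := ne_of_two (G.adj _ _ a1)
    have nxz : x ≠ z := ne_of_two (G.adj _ _ a2)
    obtain ⟨h1, h2, h3⟩ := no_two G hpq nxy nyz nxz (mem_gen px) (mem_gen py)
      (mem_gen (triR_mem hq).1) (mem_gen (triR_mem hq).2.1) (mem_gen (triR_mem hr).1)
      (mem_gen (triR_mem hr).2.1)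
    have h3' : 3 ≤ M z x := by rw [M.symmetric]; exact h3
    exact G.asym x z h3 ⟨a2, G.cyc y z x h2 h3' h1 a1⟩
  four p11 p12 p21 p22 x x' y y' gx gx' gy gy' h11 h12 h21 h22 := by
    obtain ⟨x, rfl⟩ := gx
    obtain ⟨x', rfl⟩ := gx'
    obtain ⟨y, rfl⟩ := gy
    obtain ⟨y', rfl⟩ := gy'
    obtain ⟨_, _, _, h11⟩ := h11
    obtain ⟨_, _, _, h12⟩ := h12
    obtain ⟨_, _, _, h21⟩ := h21
    obtain ⟨_, _, _, h22⟩ := h22
    rcases G.alt x x' y y' (triR_arr hLX G h11) (triR_arr hLX G h12) (triR_arr hLX G h21)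
      (triR_arr hLX G h22) with h | h
    · left; rw [h]
    · right; rw [h]

theorem utri_iff (hLF : SpecLF) (hK3 : SpecLK3) (hK4 : SpecLK4) (hK5 : SpecLK5) (hLX : SpecLX)
    (G : Good M arr) (x y z : Sym M arr) (f g h : FreeGroup (TT M)) :
    UTri M arr x f y g z h ↔ (fam hLF hK3 hK4 hK5 hLX G).UT x f y g z h := by
  constructor
  · intro hU
    cases hU with
    | t p s k t l u r x y z h hx hy hz =>
      exact ⟨Sum.inl p, k, l, r, ⟨s, t, u, h, hx, hy, hz⟩, rfl, rfl, rfl⟩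
    | e p s t u x y z h hx hy hz =>
      exact ⟨Sum.inr p, 0, 0, 0, ⟨rfl, rfl, rfl, s, t, u, h, hx, hy, hz⟩, by simp, by simp, by simp⟩
  · rintro ⟨p, k, l, r, ht, rfl, rfl, rfl⟩
    rcases p with p | p
    · obtain ⟨s, t, u, h, hx, hy, hz⟩ := ht
      exact UTri.t p s k t l u r x y z h hx hy hz
    · obtain ⟨rfl, rfl, rfl, s, t, u, h, hx, hy, hz⟩ := ht
      simp only [zpow_zero]
      exact UTri.e p s t u x y z h hx hy hz

open Classical in
/-- the symbol of a code -/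
noncomputable def symT (p : TT M) (z : ℤ) : Sym M arr :=
  if h : ∃ x : Sym M arr, RepT M arr p z x then h.choose else Sym.gen p.1.1

open Classical in
/-- the symbol of a code -/
noncomputable def symE (p : EE M arr) (z : ℤ) : Sym M arr :=
  if h : ∃ x : Sym M arr, RepE M arr p z x then h.choose else Sym.gen p.1.1

theorem symT_eq {p : TT M} {z : ℤ} {x : Sym M arr} (h : RepT M arr p z x) : symT p z = x := by
  have h' : ∃ x : Sym M arr, RepT M arr p z x := ⟨x, h⟩
  unfold symT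
  rw [dif_pos h']
  exact repT_sym h'.choose_spec h

theorem symE_eq {p : EE M arr} {z : ℤ} {x : Sym M arr} (h : RepE M arr p z x) : symE p z = x := by
  have h' : ∃ x : Sym M arr, RepE M arr p z x := ⟨x, h⟩
  unfold symE
  rw [dif_pos h']
  exact repE_sym h'.choose_spec h

theorem utri_fin [Fintype V] (hLX : SpecLX) (G : Good M arr) :
    {p : Sym M arr × FreeGroup (TT M) × Sym M arr |
      ∃ a u b, UTri M arr p.1 p.2.1 p.2.2 a u b}.Finite := by
  have h1 : Finite (TT M) := by unfold TT; infer_instance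
  have h2 : Finite (EE M arr) := by unfold EE; infer_instance
  have h3 : (⋃ p : TT M, (fun q : ℤ × ℤ × ℤ => ((symT p q.1 : Sym M arr), (FreeGroup.of p) ^ q.2.1,
      (symT p q.2.2 : Sym M arr))) '' {q : ℤ × ℤ × ℤ | ∃ l u r, LT (mT p) (nT p) q.1 q.2.1 q.2.2 l u r}).Finite :=
    Set.finite_iUnion (fun p => (hLX.2.2.2.1 _ _ (okt G p)).image _)
  have h4 : (⋃ p : EE M arr, (fun q : ℤ × ℤ => ((symE p q.1 : Sym M arr), (1 : FreeGroup (TT M)),
      (symE p q.2 : Sym M arr))) '' {q : ℤ × ℤ | ∃ u, LE (mE p) q.1 q.2 u}).Finite :=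
    Set.finite_iUnion (fun p => (hLX.2.2.2.2 _).image _)
  refine (h3.union h4).subset ?_
  rintro ⟨x, f, y⟩ ⟨a, u, b, hU⟩
  simp only at hU
  cases hU with
  | t p s k t l u r x y z h hx hy hz =>
    left
    refine Set.mem_iUnion.mpr ⟨p, ⟨(s, k, t), ⟨l, u, r, h⟩, ?_⟩⟩
    simp only [symT_eq hx, symT_eq hy]
  | e p s t u x y z h hx hy hz =>
    right
    refine Set.mem_iUnion.mpr ⟨p, ⟨(s, t), ⟨u, h⟩, ?_⟩⟩
    simp only [symE_eq hx, symE_eq hy]

end fam

end SYSM

open SYSM in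
theorem specSYS (hLF : SpecLF) (hK3 : SpecLK3) (hK4 : SpecLK4) (hK5 : SpecLK5) (hLX : SpecLX)
    (hGL : SpecGL) : SpecSYS := by
  intro V _ _ M arr G
  obtain ⟨g1, g2⟩ := hGL (fam hLF hK3 hK4 hK5 hLX G)
  have key := utri_iff hLF hK3 hK4 hK5 hLX G
  refine ⟨{ tri := UTri M arr
            rot := ?_
            fn := ?_
            k22 := ?_
            fin := ?_ }, rfl⟩
  · intro s f t a u b h
    rw [key] at h ⊢
    obtain ⟨p, k, l, r, ht, h1, h2, h3⟩ := h
    exact ⟨p, l, r, k, triR_rot ht, h2, h3, h1⟩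
  · intro s f t a u b a' u' b' h h'
    rw [key] at h h'
    exact g1 _ _ _ _ _ _ _ _ _ h h'
  · intro s s' t t' f f' g g' h1 h2 h3 h4 he
    simp only [key] at h1 h2 h3 h4
    exact g2 _ _ _ _ _ _ _ _ h1 h2 h3 h4 he
  · exact utri_fin hLX G

end BA
end

section
/-!
# MP_135d84_al: all modules together
-/
set_option autoImplicit false

namespace BA.All

theorem hOPV : SpecOPV := specOPV
theorem hDOM : SpecDOM := specDOM
theorem hE2 : SpecE2 := specE2
theorem hE1 : SpecE1 := specE1 hE2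
theorem hNF : SpecNF := specNF hOPV hDOM hE2 hE1
theorem hRV : SpecRV := specRV
theorem hRN : SpecRN := specRN
theorem hLS : SpecLS := specLS
theorem hRS : SpecRS := specRS
theorem hKC : SpecKC := specKC
theorem hDFA : SpecDFA := specDFA
theorem hINJ : SpecINJ := specINJ hNF
theorem hVE : SpecVE := specVE
theorem hWB : SpecWB := specWB
theorem hCC : SpecCC := specCC
theorem hCS : SpecCS := specCS
theorem hWU : SpecWU := specWU hVE
theorem hWF : SpecWF := specWF
theorem hWL : SpecWL := specWL hLS hOPV hVE hWB hCC hCS hWU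
theorem hWR : SpecWR := specWR hRS hVE hWB hCC hCS hWF
theorem hFT : SpecFT := specFT hKC hNF hDOM hOPV hRV hRN hWL hWR
theorem hBI : SpecBI := specBI hNF hFT hDFA hINJ hVE

theorem hLF : SpecLF := specLF
theorem hLK3 : SpecLK3 := specLK3
theorem hLK4 : SpecLK4 := specLK4
theorem hLK5 : SpecLK5 := specLK5
theorem hLX : SpecLX := specLX
theorem hALT : SpecALT := specALT
theorem hRTF : SpecRTF := specRTF hALT
theorem hRTC : SpecRTC := specRTC hALT
theorem hREF : SpecREF := specREF hALT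
theorem hGL : SpecGL := specGL
theorem hSYS : SpecSYS := specSYS hLF hLK3 hLK4 hLK5 hLX hGL
theorem hFIN : SpecFIN := specFIN
theorem hMOD : SpecMOD := specMOD hRTF hRTC hREF hLX
theorem hC4 : SpecC4 := specC4

/-- MAIN THEOREM: Artin groups of graphs with a good orientation are biautomatic -/
theorem good_biautomatic {V : Type} [Finite V] (M : CoxeterMatrix V) (arr : V → V → Prop)
    (h : Good M arr) : Biautomatic (ArtinGroup M) :=
  BA.good_biautomatic hFIN hSYS hMOD hBI M arr h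

/-- graphs without 4-cycles -/
theorem c4free_biautomatic {V : Type} [Finite V] (M : CoxeterMatrix V)
    (h1 : ∀ a b u v, a ≠ b → u ≠ v → 2 ≤ M a u → 2 ≤ M a v → 2 ≤ M b u → 2 ≤ M b v → False)
    (h2 : ∀ a b c, M a c = 2 → 2 ≤ M a b → 2 ≤ M c b → 2 * (M a b + M c b) < M a b * M c b) :
    Biautomatic (ArtinGroup M) :=
  BA.c4free_biautomatic hFIN hSYS hMOD hBI hC4 M h1 h2

end BA.All
end
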