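import Mathlib

/-!
# MP_135d84_al: biautomaticity of two-dimensional Artin groups. Base file (definitions + equation lemmas)

* `Biautomatic G`: the definition of the problem file.
* `TSys F E`: relative oriented triangular presentation over a group `F`: relators `s f t a u b = 1` with
  `s t u : E`, `f a b : F`, closed under rotation, functional, link without 4-cycles (`k22`), finite.
* `Sg E = E × Bool`: signed symbols, `(s,true)` = `s` (rank 1), `(s,false)` = `s⁻¹` (rank 2).
* `St F E`: states `([(f_0,s_1),(f_1,s_2),...,(f_{r-1},s_r)], g)` = the product `f_0 s_1 f_1 s_2 ... s_r g`.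
* `Keep s f t`: the pair `s f t` is left weighted. `Normal l`: all consecutive pairs are.
* `opS s st`: normal form of `s * st`; `lf f st`: of `f * st`. Use ONLY the equation lemmas `opS_*`.
* `rr`, `rm`: right multiplication, on REVERSED lists (last factor first).
* `Let`, `encB`, `enc`: words.
-/

set_option autoImplicit false

namespace BA

/-! ## Biautomatic groups -/

/-- letters: the elements of `X ∪ X⁻¹` -/
abbrev Letter {G : Type*} [Group G] (X : Finset G) : Type _ := {g : G // g ∈ X ∨ g⁻¹ ∈ X}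

/-- the element represented by a word -/
def wval {G : Type*} [Group G] {X : Finset G} (w : List (Letter X)) : G := (w.map Subtype.val).prod

/-- `g` and `h` are at distance at most `k` in the Cayley graph with respect to `X` -/
def Near {G : Type*} [Group G] (X : Finset G) (k : ℕ) (g h : G) : Prop :=
  ∃ u : List (Letter X), u.length ≤ k ∧ g * wval u = h

/-- biautomatic group, as in the problem file -/
def Biautomatic (G : Type*) [Group G] : Prop :=
  ∃ (X : Finset G) (L : Language (Letter X)) (k : ℕ),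
    Subgroup.closure (X : Set G) = ⊤ ∧ L.IsRegular ∧ (∀ g : G, ∃ w ∈ L, wval w = g) ∧
    ∀ w ∈ L, ∀ w' ∈ L, ∀ x y : G, (x = 1 ∨ x ∈ X ∨ x⁻¹ ∈ X) → (y = 1 ∨ y ∈ X ∨ y⁻¹ ∈ X) →
      wval w' = x * wval w * y → ∀ t : ℕ, Near X k (x * wval (w.take t)) (wval (w'.take t))

/-! ## Relative oriented triangular presentations -/

structure TSys (F E : Type) [Group F] where
  tri : E → F → E → F → E → F → Prop
  rot : ∀ {s f t a u b}, tri s f t a u b → tri t a u b s f
  fn : ∀ {s f t a u b a' u' b'}, tri s f t a u b → tri s f t a' u' b' → a = a' ∧ u = u' ∧ b = b'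
  k22 : ∀ {s s' t t' : E} {f f' g g' : F},
    (∃ a u b, tri s f t a u b) → (∃ a u b, tri s f' t' a u b) →
    (∃ a u b, tri s' g t a u b) → (∃ a u b, tri s' g' t' a u b) →
    f⁻¹ * f' = g⁻¹ * g' → (s = s' ∧ f = g) ∨ (t = t' ∧ f = f')
  fin : {p : E × F × E | ∃ a u b, tri p.1 p.2.1 p.2.2 a u b}.Finite

/-- signed symbols -/
abbrev Sg (E : Type) : Type := E × Bool

/-- states -/
abbrev St (F E : Type) : Type := List (F × Sg E) × F

section defs

variable {F E : Type} [Group F]

/-- `s f t` occurs in a relator -/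
def TSys.D (S : TSys F E) (s : E) (f : F) (t : E) : Prop := ∃ a u b, S.tri s f t a u b

/-- left weighted pairs -/
def TSys.Keep (S : TSys F E) : Sg E → F → Sg E → Prop
  | (s, true), f, (t, true) => ¬ S.D s f t
  | (s, true), f, (t, false) => ¬ (s = t ∧ f = 1) ∧ ¬ ∃ h r, S.D s h r ∧ S.D t (f⁻¹ * h) r
  | (s, false), f, (t, true) => ¬ (s = t ∧ f = 1)
  | (s, false), f, (t, false) => ¬ S.D t f⁻¹ s

/-- normal lists: all consecutive pairs are left weighted -/
def TSys.Normal (S : TSys F E) (l : List (F × Sg E)) : Prop :=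
  l.IsChain (fun x y => S.Keep x.2 y.1 y.2)

/-- left multiplication by `f : F` -/
def lf (f : F) : St F E → St F E
  | ([], g) => ([], f * g)
  | ((f0, s) :: l, g) => ((f * f0, s) :: l, g)

/-- put a factor in front -/
def scons (x : F × Sg E) (st : St F E) : St F E := (x :: st.1, st.2)

open Classical in
/-- the completion of `s f t` to a relator -/
noncomputable def TSys.nxt (S : TSys F E) (s : E) (f : F) (t : E) : Option (F × E × F) :=
  if h : ∃ p : F × E × F, S.tri s f t p.1 p.2.1 p.2.2 then some h.choose else none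

open Classical in
/-- a common atom of the complement of `s` and of `f t⁻¹` -/
noncomputable def TSys.com (S : TSys F E) (s : E) (f : F) (t : E) : Option (F × E) :=
  if h : ∃ p : F × E, S.D s p.1 p.2 ∧ S.D t (f⁻¹ * p.1) p.2 then some h.choose else none

open Classical in
/-- `lam S s b l g` = normal form of `s * b * (l, g)` -/
noncomputable def TSys.lam (S : TSys F E) : Sg E → F → List (F × Sg E) → F → St F E
  | s, b, [], g => ([(1, s)], b * g)
  | (s, true), b, (f, (t, true)) :: l, g =>
      match S.nxt s (b * f) t with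
      | some (a, u, c) => scons (c⁻¹, (u, false)) (lf a⁻¹ (l, g))
      | none => ((1, (s, true)) :: (b * f, (t, true)) :: l, g)
  | (s, true), b, (f, (t, false)) :: l, g =>
      if s = t ∧ b * f = 1 then (l, g) else
      match S.com s (b * f) t with
      | some (h, r) =>
        match S.nxt s h r, S.nxt t ((b * f)⁻¹ * h) r with
        | some (a, u, c), some (a', u', c') =>
            scons (c⁻¹, (u, false)) (lf (a⁻¹ * a') (S.lam (u', true) c' l g))
        | _, _ => ((1, (s, true)) :: (b * f, (t, false)) :: l, g)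
      | none => ((1, (s, true)) :: (b * f, (t, false)) :: l, g)
  | (s, false), b, (f, (t, true)) :: l, g =>
      if s = t ∧ b * f = 1 then (l, g) else ((1, (s, false)) :: (b * f, (t, true)) :: l, g)
  | (s, false), b, (f, (t, false)) :: l, g =>
      match S.nxt t (b * f)⁻¹ s with
      | some (a, u, c) => lf a (S.lam (u, true) c l g)
      | none => ((1, (s, false)) :: (b * f, (t, false)) :: l, g)

/-- left multiplication by a signed symbol -/
noncomputable def TSys.opS (S : TSys F E) (s : Sg E) (st : St F E) : St F E := S.lam s 1 st.1 st.2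

/-- `rr S rl g u` = normal form of `rl.reverse * g * u⁻¹`, reversed (first component), final unit (second) -/
noncomputable def TSys.rr (S : TSys F E) : List (F × Sg E) → F → E → List (F × Sg E) × F
  | [], g, u => ([(g, (u, false))], 1)
  | (f, (k, true)) :: rl, g, u =>
      match S.com k g u with
      | some (h, r) =>
        match S.nxt k h r, S.nxt u (g⁻¹ * h) r with
        | some (a, u1, c), some (a', u', c') =>
            (((S.rr rl (f * c⁻¹) u1).2 * (a⁻¹ * a'), (u', true)) :: (S.rr rl (f * c⁻¹) u1).1, c')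
        | _, _ => ((g, (u, false)) :: (f, (k, true)) :: rl, 1)
      | none => ((g, (u, false)) :: (f, (k, true)) :: rl, 1)
  | (f, (k, false)) :: rl, g, u =>
      match S.nxt u g⁻¹ k with
      | some (a, u', c) => ((f * a, (u', true)) :: rl, c)
      | none => ((g, (u, false)) :: (f, (k, false)) :: rl, 1)

open Classical in
/-- `rm S rl g x` = normal form of `rl.reverse * g * x`, reversed (first component), final unit (second) -/
noncomputable def TSys.rm (S : TSys F E) : List (F × Sg E) → F → E → List (F × Sg E) × F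
  | [], g, x => ([(g, (x, true))], 1)
  | (f, (k, true)) :: rl, g, x =>
      match S.nxt k g x with
      | some (a, u, c) => ((S.rr rl (f * c⁻¹) u).1, (S.rr rl (f * c⁻¹) u).2 * a⁻¹)
      | none => ((g, (x, true)) :: (f, (k, true)) :: rl, 1)
  | (f, (k, false)) :: rl, g, x =>
      if k = x ∧ g = 1 then (rl, f) else ((g, (x, true)) :: (f, (k, false)) :: rl, 1)

/-- models: a group presented by the system -/
structure TSys.Model (S : TSys F E) (G : Type) [Group G] where
  io : F →* G
  ev : E → G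
  rel : ∀ {s f t a u b}, S.tri s f t a u b → ev s * io f * ev t * io a * ev u * io b = 1
  gen : Subgroup.closure (Set.range io ∪ Set.range ev) = ⊤
  univ : ∀ (H : Type) [Group H] (κ : F →* H) (w : E → H),
    (∀ {s f t a u b}, S.tri s f t a u b → w s * κ f * w t * κ a * w u * κ b = 1) →
    ∃ Φ : G →* H, (∀ f, Φ (io f) = κ f) ∧ ∀ e, Φ (ev e) = w e

variable {S : TSys F E} {G : Type} [Group G]

/-- value of a signed symbol -/
def TSys.Model.sv (M : S.Model G) : Sg E → G
  | (s, true) => M.ev s
  | (s, false) => (M.ev s)⁻¹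

/-- value of a list -/
def TSys.Model.vl (M : S.Model G) : List (F × Sg E) → G
  | [] => 1
  | x :: l => M.io x.1 * M.sv x.2 * M.vl l

/-- value of a state -/
def TSys.Model.val (M : S.Model G) (st : St F E) : G := M.vl st.1 * M.io st.2

end defs

/-! ## Equation lemmas -/

section lemmas

variable {F E : Type} [Group F] (S : TSys F E)

theorem TSys.nxt_eq_some {s : E} {f : F} {t : E} {a : F} {u : E} {b : F} :
    S.nxt s f t = some (a, u, b) ↔ S.tri s f t a u b := by
  unfold TSys.nxt
  split_ifs with h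
  · constructor
    · intro h2
      have h3 : h.choose = (a, u, b) := Option.some.inj h2
      have h4 := h.choose_spec
      rw [h3] at h4
      exact h4
    · intro h2
      have h4 := S.fn h.choose_spec h2
      congr 1
      exact Prod.ext h4.1 (Prod.ext h4.2.1 h4.2.2)
  · constructor
    · intro h2; cases h2
    · intro h2; exact absurd ⟨(a, u, b), h2⟩ h

theorem TSys.nxt_eq_none {s : E} {f : F} {t : E} : S.nxt s f t = none ↔ ¬ S.D s f t := by
  unfold TSys.nxt
  split_ifs with h
  · constructor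
    · intro h2; cases h2
    · intro h2; exact absurd ⟨h.choose.1, h.choose.2.1, h.choose.2.2, h.choose_spec⟩ h2
  · constructor
    · rintro - ⟨a, u, b, h2⟩; exact h ⟨(a, u, b), h2⟩
    · intro _; rfl

theorem TSys.D_tri {s : E} {f : F} {t : E} {a : F} {u : E} {b : F} (h : S.tri s f t a u b) :
    S.D s f t := ⟨a, u, b, h⟩

theorem TSys.com_unique {s : E} {f : F} {t : E} {h h' : F} {r r' : E} (hst : ¬ (s = t ∧ f = 1))
    (h1 : S.D s h r) (h2 : S.D t (f⁻¹ * h) r) (h3 : S.D s h' r') (h4 : S.D t (f⁻¹ * h') r') :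
    h = h' ∧ r = r' := by
  rcases S.k22 h1 h3 h2 h4 (by group) with ⟨e1, e2⟩ | ⟨e1, e2⟩
  · exfalso
    apply hst
    refine ⟨e1, ?_⟩
    have : f⁻¹ = 1 := by
      have h5 : h * h⁻¹ = f⁻¹ * h * h⁻¹ := by rw [← e2]
      simpa using h5.symm
    simpa using this
  · exact ⟨e2, e1⟩

theorem TSys.com_eq_some {s : E} {f : F} {t : E} {h : F} {r : E} (hst : ¬ (s = t ∧ f = 1)) :
    S.com s f t = some (h, r) ↔ S.D s h r ∧ S.D t (f⁻¹ * h) r := by
  unfold TSys.com
  split_ifs with h0
  · constructor
    · intro h2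
      have h3 : h0.choose = (h, r) := Option.some.inj h2
      have h4 := h0.choose_spec
      rw [h3] at h4
      exact h4
    · intro h2
      have h4 := S.com_unique hst h0.choose_spec.1 h0.choose_spec.2 h2.1 h2.2
      congr 1
      exact Prod.ext h4.1 h4.2
  · constructor
    · intro h2; cases h2
    · intro h2; exact absurd ⟨(h, r), h2⟩ h0

theorem TSys.com_eq_none {s : E} {f : F} {t : E} :
    S.com s f t = none ↔ ¬ ∃ h r, S.D s h r ∧ S.D t (f⁻¹ * h) r := by
  unfold TSys.com
  split_ifs with h0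
  · constructor
    · intro h2; cases h2
    · intro h2; exact absurd ⟨h0.choose.1, h0.choose.2, h0.choose_spec⟩ h2
  · constructor
    · rintro - ⟨h, r, h2⟩; exact h0 ⟨(h, r), h2⟩
    · intro _; rfl

@[simp] theorem lf_nil (f g : F) : lf f (([], g) : St F E) = ([], f * g) := rfl
@[simp] theorem lf_cons (f f0 : F) (s : Sg E) (l : List (F × Sg E)) (g : F) :
    lf f ((f0, s) :: l, g) = ((f * f0, s) :: l, g) := rfl

theorem lf_one (st : St F E) : lf 1 st = st := by
  rcases st with ⟨_ | ⟨⟨f, s⟩, l⟩, g⟩ <;> simp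

theorem lf_lf (f f' : F) (st : St F E) : lf f (lf f' st) = lf (f * f') st := by
  rcases st with ⟨_ | ⟨⟨f, s⟩, l⟩, g⟩ <;> simp [mul_assoc]

theorem TSys.lam_eq (s : Sg E) (b : F) (l : List (F × Sg E)) (g : F) :
    S.lam s b l g = S.opS s (lf b (l, g)) := by
  rcases l with _ | ⟨⟨f, ⟨t, e'⟩⟩, l⟩
  · simp [TSys.opS, TSys.lam]
  · rcases s with ⟨s, e⟩
    cases e <;> cases e'
    · simp [TSys.opS, TSys.lam]
    · by_cases h : s = t ∧ b * f = 1
      · have h' : s = t ∧ 1 * (b * f) = 1 := by rw [one_mul]; exact h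
        simp only [TSys.opS, TSys.lam, lf_cons]
        rw [if_pos h, if_pos h']
      · have h' : ¬ (s = t ∧ 1 * (b * f) = 1) := by rw [one_mul]; exact h
        simp only [TSys.opS, TSys.lam, lf_cons]
        rw [if_neg h, if_neg h', one_mul]
    · by_cases h : s = t ∧ b * f = 1
      · have h' : s = t ∧ 1 * (b * f) = 1 := by rw [one_mul]; exact h
        simp only [TSys.opS, TSys.lam, lf_cons]
        rw [if_pos h, if_pos h']
      · have h' : ¬ (s = t ∧ 1 * (b * f) = 1) := by rw [one_mul]; exact h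
        simp only [TSys.opS, TSys.lam, lf_cons]
        rw [if_neg h, if_neg h', one_mul]
    · simp [TSys.opS, TSys.lam]

theorem TSys.opS_nil (s : Sg E) (g : F) : S.opS s ([], g) = ([(1, s)], g) := by
  simp [TSys.opS, TSys.lam]

theorem TSys.opS_keep {s : Sg E} {f : F} {t : Sg E} (h : S.Keep s f t) (l : List (F × Sg E)) (g : F) :
    S.opS s ((f, t) :: l, g) = ((1, s) :: (f, t) :: l, g) := by
  rcases s with ⟨s, e⟩
  rcases t with ⟨t, e'⟩
  cases e <;> cases e' <;> simp only [TSys.Keep] at h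
  · simp only [TSys.opS, TSys.lam, one_mul]
    rw [S.nxt_eq_none.2 h]
  · have h' : ¬ (s = t ∧ 1 * f = 1) := by rw [one_mul]; exact h
    simp only [TSys.opS, TSys.lam]
    rw [if_neg h', one_mul]
  · have h' : ¬ (s = t ∧ 1 * f = 1) := by rw [one_mul]; exact h.1
    simp only [TSys.opS, TSys.lam]
    rw [if_neg h', one_mul, S.com_eq_none.2 h.2]
  · simp only [TSys.opS, TSys.lam, one_mul]
    rw [S.nxt_eq_none.2 h]

theorem TSys.opS_cancel_tf (s : E) (l : List (F × Sg E)) (g : F) :
    S.opS (s, true) ((1, (s, false)) :: l, g) = (l, g) := by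
  simp [TSys.opS, TSys.lam]

theorem TSys.opS_cancel_ft (s : E) (l : List (F × Sg E)) (g : F) :
    S.opS (s, false) ((1, (s, true)) :: l, g) = (l, g) := by
  simp [TSys.opS, TSys.lam]

theorem TSys.opS_tt {s : E} {f : F} {t : E} {a : F} {u : E} {c : F} (h : S.tri s f t a u c)
    (l : List (F × Sg E)) (g : F) :
    S.opS (s, true) ((f, (t, true)) :: l, g) = scons (c⁻¹, (u, false)) (lf a⁻¹ (l, g)) := by
  simp only [TSys.opS, TSys.lam, one_mul]
  rw [S.nxt_eq_some.2 h]

theorem TSys.opS_tf {s : E} {f : F} {t : E} {h : F} {r : E} {a : F} {u : E} {c : F} {a' : F} {u' : E}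
    {c' : F} (hst : ¬ (s = t ∧ f = 1)) (h1 : S.tri s h r a u c) (h2 : S.tri t (f⁻¹ * h) r a' u' c')
    (l : List (F × Sg E)) (g : F) :
    S.opS (s, true) ((f, (t, false)) :: l, g) =
      scons (c⁻¹, (u, false)) (lf (a⁻¹ * a') (S.opS (u', true) (lf c' (l, g)))) := by
  have h' : ¬ (s = t ∧ 1 * f = 1) := by rw [one_mul]; exact hst
  rw [← S.lam_eq]
  simp only [TSys.opS, TSys.lam]
  rw [if_neg h', one_mul, (S.com_eq_some hst).2 ⟨S.D_tri h1, S.D_tri h2⟩]
  simp only [S.nxt_eq_some.2 h1, S.nxt_eq_some.2 h2]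

theorem TSys.opS_ff {s : E} {f : F} {t : E} {a : F} {u : E} {c : F} (h : S.tri t f⁻¹ s a u c)
    (l : List (F × Sg E)) (g : F) :
    S.opS (s, false) ((f, (t, false)) :: l, g) = lf a (S.opS (u, true) (lf c (l, g))) := by
  rw [← S.lam_eq]
  simp only [TSys.opS, TSys.lam, one_mul]
  rw [S.nxt_eq_some.2 h]

/-- case distinction for `opS s ((f, t) :: l, g)` -/
theorem TSys.cases_op (s : Sg E) (f : F) (t : Sg E) :
    S.Keep s f t ∨
    (s.1 = t.1 ∧ s.2 = (!t.2) ∧ f = 1) ∨
    (s.2 = true ∧ t.2 = true ∧ ∃ a u c, S.tri s.1 f t.1 a u c) ∨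
    (s.2 = true ∧ t.2 = false ∧ ¬ (s.1 = t.1 ∧ f = 1) ∧
      ∃ h r a u c a' u' c', S.tri s.1 h r a u c ∧ S.tri t.1 (f⁻¹ * h) r a' u' c') ∨
    (s.2 = false ∧ t.2 = false ∧ ∃ a u c, S.tri t.1 f⁻¹ s.1 a u c) := by
  classical
  rcases s with ⟨s, e⟩
  rcases t with ⟨t, e'⟩
  cases e <;> cases e'
  · by_cases h : S.D t f⁻¹ s
    · right; right; right; right
      exact ⟨rfl, rfl, h⟩
    · left; exact h
  · by_cases h : s = t ∧ f = 1
    · right; left; exact ⟨h.1, rfl, h.2⟩
    · left; exact h
  · by_cases h : s = t ∧ f = 1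
    · right; left; exact ⟨h.1, rfl, h.2⟩
    · by_cases h2 : ∃ h r, S.D s h r ∧ S.D t (f⁻¹ * h) r
      · obtain ⟨h3, r, ⟨a, u, c, h4⟩, ⟨a', u', c', h5⟩⟩ := h2
        right; right; right; left
        exact ⟨rfl, rfl, h, h3, r, a, u, c, a', u', c', h4, h5⟩
      · left
        exact ⟨h, h2⟩
  · by_cases h : S.D s f t
    · right; right; left
      exact ⟨rfl, rfl, h⟩
    · left; exact h

/-! equations for `rr`, `rm` -/

theorem TSys.rr_nil (g : F) (u : E) : S.rr [] g u = ([(g, (u, false))], 1) := by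
  simp [TSys.rr]

theorem TSys.rr_keep {x : F × Sg E} {g : F} {u : E} (h : S.Keep x.2 g (u, false))
    (rl : List (F × Sg E)) : S.rr (x :: rl) g u = ((g, (u, false)) :: x :: rl, 1) := by
  rcases x with ⟨f, ⟨k, e⟩⟩
  cases e <;> simp only [TSys.Keep] at h <;> simp only [TSys.rr]
  · rw [S.nxt_eq_none.2 h]
  · rw [S.com_eq_none.2 h.2]

theorem TSys.rr_t {f : F} {k : E} {g : F} {u : E} {h : F} {r : E} {a : F} {u1 : E} {c : F} {a' : F}
    {u' : E} {c' : F} (hst : ¬ (k = u ∧ g = 1)) (h1 : S.tri k h r a u1 c)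
    (h2 : S.tri u (g⁻¹ * h) r a' u' c') (rl : List (F × Sg E)) :
    S.rr ((f, (k, true)) :: rl) g u =
      (((S.rr rl (f * c⁻¹) u1).2 * (a⁻¹ * a'), (u', true)) :: (S.rr rl (f * c⁻¹) u1).1, c') := by
  simp only [TSys.rr]
  rw [(S.com_eq_some hst).2 ⟨S.D_tri h1, S.D_tri h2⟩]
  simp only [S.nxt_eq_some.2 h1, S.nxt_eq_some.2 h2]

theorem TSys.com_D {s : E} {f : F} {t : E} {h : F} {r : E} (h0 : S.com s f t = some (h, r)) :
    S.D s h r ∧ S.D t (f⁻¹ * h) r := by
  unfold TSys.com at h0
  split_ifs at h0 with h1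
  have h3 : h1.choose = (h, r) := Option.some.inj h0
  have h4 := h1.choose_spec
  rw [h3] at h4
  exact h4

/-- case distinction for `rr` on a positive last factor, without hypotheses -/
theorem TSys.rr_cases_t (f : F) (k : E) (g : F) (u : E) (rl : List (F × Sg E)) :
    S.rr ((f, (k, true)) :: rl) g u = ((g, (u, false)) :: (f, (k, true)) :: rl, 1) ∨
    ∃ h r a u1 c a' u' c', S.tri k h r a u1 c ∧ S.tri u (g⁻¹ * h) r a' u' c' ∧
      S.rr ((f, (k, true)) :: rl) g u =
        (((S.rr rl (f * c⁻¹) u1).2 * (a⁻¹ * a'), (u', true)) :: (S.rr rl (f * c⁻¹) u1).1, c') := by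
  rcases hc : S.com k g u with _ | ⟨h, r⟩
  · left
    simp only [TSys.rr]
    rw [hc]
  · right
    obtain ⟨⟨a, u1, c, h1⟩, ⟨a', u', c', h2⟩⟩ := S.com_D hc
    refine ⟨h, r, a, u1, c, a', u', c', h1, h2, ?_⟩
    simp only [TSys.rr]
    rw [hc]
    simp only [S.nxt_eq_some.2 h1, S.nxt_eq_some.2 h2]

/-- case distinction for `rr` on a negative last factor -/
theorem TSys.rr_cases_f (f : F) (k : E) (g : F) (u : E) (rl : List (F × Sg E)) :
    S.rr ((f, (k, false)) :: rl) g u = ((g, (u, false)) :: (f, (k, false)) :: rl, 1) ∨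
    ∃ a u' c, S.tri u g⁻¹ k a u' c ∧
      S.rr ((f, (k, false)) :: rl) g u = ((f * a, (u', true)) :: rl, c) := by
  rcases hc : S.nxt u g⁻¹ k with _ | ⟨a, u', c⟩
  · left
    simp only [TSys.rr]
    rw [hc]
  · right
    refine ⟨a, u', c, S.nxt_eq_some.1 hc, ?_⟩
    simp only [TSys.rr]
    rw [hc]

theorem TSys.rr_f {f : F} {k : E} {g : F} {u : E} {a : F} {u' : E} {c : F} (h : S.tri u g⁻¹ k a u' c)
    (rl : List (F × Sg E)) :
    S.rr ((f, (k, false)) :: rl) g u = ((f * a, (u', true)) :: rl, c) := by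
  simp only [TSys.rr]
  rw [S.nxt_eq_some.2 h]

theorem TSys.rm_nil (g : F) (x : E) : S.rm [] g x = ([(g, (x, true))], 1) := by
  simp [TSys.rm]

theorem TSys.rm_keep {y : F × Sg E} {g : F} {x : E} (h : S.Keep y.2 g (x, true))
    (rl : List (F × Sg E)) : S.rm (y :: rl) g x = ((g, (x, true)) :: y :: rl, 1) := by
  rcases y with ⟨f, ⟨k, e⟩⟩
  cases e <;> simp only [TSys.Keep] at h <;> simp only [TSys.rm]
  · rw [if_neg h]
  · rw [S.nxt_eq_none.2 h]

theorem TSys.rm_t {f : F} {k : E} {g : F} {x : E} {a : F} {u : E} {c : F} (h : S.tri k g x a u c)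
    (rl : List (F × Sg E)) :
    S.rm ((f, (k, true)) :: rl) g x = ((S.rr rl (f * c⁻¹) u).1, (S.rr rl (f * c⁻¹) u).2 * a⁻¹) := by
  simp only [TSys.rm]
  rw [S.nxt_eq_some.2 h]

theorem TSys.rm_cancel {f : F} {x : E} (rl : List (F × Sg E)) :
    S.rm ((f, (x, false)) :: rl) 1 x = (rl, f) := by
  simp [TSys.rm]

end lemmas

section vals

variable {F E : Type} [Group F] {S : TSys F E} {G : Type} [Group G] (M : S.Model G)

@[simp] theorem TSys.Model.sv_true (s : E) : M.sv (s, true) = M.ev s := rfl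
@[simp] theorem TSys.Model.sv_false (s : E) : M.sv (s, false) = (M.ev s)⁻¹ := rfl
@[simp] theorem TSys.Model.vl_nil : M.vl ([] : List (F × Sg E)) = 1 := rfl
@[simp] theorem TSys.Model.vl_cons (x : F × Sg E) (l : List (F × Sg E)) :
    M.vl (x :: l) = M.io x.1 * M.sv x.2 * M.vl l := rfl

theorem TSys.Model.vl_append (l l' : List (F × Sg E)) : M.vl (l ++ l') = M.vl l * M.vl l' := by
  induction l with
  | nil => simp
  | cons x l ih => simp [ih, mul_assoc]

theorem TSys.Model.val_mk (l : List (F × Sg E)) (g : F) : M.val (l, g) = M.vl l * M.io g := rfl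

theorem TSys.Model.val_lf (f : F) (st : St F E) : M.val (lf f st) = M.io f * M.val st := by
  rcases st with ⟨_ | ⟨⟨f, s⟩, l⟩, g⟩ <;> simp [TSys.Model.val, mul_assoc]

theorem TSys.Model.val_scons (x : F × Sg E) (st : St F E) :
    M.val (scons x st) = M.io x.1 * M.sv x.2 * M.val st := by
  simp [TSys.Model.val, scons, mul_assoc]

end vals

/-! ## Words -/

/-- letters of the abstract alphabet: `B z` = generator of the free group, `M f s` = `f * s` -/
inductive Let (T E : Type) : Type
  | B (z : T × Bool) : Let T E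
  | M (f : FreeGroup T) (s : Sg E) : Let T E

section words

variable {T E : Type} [DecidableEq T]

/-- the word of a factor: one letter if the label is short, else the reduced word, then `M 1 s` -/
def encB (C : ℕ) (x : FreeGroup T × Sg E) : List (Let T E) :=
  if x.1.norm ≤ C then [Let.M x.1 x.2] else x.1.toWord.map Let.B ++ [Let.M 1 x.2]

/-- the word of a state -/
def enc (C : ℕ) (st : St (FreeGroup T) E) : List (Let T E) :=
  st.1.flatMap (encB C) ++ st.2.toWord.map Let.B

variable {S : TSys (FreeGroup T) E} {G : Type} [Group G]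

/-- value of an abstract letter -/
def TSys.Model.evL (M : S.Model G) : Let T E → G
  | Let.B z => M.io (FreeGroup.mk [z])
  | Let.M f s => M.io f * M.sv s

/-- value of an abstract word -/
def TSys.Model.wv (M : S.Model G) (w : List (Let T E)) : G := (w.map M.evL).prod

/-- two words are synchronously close, base `x` -/
def TSys.Model.SClose (M : S.Model G) (K : Set G) (x : G) (w w' : List (Let T E)) : Prop :=
  ∀ t : ℕ, (x * M.wv (w.take t))⁻¹ * M.wv (w'.take t) ∈ K

/-- the values of the letters which are used -/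
def TSys.Model.PC (M : S.Model G) (C : ℕ) : Set G :=
  {x | ∃ z : T × Bool, x = M.evL (Let.B z)} ∪
    {x | ∃ (f : FreeGroup T) (s : Sg E), f.norm ≤ C ∧ x = M.evL (Let.M f s)}

/-- two words are asynchronously close with time shift at most `c`, differences in `C`, base `x` -/
def TSys.Model.Close (M : S.Model G) (c : ℕ) (C : Set G) (x : G) (w w' : List (Let T E)) : Prop :=
  ∀ t : ℕ, ∃ t' : ℕ, t ≤ t' + c ∧ t' ≤ t + c ∧ (x * M.wv (w.take t))⁻¹ * M.wv (w'.take t') ∈ C

theorem TSys.Model.wv_nil (M : S.Model G) : M.wv ([] : List (Let T E)) = 1 := by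
  simp [TSys.Model.wv]

theorem TSys.Model.wv_cons (M : S.Model G) (a : Let T E) (w : List (Let T E)) :
    M.wv (a :: w) = M.evL a * M.wv w := by
  simp [TSys.Model.wv]

theorem TSys.Model.wv_append (M : S.Model G) (w w' : List (Let T E)) :
    M.wv (w ++ w') = M.wv w * M.wv w' := by
  simp [TSys.Model.wv]

end words

end BA
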