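import Pool.Agent.Lib.MP_135d84_al.BA.Base

/-!
# MP_135d84_al, PART A: a group with a relative oriented triangular presentation over a free group
is biautomatic. 22 modules. All facts below have been checked by program.

Write module XXX as file Pool/Agent/Lib/MP_135d84_al/BA/XXX.lean (import
Pool.Agent.Lib.MP_135d84_al.BA.SpecA), `theorem specXXX (hYYY : SpecYYY) .. : SpecXXX` in namespace BA,
own lemmas in namespace BA.XXXM. No double quotes in the file. Take only the hypotheses you need.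

Notation in the comments: D(s,f,t) = (a,u,b) means `S.tri s f t a u b` (so s f t a u b = 1); its rotations are
D(t,a,u) = (b,s,f) and D(u,b,s) = (f,t,a). `s⁺ = (s,true)`, `s⁻ = (s,false)`.
K22 = the field `k22`: if s,s' are both related to t,t' with compatible labels then s = s' or t = t'.
-/

set_option autoImplicit false

namespace BA

/-- OPV (80): values. For every state, value (opS s st) = value s * value st.
Proof: induction on the list, `cases_op`, the equation lemmas opS_*, `M.rel` and `M.val_lf`, `M.val_scons`,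
e.g. tt: s f t a u c = 1 gives s f t = c⁻¹ u⁻¹ a⁻¹. -/
def SpecOPV : Prop :=
  ∀ {F E : Type} [Group F] (S : TSys F E) {G : Type} [Group G] (M : S.Model G) (s : Sg E) (st : St F E),
    M.val (S.opS s st) = M.sv s * M.val st

/-- DOM (200): left multiplication preserves normality.
Induction on the length of l. cases of `cases_op s f t` for l = (f,t) :: l1 (note that `Normal ((f0,s)::l)` does
not depend on f0, so `lf` does not matter for the tail):
keep, cancel: clear. tt: new list (c⁻¹,u⁻) :: lf a⁻¹ l1, D(s,f,t) = (a,u,c); the pair (t⁺,f1,s2) is Keep (f1,s2 head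
of l1). If s2 = k⁺ we need not (u = k and a⁻¹ f1 = 1): else D(t,f1,k) is defined. If s2 = k⁻ we need not
D(k,(a⁻¹f1)⁻¹,u): else (a,u) is a common atom of t⁺ and f1 k⁻.
ff: induction. tf: D(s,h,r) = (a,u,c), D(t,f⁻¹h,r) = (a',u',c'), not (s=t, f=1): the new list is
(c⁻¹,u⁻) :: lf (a⁻¹a') (opS u'⁺ (lf c' l1)); the tail is normal by induction; let (φ,s') be the head of
opS u'⁺ (lf c' l1); we need Keep u⁻ (a⁻¹a'φ) s'. First: not (a = a' and u = u'), else by `fn` of the rotations
D(r,a,u) = (c,s,h), D(r,a',u') = (c',t,f⁻¹h): s = t, f = 1. Cases for l1 = (f1,s2)::l2 (or []):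
 [] or keep: head (1,u'⁺): clear. cancel: s2 = u'⁻, c'f1 = 1: impossible, D(u',c',t) is defined and
 Keep t⁻ f1 u'⁻. tt: s2 = k⁺, D(u',c'f1,k) = (a3,u3,c3): head (c3⁻¹,u3⁻), need not D(u3,c3a'⁻¹a,u):
 else K22 for r,u3 and u',u [D(r,a',u'), D(r,a,u), D(u3,c3,u'), D(u3,c3a'⁻¹a,u)]: r = u3, a' = c3, and then `fn` for
 D(r,a',u') = (c',t,_) and D(u3,c3,u') = (c'f1,k,a3): f1 = 1, k = t, against Keep t⁻ f1 k⁺.
 tf: s2 = k⁻, D(u',h3,r3) = (a3,u3,c3), D(k,(c'f1)⁻¹h3,r3) defined: head (c3⁻¹,u3⁻): as before; now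
 D(u3,c3,u') = (h3,r3,a3): h3 = c', r3 = t, so D(k,f1⁻¹,t), against Keep t⁻ f1 k⁻. (ff does not occur: u'⁺.) -/
def SpecDOM : Prop :=
  ∀ {F E : Type} [Group F] (S : TSys F E) (s : Sg E) (l : List (F × Sg E)) (g : F),
    S.Normal l → S.Normal (S.opS s (l, g)).1

/-- E2 (150): the relators act trivially. If D(s,f,t) = (a,u,b) and l is normal then
s⁺ f t⁺ (l,g) = b⁻¹ u⁻ a⁻¹ (l,g). Induction on the length of l. l = []: direct. l = (f0,s1)::l1:
(A) Keep t⁺ f0 s1: then also Keep u⁻ (a⁻¹f0) s1 [s1 = k⁺: if u = k, a⁻¹f0 = 1 then D(t,f0,k) defined; s1 = k⁻: if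
D(k,(a⁻¹f0)⁻¹,u) defined then (a,u) is a common atom of t⁺, f0 k⁻]; both sides = (b⁻¹,u⁻)::(a⁻¹f0,s1)::l1.
(B) s1 = r⁺, D(t,f0,r) = (a1,u1,b1): t⁺(..) = (b1⁻¹,u1⁻)::a1⁻¹l1. If u1 = s and b1 = f then (fn for the rotations)
f0 = a, r = u, a1 = b and both sides are b⁻¹(l1,g). Else opS_tf with the common atom (f,t):
D(s,f,t) = (a,u,b), D(u1,b1,t) = (f0,r,a1) gives (b⁻¹,u⁻)::(a⁻¹f0) r⁺ (l1,g) and r⁺(l1,g) = (1,r⁺)::l1 since
(f0,r⁺)::l1 is normal; RHS: Keep u⁻ (a⁻¹f0) r⁺.
(C) s1 = t⁻, f0 = 1: LHS = s⁺ f (l1,g); RHS: opS_ff with D(t,a,u) = (b,s,f).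
(D) s1 = r⁻, common atom (h,p): D(t,h,p) = (a1,u1,b1), D(r,f0⁻¹h,p) = (a2,u2,b2):
t⁺(..) = (b1⁻¹,u1⁻)::(a1⁻¹a2) u2⁺ b2 (l1,g). If u1 = s, b1 = f: then (h,p) = (a,u), a1 = b, LHS = b⁻¹a2 u2⁺ b2 (l1,g),
RHS: opS_ff with D(r,f0⁻¹a,u) = (a2,u2,b2): same. Else LHS = (b⁻¹,u⁻)::(a⁻¹h) p⁺ a1 a1⁻¹ a2 u2⁺ b2 (l1,g) =
(b⁻¹,u⁻)::(a⁻¹h) p⁺ a2 u2⁺ (b2 (l1,g)) and by induction (D(p,a2,u2) = (b2,r,f0⁻¹h)) p⁺a2u2⁺ = (f0⁻¹h)⁻¹ r⁻ b2⁻¹:
= (b⁻¹,u⁻)::(a⁻¹f0) r⁻ (l1,g) = (b⁻¹,u⁻)::(a⁻¹f0,r⁻)::l1 by normality; RHS: Keep u⁻ (a⁻¹f0) r⁻ (else (a,u) would be a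
second common atom of t⁺ and f0 r⁻, so (h,p) = (a,u) by `com_unique`, and then u1 = s, b1 = f).
Useful: `lf_lf`, and: if (f,s)::l is normal then opS s (l,g) = ((1,s)::l,g) (opS_nil / opS_keep). -/
def SpecE2 : Prop :=
  ∀ {F E : Type} [Group F] (S : TSys F E) {s : E} {f : F} {t : E} {a : F} {u : E} {b : F}
    (l : List (F × Sg E)) (g : F), S.tri s f t a u b → S.Normal l →
    S.opS (s, true) (lf f (S.opS (t, true) (l, g))) = lf b⁻¹ (S.opS (u, false) (lf a⁻¹ (l, g)))

/-- E1 (120): opS s⁺ and opS s⁻ are inverse to each other on normal states (uses E2).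
s⁻s⁺: x = (f0,s1)::l1. keep: cancel. tt, D(s,f0,k) = (a,u,b): (b⁻¹,u⁻)::a⁻¹l1, then opS_ff with D(u,b,s) = (f0,k,a):
f0 k⁺ (l1,g) = x by normality. cancel: s⁻ (l1,g) = (1,s⁻)::l1 by normality. tf, D(s,h,r) = (a,u,b),
D(k,f0⁻¹h,r) = (a',u',b'): opS_ff with D(u,b,s) = (h,r,a): h r⁺ a' u'⁺ b' (l1,g) = (E2, D(r,a',u') = (b',k,f0⁻¹h))
f0 k⁻ (l1,g) = x.
s⁺s⁻: keep: cancel. cancel: clear. ff, D(k,f0⁻¹,s) = (a,u,b): s⁺ a u⁺ (b (l1,g)) = (E2 with D(s,a,u) = (b,k,f0⁻¹))
f0 k⁻ (l1,g) = x. -/
def SpecE1 : Prop :=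
  ∀ {F E : Type} [Group F] (S : TSys F E) (s : E) (e : Bool) (l : List (F × Sg E)) (g : F),
    S.Normal l → S.opS (s, !e) (S.opS (s, e) (l, g)) = (l, g)

/-- NF (120): existence and uniqueness of normal forms (uses OPV, DOM, E2, E1). H := permutations of
{st : St F E // S.Normal st.1}; F acts by `lf`, e : E by `opS (e,true)` with inverse `opS (e,false)`; E2 gives the
relations (w s * κ f * w t = κ b⁻¹ * (w u)⁻¹ * κ a⁻¹), so `M.univ` gives Φ : G →* H.
For a normal state n: Φ (val n) ([],1) = n (induction on the list: opS_keep / opS_nil). This is uniqueness.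
Existence: val (Φ g ([],1)) = g for all g (closure induction with M.gen, OPV, val_lf). -/
def SpecNF : Prop :=
  ∀ {F E : Type} [Group F] (S : TSys F E) {G : Type} [Group G] (M : S.Model G),
    (∀ g : G, ∃ st : St F E, S.Normal st.1 ∧ M.val st = g) ∧
    ∀ st st' : St F E, S.Normal st.1 → S.Normal st'.1 → M.val st = M.val st' → st = st'

/-- RV (80): values of rr, rm (induction on rl; `rr_cases_t`, `rr_cases_f`, M.rel, M.vl_append). -/
def SpecRV : Prop :=
  ∀ {F E : Type} [Group F] (S : TSys F E) {G : Type} [Group G] (M : S.Model G)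
    (rl : List (F × Sg E)) (g : F) (u : E),
    M.vl (S.rr rl g u).1.reverse * M.io (S.rr rl g u).2 = M.vl rl.reverse * M.io g * (M.ev u)⁻¹ ∧
    M.vl (S.rm rl g u).1.reverse * M.io (S.rm rl g u).2 = M.vl rl.reverse * M.io g * M.ev u

/-- RN (150): right multiplication preserves normality. Work with reversed chains
(`List.isChain_reverse` or similar). LEMMA R: rl reversed normal, g = f0 * c⁻¹, D(u,c,s0) defined, and rl = [] or
Keep (head rl).2 f0 s0⁺. Then (rr rl g u).1 is reversed normal, not [], and for all r a y a' u' with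
D(r,a,u) = (c,s0,y), D(r,a',u') defined, not (a = a' and u = u'):
Keep (head (rr rl g u).1).2 ((rr rl g u).2 * (a⁻¹ a')) u'⁺.
rl = [] or keep: head u⁻, unit 1: clear.
rl = (f,k⁺)::rl1, not keep: it is not the case k = u, g = 1 (else f0 = c and D(k,f0,s0)). So D(k,h2,r2) = (a2,u2,b2),
D(u,g⁻¹h2,r2) = (a3,u3,b3), rr = ((R.2 a2⁻¹a3,u3⁺)::R.1, b3), R = rr rl1 (f b2⁻¹) u2. Induction for R with
(f0,c,s0) := (f,b2,k): D(u2,b2,k) = (h2,r2,a2). The new factor: second part of the lemma for R with
(r,a,a',u') := (r2,a2,a3,u3): D(r2,a2,u2) = (b2,k,h2); not (a2 = a3, u2 = u3), else k = u, g = 1. Second part for the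
result: head u3⁺, unit b3: suppose D(u3,b3a⁻¹a',u'); K22 [D(r,a,u), D(r,a',u'), D(u3,b3,u) = (g⁻¹h2,r2,a3),
D(u3,b3a⁻¹a',u')]: r = u3, a = b3 and fn: g⁻¹h2 = c, r2 = s0, so h2 = f0 and D(k,f0,s0), a contradiction.
rl = (f,k⁻)::rl1, not keep: D(u,g⁻¹,k) = (a3,u3,b3), rr = ((f a3,u3⁺)::rl1, b3). Normal: head p⁺ of rl1: else (f a3,u3)
is a common atom of p⁺ and f k⁻ (D(k,a3,u3) = (b3,u,g⁻¹)); head p⁻: if p = u3, f a3 = 1 then D(k,f⁻¹,p). Second part:
K22 with D(u3,b3,u) = (g⁻¹,k,a3): r = u3, a = b3, c = g⁻¹, s0 = k, so f0 = 1, against Keep k⁻ f0 s0⁺.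
rm: nil, keep, cancel clear; tt, D(k,g,x) = (a,u,c): LEMMA R with f0 := f, s0 := k, D(u,c,k) = (g,x,a). -/
def SpecRN : Prop :=
  ∀ {F E : Type} [Group F] (S : TSys F E) (rl : List (F × Sg E)) (g : F) (x : E),
    S.Normal rl.reverse → S.Normal (S.rm rl g x).1.reverse

/-- LS (200): structure of left multiplication: only a beginning q with short labels changes, then one label by a
short u (uses nothing, or OPV). Generalise to s * b * (l,g) with b in a finite set; the labels involved are products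
of boundedly many labels of relators (finite by S.fin, rotations included). Induction on l:
[] and keep: q = [], q' = [(1,s)], u = b. cancel: q = [(f,t)], q' = [], u = 1. tt: q = [(f,t)], q' = [(c⁻¹,u⁻)], u := a⁻¹.
tf: q = (f,t)::q1, q' = (c⁻¹,u⁻)::(a⁻¹a' q1'), ff: q = (f,t)::q1, q' = a q1' (index shift by one; the labels are short,
so prefix values move by elements of a finite set). q1, q1' from the induction hypothesis for u'⁺ c' (l1,g) (only
positive symbols occur there, so the shift happens at most once, and a cancel gives the second one).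
The elements (s q_i)⁻¹ q'_i are products of boundedly many M.sv, M.io of short labels. -/
def SpecLS : Prop :=
  ∀ {F E : Type} [Group F] [Finite E] (S : TSys F E) {G : Type} [Group G] (M : S.Model G),
    ∃ (B : Set F) (K : Set G), B.Finite ∧ K.Finite ∧
      ∀ (s : Sg E) (l : List (F × Sg E)) (g : F), ∃ (q q' p : List (F × Sg E)) (u : F),
        l = q ++ p ∧ u ∈ B ∧ S.opS s (l, g) = (q' ++ (lf u (p, g)).1, (lf u (p, g)).2) ∧
        (∀ x ∈ q, x.1 ∈ B) ∧ (∀ x ∈ q', x.1 ∈ B) ∧
        q.length ≤ q'.length + 2 ∧ q'.length ≤ q.length + 2 ∧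
        ∀ i : ℕ, (M.sv s * M.vl (q.take i))⁻¹ * M.vl (q'.take i) ∈ K

/-- RS (200): structure of right multiplication by x⁺: either a new last factor, or the last factor disappears, or
only an end with short labels changes, after one label which changes by a short factor on the right.
Proof: for rr, induction on rl (statement with p, f, s, q, ... in reversed order); labels as in LS; in the partial
case (rr_cases_t) the label f of the factor k⁺ is short when rr continues further: it was h2 (g⁻¹h2)⁻¹ c with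
g = f c⁻¹ (both h2 and g⁻¹h2 are labels of relators). The unit of rr is 1 or a label. -/
def SpecRS : Prop :=
  ∀ {F E : Type} [Group F] [Finite E] (S : TSys F E) {G : Type} [Group G] (M : S.Model G),
    ∃ (B : Set F) (K : Set G), B.Finite ∧ K.Finite ∧
      ∀ (x : E) (l : List (F × Sg E)) (g : F), S.Normal l →
        ∀ (l' : List (F × Sg E)) (g' : F), l' = (S.rm l.reverse g x).1.reverse → g' = (S.rm l.reverse g x).2 →
        (l' = l ++ [(g, (x, true))] ∧ g' = 1) ∨
        (l = l' ++ [(g', (x, false))] ∧ g = 1) ∨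
        (∃ (p : List (F × Sg E)) (f : F) (s : Sg E) (q : List (F × Sg E)) (f' : F) (s' : Sg E)
          (q' : List (F × Sg E)),
          l = p ++ (f, s) :: q ∧ l' = p ++ (f', s') :: q' ∧ f⁻¹ * f' ∈ B ∧
          (∀ y ∈ q, y.1 ∈ B) ∧ (∀ y ∈ q', y.1 ∈ B) ∧ g ∈ B ∧ g' ∈ B ∧
          q.length ≤ q'.length + 2 ∧ q'.length ≤ q.length + 2 ∧
          ∀ i : ℕ, (M.vl ((f, s) :: (q.take i)))⁻¹ * M.vl ((f', s') :: (q'.take i)) ∈ K)

/-! ### words -/

/-- KC (30): long labels are left weighted (the set of labels f with not Keep s f t is finite, by S.fin). -/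
def SpecKC : Prop :=
  ∀ {T E : Type} [DecidableEq T] (S : TSys (FreeGroup T) E),
    ∃ C : ℕ, ∀ (s : Sg E) (f : FreeGroup T) (t : Sg E), C < f.norm → S.Keep s f t

/-- DFA (250): the language of the words of normal states is regular. States of the automaton: dead, or (p,r,k):
p : Option (Sg E) = last symbol read, r : Option (T × Bool) = last letter of the current run of B letters,
k ≤ C+1 = its capped length. Transitions from (p,r,k): B z: dead if r = z⁻¹ (as letter), else (p, some z, min (k+1) (C+1));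
M f s: if r = none: alive iff norm f ≤ C and (p = none or Keep p f s), new state (some s,none,0); if r ≠ none: alive iff
f = 1 and k = C+1. All live states accept. Invariant: w is read into (p,r,k) iff w = enc C (l,g) with l normal, p = last
symbol of l, r = last letter of g.toWord, k = min g.norm (C+1). (Use FreeGroup.toWord / reduce / IsReduced lemmas.) -/
def SpecDFA : Prop :=
  ∀ {T E : Type} [DecidableEq T] [Finite T] [Finite E] (S : TSys (FreeGroup T) E) (C : ℕ),
    (∀ (s : Sg E) (f : FreeGroup T) (t : Sg E), C < f.norm → S.Keep s f t) →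
    ∀ L : Language (Let T E),
      (∀ w : List (Let T E), w ∈ L ↔ ∃ st : St (FreeGroup T) E, S.Normal st.1 ∧ enc C st = w) → L.IsRegular

/-- INJ (40): different letters have different values (uses NF): the letters are values of the normal states
([], mk [z]) and ([(f,s)],1). -/
def SpecINJ : Prop :=
  ∀ {T E : Type} (S : TSys (FreeGroup T) E) {G : Type} [Group G] (M : S.Model G), Function.Injective M.evL

/-- VE (50): values of words. -/
def SpecVE : Prop :=
  ∀ {T E : Type} [DecidableEq T] (S : TSys (FreeGroup T) E) {G : Type} [Group G] (M : S.Model G) (C : ℕ),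
    (∀ x : FreeGroup T × Sg E, M.wv (encB C x) = M.io x.1 * M.sv x.2) ∧
    (∀ l : List (FreeGroup T × Sg E), M.wv (l.flatMap (encB C)) = M.vl l) ∧
    (∀ g : FreeGroup T, M.wv (g.toWord.map (Let.B (E := E))) = M.io g) ∧
    (∀ st : St (FreeGroup T) E, M.wv (enc C st) = M.val st) ∧
    (∀ (st : St (FreeGroup T) E) (y : Let T E), y ∈ enc C st → M.evL y ∈ M.PC C)

/-- WB (30): blocks with short labels are single letters. -/
def SpecWB : Prop :=
  ∀ {T E : Type} [DecidableEq T] (S : TSys (FreeGroup T) E) {G : Type} [Group G] (M : S.Model G) (C : ℕ)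
    (q : List (FreeGroup T × Sg E)), (∀ x ∈ q, x.1.norm ≤ C) →
    (q.flatMap (encB C)).length = q.length ∧ ∀ t : ℕ, M.wv ((q.flatMap (encB C)).take t) = M.vl (q.take t)

/-- CC (60): concatenation of close words. For t ≤ |W| take the t' of the first hypothesis, cut at |W'|; for
t = |W| + τ take |W'| + τ'. -/
def SpecCC : Prop :=
  ∀ {T E : Type} (S : TSys (FreeGroup T) E) {G : Type} [Group G] (M : S.Model G)
    (c c' : ℕ) (K K' : Set G) (x : G) (W W' V V' : List (Let T E)),
    M.Close c K x W W' → W.length ≤ W'.length + c → W'.length ≤ W.length + c →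
    M.Close c' K' ((x * M.wv W)⁻¹ * M.wv W')⁻¹ V V' →
    M.Close (c + c') (K ∪ K') x (W ++ V) (W' ++ V')

/-- CS (60): from asynchronously close to synchronously close, if the letters of w' have values in a finite set P
(K' = K * (products of at most c elements of P ∪ P⁻¹)). -/
def SpecCS : Prop :=
  ∀ {T E : Type} (S : TSys (FreeGroup T) E) {G : Type} [Group G] (M : S.Model G)
    (P : Set G), P.Finite → ∀ (c : ℕ) (K : Set G), K.Finite → ∃ K' : Set G, K'.Finite ∧
      ∀ (x : G) (w w' : List (Let T E)), (∀ y ∈ w', M.evL y ∈ P) → M.Close c K x w w' → M.SClose K' x w w'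

/-- WU (200): change of the first label on the left by a short u (uses VE, CC). f = β⁻¹γ reduced, u = αβ, u f = αγ reduced
(|α|,|β| ≤ |u|): after reading β⁻¹γ_1..γ_j resp. αγ_1..γ_j the elements u·(..) and (..) are equal. The block of f is
the reduced word followed by M 1 s (if |f| > C), or one letter (if |f| ≤ C, then |u f| ≤ C + N and everything is short).
The rest of the word is the same. -/
def SpecWU : Prop :=
  ∀ {T E : Type} [DecidableEq T] [Finite T] [Finite E] (S : TSys (FreeGroup T) E) {G : Type} [Group G]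
    (M : S.Model G) (N C : ℕ), ∃ (c : ℕ) (K : Set G), K.Finite ∧
      ∀ (u : FreeGroup T), u.norm ≤ N → ∀ (p : List (FreeGroup T × Sg E)) (g : FreeGroup T),
        M.Close c K (M.io u) (enc C (p, g)) (enc C (lf u (p, g)))

/-- WF (200): change of a label on the right by a short factor (uses VE). f = αβ, f' = αγ reduced, |β|,|γ| ≤ N: the words
agree up to |α|, afterwards everything is bounded. (i) blocks, (ii) the run of g against the block of g, both
directions, (iii) final runs. -/
def SpecWF : Prop :=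
  ∀ {T E : Type} [DecidableEq T] [Finite T] [Finite E] (S : TSys (FreeGroup T) E) {G : Type} [Group G]
    (M : S.Model G) (N C : ℕ), ∃ (c : ℕ) (K : Set G), K.Finite ∧
      (∀ (f f' : FreeGroup T) (s s' : Sg E), (f⁻¹ * f').norm ≤ N →
        M.Close c K 1 (encB C (f, s)) (encB C (f', s')) ∧
        (encB C (f, s)).length ≤ (encB C (f', s')).length + c) ∧
      (∀ (g : FreeGroup T) (s : Sg E),
        M.Close c K 1 (g.toWord.map Let.B) (encB C (g, s)) ∧ M.Close c K 1 (encB C (g, s)) (g.toWord.map Let.B)) ∧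
      (∀ g g' : FreeGroup T, (g⁻¹ * g').norm ≤ N →
        M.Close c K 1 (g.toWord.map (Let.B (E := E))) (g'.toWord.map Let.B))

/-- WL (100): left multiplication by a signed symbol or by a generator z of the free group: the words are synchronously
close (uses LS, OPV, VE, WB, CC, CS, WU). By LS: enc (l,g) = block(q) ++ enc (p,g), enc (opS s (l,g)) = block(q') ++
enc (lf u (p,g)); CC with W, W' = blocks of q, q' (WB, t' = t), and (sv s * vl q)⁻¹ vl q' = (io u)⁻¹ by OPV. -/
def SpecWL : Prop :=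
  ∀ {T E : Type} [DecidableEq T] [Finite T] [Finite E] (S : TSys (FreeGroup T) E) {G : Type} [Group G]
    (M : S.Model G), ∃ C0 : ℕ, ∀ C ≥ C0, ∃ K : Set G, K.Finite ∧
      (∀ (s : Sg E) (st : St (FreeGroup T) E), M.SClose K (M.sv s) (enc C st) (enc C (S.opS s st))) ∧
      (∀ (z : T × Bool) (st : St (FreeGroup T) E),
        M.SClose K (M.io (FreeGroup.mk [z])) (enc C st) (enc C (lf (FreeGroup.mk [z]) st)))

/-- WR (120): right multiplication by x⁺ or by a generator z (uses RS, VE, WB, CC, CS, WF; RV if you like).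
The base element of each concatenation step: see SpecCC; for the last pieces g, g' ∈ B everything is bounded. -/
def SpecWR : Prop :=
  ∀ {T E : Type} [DecidableEq T] [Finite T] [Finite E] (S : TSys (FreeGroup T) E) {G : Type} [Group G]
    (M : S.Model G), ∃ C0 : ℕ, ∀ C ≥ C0, ∃ K : Set G, K.Finite ∧
      (∀ (x : E) (l : List (FreeGroup T × Sg E)) (g : FreeGroup T), S.Normal l →
        M.SClose K 1 (enc C (l, g)) (enc C ((S.rm l.reverse g x).1.reverse, (S.rm l.reverse g x).2))) ∧
      (∀ (z : T × Bool) (l : List (FreeGroup T × Sg E)) (g : FreeGroup T),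
        M.SClose K 1 (enc C (l, g)) (enc C (l, g * FreeGroup.mk [z])))

/-- FT (150): the fellow traveller property (uses KC, NF, DOM, OPV, RV, RN, WL, WR). Every element of PC C or its
inverse is a product of at most C+1 elements io (mk [z]) and sv s; compose SClose: (M.SClose K1 x w w1,
M.SClose K2 y w1 w2) gives base y*x, set K1*K2; symmetry: M.SClose K x w w' gives M.SClose K⁻¹ x⁻¹ w' w.
Left: from st pass to lf (mk [z]) st, opS s st (normal by DOM, values by OPV, val_lf). Right: from (l,g) pass to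
(l, g * mk [z]), and for ev x to rm (RV, RN); for (ev x)⁻¹ use the state of val st * (ev x)⁻¹ (NF) and symmetry. -/
def SpecFT : Prop :=
  ∀ {T E : Type} [DecidableEq T] [Finite T] [Finite E] (S : TSys (FreeGroup T) E) {G : Type} [Group G]
    (M : S.Model G), ∃ C : ℕ, (∀ (s : Sg E) (f : FreeGroup T) (t : Sg E), C < f.norm → S.Keep s f t) ∧
      ∃ K : Set G, K.Finite ∧ ∀ st st' : St (FreeGroup T) E, S.Normal st.1 → S.Normal st'.1 →
        ∀ a b : G, (a = 1 ∨ a ∈ M.PC C ∨ a⁻¹ ∈ M.PC C) → (b = 1 ∨ b ∈ M.PC C ∨ b⁻¹ ∈ M.PC C) →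
          M.val st' = a * M.val st * b → M.SClose K a (enc C st) (enc C st')

/-- BI (150): THE THEOREM OF PART A (uses NF, FT, DFA, INJ, VE). X := the finite set PC C as a Finset (finite: T, E finite,
finitely many f with norm ≤ C), L := {w | w.map val = (enc C st).map evL for some normal st}; regular: transport
the automaton of DFA along the injection evL (a letter of X ∪ X⁻¹ which is not of the form evL y leads to a dead
state); onto: NF, VE; K finite and X generates (M.gen, PC contains io (mk [z]) and ev s = evL (M 1 s⁺)), so the elements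
of K are words of length at most k. -/
def SpecBI : Prop :=
  ∀ {T E : Type} [DecidableEq T] [Finite T] [Finite E] (S : TSys (FreeGroup T) E) {G : Type} [Group G],
    S.Model G → Biautomatic G

end BA
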