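import Pool.Agent.Lib.MP_135d84_al.BA.SpecA

/-!
# MP_135d84_al, PART B: two-dimensional Artin groups. Definitions, local tables, gluing, Tietze.

Same rules as in SpecA: module XXX = file BA/XXX.lean (import Pool.Agent.Lib.MP_135d84_al.BA.SpecB),
theorem specXXX (hYYY : SpecYYY) .. : SpecXXX, namespace BA, own lemmas in BA.XXXM, no double quotes.

Picture for one triangle (a,b,c), M a c = 2, m = M a b, n = M c b, δ = a c b:
x_1 = a, x_2 = b, x_{i+1} = x_i⁻¹ a b (period m), y_1 = c, y_2 = b, y_{j+1} = y_j⁻¹ c b (period n); then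
c x_i x_{i+1} = δ = a y_j y_{j+1} for all i, j, and x_3 = δ⁻¹aδ, y_3 = δ⁻¹cδ, x_4 = δ⁻¹y_nδ, y_4 = δ⁻¹x_mδ.
Codes: x_i has code i (i = 1, 2, i ≥ 5), y_j has code -j (j = 1, j ≥ 5). `LT m n s k t l u r` means
s δ^k t δ^l u δ^r = 1 is one of the relators.
-/

set_option autoImplicit false

namespace BA

/-! ## Artin groups -/

/-- alternating product s t s ... with n factors -/
def altWord {G : Type*} [Group G] (s t : G) : ℕ → G
  | 0 => 1
  | n + 1 => s * altWord t s n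

/-- the relations of the Artin group of a Coxeter matrix (label 0 = no edge) -/
def artinRels {V : Type} (M : CoxeterMatrix V) : Set (FreeGroup V) :=
  {r | ∃ s t : V, r = altWord (FreeGroup.of s) (FreeGroup.of t) (M s t) *
    (altWord (FreeGroup.of t) (FreeGroup.of s) (M s t))⁻¹}

/-- the Artin group -/
abbrev ArtinGroup {V : Type} (M : CoxeterMatrix V) : Type := PresentedGroup (artinRels M)

/-- good orientations: `arr s t` means s → t; edges with label 2 go in both directions -/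
structure Good {V : Type} (M : CoxeterMatrix V) (arr : V → V → Prop) : Prop where
  adj : ∀ s t, arr s t → 2 ≤ M s t
  two : ∀ s t, M s t = 2 → arr s t
  tot : ∀ s t, 3 ≤ M s t → arr s t ∨ arr t s
  asym : ∀ s t, 3 ≤ M s t → ¬ (arr s t ∧ arr t s)
  cyc : ∀ a b c, 3 ≤ M a b → 3 ≤ M b c → 3 ≤ M c a → arr a b → arr b c
  sink : ∀ a b c, M a c = 2 → 2 ≤ M a b → 2 ≤ M c b →
    arr a b ∧ arr c b ∧ 2 * (M a b + M c b) < M a b * M c b
  alt : ∀ a b u v, arr a u → arr a v → arr b u → arr b v → a = b ∨ u = v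

/-! ## local tables -/

/-- valid codes of the triangle piece with labels m, n (not counting the generators 1, 2, -1) -/
def CT (m n : ℕ) (z : ℤ) : Prop :=
  (5 ≤ z ∧ z ≤ m) ∨ (-(n : ℤ) ≤ z ∧ z ≤ -5 ∧ (m = 3 → -(n : ℤ) + 2 ≤ z))

/-- valid codes of the edge piece (not counting the generators 1, 2) -/
def CE (m : ℕ) (z : ℤ) : Prop := z = 0 ∨ (3 ≤ z ∧ z ≤ m)

/-- base relators, m ≥ 5, n ≥ 5 -/
def base5 (m n : ℤ) (s k t l u r : ℤ) : Prop :=
  (s = 1 ∧ k = 0 ∧ t = -1 ∧ l = 0 ∧ u = 2 ∧ r = -1) ∨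
  (s = -1 ∧ k = 0 ∧ t = 1 ∧ l = 0 ∧ u = 2 ∧ r = -1) ∨
  (s = -1 ∧ k = -1 ∧ t = 1 ∧ l = 0 ∧ u = -n ∧ r = 0) ∨
  (s = -1 ∧ k = -1 ∧ t = -n ∧ l = 1 ∧ u = 5 ∧ r = -1) ∨
  (s = -1 ∧ k = 0 ∧ 5 ≤ t ∧ t < m ∧ l = 0 ∧ u = t + 1 ∧ r = -1) ∨
  (s = -1 ∧ k = 0 ∧ t = m ∧ l = 0 ∧ u = 1 ∧ r = -1) ∨
  (s = 1 ∧ k = -1 ∧ t = m ∧ l = 1 ∧ u = -5 ∧ r = -1) ∨
  (s = 1 ∧ k = 0 ∧ -n < t ∧ t ≤ -5 ∧ l = 0 ∧ u = t - 1 ∧ r = -1)

/-- base relators, m = 4, n ≥ 5 (x_4 = δ⁻¹y_nδ, y_4 = δ⁻²y_nδ²) -/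
def base4 (n : ℤ) (s k t l u r : ℤ) : Prop :=
  (s = 1 ∧ k = 0 ∧ t = -1 ∧ l = 0 ∧ u = 2 ∧ r = -1) ∨
  (s = -1 ∧ k = 0 ∧ t = 1 ∧ l = 0 ∧ u = 2 ∧ r = -1) ∨
  (s = -1 ∧ k = -1 ∧ t = 1 ∧ l = 0 ∧ u = -n ∧ r = 0) ∨
  (s = -1 ∧ k = -1 ∧ t = -n ∧ l = 1 ∧ u = 1 ∧ r = -1) ∨
  (s = 1 ∧ k = -2 ∧ t = -n ∧ l = 2 ∧ u = -5 ∧ r = -1) ∨
  (s = 1 ∧ k = 0 ∧ -n < t ∧ t ≤ -5 ∧ l = 0 ∧ u = t - 1 ∧ r = -1)

/-- base relators, m = 3, n ≥ 7 (y_4 = δ⁻²aδ², y_n = δaδ⁻¹, y_{n-1} = δ²y_5δ⁻²) -/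
def base3 (n : ℤ) (s k t l u r : ℤ) : Prop :=
  (s = 1 ∧ k = 0 ∧ t = -1 ∧ l = 0 ∧ u = 2 ∧ r = -1) ∨
  (s = -1 ∧ k = 0 ∧ t = 1 ∧ l = 0 ∧ u = 2 ∧ r = -1) ∨
  (s = -1 ∧ k = -1 ∧ t = 1 ∧ l = 1 ∧ u = 1 ∧ r = -1) ∨
  (s = 1 ∧ k = -2 ∧ t = 1 ∧ l = 2 ∧ u = -5 ∧ r = -1) ∨
  (s = 1 ∧ k = 0 ∧ t = -n + 2 ∧ l = 2 ∧ u = -5 ∧ r = -3) ∨
  (s = 1 ∧ k = 0 ∧ -n + 2 < t ∧ t ≤ -5 ∧ l = 0 ∧ u = t - 1 ∧ r = -1)

/-- base relators for the labels m, n -/
def baseT (m n : ℕ) (s k t l u r : ℤ) : Prop :=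
  (m = 3 ∧ base3 n s k t l u r) ∨ (m = 4 ∧ base4 n s k t l u r) ∨ (5 ≤ m ∧ base5 m n s k t l u r)

/-- all relators of the triangle piece: rotations of the base relators -/
def LT (m n : ℕ) (s k t l u r : ℤ) : Prop :=
  baseT m n s k t l u r ∨ baseT m n t l u r s k ∨ baseT m n u r s k t l

/-- base relators x_i x_{i+1} P = 1 of the edge piece; P has code 0 -/
def baseE (m : ℤ) (s t u : ℤ) : Prop :=
  (1 ≤ s ∧ s < m ∧ t = s + 1 ∧ u = 0) ∨ (s = m ∧ t = 1 ∧ u = 0)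

/-- all relators of the edge piece (all labels are trivial) -/
def LE (m : ℕ) (s t u : ℤ) : Prop := baseE m s t u ∨ baseE m t u s ∨ baseE m u s t

/-- admissible labels of a triangle piece -/
def OKT (m n : ℕ) : Prop := (m = 3 ∧ 7 ≤ n) ∨ (m = 4 ∧ 5 ≤ n) ∨ (5 ≤ m ∧ 5 ≤ n)

/-- LF (100): the tables are functional. Linear integer arithmetic (omega after rcases; kill impossible combinations
early). -/
def SpecLF : Prop :=
  (∀ m n : ℕ, OKT m n → ∀ s k t l u r l' u' r' : ℤ, LT m n s k t l u r → LT m n s k t l' u' r' →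
    l = l' ∧ u = u' ∧ r = r') ∧
  (∀ m : ℕ, 2 ≤ m → ∀ s t u u' : ℤ, LE m s t u → LE m s t u' → u = u')

/-- LK3 (150): K22 for m = 3. Linear integer arithmetic. Suggestion: first a lemma giving for LT the list of the
possible (s,k,t) (each base relator has three rotations), then split on s, s' and use omega as early as possible. -/
def SpecLK3 : Prop :=
  ∀ n : ℕ, 7 ≤ n → ∀ s s' t t' k k' j j' : ℤ,
    (∃ l u r, LT 3 n s k t l u r) → (∃ l u r, LT 3 n s k' t' l u r) →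
    (∃ l u r, LT 3 n s' j t l u r) → (∃ l u r, LT 3 n s' j' t' l u r) →
    -k + k' = -j + j' → (s = s' ∧ k = j) ∨ (t = t' ∧ k = k')

/-- LK4 (150): K22 for m = 4. -/
def SpecLK4 : Prop :=
  ∀ n : ℕ, 5 ≤ n → ∀ s s' t t' k k' j j' : ℤ,
    (∃ l u r, LT 4 n s k t l u r) → (∃ l u r, LT 4 n s k' t' l u r) →
    (∃ l u r, LT 4 n s' j t l u r) → (∃ l u r, LT 4 n s' j' t' l u r) →
    -k + k' = -j + j' → (s = s' ∧ k = j) ∨ (t = t' ∧ k = k')

/-- LK5 (150): K22 for m, n ≥ 5. -/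
def SpecLK5 : Prop :=
  ∀ m n : ℕ, 5 ≤ m → 5 ≤ n → ∀ s s' t t' k k' j j' : ℤ,
    (∃ l u r, LT m n s k t l u r) → (∃ l u r, LT m n s k' t' l u r) →
    (∃ l u r, LT m n s' j t l u r) → (∃ l u r, LT m n s' j' t' l u r) →
    -k + k' = -j + j' → (s = s' ∧ k = j) ∨ (t = t' ∧ k = k')

/-- LX (100): K22 for edges; valid codes; arrows between generators; self-arrows; finiteness. omega. -/
def SpecLX : Prop :=
  (∀ m : ℕ, 2 ≤ m → ∀ s s' t t' : ℤ, (∃ u, LE m s t u) → (∃ u, LE m s t' u) → (∃ u, LE m s' t u) →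
    (∃ u, LE m s' t' u) → s = s' ∨ t = t') ∧
  (∀ m : ℕ, 2 ≤ m → ∀ s t u : ℤ, LE m s t u → (s = 1 ∨ s = 2 ∨ CE m s) ∧ s ≠ t ∧
    (s = 2 → t = 1 → m = 2)) ∧
  (∀ m n : ℕ, OKT m n → ∀ s k t l u r : ℤ, LT m n s k t l u r →
    (s = 1 ∨ s = 2 ∨ s = -1 ∨ CT m n s) ∧
    (s = t → (s = 1 ∨ s = 2 ∨ s = -1) → s = 1 ∧ (k = 1 ∨ k = -2)) ∧
    (k = 0 → (s = 1 ∨ s = 2 ∨ s = -1) → (t = 1 ∨ t = 2 ∨ t = -1) →
      (s = 1 ∧ t = -1) ∨ (s = -1 ∧ t = 1) ∨ (s = 1 ∧ t = 2) ∨ (s = -1 ∧ t = 2))) ∧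
  (∀ m n : ℕ, OKT m n → {p : ℤ × ℤ × ℤ | ∃ l u r, LT m n p.1 p.2.1 p.2.2 l u r}.Finite) ∧
  (∀ m : ℕ, {p : ℤ × ℤ | ∃ u, LE m p.1 p.2 u}.Finite)

/-! ## group relations -/

/-- x_{i+1}: xq 0 = a, xq 1 = b, xq (i+1) = (xq i)⁻¹ a b -/
def xq {H : Type*} [Group H] (a b : H) : ℕ → H
  | 0 => a
  | i + 1 => (xq a b i)⁻¹ * (a * b)

/-- the element with code z in a triangle piece -/
def stdT {H : Type*} [Group H] (a b c : H) (z : ℤ) : H :=
  if 0 ≤ z then xq a b (z - 1).toNat else xq c b (-z - 1).toNat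

/-- the element with code z in an edge piece -/
def stdE {H : Type*} [Group H] (a b : H) (z : ℤ) : H :=
  if z = 0 then (a * b)⁻¹ else xq a b (z - 1).toNat

/-- ALT (60): the Artin relation is the periodicity of the sequence. xq (i+2) = (ab)⁻¹ xq i (ab); m even = 2k:
xq (2k) = (ab)^-k a (ab)^k; m odd = 2k+1: xq (2k+1) = (ab)^-k b (ab)^k. Also xq 1 = b. -/
def SpecALT : Prop :=
  ∀ {H : Type} [Group H] (a b : H), xq a b 1 = b ∧
    (∀ i : ℕ, xq a b (i + 2) = (a * b)⁻¹ * xq a b i * (a * b)) ∧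
    ∀ m : ℕ, altWord a b m = altWord b a m ↔ xq a b m = a

/-- RTF (150): the relators of a triangle piece imply the Artin relations, δ = a c b, and determine all elements
(uses ALT). c x_i x_{i+1} = δ and c⁻¹δ = ab (from c a b = δ) give x_{i+1} = x_i⁻¹ a b along the table
(x_3 = δ⁻¹aδ: from a c b = δ; x_4 = δ⁻¹ X(-n) δ, ...), the last relator gives x_{m+1} = x_1; same for y. -/
def SpecRTF : Prop :=
  ∀ {H : Type} [Group H] (m n : ℕ), OKT m n → ∀ (X : ℤ → H) (d : H),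
    (∀ s k t l u r : ℤ, LT m n s k t l u r → X s * d ^ k * X t * d ^ l * X u * d ^ r = 1) →
    d = X 1 * X (-1) * X 2 ∧ X 1 * X (-1) = X (-1) * X 1 ∧
    altWord (X 1) (X 2) m = altWord (X 2) (X 1) m ∧
    altWord (X (-1)) (X 2) n = altWord (X 2) (X (-1)) n ∧
    ∀ z : ℤ, CT m n z → X z = stdT (X 1) (X 2) (X (-1)) z

/-- RTC (200): conversely the Artin relations imply all relators of a triangle piece (uses ALT). With p = ab, q = cb,
d = acb = cp = aq: c x_i x_{i+1} = d, a y_j y_{j+1} = d always; x_3 = p⁻¹ap = d⁻¹ad; y_3 = d⁻¹cd;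
x_4 = p⁻¹bp = d⁻¹y_nd with y_n = qbq⁻¹ (period n): q⁻¹aq = b⁻¹ab; symmetric y_4 = d⁻¹x_md. m = 4: x_m = x_4 = d⁻¹y_nd.
m = 3: x_3 = x_m: y_4 = d⁻²ad²; x_4 = x_1: y_n = dad⁻¹; y_{n-1} = q y_n⁻¹ and y_5 = y_4⁻¹q: y_{n-1} = d²y_5d⁻². -/
def SpecRTC : Prop :=
  ∀ {H : Type} [Group H] (m n : ℕ), OKT m n → ∀ a b c : H, a * c = c * a →
    altWord a b m = altWord b a m → altWord c b n = altWord b c n →
    ∀ s k t l u r : ℤ, LT m n s k t l u r →
      stdT a b c s * (a * c * b) ^ k * stdT a b c t * (a * c * b) ^ l * stdT a b c u * (a * c * b) ^ r = 1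

/-- REF (100): edge pieces, both directions (uses ALT). -/
def SpecREF : Prop :=
  ∀ {H : Type} [Group H] (m : ℕ), 2 ≤ m →
    (∀ X : ℤ → H, (∀ s t u : ℤ, LE m s t u → X s * X t * X u = 1) →
      altWord (X 1) (X 2) m = altWord (X 2) (X 1) m ∧ ∀ z : ℤ, CE m z → X z = stdE (X 1) (X 2) z) ∧
    (∀ a b : H, altWord a b m = altWord b a m →
      ∀ s t u : ℤ, LE m s t u → stdE a b s * stdE a b t * stdE a b u = 1)

/-! ## gluing -/

/-- a family of pieces with symbols X and labels φ_p^k in F -/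
structure Fam (P X F : Type) [Group F] where
  gen : X → Prop
  mem : P → X → Prop
  tri : P → X → ℤ → X → ℤ → X → ℤ → Prop
  phi : P → F
  ex : P → F →* Multiplicative ℤ
  ex_ne : ∀ p q, p ≠ q → ex p (phi q) = 1
  ex_eq : ∀ p, (∀ x k y l z r, tri p x k y l z r → k = 0) ∨ ex p (phi p) = Multiplicative.ofAdd 1
  memD : ∀ p x k y l z r, tri p x k y l z r → mem p x ∧ mem p y
  rot : ∀ p x k y l z r, tri p x k y l z r → tri p y l z r x k
  fn : ∀ p x k y l z r l' z' r', tri p x k y l z r → tri p x k y l' z' r' → l = l' ∧ z = z' ∧ r = r'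
  k22 : ∀ p x x' y y' k k' j j', (∃ l z r, tri p x k y l z r) → (∃ l z r, tri p x k' y' l z r) →
    (∃ l z r, tri p x' j y l z r) → (∃ l z r, tri p x' j' y' l z r) → -k + k' = -j + j' →
    (x = x' ∧ k = j) ∨ (y = y' ∧ k = k')
  sh1 : ∀ p q x, p ≠ q → mem p x → mem q x → gen x
  sh2 : ∀ p q x y, p ≠ q → mem p x → mem q x → mem p y → mem q y → x = y
  self0 : ∀ p x l z r, gen x → ¬ tri p x 0 x l z r
  selfk : ∀ p q x k j, gen x → (∃ l z r, tri p x k x l z r) → (∃ l z r, tri q x j x l z r) → k + j ≠ 0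
  tria : ∀ p q r x y z, p ≠ q → q ≠ r → p ≠ r → gen x → gen y → gen z → mem p x → mem p y → x ≠ y →
    (∃ l u h, tri q z 0 y l u h) → (∃ l u h, tri r z 0 x l u h) → False
  trib : ∀ p q r x y z, p ≠ q → q ≠ r → p ≠ r → gen x → gen y → gen z → mem p x → mem p y → x ≠ y →
    (∃ l u h, tri q y 0 z l u h) → (∃ l u h, tri r x 0 z l u h) → False
  four : ∀ p11 p12 p21 p22 x x' y y', gen x → gen x' → gen y → gen y' →
    (∃ l u h, tri p11 x 0 y l u h) → (∃ l u h, tri p12 x 0 y' l u h) →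
    (∃ l u h, tri p21 x' 0 y l u h) → (∃ l u h, tri p22 x' 0 y' l u h) → x = x' ∨ y = y'

/-- the glued relators -/
def Fam.UT {P X F : Type} [Group F] (A : Fam P X F) (x : X) (f : F) (y : X) (g : F) (z : X) (h : F) : Prop :=
  ∃ (p : P) (k l r : ℤ), A.tri p x k y l z r ∧ f = A.phi p ^ k ∧ g = A.phi p ^ l ∧ h = A.phi p ^ r

/-- GL (250): THE GLUING LEMMA. fn: if x f y has labels in the pieces p ≠ q then x = y by sh2, gen x, f = φ_p^k = φ_q^j; ex p and
ex q give k = j = 0 (or the labels are 0), against self0. So p = q; then k is determined (ex, or all labels 0) and local fn.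
k22: four relations in the pieces p11 (x,y), p12 (x,y'), p21 (x',y), p22 (x',y') with exponents k, k', j, j' and
f⁻¹f' = g⁻¹g'. Apply ex p for the occurring p (pieces without ex have all exponents 0). Partitions:
all equal: local k22. Three equal to p, one q: its end points lie in p and q, so they are equal (sh2) and gen, its
exponent is 0 by ex q: self0. (p11 = p12) ≠ (p21 = p22): y, y' in both, y = y', and ex: k = k'. (p11 = p21) ≠ (p12 = p22):
x = x', k = j. (p11 = p22) ≠ (p12 = p21): all four symbols are in both, hence equal; k' + j = 0 by ex: selfk.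
p11 = p12 = p, p21 = q, p22 = r different: j = 0, j' = 0, k = k'; x' in q and r, y in p and q, y' in p and r: all gen; y = y' or
tria. p21 = p22: same with x, x' exchanged. p11 = p21 = p, p12 = q, p22 = r: trib (or x = x', k = j); p12 = p22: same.
p11 = p22 = p, p12 = q, p21 = r: x and y' in p and q: equal, k' = 0: self0; p12 = p21: same. All different: all exponents 0, all
symbols gen: four. -/
def SpecGL : Prop :=
  ∀ {P X F : Type} [Group F] (A : Fam P X F),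
    (∀ x f y g z h g' z' h', A.UT x f y g z h → A.UT x f y g' z' h' → g = g' ∧ z = z' ∧ h = h') ∧
    (∀ x x' y y' f f' g g', (∃ a z b, A.UT x f y a z b) → (∃ a z b, A.UT x f' y' a z b) →
      (∃ a z b, A.UT x' g y a z b) → (∃ a z b, A.UT x' g' y' a z b) → f⁻¹ * f' = g⁻¹ * g' →
      (x = x' ∧ f = g) ∨ (y = y' ∧ f = f'))

/-! ## the system of a graph -/

section graph

variable {V : Type} [LinearOrder V] (M : CoxeterMatrix V) (arr : V → V → Prop)

/-- triangles (a,b,c) with M a c = 2, ordered such that M a b ≤ M c b -/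
def IsT (a b c : V) : Prop :=
  M a c = 2 ∧ 2 ≤ M a b ∧ 2 ≤ M c b ∧ (M a b < M c b ∨ (M a b = M c b ∧ a < c))

/-- edges (s,t) which lie in no triangle with a label 2 -/
def IsE (s t : V) : Prop :=
  arr s t ∧ (M s t = 2 → s < t) ∧
    ¬ ∃ u, 2 ≤ M s u ∧ 2 ≤ M t u ∧ (M s t = 2 ∨ M s u = 2 ∨ M t u = 2)

/-- triangle pieces -/
def TT : Type := {x : V × V × V // IsT M x.1 x.2.1 x.2.2}

/-- edge pieces -/
def EE : Type := {x : V × V // IsE M arr x.1 x.2}

/-- symbols -/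
inductive Sym : Type
  | gen (v : V) : Sym
  | e (p : EE M arr) (z : ℤ) (h : CE (M p.1.1 p.1.2) z) : Sym
  | t (p : TT M) (z : ℤ) (h : CT (M p.1.1 p.1.2.1) (M p.1.2.2 p.1.2.1) z) : Sym

/-- the symbol of a code in a triangle piece -/
inductive RepT (p : TT M) : ℤ → Sym M arr → Prop
  | a : RepT p 1 (Sym.gen p.1.1)
  | b : RepT p 2 (Sym.gen p.1.2.1)
  | c : RepT p (-1) (Sym.gen p.1.2.2)
  | x (z : ℤ) (h : CT (M p.1.1 p.1.2.1) (M p.1.2.2 p.1.2.1) z) : RepT p z (Sym.t p z h)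

/-- the symbol of a code in an edge piece -/
inductive RepE (p : EE M arr) : ℤ → Sym M arr → Prop
  | a : RepE p 1 (Sym.gen p.1.1)
  | b : RepE p 2 (Sym.gen p.1.2)
  | x (z : ℤ) (h : CE (M p.1.1 p.1.2) z) : RepE p z (Sym.e p z h)

/-- all relators -/
inductive UTri : Sym M arr → FreeGroup (TT M) → Sym M arr → FreeGroup (TT M) → Sym M arr →
    FreeGroup (TT M) → Prop
  | t (p : TT M) (s k t l u r : ℤ) (x y z : Sym M arr)
      (h : LT (M p.1.1 p.1.2.1) (M p.1.2.2 p.1.2.1) s k t l u r)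
      (hx : RepT M arr p s x) (hy : RepT M arr p t y) (hz : RepT M arr p u z) :
      UTri x (FreeGroup.of p ^ k) y (FreeGroup.of p ^ l) z (FreeGroup.of p ^ r)
  | e (p : EE M arr) (s t u : ℤ) (x y z : Sym M arr)
      (h : LE (M p.1.1 p.1.2) s t u)
      (hx : RepE M arr p s x) (hy : RepE M arr p t y) (hz : RepE M arr p u z) :
      UTri x 1 y 1 z 1

end graph

/-- SYS (300): the relators of the graph form a TSys (uses LF, LK3, LK4, LK5, LX, GL). P := TT M ⊕ EE M arr, phi (inl p) =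
of p, phi (inr e) = 1, ex (inl p) = exponent of p (FreeGroup.lift), ex (inr e) = 1; mem p x := x is the symbol of a code of p;
gen x := x = Sym.gen v. Facts from Good: for (a,b,c) in TT: OKT (M a b) (M c b) (from sink: 2(m+n) < mn, m ≤ n, nlinarith /
interval_cases). sh2: two different pieces have at most one common vertex: an edge piece is not contained in a
triangle with a label 2; two triangles (a,b,c), (a',b',c') of TT with two common vertices: common a,c: then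
arr a b, arr a b', arr c b, arr c b': b = b' by alt (and the ordering makes the triples equal); common edge with label ≥ 3,
e.g. a b = a' b' (a → b, so the sink is the same): M a c = 2 = M a c': arr c a, arr c b, arr c' a, arr c' b: c = c' by alt; the
cases where the shared edge is c b etc. are the same; the roles cannot be reversed by asym. four: arrows with exponent 0 between
generators are arrows arr (LX), then alt. tria, trib: x ≠ y both in the piece p, z adjacent to both by other pieces q, r: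
the triangle x,y,z has no label 2 (else its three edges would be in ONE piece), so it is cyclic: arr z y and arr z x
contradict cyc and asym (z → y → x → z); same for arr y z, arr x z. self0, selfk: LX. -/
def SpecSYS : Prop :=
  ∀ {V : Type} [Fintype V] [LinearOrder V] (M : CoxeterMatrix V) (arr : V → V → Prop), Good M arr →
    ∃ S : TSys (FreeGroup (TT M)) (Sym M arr), S.tri = UTri M arr

/-- FIN (40): finiteness. -/
def SpecFIN : Prop :=
  ∀ {V : Type} [Fintype V] [LinearOrder V] (M : CoxeterMatrix V) (arr : V → V → Prop),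
    Finite (TT M) ∧ Finite (Sym M arr)

/-- MOD (200): the Artin group is a model (uses RTF, RTC, REF). io (of (a,b,c)) = a c b; ev (gen v) = v, ev (t p z) = stdT a b c z,
ev (e p z) = stdE s t z (stdT a b c 1 = a, stdT .. 2 = b, stdT .. (-1) = c, stdE s t 1 = s, stdE s t 2 = t, so the symbol of a
code has the value std of the code). rel: RTC, REF with the Artin relations of ArtinGroup M (PresentedGroup), gen: the
generators. univ: given κ, w in H with the relations, define Φ by v ↦ w (gen v); Artin relations: every pair s ≠ t with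
M s t ≥ 2 is an edge of a triangle piece or an edge piece (up to exchange of s and t): RTF, REF (X z := w of the symbol with
code z, 1 if there is none); M s t = 0, 1 trivial. Φ (ev x) = w x and Φ (io (of p)) = κ (of p) by the formulas in RTF, REF (Good is
used for the orientation: arr or reversed arr for each edge, and OKT). -/
def SpecMOD : Prop :=
  ∀ {V : Type} [Fintype V] [LinearOrder V] (M : CoxeterMatrix V) (arr : V → V → Prop), Good M arr →
    ∀ S : TSys (FreeGroup (TT M)) (Sym M arr), S.tri = UTri M arr → Nonempty (S.Model (ArtinGroup M))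

/-- C4 (150): graphs without 4-cycles have good orientations. arr s t: M s t = 2; or M s t ≥ 3 and: if some u is
adjacent to both with M s u = 2: true; with M t u = 2: false; else if some u is adjacent to both (unique): s < t < u or
t < u < s or u < s < t; else s < t. -/
def SpecC4 : Prop :=
  ∀ {V : Type} [LinearOrder V] (M : CoxeterMatrix V),
    (∀ a b u v, a ≠ b → u ≠ v → 2 ≤ M a u → 2 ≤ M a v → 2 ≤ M b u → 2 ≤ M b v → False) →
    (∀ a b c, M a c = 2 → 2 ≤ M a b → 2 ≤ M c b → 2 * (M a b + M c b) < M a b * M c b) →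
    ∃ arr : V → V → Prop, Good M arr

end BA
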